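import Pool.Agent.Helper22.Slip.Defs

/-!
# C1: approximants
-/

namespace Pool.Agent.Helper22.Slip

open Pool.Agent.Helper76.Slip (G rot T)
open Filter Set

/-! ### Good one-sided approximations -/

namespace C1aux

/-- A positive lower bound for all positive values `p - j * c` with `0 ≤ j < Q`. -/
theorem exists_gap (c : ℝ) (Q : ℕ) :
    ∃ δ : ℝ, 0 < δ ∧ ∀ (q : ℕ) (p : ℤ), q < Q → 0 < (p : ℝ) - q * c → δ ≤ (p : ℝ) - q * c := by
  induction Q with
  | zero => exact ⟨1, one_pos, fun q p h => absurd h (Nat.not_lt_zero q)⟩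
  | succ Q ih =>
    obtain ⟨δ, hδ, h⟩ := ih
    have hpos : 0 < ((⌊(Q : ℝ) * c⌋ : ℝ) + 1 - Q * c) := by
      have := Int.lt_floor_add_one ((Q : ℝ) * c)
      linarith
    refine ⟨min δ ((⌊(Q : ℝ) * c⌋ : ℝ) + 1 - Q * c), lt_min hδ hpos, ?_⟩
    intro q p hq hp
    rcases Nat.lt_succ_iff_lt_or_eq.mp hq with h1 | h1
    · exact (min_le_left _ _).trans (h q p h1 hp)
    · subst h1
      refine (min_le_right _ _).trans ?_
      have h2 : ⌊(q : ℝ) * c⌋ < p := by
        rw [Int.floor_lt]; linarith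
      have h3 : (⌊(q : ℝ) * c⌋ : ℝ) + 1 ≤ p := by exact_mod_cast h2
      linarith

/-- Bezout with a bounded coefficient: if `l` and `k > 0` are coprime there are `p`, `q` with
`p k - l q = 1` and `1 ≤ q ≤ k`. -/
theorem exists_bezout (l : ℤ) (k : ℕ) (hk : 0 < k) (h : Int.gcd l k = 1) :
    ∃ (q : ℕ) (p : ℤ), 0 < q ∧ q ≤ k ∧ p * k - l * q = 1 := by
  have hb := Int.gcd_eq_gcd_ab l k
  rw [h] at hb
  set x := Int.gcdA l k
  set y := Int.gcdB l k
  have hkz : (0 : ℤ) < k := by exact_mod_cast hk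
  -- `l x + k y = 1`; put `q = k - (x mod k)`, in `[1, k]`
  have h0 := Int.emod_nonneg x hkz.ne'
  have h1 := Int.emod_lt_of_pos x hkz
  have h2 := Int.emod_add_mul_ediv x k
  refine ⟨(k - x % k).toNat, y + l * (1 + x / k), ?_, ?_, ?_⟩
  · rw [Int.lt_toNat]; simpa using (by linarith : (0 : ℤ) < k - x % k)
  · rw [Int.toNat_le]; linarith
  · rw [Int.toNat_of_nonneg (by linarith)]
    have h3 : x % k = x - k * (x / k) := by linarith
    rw [h3]
    push_cast at hb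
    linear_combination -hb

/-- For irrational `c` there are arbitrarily large `q` and `p` coprime to `q` with
`0 < p - q c ≤ 1 / q`. -/
theorem exists_upper_approx (c : ℝ) (hc : Irrational c) (Q : ℕ) :
    ∃ (q : ℕ) (p : ℤ), Q ≤ q ∧ 0 < q ∧ Int.gcd p q = 1 ∧ 0 < (p : ℝ) - q * c ∧
      (q : ℝ) * ((p : ℝ) - q * c) ≤ 1 := by
  obtain ⟨δ, hδ, hgap⟩ := exists_gap c (max Q 1)
  obtain ⟨K, hK⟩ := exists_nat_gt (1 / δ)
  obtain ⟨δ', hδ', hgap'⟩ := exists_gap (-c) (K + 1)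
  obtain ⟨n, hn⟩ := exists_nat_gt (max (1 / δ) (1 / δ'))
  have hn0 : 0 < n := by
    rcases Nat.eq_zero_or_pos n with h | h
    · exfalso; rw [h] at hn
      have : (0 : ℝ) < 1 / δ := by positivity
      have := lt_of_le_of_lt (le_max_left (1 / δ) (1 / δ')) hn
      simp at this; linarith
    · exact h
  have hn1 : 1 / ((n : ℝ) + 1) < δ := by
    have h := lt_of_le_of_lt (le_max_left (1 / δ) (1 / δ')) hn
    rw [div_lt_iff₀ (by positivity)]
    rw [div_lt_iff₀ hδ] at h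
    nlinarith
  have hn2 : 1 / ((n : ℝ) + 1) < δ' := by
    have h := lt_of_le_of_lt (le_max_right (1 / δ) (1 / δ')) hn
    rw [div_lt_iff₀ (by positivity)]
    rw [div_lt_iff₀ hδ'] at h
    nlinarith
  obtain ⟨x, hx, hxn⟩ := Real.exists_rat_abs_sub_le_and_den_le c hn0
  have hden : (0 : ℝ) < x.den := by exact_mod_cast x.den_pos
  have hcop : Int.gcd x.num x.den = 1 := by
    rw [Int.gcd]; simpa using x.reduced
  have hxx : (x : ℝ) = x.num / x.den := Rat.cast_def x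
  have habs : |(x.den : ℝ) * c - x.num| ≤ 1 / ((n : ℝ) + 1) := by
    have h1 : (x.den : ℝ) * c - x.num = x.den * (c - x) := by
      rw [hxx]; field_simp
    rw [h1, abs_mul, abs_of_pos hden]
    calc (x.den : ℝ) * |c - x| ≤ x.den * (1 / (((n : ℝ) + 1) * x.den)) := by gcongr
      _ = 1 / ((n : ℝ) + 1) := by field_simp
  have hne : (x.den : ℝ) * c - x.num ≠ 0 := by
    intro h
    apply hc
    refine ⟨(x.num : ℚ) / x.den, ?_⟩
    push_cast
    field_simp
    linarith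
  have hxn' : (x.den : ℝ) ≤ n := by exact_mod_cast hxn
  have hn3 : (n : ℝ) * (1 / ((n : ℝ) + 1)) < 1 := by
    rw [mul_one_div, div_lt_one (by positivity)]; linarith
  rcases lt_or_gt_of_ne hne with hlt | hgt
  · -- the approximation is from above
    rw [abs_of_neg hlt] at habs
    refine ⟨x.den, x.num, ?_, x.den_pos, hcop, by linarith, ?_⟩
    · by_contra hcon
      have := hgap x.den x.num (lt_of_lt_of_le (not_le.mp hcon) (le_max_left _ _)) (by linarith)
      linarith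
    · have h5 : (x.num : ℝ) - x.den * c ≤ 1 / ((n : ℝ) + 1) := by linarith
      have h6 : (0 : ℝ) ≤ (x.num : ℝ) - x.den * c := by linarith
      calc (x.den : ℝ) * ((x.num : ℝ) - x.den * c) ≤ n * (1 / ((n : ℝ) + 1)) := by gcongr
        _ ≤ 1 := hn3.le
  · -- the approximation is from below: pass to the Farey neighbour above
    have hgt' : 0 < (x.den : ℝ) * c - x.num := hgt
    rw [abs_of_pos hgt'] at habs
    have hKden : K + 1 ≤ x.den := by
      by_contra hcon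
      have := hgap' x.den (-x.num) (not_le.mp hcon) (by push_cast; linarith)
      push_cast at this
      linarith
    obtain ⟨q, p, hq0, hqk, hpq⟩ := exists_bezout x.num x.den x.den_pos hcop
    have hpqR : (p : ℝ) * x.den - x.num * q = 1 := by exact_mod_cast hpq
    have hq0R : (0 : ℝ) < q := by exact_mod_cast hq0
    have hqkR : (q : ℝ) ≤ x.den := by exact_mod_cast hqk
    have hkey : (x.den : ℝ) * ((p : ℝ) - q * c) = 1 - q * ((x.den : ℝ) * c - x.num) := by
      linear_combination hpqR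
    have hsmall : (q : ℝ) * ((x.den : ℝ) * c - x.num) < 1 := by
      have h6 : (0 : ℝ) ≤ 1 / ((n : ℝ) + 1) := by positivity
      calc (q : ℝ) * ((x.den : ℝ) * c - x.num) ≤ n * (1 / ((n : ℝ) + 1)) := by
            have := hqkR.trans hxn'
            gcongr
        _ < 1 := hn3
    have hpos : 0 < (p : ℝ) - q * c := by
      have : 0 < (x.den : ℝ) * ((p : ℝ) - q * c) := by rw [hkey]; linarith
      exact (mul_pos_iff_of_pos_left hden).mp this
    have hle1 : (x.den : ℝ) * ((p : ℝ) - q * c) < 1 := by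
      rw [hkey]; nlinarith [mul_pos hq0R hgt']
    refine ⟨q, p, ?_, hq0, ?_, hpos, ?_⟩
    · by_contra hcon
      have h7 := hgap q p (lt_of_lt_of_le (not_le.mp hcon) (le_max_left _ _)) hpos
      have hK' : (K : ℝ) + 1 ≤ x.den := by exact_mod_cast hKden
      have h8 : 1 < δ * K := by
        rw [div_lt_iff₀ hδ] at hK; linarith
      nlinarith
    · have : IsCoprime p (q : ℤ) := ⟨x.den, -x.num, by linear_combination hpq⟩
      exact Int.isCoprime_iff_gcd_eq_one.mp this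
    · nlinarith

end C1aux

/-! ### C1: approximants -/

lemma exists_frame (c : ℝ) (hc : Irrational c) (Q : ℕ) : ∃ F : Frame c, Q ≤ F.q ∧ F.k0 = 0 := by
  obtain ⟨q, p, hQ, hq, hg, h1, h2⟩ := C1aux.exists_upper_approx c hc Q
  have hqz : (0 : ℤ) < q := by exact_mod_cast hq
  have hb := Int.gcd_eq_gcd_ab p q
  rw [hg] at hb
  refine ⟨⟨q, p, Int.gcdA p q % q, 0, hq, ?_, Int.emod_nonneg _ hqz.ne',
    Int.emod_lt_of_pos _ hqz, by linarith, h2⟩, hQ, rfl⟩
  refine ⟨-(Int.gcdB p q) - p * (Int.gcdA p q / q), ?_⟩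
  have h3 := Int.emod_add_mul_ediv (Int.gcdA p q) q
  push_cast at hb
  linear_combination p * h3 - hb

namespace Frame

variable {c : ℝ} (F : Frame c)

private lemma C1_qz : (0 : ℤ) < F.q := by exact_mod_cast F.q_pos

private lemma C1_qr : (0 : ℝ) < F.q := by exact_mod_cast F.q_pos

lemma k_nonneg (φ : ℝ) (b : ℤ) : 0 ≤ F.k φ b := Int.emod_nonneg _ F.C1_qz.ne'

lemma k_lt (φ : ℝ) (b : ℤ) : F.k φ b < F.q := Int.emod_lt_of_pos _ F.C1_qz

lemma τ_mem (φ : ℝ) (b : ℤ) : F.τ φ b ∈ Icc (0 : ℝ) 1 := by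
  have h0 : (0 : ℝ) ≤ F.k φ b := by exact_mod_cast F.k_nonneg φ b
  have h1 : (F.k φ b : ℝ) ≤ F.q := by exact_mod_cast (F.k_lt φ b).le
  exact ⟨div_nonneg h0 F.C1_qr.le, div_le_one_of_le₀ h1 F.C1_qr.le⟩

/-- `b ↦ k` and `k ↦ b` are inverse to each other. -/
lemma b_k (φ : ℝ) (b : ℤ) (hb : 2 * |b| < F.q) : F.b φ (F.k φ b) = b := by
  have hq := F.C1_qz
  obtain ⟨e, he⟩ := F.inv
  have h1 : (F.k0 + F.k φ b) * F.p - F.l φ + F.q / 2 = (b + F.q / 2) +
      F.q * (e * (F.l φ + b) - F.p * ((F.g * (F.l φ + b) - F.k0) / F.q)) := by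
    have h3 := Int.emod_add_mul_ediv (F.g * (F.l φ + b) - F.k0) F.q
    unfold k
    linear_combination F.p * h3 + (F.l φ + b) * he
  unfold Frame.b
  rw [h1, Int.add_mul_emod_self_left]
  have h4 := abs_lt.1 (show |b| < ((F.q : ℤ) + 1) / 2 by omega)
  rw [Int.emod_eq_of_lt (by omega) (by omega)]
  ring

lemma k_b (φ : ℝ) (k : ℤ) (h0 : 0 ≤ k) (h1 : k < F.q) : F.k φ (F.b φ k) = k := by
  have hq := F.C1_qz
  obtain ⟨e, he⟩ := F.inv
  have h3 := Int.emod_add_mul_ediv ((F.k0 + k) * F.p - F.l φ + F.q / 2) F.q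
  unfold Frame.k Frame.b
  have h2 : F.g * (F.l φ + (((F.k0 + k) * F.p - F.l φ + F.q / 2) % F.q - F.q / 2)) - F.k0 =
      k + F.q * (e * (F.k0 + k) -
        F.g * (((F.k0 + k) * F.p - F.l φ + F.q / 2) / F.q)) := by
    linear_combination F.g * h3 + (F.k0 + k) * he
  rw [h2, Int.add_mul_emod_self_left, Int.emod_eq_of_lt h0 h1]

/-- The basic relation between the times of the visits of one stage. -/
lemma τ_sub (φ : ℝ) (b b' : ℤ) : ∃ z : ℤ, F.τ φ b - F.τ φ b' - F.γ * (b - b') = z := by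
  have hq := F.C1_qr.ne'
  refine ⟨(F.g * (F.l φ + b') - F.k0) / F.q - (F.g * (F.l φ + b) - F.k0) / F.q, ?_⟩
  have h1 := Int.emod_add_mul_ediv (F.g * (F.l φ + b) - F.k0) F.q
  have h2 := Int.emod_add_mul_ediv (F.g * (F.l φ + b') - F.k0) F.q
  have h1' : (F.k φ b : ℝ) + F.q * (((F.g * (F.l φ + b) - F.k0) / F.q : ℤ) : ℝ) =
      F.g * (F.l φ + b) - F.k0 := by
    unfold k
    exact_mod_cast h1
  have h2' : (F.k φ b' : ℝ) + F.q * (((F.g * (F.l φ + b') - F.k0) / F.q : ℤ) : ℝ) =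
      F.g * (F.l φ + b') - F.k0 := by
    unfold k
    exact_mod_cast h2
  unfold τ γ
  rw [Int.cast_sub]
  field_simp
  linear_combination h1' - h2'

lemma θ_mem : F.θ ∈ Ioc (0 : ℝ) 1 :=
  ⟨mul_pos F.C1_qr (by linarith [F.lower]), F.upper⟩

lemma γ_mem : F.γ ∈ Icc (0 : ℝ) 1 := by
  have h0 : (0 : ℝ) ≤ F.g := by exact_mod_cast F.g_nonneg
  have h1 : (F.g : ℝ) ≤ F.q := by exact_mod_cast F.g_lt.le
  exact ⟨div_nonneg h0 F.C1_qr.le, div_le_one_of_le₀ h1 F.C1_qr.le⟩

/-- The phase at a visit: the position relation. -/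
lemma pos (φ : ℝ) (k : ℤ) : ∃ z : ℤ, (F.q : ℝ) * ((F.k0 * F.p : ℝ) / F.q + k * c - φ) =
    F.b φ k - F.h φ - F.θ * (k / F.q) + F.q * z := by
  have hq := F.C1_qr.ne'
  refine ⟨((F.k0 + k) * F.p - F.l φ + F.q / 2) / F.q, ?_⟩
  have h3 := Int.emod_add_mul_ediv ((F.k0 + k) * F.p - F.l φ + F.q / 2) F.q
  have h4 : (F.b φ k : ℝ) + F.q * ((((F.k0 + k) * F.p - F.l φ + F.q / 2) / F.q : ℤ) : ℝ) =
      (F.k0 + k) * F.p - F.l φ := by
    have h5 : F.b φ k + F.q * (((F.k0 + k) * F.p - F.l φ + F.q / 2) / F.q) =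
        (F.k0 + k) * F.p - F.l φ := by
      unfold Frame.b
      linear_combination h3
    exact_mod_cast h5
  have h5 : (F.l φ : ℝ) + F.h φ = F.q * φ := Int.floor_add_fract _
  have h6 : F.θ * (k / F.q) = k * (F.p - F.q * c) := by
    unfold θ
    field_simp
  rw [h6]
  have h7 : (F.q : ℝ) * ((F.k0 * F.p : ℝ) / F.q + k * c - φ) =
      F.k0 * F.p + F.q * k * c - F.q * φ := by
    field_simp
  rw [h7]
  linear_combination -h4 + h5

end Frame

end Pool.Agent.Helper22.Slip
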