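import Pool.Agent.Helper22.Slip.CoreDefs

/-!
# C2: the flow bump and the gates
-/

namespace Pool.Agent.Helper22.Slip

open Pool.Agent.Helper76.Slip (G rot T)
open Filter Set

/-! ### C2: the coordinates -/

private lemma c2_abs_cI_lt (u : ℝ) : |cI u| < 1 := by
  unfold cI
  have h : 0 < 1 + |u| := by positivity
  rw [abs_div, abs_of_pos h, div_lt_one h]
  linarith

private lemma c2_cI_cF {x : ℝ} (h : |x| < 1) : cI (cF x) = x := by
  unfold cI cF
  have h1 : 0 < 1 - |x| := by linarith
  rw [abs_div, abs_of_pos h1]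
  field_simp
  ring

private lemma c2_cF_cI (u : ℝ) : cF (cI u) = u := by
  unfold cI cF
  have h : 0 < 1 + |u| := by positivity
  rw [abs_div, abs_of_pos h]
  field_simp
  ring

private lemma c2_cI_of_nonneg {u : ℝ} (h : 0 ≤ u) : cI u = u / (1 + u) := by
  unfold cI; rw [abs_of_nonneg h]

private lemma c2_cI_of_nonpos {u : ℝ} (h : u ≤ 0) : cI u = u / (1 - u) := by
  unfold cI; rw [abs_of_nonpos h]; ring_nf

private lemma c2_cI_diff {u v : ℝ} (h : 0 ≤ u ∧ 0 ≤ v ∨ u ≤ 0 ∧ v ≤ 0) :
    cI v - cI u = (v - u) / ((1 + |u|) * (1 + |v|)) := by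
  rcases h with ⟨h1, h2⟩ | ⟨h1, h2⟩
  · rw [c2_cI_of_nonneg h1, c2_cI_of_nonneg h2, abs_of_nonneg h1, abs_of_nonneg h2]
    have a1 : 1 + u ≠ 0 := by positivity
    have a2 : 1 + v ≠ 0 := by positivity
    field_simp
    ring
  · rw [c2_cI_of_nonpos h1, c2_cI_of_nonpos h2, abs_of_nonpos h1, abs_of_nonpos h2]
    have a1 : 1 - u ≠ 0 := by linarith
    have a2 : 1 - v ≠ 0 := by linarith
    have a3 : 1 + -u ≠ 0 := by linarith
    have a4 : 1 + -v ≠ 0 := by linarith
    field_simp
    ring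

private lemma c2_cI_strictMono : StrictMono cI := by
  have key : ∀ {u v : ℝ}, u < v → (0 ≤ u ∧ 0 ≤ v ∨ u ≤ 0 ∧ v ≤ 0) → cI u < cI v := by
    intro u v h hs
    have h1 := c2_cI_diff hs
    have : 0 < (v - u) / ((1 + |u|) * (1 + |v|)) := by
      apply div_pos (by linarith) (by positivity)
    linarith
  intro u v h
  rcases le_total 0 u with hu | hu
  · exact key h (Or.inl ⟨hu, by linarith⟩)
  · rcases le_total v 0 with hv | hv
    · exact key h (Or.inr ⟨hu, hv⟩)
    · rcases eq_or_lt_of_le hu with h0 | h0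
      · exact key h (Or.inl ⟨h0.ge, hv⟩)
      · have h1 := key h0 (Or.inr ⟨hu, le_rfl⟩)
        rcases eq_or_lt_of_le hv with h2 | h2
        · rw [← h2]; exact h1
        · exact h1.trans (key h2 (Or.inl ⟨le_rfl, hv⟩))

private lemma c2_cF_strictMono {x y : ℝ} (hx : |x| < 1) (hy : |y| < 1) (h : x < y) :
    cF x < cF y := by
  by_contra hc
  have := c2_cI_strictMono.monotone (not_lt.1 hc)
  rw [c2_cI_cF hx, c2_cI_cF hy] at this
  linarith

/-- the Lipschitz estimate in the coordinate, no sign change -/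
private lemma c2_lipA {t u v : ℝ} (ht : |t| ≤ 1) (h : u ≤ v)
    (h1 : 0 ≤ u ∧ 0 ≤ v ∨ u ≤ 0 ∧ v ≤ 0)
    (h2 : 0 ≤ u + t ∧ 0 ≤ v + t ∨ u + t ≤ 0 ∧ v + t ≤ 0) :
    cI (v + t) - cI (u + t) ≤ 4 * (cI v - cI u) := by
  rw [c2_cI_diff h1, c2_cI_diff h2]
  have b1 : 1 + |u| ≤ 2 * (1 + |u + t|) := by
    have : |u| ≤ |u + t| + |t| := by
      have := abs_sub (u + t) t
      simpa using this
    have := abs_nonneg (u + t)
    linarith
  have b2 : 1 + |v| ≤ 2 * (1 + |v + t|) := by
    have : |v| ≤ |v + t| + |t| := by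
      have := abs_sub (v + t) t
      simpa using this
    have := abs_nonneg (v + t)
    linarith
  have p1 : 0 < (1 + |u|) * (1 + |v|) := by positivity
  have p2 : 0 < (1 + |u + t|) * (1 + |v + t|) := by positivity
  have b3 : (1 + |u|) * (1 + |v|) ≤ 4 * ((1 + |u + t|) * (1 + |v + t|)) := by
    have := mul_le_mul b1 b2 (by positivity) (by positivity)
    linarith
  have e : v + t - (u + t) = v - u := by ring
  rw [e, mul_div_assoc', div_le_div_iff₀ p2 p1]
  have : 0 ≤ v - u := by linarith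
  nlinarith [mul_le_mul_of_nonneg_left b3 this]

private lemma c2_lipB {t u v : ℝ} (ht : |t| ≤ 1) (h : u ≤ v)
    (h2 : 0 ≤ u + t ∧ 0 ≤ v + t ∨ u + t ≤ 0 ∧ v + t ≤ 0) :
    cI (v + t) - cI (u + t) ≤ 4 * (cI v - cI u) := by
  rcases le_total 0 u with hu | hu
  · exact c2_lipA ht h (Or.inl ⟨hu, by linarith⟩) h2
  · rcases le_total v 0 with hv | hv
    · exact c2_lipA ht h (Or.inr ⟨hu, hv⟩) h2
    · have e1 := c2_lipA ht hu (Or.inr ⟨hu, le_rfl⟩)
        (by rcases h2 with h2 | h2
            · exact Or.inl ⟨h2.1, by linarith [h2.1]⟩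
            · exact Or.inr ⟨h2.1, by linarith [h2.2]⟩)
      have e2 := c2_lipA ht hv (Or.inl ⟨le_rfl, hv⟩)
        (by rcases h2 with h2 | h2
            · exact Or.inl ⟨by linarith [h2.1], h2.2⟩
            · exact Or.inr ⟨by linarith [h2.2], h2.2⟩)
      linarith

private lemma c2_lipC {t u v : ℝ} (ht : |t| ≤ 1) (h : u ≤ v) :
    cI (v + t) - cI (u + t) ≤ 4 * (cI v - cI u) := by
  rcases le_total 0 (u + t) with hu | hu
  · exact c2_lipB ht h (Or.inl ⟨hu, by linarith⟩)
  · rcases le_total (v + t) 0 with hv | hv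
    · exact c2_lipB ht h (Or.inr ⟨hu, hv⟩)
    · have e1 := c2_lipB ht (u := u) (v := -t) (by linarith) (Or.inr ⟨hu, by linarith⟩)
      have e2 := c2_lipB ht (u := -t) (v := v) (by linarith) (Or.inl ⟨by linarith, hv⟩)
      linarith

private lemma c2_cI_neg (u : ℝ) : cI (-u) = - cI u := by
  unfold cI; rw [abs_neg]; ring

/-- the Lipschitz estimate at the left end point -/
private lemma c2_lipD {t w : ℝ} (ht : |t| ≤ 1) : 1 + cI (w + t) ≤ 4 * (1 + cI w) := by
  have h1 : cI (w + t) ≤ cI (w + 1) := c2_cI_strictMono.monotone (by linarith [(abs_le.1 ht).2])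
  have h2 : 1 + cI (w + 1) ≤ 4 * (1 + cI w) := by
    rcases le_total 0 w with hw | hw
    · have h3 : cI (w + 1) < 1 := (abs_lt.1 (c2_abs_cI_lt _)).2
      have h4 : 0 ≤ cI w := by rw [c2_cI_of_nonneg hw]; positivity
      linarith
    · rcases le_total w (-1) with hw1 | hw1
      · rw [c2_cI_of_nonpos hw, c2_cI_of_nonpos (by linarith : w + 1 ≤ 0)]
        have a1 : 0 < 1 - w := by linarith
        have a2 : 0 < 1 - (w + 1) := by linarith
        have e1 : 1 + (w + 1) / (1 - (w + 1)) = 1 / (1 - (w + 1)) := by field_simp; ring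
        have e2 : 1 + w / (1 - w) = 1 / (1 - w) := by field_simp; ring
        rw [e1, e2, mul_one_div, div_le_div_iff₀ a2 a1]
        linarith
      · rw [c2_cI_of_nonpos hw, c2_cI_of_nonneg (by linarith : 0 ≤ w + 1)]
        have a1 : 0 < 1 - w := by linarith
        have a2 : 0 < 1 + (w + 1) := by linarith
        have e2 : 1 + w / (1 - w) = 1 / (1 - w) := by field_simp; ring
        have e3 : (w + 1) / (1 + (w + 1)) < 1 := by rw [div_lt_one a2]; linarith
        have e4 : 1 / 2 ≤ 1 / (1 - w) := by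
          rw [div_le_div_iff₀ (by norm_num) a1]; linarith
        rw [e2]; linarith
  linarith

/-! ### C2: the flow bump -/

lemma flow_of_one_le {t x : ℝ} (h : 1 ≤ |x|) : flow t x = x := by
  unfold flow; rw [if_neg (not_lt.2 h)]

private lemma c2_flow_of_lt {t x : ℝ} (h : |x| < 1) : flow t x = cI (cF x + t) := by
  unfold flow; rw [if_pos h]

lemma flow_zero (x : ℝ) : flow 0 x = x := by
  rcases lt_or_ge |x| 1 with h | h
  · rw [c2_flow_of_lt h, add_zero, c2_cI_cF h]
  · exact flow_of_one_le h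

lemma flow_add (t t' x : ℝ) : flow (t + t') x = flow t (flow t' x) := by
  rcases lt_or_ge |x| 1 with h | h
  · rw [c2_flow_of_lt h, c2_flow_of_lt (t := t') h, c2_flow_of_lt (c2_abs_cI_lt _), c2_cF_cI]
    congr 1; ring
  · rw [flow_of_one_le h, flow_of_one_le h, flow_of_one_le h]

private lemma c2_abs_flow_lt {t x : ℝ} (h : |x| < 1) : |flow t x| < 1 := by
  rw [c2_flow_of_lt h]; exact c2_abs_cI_lt _

lemma flow_strictMono (t : ℝ) : StrictMono (flow t) := by
  intro x y h
  rcases lt_or_ge |x| 1 with hx | hx <;> rcases lt_or_ge |y| 1 with hy | hy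
  · rw [c2_flow_of_lt hx, c2_flow_of_lt hy]
    exact c2_cI_strictMono (by linarith [c2_cF_strictMono hx hy h])
  · rw [flow_of_one_le hy]
    have h1 := (abs_lt.1 (c2_abs_flow_lt (t := t) hx)).2
    rcases le_abs.1 hy with h2 | h2
    · linarith
    · linarith [(abs_lt.1 hx).1]
  · rw [flow_of_one_le hx]
    have h1 := (abs_lt.1 (c2_abs_flow_lt (t := t) hy)).1
    rcases le_abs.1 hx with h2 | h2
    · linarith [(abs_lt.1 hy).2]
    · linarith
  · rw [flow_of_one_le hx, flow_of_one_le hy]; exact h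

lemma abs_flow_le {t x : ℝ} (h : |x| ≤ 1) : |flow t x| ≤ 1 := by
  rcases lt_or_ge |x| 1 with hx | hx
  · exact (c2_abs_flow_lt hx).le
  · rw [flow_of_one_le hx]; exact h

private lemma c2_flow_left {t y : ℝ} (ht : |t| ≤ 1) (hy : |y| < 1) :
    1 + flow t y ≤ 4 * (1 + y) := by
  rw [c2_flow_of_lt hy]
  have := c2_lipD (w := cF y) ht
  rwa [c2_cI_cF hy] at this

private lemma c2_flow_right {t x : ℝ} (ht : |t| ≤ 1) (hx : |x| < 1) :
    1 - flow t x ≤ 4 * (1 - x) := by
  rw [c2_flow_of_lt hx]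
  have := c2_lipD (w := - cF x) (t := -t) (by rwa [abs_neg])
  rw [← neg_add, c2_cI_neg, c2_cI_neg, c2_cI_cF hx] at this
  linarith

lemma flow_lip {t x y : ℝ} (ht : |t| ≤ 1) (h : x ≤ y) : flow t y - flow t x ≤ 4 * (y - x) := by
  rcases lt_or_ge |x| 1 with hx | hx <;> rcases lt_or_ge |y| 1 with hy | hy
  · rw [c2_flow_of_lt hx, c2_flow_of_lt hy]
    have hF : cF x ≤ cF y := by
      rcases eq_or_lt_of_le h with h0 | h0
      · rw [h0]
      · exact (c2_cF_strictMono hx hy h0).le
    have := c2_lipC ht hF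
    rwa [c2_cI_cF hx, c2_cI_cF hy] at this
  · rw [flow_of_one_le hy]
    rcases le_abs.1 hy with h2 | h2
    · have := c2_flow_right ht hx
      linarith
    · linarith [(abs_lt.1 hx).1]
  · rw [flow_of_one_le hx]
    rcases le_abs.1 hx with h2 | h2
    · linarith [(abs_lt.1 hy).2]
    · have := c2_flow_left ht hy
      linarith
  · rw [flow_of_one_le hx, flow_of_one_le hy]; linarith

lemma le_flow {t x : ℝ} (ht : 0 ≤ t) : x ≤ flow t x := by
  rcases lt_or_ge |x| 1 with h | h
  · rw [c2_flow_of_lt h]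
    calc x = cI (cF x) := (c2_cI_cF h).symm
      _ ≤ _ := c2_cI_strictMono.monotone (by linarith)
  · rw [flow_of_one_le h]

lemma bump_zero (R w y : ℝ) (hw : 0 < w) : bump R w 0 y = y := by
  unfold bump
  rw [flow_zero]
  field_simp
  ring

lemma bump_add (R w t t' y : ℝ) (hw : 0 < w) :
    bump R w (t + t') y = bump R w t (bump R w t' y) := by
  unfold bump
  have : (R + w * flow t' ((y - R) / w) - R) / w = flow t' ((y - R) / w) := by
    field_simp
    ring
  rw [this, flow_add]

lemma bump_strictMono (R t : ℝ) {w : ℝ} (hw : 0 < w) : StrictMono (bump R w t) := by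
  intro x y h
  unfold bump
  have h1 : (x - R) / w < (y - R) / w := (div_lt_div_iff_of_pos_right hw).2 (by linarith)
  have h2 := flow_strictMono t h1
  have := mul_lt_mul_of_pos_left h2 hw
  linarith

lemma bump_of_le {R w t y : ℝ} (hw : 0 < w) (h : w ≤ |y - R|) : bump R w t y = y := by
  unfold bump
  have h1 : 1 ≤ |(y - R) / w| := by
    rw [abs_div, abs_of_pos hw, le_div_iff₀ hw]; linarith
  rw [flow_of_one_le h1]
  field_simp
  ring

lemma abs_bump_le {R w t y : ℝ} (hw : 0 < w) (h : |y - R| ≤ w) : |bump R w t y - R| ≤ w := by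
  unfold bump
  have h1 : |(y - R) / w| ≤ 1 := by
    rw [abs_div, abs_of_pos hw, div_le_one hw]; exact h
  have h2 := abs_flow_le (t := t) h1
  rw [add_sub_cancel_left, abs_mul, abs_of_pos hw]
  have := mul_le_mul_of_nonneg_left h2 hw.le
  linarith

lemma bump_lip {R w t x y : ℝ} (hw : 0 < w) (ht : |t| ≤ 1) (h : x ≤ y) :
    bump R w t y - bump R w t x ≤ 4 * (y - x) := by
  unfold bump
  have h1 : (x - R) / w ≤ (y - R) / w := (div_le_div_iff_of_pos_right hw).2 (by linarith)
  have h2 := mul_le_mul_of_nonneg_left (flow_lip ht h1) hw.le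
  have e : w * (4 * ((y - R) / w - (x - R) / w)) = 4 * (y - x) := by
    field_simp
    ring
  rw [e] at h2
  linarith

lemma le_bump {R w t y : ℝ} (hw : 0 < w) (ht : 0 ≤ t) : y ≤ bump R w t y := by
  unfold bump
  have h := mul_le_mul_of_nonneg_left (le_flow (x := (y - R) / w) ht) hw.le
  have e : w * ((y - R) / w) = y - R := by field_simp
  rw [e] at h
  linarith

lemma bump_center (R w : ℝ) : bump R w 1 R = R + w / 2 := by
  unfold bump
  rw [sub_self, zero_div, c2_flow_of_lt (by simp)]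
  unfold cF cI
  norm_num
  ring

private lemma c2_gd_succ {X ω : ℕ → ℝ} {n : ℕ} (h : GatesDisjoint X ω (n + 1)) :
    GatesDisjoint X ω n :=
  ⟨fun a ha => h.1 a (by omega), fun a ha a' ha' hne => h.2 a (by omega) a' (by omega) hne⟩

private lemma c2_far_of_mem {X ω : ℕ → ℝ} {n : ℕ} (h : GatesDisjoint X ω n) {a a' : ℕ} (ha : a < n)
    (ha' : a' < n) (hne : a ≠ a') {u : ℝ} (hu : |u - X a| ≤ ω a) : ω a' < |u - X a'| := by
  have h1 := h.2 a ha a' ha' hne
  have h2 : |X a - X a'| ≤ |u - X a| + |u - X a'| := by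
    have := abs_sub_le (X a) u (X a')
    rw [abs_sub_comm (X a) u] at this
    exact this
  linarith

lemma gmap_of_far {X ω t : ℕ → ℝ} {n : ℕ} (h : GatesDisjoint X ω n) (s : ℝ)
    {u : ℝ} (hu : ∀ a < n, ω a ≤ |u - X a|) : gmap X ω t s n u = u := by
  induction n with
  | zero => rfl
  | succ n ih =>
    show bump (X n) (ω n) (s * t n) (gmap X ω t s n u) = u
    rw [ih (c2_gd_succ h) (fun a ha => hu a (by omega)),
      bump_of_le (h.1 n (by omega)) (hu n (by omega))]

lemma gmap_of_mem {X ω t : ℕ → ℝ} {n : ℕ} (h : GatesDisjoint X ω n) (s : ℝ) {a : ℕ} (ha : a < n)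
    {u : ℝ} (hu : |u - X a| ≤ ω a) : gmap X ω t s n u = bump (X a) (ω a) (s * t a) u := by
  induction n with
  | zero => omega
  | succ n ih =>
    show bump (X n) (ω n) (s * t n) (gmap X ω t s n u) = _
    rcases Nat.lt_or_ge a n with h1 | h1
    · rw [ih (c2_gd_succ h) h1]
      have h2 : |bump (X a) (ω a) (s * t a) u - X a| ≤ ω a :=
        abs_bump_le (h.1 a ha) hu
      exact bump_of_le (h.1 n (by omega)) (c2_far_of_mem h ha (by omega) (by omega) h2).le
    · have : a = n := by omega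
      subst this
      rw [gmap_of_far (c2_gd_succ h) s
        (fun a' ha' => (c2_far_of_mem h ha (by omega) (by omega) hu).le)]

lemma gmap_strictMono {X ω t : ℕ → ℝ} {n : ℕ} (h : GatesDisjoint X ω n) (s : ℝ) :
    StrictMono (gmap X ω t s n) := by
  induction n with
  | zero => exact strictMono_id
  | succ n ih => exact (bump_strictMono (X n) (s * t n) (h.1 n (by omega))).comp (ih (c2_gd_succ h))

/-- gluing a one-sided Lipschitz estimate -/
private lemma c2_glue {f : ℝ → ℝ} {a b : ℝ} (_hab : a ≤ b)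
    (h1 : ∀ x y, x ≤ y → y ≤ a → f y - f x ≤ 4 * (y - x))
    (h2 : ∀ x y, x ≤ y → a ≤ x → y ≤ b → f y - f x ≤ 4 * (y - x))
    (h3 : ∀ x y, x ≤ y → b ≤ x → f y - f x ≤ 4 * (y - x)) {x y : ℝ} (h : x ≤ y) :
    f y - f x ≤ 4 * (y - x) := by
  -- first glue at `b`
  have h23 : ∀ x y, x ≤ y → a ≤ x → f y - f x ≤ 4 * (y - x) := by
    intro x y hxy hax
    rcases le_total y b with hy | hy
    · exact h2 x y hxy hax hy
    · rcases le_total b x with hx | hx
      · exact h3 x y hxy hx
      · have e1 := h2 x b hx hax le_rfl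
        have e2 := h3 b y hy le_rfl
        linarith
  rcases le_total y a with hy | hy
  · exact h1 x y h hy
  · rcases le_total a x with hx | hx
    · exact h23 x y h hx
    · have e1 := h1 x a hx le_rfl
      have e2 := h23 a y hy le_rfl
      linarith

lemma gmap_lip {X ω t : ℕ → ℝ} {n : ℕ} (h : GatesDisjoint X ω n) {s : ℝ}
    (hst : ∀ a < n, |s * t a| ≤ 1) {x y : ℝ} (hxy : x ≤ y) :
    gmap X ω t s n y - gmap X ω t s n x ≤ 4 * (y - x) := by
  induction n generalizing x y with
  | zero =>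
    show y - x ≤ 4 * (y - x)
    linarith
  | succ n ih =>
    have hn := h.1 n (by omega)
    have ih' := @ih (c2_gd_succ h) (fun a ha => hst a (by omega))
    have hmono : Monotone (gmap X ω t s n) := (gmap_strictMono (c2_gd_succ h) s).monotone
    -- `gmap n` is the identity on the gate `n`
    have hid : ∀ u, |u - X n| ≤ ω n → gmap X ω t s n u = u := fun u hu =>
      gmap_of_far (c2_gd_succ h) s
        (fun a' ha' => (c2_far_of_mem h (by omega : n < n + 1) (by omega) (by omega) hu).le)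
    refine c2_glue (f := gmap X ω t s (n + 1)) (a := X n - ω n) (b := X n + ω n) (by linarith)
      ?_ ?_ ?_ hxy
    · intro x y hxy hy
      have e0 : gmap X ω t s n (X n - ω n) = X n - ω n := hid _ (by
        rw [show X n - ω n - X n = -ω n by ring, abs_neg, abs_of_pos hn])
      have e : ∀ z ≤ X n - ω n, gmap X ω t s (n + 1) z = gmap X ω t s n z := by
        intro z hz
        have hz2 : gmap X ω t s n z ≤ X n - ω n := by
          have := hmono hz
          rwa [e0] at this
        show bump (X n) (ω n) (s * t n) (gmap X ω t s n z) = _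
        exact bump_of_le hn (by
          rw [abs_sub_comm]
          exact le_trans (by linarith) (le_abs_self _))
      rw [e y hy, e x (by linarith)]
      exact ih' hxy
    · intro x y hxy hx hy
      have e : ∀ z, X n - ω n ≤ z → z ≤ X n + ω n →
          gmap X ω t s (n + 1) z = bump (X n) (ω n) (s * t n) z := by
        intro z h1 h2
        show bump (X n) (ω n) (s * t n) (gmap X ω t s n z) = _
        rw [hid z (abs_le.2 ⟨by linarith, by linarith⟩)]
      rw [e y (by linarith) hy, e x hx (by linarith)]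
      exact bump_lip hn (hst n (by omega)) hxy
    · intro x y hxy hx
      have e0 : gmap X ω t s n (X n + ω n) = X n + ω n := hid _ (by
        rw [show X n + ω n - X n = ω n by ring, abs_of_pos hn])
      have e : ∀ z, X n + ω n ≤ z → gmap X ω t s (n + 1) z = gmap X ω t s n z := by
        intro z hz
        have hz2 : X n + ω n ≤ gmap X ω t s n z := by
          have := hmono hz
          rwa [e0] at this
        show bump (X n) (ω n) (s * t n) (gmap X ω t s n z) = _
        exact bump_of_le hn (le_trans (by linarith) (le_abs_self _))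
      rw [e y (by linarith), e x hx]
      exact ih' hxy

private lemma c2_lev_dist {ρ ξ y x : ℝ} (hρ : 0 < ρ) :
    |(ξ + y) / ρ - x| = |y - (ρ * x - ξ)| / ρ := by
  rw [← abs_of_pos hρ, ← abs_div, abs_of_pos hρ]
  congr 1
  field_simp
  ring

lemma lev_of_far {X ω t : ℕ → ℝ} {n : ℕ} (h : GatesDisjoint X ω n) (ρ ξ s y : ℝ)
    (hy : 0 < ρ → ∀ a < n, ρ * ω a ≤ |y - (ρ * X a - ξ)|) : lev X ω t n ρ ξ s y = y := by
  unfold lev
  split_ifs with hρ
  · rw [gmap_of_far h s (fun a ha => by
      rw [c2_lev_dist hρ, le_div_iff₀ hρ, mul_comm]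
      exact hy hρ a ha)]
    field_simp
    ring
  · rfl

lemma lev_of_mem {X ω t : ℕ → ℝ} {n : ℕ} (h : GatesDisjoint X ω n) {ρ : ℝ} (hρ : 0 < ρ)
    (ξ s y : ℝ) {a : ℕ} (ha : a < n)
    (hy : ∀ a' < n, a' ≠ a → ρ * ω a' ≤ |y - (ρ * X a' - ξ)|) :
    lev X ω t n ρ ξ s y = bump (ρ * X a - ξ) (ρ * ω a) (s * t a) y := by
  have hpos : 0 < ρ * ω a := mul_pos hρ (h.1 a ha)
  rcases le_total |y - (ρ * X a - ξ)| (ρ * ω a) with h1 | h1
  · unfold lev
    rw [if_pos hρ, gmap_of_mem h s ha (by
      rw [c2_lev_dist hρ, div_le_iff₀ hρ, mul_comm (ω a)]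
      exact h1)]
    unfold bump
    have e : ((ξ + y) / ρ - X a) / ω a = (y - (ρ * X a - ξ)) / (ρ * ω a) := by
      have := (h.1 a ha).ne'
      field_simp
      ring
    rw [e]
    ring
  · rw [bump_of_le hpos h1]
    refine lev_of_far h ρ ξ s y fun _ a' ha' => ?_
    by_cases hne : a' = a
    · rw [hne]; exact h1
    · exact hy a' ha' hne

end Pool.Agent.Helper22.Slip
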