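import Pool.Agent.Helper22.Slip.C2

/-!
# C3: the climbing theorem
-/

namespace Pool.Agent.Helper22.Slip

open Pool.Agent.Helper76.Slip (G rot T)
open Filter Set

/-! ### C3: the climbing theorem -/

/-- low path between two indices -/
def CLP (e : ℕ → ℝ → ℝ) (Y : Set ℝ) (i : ℕ) (z : ℝ) (j : ℕ) (z' : ℝ) : Prop :=
  ∃ p : ℕ → ℝ, p i = z ∧ p j = z' ∧ (∀ k, i ≤ k → k ≤ j → p k ∈ Y) ∧
    ∀ k, i ≤ k → k < j → p (k + 1) ≤ e k (p k)

lemma CLP.refl {e : ℕ → ℝ → ℝ} {Y : Set ℝ} {i : ℕ} {z : ℝ} (hz : z ∈ Y) : CLP e Y i z i z := by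
  refine ⟨fun _ => z, rfl, rfl, fun _ _ _ => hz, ?_⟩
  intro k h1 h2
  omega

lemma CLP.low {e : ℕ → ℝ → ℝ} {Y : Set ℝ} {i j : ℕ} {z z' z'' : ℝ} (hij : i < j)
    (h : CLP e Y i z j z') (hz : z'' ≤ z') (hz'' : z'' ∈ Y) : CLP e Y i z j z'' := by
  obtain ⟨p, h1, h2, h3, h4⟩ := h
  refine ⟨fun k => if k = j then z'' else p k, ?_, ?_, ?_, ?_⟩
  · simp only [hij.ne, if_false]; exact h1
  · simp
  · intro k hk1 hk2
    by_cases hk : k = j
    · simp only [hk, if_true]; exact hz''
    · simp only [hk, if_false]; exact h3 k hk1 hk2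
  · intro k hk1 hk2
    simp only [hk2.ne, if_false]
    by_cases hk : k + 1 = j
    · simp only [hk, if_true]
      have := h4 k hk1 hk2
      rw [hk, h2] at this
      linarith
    · simp only [hk, if_false]; exact h4 k hk1 hk2

lemma CLP.trans {e : ℕ → ℝ → ℝ} {Y : Set ℝ} {i j k : ℕ} {z z' z'' : ℝ} (hij : i ≤ j)
    (hjk : j ≤ k) (h : CLP e Y i z j z') (h' : CLP e Y j z' k z'') : CLP e Y i z k z'' := by
  obtain ⟨p, h1, h2, h3, h4⟩ := h
  obtain ⟨q, g1, g2, g3, g4⟩ := h'
  refine ⟨fun l => if l < j then p l else q l, ?_, ?_, ?_, ?_⟩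
  · by_cases hi : i < j
    · simp only [hi, if_true]; exact h1
    · have : i = j := by omega
      subst this
      simp only [lt_irrefl, if_false]
      rw [g1, ← h2, h1]
  · simp only [not_lt.2 hjk, if_false]
    exact g2
  · intro l hl1 hl2
    by_cases hl : l < j
    · simp only [hl, if_true]; exact h3 l hl1 hl.le
    · simp only [hl, if_false]; exact g3 l (not_lt.1 hl) hl2
  · intro l hl1 hl2
    by_cases hl : l < j
    · by_cases hl' : l + 1 < j
      · simp only [hl, hl', if_true]; exact h4 l hl1 hl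
      · have hlj : l + 1 = j := by omega
        simp only [hl, if_true, hlj, lt_irrefl, if_false]
        have := h4 l hl1 hl
        rw [hlj] at this
        linarith
    · have : ¬ l + 1 < j := by omega
      simp only [hl, this, if_false]
      exact g4 l (not_lt.1 hl) hl2

lemma CLP.step {e : ℕ → ℝ → ℝ} {Y : Set ℝ} {i j : ℕ} {z z' z'' : ℝ} (hij : i ≤ j)
    (h : CLP e Y i z j z') (hz' : z' ∈ Y) (hz'' : z'' ∈ Y) (he : z'' ≤ e j z') :
    CLP e Y i z (j + 1) z'' := by
  refine h.trans hij (Nat.le_succ j) ⟨fun k => if k = j then z' else z'', ?_, ?_, ?_, ?_⟩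
  · simp
  · simp
  · intro k _ _
    by_cases hk : k = j
    · simp only [hk, if_true]; exact hz'
    · simp only [hk, if_false]; exact hz''
  · intro k hk1 hk2
    have hk : k = j := by omega
    subst hk
    simp only [if_true, Nat.succ_ne_self, if_false]
    exact he

/-- the data of section 2.6 -/
structure ClimbScene (ι : Type*) where
  /-- number of elementary steps -/
  N : ℕ
  /-- the level maps -/
  e : ℕ → ℝ → ℝ
  /-- the window -/
  Y : Set ℝ
  /-- the visits -/
  V : Finset ι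
  /-- index of a visit -/
  idx : ι → ℕ
  /-- centre of a visit -/
  R : ι → ℝ
  /-- half width of a visit -/
  w : ι → ℝ
  /-- exponent of a visit -/
  t : ι → ℝ
  /-- time of a visit -/
  pt : ι → ℝ
  idx_lt : ∀ v ∈ V, idx v < N
  idx_inj : ∀ v ∈ V, ∀ v' ∈ V, idx v = idx v' → v = v'
  w_pos : ∀ v ∈ V, 0 < w v
  w_le : ∀ v ∈ V, w v ≤ 1 / 4
  off : ∀ i, i < N → (∀ v ∈ V, idx v ≠ i) → ∀ y ∈ Y, y ≤ e i y
  on : ∀ v ∈ V, ∀ y ∈ Y, bump (R v) (w v) (t v) y ≤ e (idx v) y
  order : ∀ v ∈ V, ∀ v' ∈ V, pt v < pt v' → idx v < idx v'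
  same : ∀ v ∈ V, ∀ v' ∈ V, pt v = pt v' → (R v = R v' ∧ w v = w v') ∨ w v + w v' < |R v - R v'|

namespace ClimbScene

variable {ι : Type*} [DecidableEq ι] (D : ClimbScene ι)

/-- class sum -/
noncomputable def Tsum (v : ι) : ℝ :=
  ∑ j ∈ D.V.filter (fun v' => D.pt v' = D.pt v ∧ D.R v' = D.R v ∧ D.w v' = D.w v), D.t j

/-- first index after all visits of time `≤ T` -/
noncomputable def cut (T : ℝ) : ℕ := (D.V.filter fun v => D.pt v ≤ T).sup fun v => D.idx v + 1

omit [DecidableEq ι] in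
lemma lt_cut {T : ℝ} {v : ι} (hi : v ∈ D.V) (h : D.pt v ≤ T) : D.idx v < D.cut T := by
  have : D.idx v + 1 ≤ D.cut T :=
    Finset.le_sup (f := fun v => D.idx v + 1) (Finset.mem_filter.2 ⟨hi, h⟩)
  omega

omit [DecidableEq ι] in
lemma cut_le {T : ℝ} : D.cut T ≤ D.N := by
  apply Finset.sup_le
  intro i hi
  exact D.idx_lt i (Finset.mem_filter.1 hi).1

omit [DecidableEq ι] in
lemma cut_le_of {T : ℝ} {v : ι} (hi : v ∈ D.V) (h : T < D.pt v) : D.cut T ≤ D.idx v := by
  apply Finset.sup_le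
  intro j hj
  obtain ⟨hj1, hj2⟩ := Finset.mem_filter.1 hj
  exact D.order j hj1 v hi (hj2.trans_lt h)

omit [DecidableEq ι] in
lemma cut_mono {S T : ℝ} (h : S ≤ T) : D.cut S ≤ D.cut T := by
  apply Finset.sup_mono
  intro i hi
  obtain ⟨h1, h2⟩ := Finset.mem_filter.1 hi
  exact Finset.mem_filter.2 ⟨h1, h2.trans h⟩

omit [DecidableEq ι] in
/-- nothing is touched -/
lemma block_none {c0 c1 : ℕ} (h01 : c0 ≤ c1) (h1 : c1 ≤ D.N) {Z : ℝ} (hZ : Z ∈ D.Y)
    (hnone : ∀ v ∈ D.V, c0 ≤ D.idx v → D.idx v < c1 → D.w v < |Z - D.R v|) :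
    CLP D.e D.Y c0 Z c1 Z := by
  induction c1, h01 using Nat.le_induction with
  | base => exact CLP.refl hZ
  | succ c hc ih =>
    have ih' := ih (by omega) fun i hi h2 h3 => hnone i hi h2 (by omega)
    refine ih'.step hc hZ hZ ?_
    by_cases hcV : ∃ v ∈ D.V, D.idx v = c
    · obtain ⟨v, hv, hvc⟩ := hcV
      have h2 := D.on v hv Z hZ
      have h3 := hnone v hv (by omega) (by omega)
      rwa [bump_of_le (D.w_pos v hv) h3.le, hvc] at h2
    · push Not at hcV
      exact D.off c (by omega) hcV Z hZ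

/-- one class is touched -/
lemma block_touch {c0 c1 : ℕ} (h01 : c0 ≤ c1) (h1 : c1 ≤ D.N) {Z : ℝ}
    (hZ : Set.Icc (Z - 1 / 2) (Z + 1 / 2) ⊆ D.Y) {i0 : ι} (hi0 : i0 ∈ D.V)
    (htouch : |Z - D.R i0| ≤ D.w i0)
    (hin : ∀ v ∈ D.V, c0 ≤ D.idx v → D.idx v < c1 → D.pt v = D.pt i0) :
    CLP D.e D.Y c0 Z c1 (bump (D.R i0) (D.w i0)
      (∑ j ∈ D.V.filter (fun j => (c0 ≤ D.idx j ∧ D.idx j < c1) ∧ D.R j = D.R i0 ∧
        D.w j = D.w i0), D.t j) Z) := by
  have hw := D.w_pos i0 hi0
  have hw4 := D.w_le i0 hi0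
  have hY : ∀ s, bump (D.R i0) (D.w i0) s Z ∈ D.Y := by
    intro s
    apply hZ
    have h2 := abs_bump_le (t := s) hw htouch
    rw [abs_le] at h2 htouch
    constructor <;> linarith
  induction c1, h01 using Nat.le_induction with
  | base =>
    have : (D.V.filter fun j => (c0 ≤ D.idx j ∧ D.idx j < c0) ∧ D.R j = D.R i0 ∧
        D.w j = D.w i0) = ∅ := by
      apply Finset.filter_eq_empty_iff.2
      intro j _ h2
      omega
    rw [this, Finset.sum_empty, bump_zero _ _ _ hw]
    apply CLP.refl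
    have := hY 0
    rwa [bump_zero _ _ _ hw] at this
  | succ c hc ih =>
    have ih' := ih (by omega) fun i hi h2 h3 => hin i hi h2 (by omega)
    set s := ∑ j ∈ D.V.filter (fun j => (c0 ≤ D.idx j ∧ D.idx j < c) ∧ D.R j = D.R i0 ∧
        D.w j = D.w i0), D.t j with hs
    by_cases hcl : ∃ v ∈ D.V, D.idx v = c ∧ D.R v = D.R i0 ∧ D.w v = D.w i0
    · obtain ⟨v, hv, hvc, hvR, hvw⟩ := hcl
      have h2 : (D.V.filter fun j => (c0 ≤ D.idx j ∧ D.idx j < c + 1) ∧ D.R j = D.R i0 ∧
            D.w j = D.w i0) =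
          insert v (D.V.filter fun j => (c0 ≤ D.idx j ∧ D.idx j < c) ∧ D.R j = D.R i0 ∧
            D.w j = D.w i0) := by
        ext j
        simp only [Finset.mem_filter, Finset.mem_insert]
        constructor
        · rintro ⟨h3, ⟨h4, h5⟩, h6⟩
          by_cases hj : D.idx j = c
          · exact Or.inl (D.idx_inj j h3 v hv (by rw [hj, hvc]))
          · exact Or.inr ⟨h3, ⟨h4, by omega⟩, h6⟩
        · rintro (h3 | ⟨h3, ⟨h4, h5⟩, h6⟩)
          · subst h3
            exact ⟨hv, ⟨by omega, by omega⟩, hvR, hvw⟩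
          · exact ⟨h3, ⟨h4, by omega⟩, h6⟩
      have hnot : v ∉ (D.V.filter fun j => (c0 ≤ D.idx j ∧ D.idx j < c) ∧ D.R j = D.R i0 ∧
            D.w j = D.w i0) := by
        simp only [Finset.mem_filter, not_and]
        intro _ h3
        omega
      rw [h2, Finset.sum_insert hnot, ← hs]
      refine ih'.step hc (hY s) (hY _) ?_
      have h3 := D.on v hv _ (hY s)
      rw [hvR, hvw, ← bump_add _ _ _ _ _ hw, hvc] at h3
      exact h3
    · have h2 : (D.V.filter fun j => (c0 ≤ D.idx j ∧ D.idx j < c + 1) ∧ D.R j = D.R i0 ∧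
            D.w j = D.w i0) =
          D.V.filter fun j => (c0 ≤ D.idx j ∧ D.idx j < c) ∧ D.R j = D.R i0 ∧
            D.w j = D.w i0 := by
        apply Finset.filter_congr
        intro j hj
        constructor
        · rintro ⟨⟨h4, h5⟩, h6⟩
          refine ⟨⟨h4, ?_⟩, h6⟩
          by_contra h7
          exact hcl ⟨j, hj, by omega, h6⟩
        · rintro ⟨⟨h4, h5⟩, h6⟩
          exact ⟨⟨h4, by omega⟩, h6⟩
      rw [h2, ← hs]
      refine ih'.step hc (hY s) (hY s) ?_
      by_cases hcV : ∃ v ∈ D.V, D.idx v = c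
      · obtain ⟨v, hv, hvc⟩ := hcV
        have h3 := D.on v hv _ (hY s)
        rw [bump_of_le (D.w_pos v hv), hvc] at h3
        · exact h3
        · have h4 := hin v hv (by omega) (by omega)
          rcases D.same v hv i0 hi0 h4 with h5 | h5
          · exact absurd ⟨v, hv, hvc, h5⟩ hcl
          · have h6 := abs_bump_le (t := s) hw htouch
            have h7 : |D.R v - D.R i0| ≤ |bump (D.R i0) (D.w i0) s Z - D.R v| +
                |bump (D.R i0) (D.w i0) s Z - D.R i0| := by
              have := abs_sub_le (D.R v) (bump (D.R i0) (D.w i0) s Z) (D.R i0)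
              rwa [abs_sub_comm (D.R v) (bump (D.R i0) (D.w i0) s Z)] at this
            linarith
      · push Not at hcV
        exact D.off c (by omega) hcV _ (hY s)

omit [DecidableEq ι] in
/-- from the end of the visits of time `≤ S` to the end of those of time `≤ T`, when there is no
visit time strictly between: untouched case -/
lemma to_cut_none {S T : ℝ} (hST : S < T) (hbet : ∀ i ∈ D.V, S < D.pt i → D.pt i ≤ T → D.pt i = T)
    {Z : ℝ} (hZ : Z ∈ D.Y) (hnone : ∀ i ∈ D.V, D.pt i = T → D.w i < |Z - D.R i|) :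
    CLP D.e D.Y (D.cut S) Z (D.cut T) Z := by
  apply D.block_none (D.cut_mono hST.le) D.cut_le hZ
  intro i hi h1 h2
  apply hnone i hi
  apply hbet i hi
  · by_contra hc
    have := D.lt_cut hi (not_lt.1 hc)
    omega
  · by_contra hc
    have := D.cut_le_of hi (not_le.1 hc)
    omega

lemma to_cut_touch {S T : ℝ} (hST : S < T)
    (hbet : ∀ i ∈ D.V, S < D.pt i → D.pt i ≤ T → D.pt i = T)
    {Z : ℝ} (hZ : Set.Icc (Z - 1 / 2) (Z + 1 / 2) ⊆ D.Y) {i0 : ι} (hi0 : i0 ∈ D.V)
    (hT : D.pt i0 = T) (htouch : |Z - D.R i0| ≤ D.w i0) :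
    CLP D.e D.Y (D.cut S) Z (D.cut T) (bump (D.R i0) (D.w i0) (D.Tsum i0) Z) := by
  have hpt : ∀ i ∈ D.V, D.cut S ≤ D.idx i → D.idx i < D.cut T → D.pt i = T := by
    intro i hi h1 h2
    apply hbet i hi
    · by_contra hc
      have := D.lt_cut hi (not_lt.1 hc)
      omega
    · by_contra hc
      have := D.cut_le_of hi (not_le.1 hc)
      omega
  have h := D.block_touch (D.cut_mono hST.le) D.cut_le hZ hi0 htouch
    (fun i hi h1 h2 => by rw [hT]; exact hpt i hi h1 h2)
  have hsum : (D.V.filter fun j => (D.cut S ≤ D.idx j ∧ D.idx j < D.cut T) ∧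
        D.R j = D.R i0 ∧ D.w j = D.w i0) =
      D.V.filter fun j => D.pt j = D.pt i0 ∧ D.R j = D.R i0 ∧ D.w j = D.w i0 := by
    apply Finset.filter_congr
    intro j hj
    constructor
    · rintro ⟨⟨h1, h2⟩, h3⟩
      exact ⟨by rw [hT]; exact hpt j hj h1 h2, h3⟩
    · rintro ⟨h1, h3⟩
      rw [hT] at h1
      refine ⟨⟨D.cut_le_of hj (by rw [h1]; exact hST), D.lt_cut hj h1.le⟩, h3⟩
  unfold Tsum
  rw [← hsum]
  exact h

omit [DecidableEq ι] in
lemma cut_lt_cut {S T : ℝ} (hST : S < T) {i0 : ι} (hi0 : i0 ∈ D.V) (hT : D.pt i0 = T) :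
    D.cut S < D.cut T :=
  lt_of_le_of_lt (D.cut_le_of hi0 (by rw [hT]; exact hST)) (D.lt_cut hi0 hT.le)

end ClimbScene

/-- the burst part -/
lemma climb_burst {ι : Type*} [DecidableEq ι] (D : ClimbScene ι) {A : ℝ} {n : ℕ} (hn : 16 ≤ n)
    (hY : D.Y = Set.Icc (A - 1) (A + 3)) (P : ℕ → ℝ) (hP : ∀ a a', a < a' → a' < n → P a < P a')
    (hearly : ∀ v ∈ D.V, D.pt v ≤ P (n - 1) → ∃ a < n, D.pt v = P a)
    (hsum : ∀ a < n, ∑ v ∈ D.V.filter (fun v => D.pt v = P a ∧ D.R v = A + 2 * a / n ∧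
      D.w v = 4 / n), D.t v = 1) :
    ∀ a ≤ n, CLP D.e D.Y 0 A (if a = 0 then 0 else D.cut (P (a - 1))) (A + 2 * a / n) := by
  have hn0 : (0 : ℝ) < n := by exact_mod_cast (by omega : 0 < n)
  have hn16 : (16 : ℝ) ≤ n := by exact_mod_cast hn
  have hPle : ∀ a < n, P a ≤ P (n - 1) := by
    intro a ha
    rcases Nat.lt_or_ge a (n - 1) with h | h
    · exact (hP a (n - 1) h (by omega)).le
    · have : a = n - 1 := by omega
      rw [this]
  intro a
  induction a with
  | zero =>
    intro _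
    simp only [if_true, Nat.cast_zero, mul_zero, zero_div, add_zero]
    apply CLP.refl
    rw [hY]
    constructor <;> linarith
  | succ a ih =>
    intro ha
    have ih' := ih (by omega)
    simp only [Nat.succ_ne_zero, if_false, Nat.add_sub_cancel]
    -- the starting time
    let S : ℝ := if a = 0 then P 0 - 1 else P (a - 1)
    have hcutS : (if a = 0 then 0 else D.cut (P (a - 1))) = D.cut S := by
      by_cases h0 : a = 0
      · simp only [S, h0, if_true]
        symm
        rw [← Nat.le_zero]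
        apply Finset.sup_le
        intro v hv
        obtain ⟨h1, h2⟩ := Finset.mem_filter.1 hv
        exfalso
        obtain ⟨a', ha', h3⟩ := hearly v h1 (by linarith [hPle 0 (by omega)])
        rcases Nat.eq_zero_or_pos a' with h4 | h4
        · rw [h3, h4] at h2; linarith
        · have := hP 0 a' h4 ha'
          linarith
      · simp only [S, h0, if_false]
    have hSP : S < P a := by
      by_cases h0 : a = 0
      · simp only [S, h0, if_true]; linarith
      · simp only [S, h0, if_false]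
        exact hP (a - 1) a (by omega) (by omega)
    have hbet : ∀ v ∈ D.V, S < D.pt v → D.pt v ≤ P a → D.pt v = P a := by
      intro v hv h1 h2
      obtain ⟨a', ha', h3⟩ := hearly v hv (h2.trans (hPle a (by omega)))
      rcases lt_trichotomy a' a with h4 | h4 | h4
      · exfalso
        have h0 : a ≠ 0 := by omega
        simp only [S, h0, if_false] at h1
        rw [h3] at h1
        rcases Nat.lt_or_ge a' (a - 1) with h5 | h5
        · have := hP a' (a - 1) h5 (by omega); linarith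
        · have : a' = a - 1 := by omega
          rw [this] at h1; linarith
      · rw [h3, h4]
      · exfalso
        have := hP a a' h4 ha'
        linarith
    -- the touched class
    have hs := hsum a (by omega)
    have hne : (D.V.filter (fun v => D.pt v = P a ∧ D.R v = A + 2 * a / n ∧
        D.w v = 4 / n)).Nonempty := by
      rw [Finset.nonempty_iff_ne_empty]
      intro h0
      rw [h0, Finset.sum_empty] at hs
      norm_num at hs
    obtain ⟨v0, hv0⟩ := hne
    obtain ⟨hv0V, hv0pt, hv0R, hv0w⟩ := Finset.mem_filter.1 hv0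
    have hT1 : D.Tsum v0 = 1 := by
      unfold ClimbScene.Tsum
      rw [hv0pt, hv0R, hv0w]
      exact hs
    have han : (a : ℝ) / n ≤ 1 := by
      rw [div_le_one hn0]
      exact_mod_cast (by omega : a ≤ n)
    have han0 : (0 : ℝ) ≤ (a : ℝ) / n := by positivity
    have h2a : 2 * (a : ℝ) / n = 2 * ((a : ℝ) / n) := by ring
    have h := D.to_cut_touch hSP hbet (Z := A + 2 * a / n) (by
      rw [hY]
      apply Set.Icc_subset_Icc
      · rw [h2a]; linarith
      · rw [h2a]; linarith) hv0V hv0pt (by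
      rw [hv0R, hv0w, sub_self, abs_zero]; positivity)
    rw [hT1, hv0R, hv0w, bump_center] at h
    rw [hcutS] at ih'
    have h2 := ih'.trans (Nat.zero_le _) (D.cut_mono hSP.le) h
    have h3 : A + 2 * (a : ℝ) / n + 4 / n / 2 = A + 2 * ((a + 1 : ℕ) : ℝ) / n := by
      push_cast; ring
    rw [h3] at h2
    exact h2

/-- the late part -/
lemma climb_late {ι : Type*} [DecidableEq ι] (D : ClimbScene ι) {A lam P0 : ℝ}
    (hlam : lam ≤ 1 / 2) (hY : D.Y = Set.Icc (A - 1) (A + 3))
    (acc : ι → Prop) {κ : Type} [DecidableEq κ] (Ev : Finset κ) (ev : ι → κ) (wE : κ → ℝ)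
    (hlate : ∀ v ∈ D.V, P0 < D.pt v → D.Tsum v < 0 →
        (∀ z, A + 2 - lam ≤ z → z ≤ A + 2 → D.w v < |D.R v - z|) ∨ acc v)
    (hacc : ∀ v ∈ D.V, acc v → ev v ∈ Ev ∧ D.w v = wE (ev v))
    (hinc : ∀ v ∈ D.V, ∀ v' ∈ D.V, acc v → acc v' → ev v = ev v' → D.pt v < D.pt v' →
        D.R v + 9 / 20 * D.w v ≤ D.R v')
    (hwE : ∀ x ∈ Ev, 0 ≤ wE x) (hsumE : ∑ x ∈ Ev, 10 * wE x ≤ lam)
    (hstart : CLP D.e D.Y 0 A (D.cut P0) (A + 2)) (s : Finset ℝ)
    (hs : ∀ x ∈ s, ∃ v ∈ D.V, D.pt v = x ∧ P0 < x)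
    (hdown : ∀ v ∈ D.V, P0 < D.pt v → ∀ y ∈ s, D.pt v ≤ y → D.pt v ∈ s) :
    ∃ S : ℝ, ((s = ∅ ∧ S = P0) ∨ (S ∈ s ∧ ∀ y ∈ s, y ≤ S)) ∧
      ∃ kk : κ → ℕ, (∀ x ∈ Ev, kk x ≤ 5) ∧
        CLP D.e D.Y 0 A (D.cut S) (A + 2 - ∑ x ∈ Ev, 2 * wE x * kk x) ∧
        ∀ x ∈ Ev, 1 ≤ kk x → ∃ v ∈ D.V, acc v ∧ ev v = x ∧ D.pt v ∈ s ∧
          (A + 2 - ∑ x ∈ Ev, 2 * wE x * kk x) - wE x + 9 / 20 * wE x * (kk x - 1) ≤ D.R v := by
  induction s using Finset.induction_on_max with
  | empty =>
    refine ⟨P0, Or.inl ⟨rfl, rfl⟩, fun _ => 0, fun _ _ => by norm_num, ?_, ?_⟩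
    · simpa using hstart
    · intro x _ h
      exact absurd h (by norm_num)
  | insert a s hmax ih =>
    obtain ⟨S, hS, kk, hkk, hpath, hev⟩ := ih (fun x hx => hs x (Finset.mem_insert_of_mem hx))
      (by
        intro v hv h1 y hy h2
        have h3 := hdown v hv h1 y (Finset.mem_insert_of_mem hy) h2
        rcases Finset.mem_insert.1 h3 with h4 | h4
        · exfalso
          have := hmax y hy
          linarith
        · exact h4)
    obtain ⟨va, hva, hva1, hva2⟩ := hs a (Finset.mem_insert_self a s)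
    have hP0S : P0 ≤ S := by
      rcases hS with ⟨-, h⟩ | ⟨h, -⟩
      · exact h.ge
      · obtain ⟨_, _, _, h2⟩ := hs S (Finset.mem_insert_of_mem h)
        exact h2.le
    have hSa : S < a := by
      rcases hS with ⟨-, h⟩ | ⟨h, -⟩
      · rw [h]; exact hva2
      · exact hmax S h
    have hbet : ∀ v ∈ D.V, S < D.pt v → D.pt v ≤ a → D.pt v = a := by
      intro v hv h1 h2
      have h3 := hdown v hv (lt_of_le_of_lt hP0S h1) a (Finset.mem_insert_self a s) h2
      rcases Finset.mem_insert.1 h3 with h4 | h4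
      · exact h4
      · exfalso
        rcases hS with ⟨h5, -⟩ | ⟨-, h5⟩
        · rw [h5] at h4; simp at h4
        · have := h5 _ h4; linarith
    set Z : ℝ := A + 2 - ∑ x ∈ Ev, 2 * wE x * kk x with hZdef
    have hZle : Z ≤ A + 2 := by
      have : 0 ≤ ∑ x ∈ Ev, 2 * wE x * kk x :=
        Finset.sum_nonneg fun x hx => by have := hwE x hx; positivity
      linarith
    have hgen : ∀ k' : κ → ℕ, (∀ x ∈ Ev, k' x ≤ 5) →
        A + 2 - lam ≤ A + 2 - ∑ x ∈ Ev, 2 * wE x * k' x := by
      intro k' hk'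
      have : ∑ x ∈ Ev, 2 * wE x * k' x ≤ ∑ x ∈ Ev, 10 * wE x := by
        apply Finset.sum_le_sum
        intro x hx
        have h1 := hwE x hx
        have h2 : (k' x : ℝ) ≤ 5 := by exact_mod_cast hk' x hx
        nlinarith
      linarith
    have hZge : A + 2 - lam ≤ Z := hgen kk hkk
    have hZY : Set.Icc (Z - 1 / 2) (Z + 1 / 2) ⊆ D.Y := by
      rw [hY]
      apply Set.Icc_subset_Icc <;> linarith
    have hZmem : Z ∈ D.Y := hZY ⟨by linarith, by linarith⟩
    have htop : (insert a s = ∅ ∧ a = P0) ∨ (a ∈ insert a s ∧ ∀ y ∈ insert a s, y ≤ a) := by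
      right
      refine ⟨Finset.mem_insert_self a s, ?_⟩
      intro y hy
      rcases Finset.mem_insert.1 hy with h | h
      · exact h.le
      · exact (hmax y h).le
    by_cases htch : ∃ v0 ∈ D.V, D.pt v0 = a ∧ |Z - D.R v0| ≤ D.w v0
    · obtain ⟨v0, hv0, hv0pt, hv0t⟩ := htch
      have hb := D.to_cut_touch hSa hbet hZY hv0 hv0pt hv0t
      have hlt := D.cut_lt_cut hSa hv0 hv0pt
      by_cases hneg : D.Tsum v0 < 0
      · -- adverse
        have hac : acc v0 := by
          rcases hlate v0 hv0 (by rw [hv0pt]; exact hva2) hneg with h | h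
          · exfalso
            have := h Z hZge hZle
            rw [abs_sub_comm] at this
            linarith
          · exact h
        obtain ⟨hx0, hw0⟩ := hacc v0 hv0 hac
        have hwpos : 0 < wE (ev v0) := by rw [← hw0]; exact D.w_pos v0 hv0
        have habs := abs_le.1 hv0t
        rw [hw0] at habs
        have hR0 : Z - wE (ev v0) + 9 / 20 * wE (ev v0) * kk (ev v0) ≤ D.R v0 := by
          rcases Nat.eq_zero_or_pos (kk (ev v0)) with hk | hk
          · rw [hk]
            simp only [Nat.cast_zero, mul_zero, add_zero]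
            linarith
          · obtain ⟨v1, hv1, hv1a, hv1e, hv1p, hv1R⟩ := hev (ev v0) hx0 hk
            have h1 := hinc v1 hv1 v0 hv0 hv1a hac hv1e (by rw [hv0pt]; exact hmax _ hv1p)
            have h2 : D.w v1 = wE (ev v0) := by rw [(hacc v1 hv1 hv1a).2, hv1e]
            rw [h2] at h1
            have h3 : 9 / 20 * wE (ev v0) * ((kk (ev v0) : ℝ) - 1) =
                9 / 20 * wE (ev v0) * kk (ev v0) - 9 / 20 * wE (ev v0) := by ring
            rw [h3] at hv1R
            linarith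
        have hk4 : kk (ev v0) ≤ 4 := by
          by_contra hc
          have h5 : (5 : ℝ) ≤ kk (ev v0) := by exact_mod_cast (by omega : 5 ≤ kk (ev v0))
          nlinarith
        refine ⟨a, htop, Function.update kk (ev v0) (kk (ev v0) + 1), ?_, ?_, ?_⟩
        · intro x hx
          by_cases hxe : x = ev v0
          · rw [hxe, Function.update_self]; omega
          · rw [Function.update_of_ne hxe]; exact hkk x hx
        all_goals
          have hsum : ∑ x ∈ Ev, 2 * wE x * (Function.update kk (ev v0) (kk (ev v0) + 1) x : ℕ) =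
              ∑ x ∈ Ev, 2 * wE x * kk x + 2 * wE (ev v0) := by
            rw [← Finset.add_sum_erase _ _ hx0,
              ← Finset.add_sum_erase _ (fun x => 2 * wE x * (kk x : ℝ)) hx0]
            have h1 : ∑ x ∈ Ev.erase (ev v0), 2 * wE x *
                (Function.update kk (ev v0) (kk (ev v0) + 1) x : ℕ) =
                ∑ x ∈ Ev.erase (ev v0), 2 * wE x * kk x := by
              apply Finset.sum_congr rfl
              intro x hx
              rw [Function.update_of_ne (Finset.ne_of_mem_erase hx)]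
            rw [h1, Function.update_self]
            push_cast
            ring
          have hZ' : A + 2 - ∑ x ∈ Ev, 2 * wE x *
              (Function.update kk (ev v0) (kk (ev v0) + 1) x : ℕ) = Z - 2 * wE (ev v0) := by
            rw [hsum, hZdef]; ring
          have hZ'ge : A + 2 - lam ≤ Z - 2 * wE (ev v0) := by
            rw [← hZ']
            apply hgen
            intro x hx
            by_cases hxe : x = ev v0
            · rw [hxe, Function.update_self]; omega
            · rw [Function.update_of_ne hxe]; exact hkk x hx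
          rw [hZ']
        · refine (hpath.trans (Nat.zero_le _) hlt.le hb).low (lt_of_le_of_lt (Nat.zero_le _) hlt)
            ?_ ?_
          · have h1 := abs_bump_le (t := D.Tsum v0) (D.w_pos v0 hv0) hv0t
            rw [abs_le, hw0] at h1
            rw [hw0]
            linarith [h1.1, habs.1, habs.2]
          · rw [hY]
            constructor <;> linarith
        · intro x hx hk
          by_cases hxe : x = ev v0
          · refine ⟨v0, hv0, hac, hxe.symm, by rw [hv0pt]; exact Finset.mem_insert_self a s, ?_⟩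
            rw [hxe, Function.update_self]
            push_cast
            have h3 : 9 / 20 * wE (ev v0) * ((kk (ev v0) : ℝ) + 1 - 1) =
                9 / 20 * wE (ev v0) * kk (ev v0) := by ring
            rw [h3]
            linarith
          · rw [Function.update_of_ne hxe] at hk ⊢
            obtain ⟨v1, hv1, hv1a, hv1e, hv1p, hv1R⟩ := hev x hx hk
            exact ⟨v1, hv1, hv1a, hv1e, Finset.mem_insert_of_mem hv1p, by linarith⟩
      · -- not adverse
        refine ⟨a, htop, kk, hkk, ?_, ?_⟩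
        · exact (hpath.trans (Nat.zero_le _) hlt.le hb).low (lt_of_le_of_lt (Nat.zero_le _) hlt)
            (le_bump (D.w_pos v0 hv0) (not_lt.1 hneg)) hZmem
        · intro x hx hk
          obtain ⟨v1, hv1, hv1a, hv1e, hv1p, hv1R⟩ := hev x hx hk
          exact ⟨v1, hv1, hv1a, hv1e, Finset.mem_insert_of_mem hv1p, hv1R⟩
    · push Not at htch
      refine ⟨a, htop, kk, hkk, ?_, ?_⟩
      · exact hpath.trans (Nat.zero_le _) (D.cut_mono hSa.le)
          (D.to_cut_none hSa hbet hZmem fun v hv hpt => htch v hv hpt)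
      · intro x hx hk
        obtain ⟨v1, hv1, hv1a, hv1e, hv1p, hv1R⟩ := hev x hx hk
        exact ⟨v1, hv1, hv1a, hv1e, Finset.mem_insert_of_mem hv1p, hv1R⟩

theorem climb {ι : Type*} [DecidableEq ι] {V : Finset ι} {R w t pt : ι → ℝ} {A lam : ℝ} {n : ℕ}
    (H : Climb V R w t pt A lam n) (st sg : ι → ℕ) (q m : ℕ) (hm : 0 < m)
    (e : ℕ → ℕ → ℝ → ℝ)
    (hst : ∀ v ∈ V, st v < q) (hsg : ∀ v ∈ V, sg v < m)
    (hinj : ∀ v ∈ V, ∀ v' ∈ V, st v = st v' → sg v = sg v' → v = v')
    (ha : ∀ k < q, ∀ j < m, (∀ v ∈ V, ¬ (st v = k ∧ sg v = j)) →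
      ∀ y, A - 1 ≤ y → y ≤ A + 3 → e k j y = y)
    (hb : ∀ v ∈ V, ∀ y, A - 1 ≤ y → y ≤ A + 3 → e (st v) (sg v) y = bump (R v) (w v) (t v) y)
    (hc : ∀ v ∈ V, ∀ v' ∈ V, pt v < pt v' → st v < st v') :
    ∃ Z, A + 3 / 2 ≤ Z ∧ LowPath q m e (A - 1) (A + 3) A Z := by
  have hdiv : ∀ v ∈ V, (st v * m + sg v) / m = st v := by
    intro v hv
    rw [Nat.mul_comm, Nat.mul_add_div hm, Nat.div_eq_of_lt (hsg v hv), add_zero]
  have hmod : ∀ v ∈ V, (st v * m + sg v) % m = sg v := by
    intro v hv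
    rw [Nat.mul_comm, Nat.mul_add_mod, Nat.mod_eq_of_lt (hsg v hv)]
  let D : ClimbScene ι :=
    { N := q * m
      e := fun i => e (i / m) (i % m)
      Y := Set.Icc (A - 1) (A + 3)
      V := V
      idx := fun v => st v * m + sg v
      R := R
      w := w
      t := t
      pt := pt
      idx_lt := by
        intro v hv
        have h1 := hst v hv
        have h2 := hsg v hv
        calc st v * m + sg v < st v * m + m := by omega
          _ = (st v + 1) * m := by ring
          _ ≤ q * m := Nat.mul_le_mul_right m h1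
      idx_inj := by
        intro v hv v' hv' h
        have h : st v * m + sg v = st v' * m + sg v' := h
        apply hinj v hv v' hv'
        · rw [← hdiv v hv, h, hdiv v' hv']
        · rw [← hmod v hv, h, hmod v' hv']
      w_pos := fun v hv => (H.hw v hv).1
      w_le := fun v hv => (H.hw v hv).2
      off := by
        intro i hi hno y hy
        rw [ha (i / m) (Nat.div_lt_of_lt_mul (by rwa [Nat.mul_comm])) (i % m) (Nat.mod_lt i hm)
          ?_ y hy.1 hy.2]
        intro v hv h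
        apply hno v hv
        simp only [h.1, h.2]
        exact Nat.div_add_mod' i m
      on := by
        intro v hv y hy
        simp only [hdiv v hv, hmod v hv]
        rw [hb v hv y hy.1 hy.2]
      order := by
        intro v hv v' hv' h
        have h1 := hc v hv v' hv' h
        have h2 := hsg v hv
        calc st v * m + sg v < st v * m + m := by omega
          _ = (st v + 1) * m := by ring
          _ ≤ st v' * m := Nat.mul_le_mul_right m h1
          _ ≤ _ := Nat.le_add_right _ _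
      same := H.hd }
  obtain ⟨P, hP, hearly, hsum, acc, κ, hdec, Ev, ev, wE, hlate, hacc, hinc, hwE, hsumE⟩ := H.hg
  have hn := H.hn
  have hn0 : (n : ℝ) ≠ 0 := by
    have : (0 : ℝ) < n := by exact_mod_cast (by omega : 0 < n)
    exact this.ne'
  have hburst := climb_burst D (A := A) hn rfl P hP
    (fun v hv h => by obtain ⟨a, h1, h2, -⟩ := hearly v hv h; exact ⟨a, h1, h2⟩) hsum n le_rfl
  have hn1 : ¬ n = 0 := by omega
  simp only [hn1, if_false] at hburst
  have h2n : A + 2 * (n : ℝ) / n = A + 2 := by field_simp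
  rw [h2n] at hburst
  -- late part
  let s : Finset ℝ := (V.filter fun v => P (n - 1) < pt v).image pt
  obtain ⟨S, hS, kk, hkk, hpath, -⟩ := climb_late D (A := A) (lam := lam) (P0 := P (n - 1))
    H.lam_le rfl acc Ev ev wE hlate hacc hinc hwE hsumE hburst s
    (by
      intro x hx
      obtain ⟨v, hv, rfl⟩ := Finset.mem_image.1 hx
      obtain ⟨h1, h2⟩ := Finset.mem_filter.1 hv
      exact ⟨v, h1, rfl, h2⟩)
    (by
      intro v hv h1 y _ _
      exact Finset.mem_image.2 ⟨v, Finset.mem_filter.2 ⟨hv, h1⟩, rfl⟩)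
  set Z : ℝ := A + 2 - ∑ x ∈ Ev, 2 * wE x * kk x with hZdef
  have hZle : Z ≤ A + 2 := by
    have : 0 ≤ ∑ x ∈ Ev, 2 * wE x * kk x :=
      Finset.sum_nonneg fun x hx => by have := hwE x hx; positivity
    linarith
  have hZge : A + 2 - lam ≤ Z := by
    have : ∑ x ∈ Ev, 2 * wE x * kk x ≤ ∑ x ∈ Ev, 10 * wE x := by
      apply Finset.sum_le_sum
      intro x hx
      have h1 := hwE x hx
      have h2 : (kk x : ℝ) ≤ 5 := by exact_mod_cast hkk x hx
      nlinarith
    linarith
  have hlam := H.lam_le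
  have hZY : Z ∈ Set.Icc (A - 1) (A + 3) := ⟨by linarith, by linarith⟩
  have hall : ∀ v ∈ V, pt v ≤ S := by
    intro v hv
    by_cases hv1 : P (n - 1) < pt v
    · have hmem : pt v ∈ s := Finset.mem_image.2 ⟨v, Finset.mem_filter.2 ⟨hv, hv1⟩, rfl⟩
      rcases hS with ⟨h1, -⟩ | ⟨-, h1⟩
      · rw [h1] at hmem; simp at hmem
      · exact h1 _ hmem
    · have h2 : P (n - 1) ≤ S := by
        rcases hS with ⟨-, h1⟩ | ⟨h1, -⟩
        · exact h1.ge
        · obtain ⟨v', hv', h3⟩ := Finset.mem_image.1 h1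
          have := (Finset.mem_filter.1 hv').2
          linarith
      linarith [not_lt.1 hv1]
  have hlast : CLP D.e D.Y (D.cut S) Z D.N Z := by
    apply D.block_none D.cut_le le_rfl hZY
    intro v hv h1 _
    exfalso
    have := D.lt_cut hv (hall v hv)
    omega
  obtain ⟨p, h1, h2, h3, h4⟩ := hpath.trans (Nat.zero_le _) D.cut_le hlast
  refine ⟨Z, by linarith, p, h1, h2, ?_, ?_⟩
  · intro i hi
    exact h3 i (Nat.zero_le _) hi
  · intro i hi
    exact h4 i (Nat.zero_le _) hi

end Pool.Agent.Helper22.Slip
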