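import Pool.Agent.Helper22.Slip.C1
import Pool.Agent.Helper22.Slip.C2

/-!
# C4: transfer from the model to the actual orbit
-/

namespace Pool.Agent.Helper22.Slip

open Pool.Agent.Helper76.Slip (G rot T)
open Filter Set

/-! ### C4: transfer from the model to the actual orbit -/

/-- The periodised rescaling of `g`. -/
noncomputable def c4per (q : ℕ) (g : ℝ → ℝ) (x : ℝ) : ℝ := round x + g (q * (x - round x)) / q

lemma c4_per_add (q : ℕ) (g : ℝ → ℝ) (x : ℝ) : c4per q g (x + 1) = c4per q g x + 1 := by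
  unfold c4per
  rw [round_add_one]
  push_cast
  rw [show x + 1 - ((round x : ℝ) + 1) = x - round x by ring]
  ring

/-- Conditions on the function to be periodised. -/
structure C4Ok (q : ℕ) (M0 : ℝ) (g : ℝ → ℝ) : Prop where
  mono : Monotone g
  far : ∀ u, M0 ≤ |u| → g u = u
  near : ∀ u, |u| ≤ M0 → |g u| ≤ M0
  q_pos : 0 < q
  M0_nonneg : 0 ≤ M0
  M0_le : 2 * M0 < q

lemma C4Ok.abs_le {q : ℕ} {M0 : ℝ} {g : ℝ → ℝ} (h : C4Ok q M0 g) {u L : ℝ} (hu : |u| ≤ L)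
    (hL : M0 ≤ L) : |g u| ≤ L := by
  rcases le_total (|u|) M0 with h1 | h1
  · exact (h.near u h1).trans hL
  · rw [h.far u h1]; exact hu

lemma c4_per_eq {q : ℕ} {M0 : ℝ} {g : ℝ → ℝ} (h : C4Ok q M0 g) (x : ℝ) (z : ℤ)
    (hx : |x - z| ≤ 1 / 2) : c4per q g x = z + g (q * (x - z)) / q := by
  have hq : (0 : ℝ) < q := by exact_mod_cast h.q_pos
  by_cases hz : round x = z
  · unfold c4per; rw [hz]
  · have h1 := abs_sub_round x
    have h2 : (1 : ℝ) ≤ |(round x : ℝ) - z| := by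
      have : (1 : ℤ) ≤ |round x - z| := Int.one_le_abs (sub_ne_zero.2 hz)
      exact_mod_cast this
    have h3 : |(round x : ℝ) - z| ≤ |x - round x| + |x - z| := by
      have := abs_sub_le (round x : ℝ) x z
      rw [abs_sub_comm (round x : ℝ) x] at this
      exact this
    have h4 : |x - round x| = 1 / 2 := by linarith
    have h5 : |x - z| = 1 / 2 := by linarith
    have h6 : M0 ≤ |(q : ℝ) * (x - round x)| := by
      rw [abs_mul, abs_of_pos hq, h4]; linarith [h.M0_le]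
    have h7 : M0 ≤ |(q : ℝ) * (x - z)| := by
      rw [abs_mul, abs_of_pos hq, h5]; linarith [h.M0_le]
    unfold c4per
    rw [h.far _ h6, h.far _ h7]
    field_simp
    ring

lemma c4_per_far {q : ℕ} {M0 : ℝ} {g : ℝ → ℝ} (h : C4Ok q M0 g) (x : ℝ)
    (hx : M0 ≤ |(q : ℝ) * (x - round x)|) : c4per q g x = x := by
  have hq : (0 : ℝ) < q := by exact_mod_cast h.q_pos
  unfold c4per
  rw [h.far _ hx]
  field_simp
  ring

lemma c4_per_near {q : ℕ} {M0 : ℝ} {g : ℝ → ℝ} (h : C4Ok q M0 g) (x : ℝ) :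
    |c4per q g x - round x| ≤ 1 / 2 := by
  have hq : (0 : ℝ) < q := by exact_mod_cast h.q_pos
  unfold c4per
  rw [add_sub_cancel_left, abs_div, abs_of_pos hq, div_le_iff₀ hq]
  have h1 : |(q : ℝ) * (x - round x)| ≤ q / 2 := by
    rw [abs_mul, abs_of_pos hq]
    have := abs_sub_round x
    nlinarith
  have := h.abs_le h1 (by linarith [h.M0_le])
  linarith

lemma c4_round_mono {x y : ℝ} (h : x ≤ y) : round x ≤ round y := by
  rw [round_eq, round_eq]
  exact Int.floor_le_floor (by linarith)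

lemma c4_per_mono {q : ℕ} {M0 : ℝ} {g : ℝ → ℝ} (h : C4Ok q M0 g) : Monotone (c4per q g) := by
  intro x y hxy
  have hq : (0 : ℝ) < q := by exact_mod_cast h.q_pos
  rcases (c4_round_mono hxy).lt_or_eq with h1 | h1
  · have h2 := abs_le.1 (c4_per_near h x)
    have h3 := abs_le.1 (c4_per_near h y)
    have h4 : (round x : ℝ) + 1 ≤ round y := by exact_mod_cast h1
    linarith [h2.2, h3.1]
  · unfold c4per
    rw [h1]
    have : g (q * (x - round y)) ≤ g (q * (y - round y)) := by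
      apply h.mono
      apply mul_le_mul_of_nonneg_left _ hq.le
      linarith
    have := div_le_div_of_nonneg_right this hq.le
    linarith

lemma c4_per_inv {q : ℕ} {M0 : ℝ} {g g' : ℝ → ℝ} (h : C4Ok q M0 g) (h' : C4Ok q M0 g')
    (hg : ∀ u, g (g' u) = u) (x : ℝ) : c4per q g (c4per q g' x) = x := by
  have hq : (0 : ℝ) < q := by exact_mod_cast h.q_pos
  rw [c4_per_eq h _ (round x) (c4_per_near h' x)]
  have : (q : ℝ) * (c4per q g' x - round x) = g' (q * (x - round x)) := by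
    unfold c4per
    field_simp
    ring
  rw [this, hg]
  field_simp
  ring

/-- The unit given by the periodised rescalings. -/
noncomputable def c4psi (q : ℕ) (M0 : ℝ) (g g' : ℝ → ℝ) (h : C4Ok q M0 g) (h' : C4Ok q M0 g')
    (hg : ∀ u, g (g' u) = u) (hg' : ∀ u, g' (g u) = u) : G where
  val := ⟨⟨c4per q g, c4_per_mono h⟩, c4_per_add q g⟩
  inv := ⟨⟨c4per q g', c4_per_mono h'⟩, c4_per_add q g'⟩
  val_inv := by
    ext x
    exact c4_per_inv h h' hg x
  inv_val := by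
    ext x
    exact c4_per_inv h' h hg' x

/-! ### The gates as a flow -/

lemma c4_gmap_add {X ω t : ℕ → ℝ} {n : ℕ} (h : GatesDisjoint X ω n) (s s' u : ℝ) :
    gmap X ω t s n (gmap X ω t s' n u) = gmap X ω t (s + s') n u := by
  by_cases hu : ∃ a < n, |u - X a| ≤ ω a
  · obtain ⟨a, ha, hua⟩ := hu
    have hw := h.1 a ha
    have h1 := abs_bump_le (R := X a) (w := ω a) (t := s' * t a) hw hua
    rw [gmap_of_mem h s' ha hua, gmap_of_mem h s ha h1, gmap_of_mem h (s + s') ha hua,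
      ← bump_add _ _ _ _ _ hw]
    congr 1
    ring
  · push Not at hu
    have h1 : ∀ a < n, ω a ≤ |u - X a| := fun a ha => (hu a ha).le
    rw [gmap_of_far h s' h1, gmap_of_far h s h1, gmap_of_far h _ h1]

lemma c4_gmap_zero {X ω t : ℕ → ℝ} {n : ℕ} (h : GatesDisjoint X ω n) (u : ℝ) :
    gmap X ω t 0 n u = u := by
  by_cases hu : ∃ a < n, |u - X a| ≤ ω a
  · obtain ⟨a, ha, hua⟩ := hu
    rw [gmap_of_mem h 0 ha hua, zero_mul, bump_zero _ _ _ (h.1 a ha)]
  · push Not at hu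
    exact gmap_of_far h 0 fun a ha => (hu a ha).le

lemma c4_ok {X ω t : ℕ → ℝ} {n : ℕ} (h : GatesDisjoint X ω n) {M0 : ℝ}
    (hM0 : ∀ a < n, |X a| + ω a ≤ M0) (h0 : 0 ≤ M0) (s : ℝ) {q : ℕ} (hq : 0 < q)
    (hq' : 2 * M0 < q) : C4Ok q M0 (gmap X ω t s n) where
  mono := (gmap_strictMono h s).monotone
  far := by
    intro u hu
    apply gmap_of_far h
    intro a ha
    have h1 := hM0 a ha
    have h2 := abs_sub_abs_le_abs_sub u (X a)
    linarith
  near := by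
    intro u hu
    by_cases hh : ∃ a < n, |u - X a| ≤ ω a
    · obtain ⟨a, ha, hua⟩ := hh
      rw [gmap_of_mem h s ha hua]
      have h1 := abs_bump_le (R := X a) (w := ω a) (t := s * t a) (h.1 a ha) hua
      have h2 := hM0 a ha
      have h3 := abs_sub_abs_le_abs_sub (bump (X a) (ω a) (s * t a) u) (X a)
      linarith
    · push Not at hh
      rw [gmap_of_far h s fun a ha => (hh a ha).le]
      exact hu
  q_pos := hq
  M0_nonneg := h0
  M0_le := hq'

/-- The homeomorphism given by the gates. -/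
lemma c4_exists_psi {X ω t : ℕ → ℝ} {n : ℕ} (h : GatesDisjoint X ω n) {M0 : ℝ}
    (hM0 : ∀ a < n, |X a| + ω a ≤ M0) (h0 : 0 ≤ M0) {q : ℕ} (hq : 0 < q)
    (hq' : 2 * M0 < q) : ∃ ψ : G, ∀ s : ℤ, |s| ≤ 1 → ∀ x, (ψ ^ s : G) x =
      c4per q (gmap X ω t s n) x := by
  have h1 := c4_ok (t := t) h hM0 h0 1 hq hq'
  have h2 := c4_ok (t := t) h hM0 h0 (-1) hq hq'
  refine ⟨c4psi q M0 (gmap X ω t 1 n) (gmap X ω t (-1) n) h1 h2 ?_ ?_, ?_⟩
  · intro u
    rw [c4_gmap_add h, show (1 : ℝ) + -1 = 0 by ring, c4_gmap_zero h]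
  · intro u
    rw [c4_gmap_add h, show (-1 : ℝ) + 1 = 0 by ring, c4_gmap_zero h]
  · intro s hs x
    have hs' : s = -1 ∨ s = 0 ∨ s = 1 := by
      rcases abs_le.1 hs with ⟨h3, h4⟩
      omega
    rcases hs' with rfl | rfl | rfl
    · rw [zpow_neg_one]
      push_cast
      rfl
    · rw [zpow_zero]
      have hq0 : (0 : ℝ) < q := by exact_mod_cast hq
      show x = _
      unfold c4per
      rw [Int.cast_zero, c4_gmap_zero h]
      field_simp
      ring
    · rw [zpow_one]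
      push_cast
      rfl

/-! ### The local estimates -/

lemma c4_stage_apply (K ψ : G) (s : ℤ) (x : ℝ) :
    stage K ψ s x = K ((ψ ^ s : G) ((K⁻¹ : G) x)) := rfl

lemma c4_add_int (K : G) (x : ℝ) (z : ℤ) : K (x + z) = K x + z :=
  (K : CircleDeg1Lift).map_add_int x z

lemma c4_monoG (K : G) : Monotone K := (K : CircleDeg1Lift).monotone

lemma c4_near {q : ℕ} {M0 : ℝ} {g : ℝ → ℝ} (h : C4Ok q M0 g) {P K : G}
    (hP : ∀ x, P x = c4per q g x) {φ ρ M ε : ℝ} (hM : M0 ≤ M) (hq : 2 * M ≤ q)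
    (hK : ∀ u : ℝ, |u| ≤ M → |(q : ℝ) * (K (u / q) - φ) - ρ * u| ≤ ε) (ζ : ℝ) (z : ℤ) {u : ℝ}
    (hu : u = q * (K⁻¹ : G) (φ + ζ / q)) (huM : |u| ≤ M) :
    |ρ * u - ζ| ≤ ε ∧
      (φ + ζ / q + z) + (ρ * (g u - u) - 2 * ε) / q ≤ K (P ((K⁻¹ : G) (φ + ζ / q + z))) := by
  have hq0 : (0 : ℝ) < q := by exact_mod_cast h.q_pos
  have e1 : (K⁻¹ : G) (φ + ζ / q) = u / q := by rw [hu]; field_simp
  have e2 : K (u / q) = φ + ζ / q := by
    rw [← e1]; exact CircleDeg1Lift.units_apply_inv_apply K _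
  have h1 := hK u huM
  rw [e2] at h1
  have e3 : (q : ℝ) * (φ + ζ / q - φ) = ζ := by field_simp; ring
  rw [e3, abs_sub_comm] at h1
  refine ⟨h1, ?_⟩
  rw [c4_add_int, e1, hP]
  have e4 : c4per q g (u / q + z) = g u / q + z := by
    rw [c4_per_eq h _ z]
    · rw [add_sub_cancel_right, mul_div_cancel₀ _ hq0.ne']; ring
    · rw [add_sub_cancel_right, abs_div, abs_of_pos hq0, div_le_iff₀ hq0]; linarith
  rw [e4, c4_add_int]
  have h2 := hK (g u) (h.abs_le huM hM)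
  have h3 := (abs_le.1 h2).1
  have h4 := abs_le.1 h1
  have h5 : φ + (ρ * g u - ε) / q ≤ K (g u / q) := by
    have : (ρ * g u - ε) / q ≤ K (g u / q) - φ := by
      rw [div_le_iff₀ hq0]; linarith
    linarith
  have h6 : ζ / q + (ρ * (g u - u) - 2 * ε) / q ≤ (ρ * g u - ε) / q := by
    rw [← add_div]
    apply div_le_div_of_nonneg_right _ hq0.le
    linarith [h4.1, h4.2]
  linarith

lemma c4_far_sign {q : ℕ} (hq0 : 0 < q) {K : G} {φ ρ M ε : ℝ} (hM0 : 0 ≤ M)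
    (hK : ∀ u : ℝ, |u| ≤ M → |(q : ℝ) * (K (u / q) - φ) - ρ * u| ≤ ε) (ζ : ℝ) {u : ℝ}
    (hu : u = q * (K⁻¹ : G) (φ + ζ / q)) :
    (M < u → ρ * M - ε ≤ ζ) ∧ (u < -M → ζ ≤ -(ρ * M - ε)) := by
  have hq0' : (0 : ℝ) < q := by exact_mod_cast hq0
  have e1 : (K⁻¹ : G) (φ + ζ / q) = u / q := by rw [hu]; field_simp
  have e2 : K (u / q) = φ + ζ / q := by
    rw [← e1]; exact CircleDeg1Lift.units_apply_inv_apply K _
  constructor
  · intro h
    have h1 := (abs_le.1 (hK M (by rw [abs_of_nonneg hM0]))).1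
    have h2 : K (M / q) ≤ K (u / q) :=
      c4_monoG K (div_le_div_of_nonneg_right h.le hq0'.le)
    rw [e2] at h2
    have h3 : (q : ℝ) * (K (M / q) - φ) ≤ q * (ζ / q) :=
      mul_le_mul_of_nonneg_left (by linarith) hq0'.le
    rw [mul_div_cancel₀ _ hq0'.ne'] at h3
    linarith
  · intro h
    have h1 := (abs_le.1 (hK (-M) (by rw [abs_neg, abs_of_nonneg hM0]))).2
    have h2 : K (u / q) ≤ K (-M / q) :=
      c4_monoG K (div_le_div_of_nonneg_right h.le hq0'.le)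
    rw [e2] at h2
    have h3 : (q : ℝ) * (ζ / q) ≤ q * (K (-M / q) - φ) :=
      mul_le_mul_of_nonneg_left (by linarith) hq0'.le
    rw [mul_div_cancel₀ _ hq0'.ne'] at h3
    linarith

lemma c4_far {q : ℕ} {M0 : ℝ} {g : ℝ → ℝ} (h : C4Ok q M0 g) {P K : G}
    (hP : ∀ x, P x = c4per q g x) {φ ρ M ε : ℝ} (hM : M0 ≤ M)
    (hK : ∀ u : ℝ, |u| ≤ M → |(q : ℝ) * (K (u / q) - φ) - ρ * u| ≤ ε) (ζ : ℝ) (z : ℤ) {u : ℝ}
    (hu : u = q * (K⁻¹ : G) (φ + ζ / q)) (huM : M < |u|) (hζ : |ζ| + ρ * M + ε < q) :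
    K (P ((K⁻¹ : G) (φ + ζ / q + z))) = φ + ζ / q + z := by
  have hq0 : (0 : ℝ) < q := by exact_mod_cast h.q_pos
  have hM0 := h.M0_nonneg
  have e1 : (K⁻¹ : G) (φ + ζ / q) = u / q := by rw [hu]; field_simp
  have e2 : K (u / q) = φ + ζ / q := by
    rw [← e1]; exact CircleDeg1Lift.units_apply_inv_apply K _
  rw [c4_add_int, e1, hP, c4_per_far h]
  · rw [c4_add_int, e2]
  · rw [round_add_intCast]
    push_cast
    rw [show u / q + z - ((round (u / q) : ℝ) + z) = u / q - round (u / q) by ring]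
    by_contra hc
    push Not at hc
    rw [abs_mul, abs_of_pos hq0] at hc
    rcases lt_trichotomy (round (u / q)) 0 with hr | hr | hr
    · have hr' : (round (u / q) : ℝ) ≤ -1 := by exact_mod_cast (by omega : round (u / q) ≤ -1)
      have h1 : u / q ≤ M / q + (-1 : ℤ) := by
        have h2 := (le_abs_self (u / q - round (u / q)))
        have h3 : |u / q - round (u / q)| < M0 / q := by
          rw [lt_div_iff₀ hq0]; linarith
        have h4 : M0 / q ≤ M / q := div_le_div_of_nonneg_right hM hq0.le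
        push_cast
        linarith
      have h2 := c4_monoG K h1
      rw [e2, c4_add_int] at h2
      have h3 := (abs_le.1 (hK M (by rw [abs_of_nonneg (hM0.trans hM)]))).2
      have h4 : (q : ℝ) * (ζ / q) ≤ q * (K (M / q) - φ + (-1 : ℤ)) :=
        mul_le_mul_of_nonneg_left (by linarith) hq0.le
      rw [mul_div_cancel₀ _ hq0.ne'] at h4
      push_cast at h4
      have h5 := neg_abs_le ζ
      nlinarith
    · rw [hr, Int.cast_zero, sub_zero, abs_div, abs_of_pos hq0, mul_div_cancel₀ _ hq0.ne'] at hc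
      linarith
    · have hr' : (1 : ℝ) ≤ round (u / q) := by exact_mod_cast hr
      have h1 : -M / q + (1 : ℤ) ≤ u / q := by
        have h2 := (neg_abs_le (u / q - round (u / q)))
        have h3 : |u / q - round (u / q)| < M0 / q := by
          rw [lt_div_iff₀ hq0]; linarith
        have h4 : M0 / q ≤ M / q := div_le_div_of_nonneg_right hM hq0.le
        push_cast
        rw [neg_div]
        linarith
      have h2 := c4_monoG K h1
      rw [e2, c4_add_int] at h2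
      have h3 := (abs_le.1 (hK (-M) (by rw [abs_neg, abs_of_nonneg (hM0.trans hM)]))).1
      have h4 : (q : ℝ) * (K (-M / q) - φ + (1 : ℤ)) ≤ q * (ζ / q) :=
        mul_le_mul_of_nonneg_left (by linarith) hq0.le
      rw [mul_div_cancel₀ _ hq0.ne'] at h4
      push_cast at h4
      have h5 := le_abs_self ζ
      nlinarith

/-- The comparison of one actual visit with the model. -/
lemma c4_visit {X ω t : ℕ → ℝ} {n : ℕ} (hdis : GatesDisjoint X ω n) {M0 : ℝ}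
    (hM0 : ∀ a < n, |X a| + ω a ≤ M0) (h0 : 0 ≤ M0) (ht : ∀ a < n, |t a| ≤ 1)
    {q : ℕ} (hq0 : 0 < q) {s : ℤ} (hs : |s| ≤ 1) {P K : G}
    (hP : ∀ x, P x = c4per q (gmap X ω t s n) x) {φ ρ M ε : ℝ} (hM : M = M0 + 3)
    (hq : 2 * M ≤ q) (hε : 0 < ε) (hρ : 0 ≤ ρ) (hερ : 0 < ρ → ε ≤ ρ)
    (hK : ∀ u : ℝ, |u| ≤ M → |(q : ℝ) * (K (u / q) - φ) - ρ * u| ≤ ε) (ζ ξ y : ℝ) (z : ℤ)
    (hζ : |ζ| + ρ * M + ε < q) (hy : |ξ + y - ζ| ≤ 2 * ε) :
    (φ + ζ / q + z) + (lev X ω t n ρ ξ s y - y - 18 * ε) / q ≤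
      K (P ((K⁻¹ : G) (φ + ζ / q + z))) := by
  have hq0' : (0 : ℝ) < q := by exact_mod_cast hq0
  have hok := c4_ok (t := t) hdis hM0 h0 s hq0 (by linarith : 2 * M0 < q)
  have hM' : M0 ≤ M := by linarith
  set g := gmap X ω t s n with hg
  set u := (q : ℝ) * (K⁻¹ : G) (φ + ζ / q) with hu
  have hy' := abs_le.1 hy
  rcases le_or_gt (|u|) M with huM | huM
  · obtain ⟨h1, h2⟩ := c4_near hok hP hM' hq hK ζ z hu huM
    refine le_trans ?_ h2
    have h1' := abs_le.1 h1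
    apply add_le_add_right
    apply div_le_div_of_nonneg_right _ hq0'.le
    unfold lev
    split_ifs with hpos
    · rw [← hg]
      set v := (ξ + y) / ρ with hv
      have hv' : ρ * v = ξ + y := by rw [hv]; field_simp
      rcases le_total v u with hvu | hvu
      · have h3 := mul_le_mul_of_nonneg_left (hok.mono hvu) hρ
        nlinarith
      · have h3 := gmap_lip (t := t) hdis (s := (s : ℝ)) (n := n) (fun a ha => by
          rw [abs_mul]
          have hs' : |(s : ℝ)| ≤ 1 := by exact_mod_cast hs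
          calc |(s : ℝ)| * |t a| ≤ 1 * 1 :=
                mul_le_mul hs' (ht a ha) (abs_nonneg _) (by norm_num)
            _ = 1 := one_mul 1) hvu
        rw [← hg] at h3
        have h4 := mul_le_mul_of_nonneg_left h3 hρ
        nlinarith
    · have hρ0 : ρ = 0 := le_antisymm (not_lt.1 hpos) hρ
      rw [hρ0]
      linarith
  · rw [c4_far hok hP hM' hK ζ z hu huM hζ]
    have hlev : lev X ω t n ρ ξ s y = y := by
      unfold lev
      split_ifs with hpos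
      · have hsign := c4_far_sign hq0 (by linarith : (0 : ℝ) ≤ M) hK ζ hu
        have hv : M0 ≤ |(ξ + y) / ρ| := by
          rw [abs_div, abs_of_pos hpos, le_div_iff₀ hpos]
          have hε' := hερ hpos
          rcases lt_abs.1 huM with h3 | h3
          · have h4 := hsign.1 h3
            have h5 := le_abs_self (ξ + y)
            nlinarith
          · have h4 := hsign.2 (by linarith)
            have h5 := neg_abs_le (ξ + y)
            nlinarith
        rw [← hg, hok.far _ hv]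
        field_simp
        ring
      · rfl
    rw [hlev]
    have : (y - y - 18 * ε) / q ≤ 0 := by
      apply div_nonpos_of_nonpos_of_nonneg _ hq0'.le
      linarith
    linarith

/-! ### Levels -/

lemma c4_lev_lip {X ω t : ℕ → ℝ} {n : ℕ} (hdis : GatesDisjoint X ω n) (ht : ∀ a < n, |t a| ≤ 1)
    {s : ℤ} (hs : |s| ≤ 1) (ρ ξ : ℝ) {x y : ℝ} (hxy : x ≤ y) :
    lev X ω t n ρ ξ s y - lev X ω t n ρ ξ s x ≤ 4 * (y - x) := by
  unfold lev
  split_ifs with hpos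
  · have h3 := gmap_lip (t := t) hdis (s := (s : ℝ)) (n := n) (fun a ha => by
      rw [abs_mul]
      have hs' : |(s : ℝ)| ≤ 1 := by exact_mod_cast hs
      calc |(s : ℝ)| * |t a| ≤ 1 * 1 :=
            mul_le_mul hs' (ht a ha) (abs_nonneg _) (by norm_num)
        _ = 1 := one_mul 1)
      (div_le_div_of_nonneg_right (by linarith : ξ + x ≤ ξ + y) hpos.le)
    have h4 := mul_le_mul_of_nonneg_left h3 hpos.le
    have e : ρ * (4 * ((ξ + y) / ρ - (ξ + x) / ρ)) = 4 * (y - x) := by field_simp; ring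
    rw [e] at h4
    linarith
  · linarith

lemma c4_b_abs {c : ℝ} (F : Frame c) (φ : ℝ) (k : ℤ) : |(F.b φ k : ℝ)| ≤ F.q / 2 + 1 := by
  have hq : 0 < (F.q : ℤ) := by exact_mod_cast F.q_pos
  have h1 := Int.emod_nonneg ((F.k0 + k) * F.p - F.l φ + F.q / 2) hq.ne'
  have h2 := Int.emod_lt_of_pos ((F.k0 + k) * F.p - F.l φ + F.q / 2) hq
  have h3 : F.b φ k = ((F.k0 + k) * F.p - F.l φ + F.q / 2) % F.q - F.q / 2 := rfl
  have h4 : 2 * F.b φ k ≤ F.q + 1 := by omega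
  have h5 : -(F.q : ℤ) ≤ 2 * F.b φ k := by omega
  have h4' : 2 * (F.b φ k : ℝ) ≤ F.q + 1 := by exact_mod_cast h4
  have h5' : -(F.q : ℝ) ≤ 2 * (F.b φ k : ℝ) := by exact_mod_cast h5
  rw [abs_le]
  constructor <;> linarith

/-- The number of near visits is bounded. -/
lemma c4_card {c : ℝ} (F : Frame c) (φ : ℕ → ℝ) {m : ℕ} (hm : 0 < m) (B0 : ℕ) :
    ((Finset.range (F.q * m)).filter
      (fun i => |F.b (φ (i % m)) ((i / m : ℕ) : ℤ)| ≤ B0)).card ≤ m * (2 * B0 + 1) := by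
  have h1 : (Finset.range m ×ˢ Finset.Icc (-(B0 : ℤ)) B0).card = m * (2 * B0 + 1) := by
    rw [Finset.card_product, Finset.card_range, Int.card_Icc]
    congr 1
    omega
  rw [← h1]
  apply Finset.card_le_card_of_injOn
    (fun i => (i % m, F.b (φ (i % m)) ((i / m : ℕ) : ℤ)))
  · intro i hi
    rw [Finset.mem_coe, Finset.mem_filter] at hi
    rw [Finset.mem_coe, Finset.mem_product, Finset.mem_range, Finset.mem_Icc]
    exact ⟨Nat.mod_lt _ hm, (abs_le.1 hi.2).1, (abs_le.1 hi.2).2⟩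
  · intro i hi i' hi' hii
    rw [Finset.mem_coe, Finset.mem_filter, Finset.mem_range] at hi hi'
    simp only [Prod.mk.injEq] at hii
    obtain ⟨h2, h3⟩ := hii
    rw [← h2] at h3
    have hd : i / m < F.q := Nat.div_lt_of_lt_mul (by rw [mul_comm]; exact hi.1)
    have hd' : i' / m < F.q := Nat.div_lt_of_lt_mul (by rw [mul_comm]; exact hi'.1)
    have h4 := F.k_b (φ (i % m)) ((i / m : ℕ) : ℤ) (by positivity) (by exact_mod_cast hd)
    have h5 := F.k_b (φ (i % m)) ((i' / m : ℕ) : ℤ) (by positivity) (by exact_mod_cast hd')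
    rw [h3, h5] at h4
    have h6 : i' / m = i / m := by exact_mod_cast h4
    rw [← Nat.div_add_mod i m, ← Nat.div_add_mod i' m, h6, h2]

/-- The quantities entering the comparison of the orbit with the model. -/
structure C4Data (X ω t : ℕ → ℝ) (n m : ℕ) (s : ℕ → ℤ) (ρ : ℕ → ℝ) (A : ℝ) (ξ : ℕ → ℤ → ℝ)
    (M0 M ε : ℝ) (B0 : ℕ) {c : ℝ} (F : Frame c) (φ : ℕ → ℝ) (ψ : G) (K : ℕ → G) (c' : ℝ) :
    Prop where
  hdis : GatesDisjoint X ω n
  hM0 : ∀ a < n, |X a| + ω a ≤ M0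
  h0 : 0 ≤ M0
  ht : ∀ a < n, |t a| ≤ 1
  hs : ∀ j < m, |s j| ≤ 1
  hρ : ∀ j < m, 0 ≤ ρ j
  hξ : ∀ j b, |ξ j b - b| ≤ 2
  hM : M = M0 + 3
  hε : 0 < ε
  hε1 : ε ≤ 1 / 4
  hερ : ∀ j < m, 0 < ρ j → ε ≤ ρ j
  hεN : 24 * ε * 4 ^ (m * (2 * B0 + 1)) ≤ 1
  hB0 : ∀ j < m, ρ j * M + |A| + 10 ≤ B0
  hq : ∀ j < m, 2 * (ρ j * M + |A| + M + 20) < F.q
  hψ : ∀ j < m, ∀ x, (ψ ^ s j : G) x = c4per F.q (gmap X ω t (s j) n) x
  hlim : ∀ j < m, ∀ b : ℤ, |b| ≤ B0 →
    |(b : ℝ) - F.h (φ j) - F.θ * F.τ (φ j) b - ξ j b| ≤ ε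
  hK : ∀ j < m, ∀ u : ℝ, |u| ≤ M → |(F.q : ℝ) * (K j (u / F.q) - φ j) - ρ j * u| ≤ ε
  hc' : |c' - c| ≤ ε / (F.q : ℝ) ^ 2

section

variable {X ω t : ℕ → ℝ} {n m : ℕ} {s : ℕ → ℤ} {ρ : ℕ → ℝ} {A : ℝ} {ξ : ℕ → ℤ → ℝ}
  {M0 M ε : ℝ} {B0 : ℕ} {c : ℝ} {F : Frame c} {φ : ℕ → ℝ} {ψ : G} {K : ℕ → G} {c' : ℝ}

/-- The base point of step `k`. -/
noncomputable def c4base (F : Frame c) (c' : ℝ) (k : ℕ) : ℝ := (F.k0 * F.p : ℝ) / F.q + k * c'

lemma C4Data.pos (D : C4Data X ω t n m s ρ A ξ M0 M ε B0 F φ ψ K c') (k : ℕ) (hk : k < F.q)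
    (φ' y : ℝ) :
    ∃ (z : ℤ) (ζ : ℝ), c4base F c' k + y / F.q = φ' + ζ / F.q + z ∧
      |(F.b φ' k : ℝ) - F.h φ' - F.θ * (k / F.q) + y - ζ| ≤ ε := by
  have hq0 : (0 : ℝ) < F.q := by exact_mod_cast F.q_pos
  obtain ⟨z, hz⟩ := F.pos φ' k
  refine ⟨z, (F.b φ' k : ℝ) - F.h φ' - F.θ * (k / F.q) + y + F.q * k * (c' - c), ?_, ?_⟩
  · have h1 : (F.k0 * F.p : ℝ) / F.q + k * c - φ' =
        (F.b φ' k - F.h φ' - F.θ * (k / F.q) + F.q * z) / F.q := by
      rw [eq_div_iff hq0.ne', mul_comm]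
      push_cast at hz
      exact hz
    unfold c4base
    have h2 : (F.k0 * F.p : ℝ) / F.q + k * c' + y / F.q =
        ((F.k0 * F.p : ℝ) / F.q + k * c - φ') + (φ' + k * (c' - c) + y / F.q) := by ring
    rw [h2, h1]
    field_simp
    ring
  · have h3 : (F.b φ' k : ℝ) - F.h φ' - F.θ * (k / F.q) + y -
        ((F.b φ' k : ℝ) - F.h φ' - F.θ * (k / F.q) + y + F.q * k * (c' - c)) =
        -(F.q * k * (c' - c)) := by ring
    rw [h3, abs_neg, abs_mul, abs_mul, abs_of_pos hq0, abs_of_nonneg (Nat.cast_nonneg k)]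
    have hk' : (k : ℝ) ≤ F.q := by exact_mod_cast hk.le
    calc (F.q : ℝ) * k * |c' - c| ≤ F.q * F.q * (ε / (F.q : ℝ) ^ 2) := by
          apply mul_le_mul _ D.hc' (abs_nonneg _) (by positivity)
          exact mul_le_mul_of_nonneg_left hk' hq0.le
      _ = ε := by field_simp

lemma C4Data.θτ (F : Frame c) {k : ℕ} (hk : k < F.q) :
    0 ≤ F.θ * ((k : ℝ) / F.q) ∧ F.θ * ((k : ℝ) / F.q) ≤ 1 := by
  have hq0 : (0 : ℝ) < F.q := by exact_mod_cast F.q_pos
  have h1 := F.θ_mem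
  have h2 : (k : ℝ) / F.q ≤ 1 := by
    rw [div_le_one hq0]; exact_mod_cast hk.le
  have h3 : 0 ≤ (k : ℝ) / F.q := by positivity
  constructor
  · exact mul_nonneg h1.1.le h3
  · calc F.θ * ((k : ℝ) / F.q) ≤ 1 * 1 := mul_le_mul h1.2 h2 h3 (by norm_num)
      _ = 1 := one_mul 1

lemma C4Data.near (D : C4Data X ω t n m s ρ A ξ M0 M ε B0 F φ ψ K c') {k : ℕ} (hk : k < F.q)
    {j : ℕ} (hj : j < m) (hb : |F.b (φ j) k| ≤ B0) {y : ℝ} (hy : |y| ≤ |A| + 4) :
    c4base F c' k + (lev X ω t n (ρ j) (ξ j (F.b (φ j) k)) (s j) y - 18 * ε) / F.q ≤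
      stage (K j) ψ (s j) (c4base F c' k + y / F.q) := by
  have hq0 : (0 : ℝ) < F.q := by exact_mod_cast F.q_pos
  obtain ⟨z, ζ, h1, h2⟩ := D.pos k hk (φ j) y
  have h2' := abs_le.1 h2
  have hh : 0 ≤ F.h (φ j) ∧ F.h (φ j) < 1 := ⟨Int.fract_nonneg _, Int.fract_lt_one _⟩
  have hθ := C4Data.θτ F hk
  have hbq := abs_le.1 (c4_b_abs F (φ j) k)
  have hy' := abs_le.1 hy
  have hε1 := D.hε1
  have hρM : 0 ≤ ρ j * M := mul_nonneg (D.hρ j hj) (by linarith [D.hM, D.h0])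
  have hqq := D.hq j hj
  have hA := abs_nonneg A
  have hM := D.hM
  have hM0 := D.h0
  have hζ : |ζ| + ρ j * M + ε < F.q := by
    have : |ζ| ≤ F.q / 2 + 1 + 1 + 1 + (|A| + 4) + ε := by
      rw [abs_le]
      constructor <;> linarith [h2'.1, h2'.2, hh.1, hh.2, hθ.1, hθ.2, hbq.1, hbq.2, hy'.1, hy'.2]
    linarith
  have h3 := D.hlim j hj (F.b (φ j) k) hb
  have h4 : F.τ (φ j) (F.b (φ j) k) = (k : ℝ) / F.q := by
    unfold Frame.τ
    rw [F.k_b (φ j) k (by positivity) (by exact_mod_cast hk)]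
    push_cast
    rfl
  rw [h4] at h3
  have h3' := abs_le.1 h3
  have h5 : |ξ j (F.b (φ j) k) + y - ζ| ≤ 2 * ε := by
    rw [abs_le]
    constructor <;> linarith [h2'.1, h2'.2, h3'.1, h3'.2]
  have h6 := c4_visit D.hdis D.hM0 D.h0 D.ht F.q_pos (D.hs j hj) (D.hψ j hj) D.hM
    (by linarith : 2 * M ≤ F.q) D.hε (D.hρ j hj) (D.hερ j hj) (D.hK j hj) ζ
    (ξ j (F.b (φ j) k)) y z hζ h5
  rw [c4_stage_apply, h1]
  refine le_trans (le_of_eq ?_) h6
  rw [← h1]
  ring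

lemma C4Data.far (D : C4Data X ω t n m s ρ A ξ M0 M ε B0 F φ ψ K c') {k : ℕ} (hk : k < F.q)
    {j : ℕ} (hj : j < m) (hb : ¬ |F.b (φ j) k| ≤ B0) {y : ℝ} (hy : |y| ≤ |A| + 4) :
    stage (K j) ψ (s j) (c4base F c' k + y / F.q) = c4base F c' k + y / F.q := by
  have hq0 : (0 : ℝ) < F.q := by exact_mod_cast F.q_pos
  obtain ⟨z, ζ, h1, h2⟩ := D.pos k hk (φ j) y
  have h2' := abs_le.1 h2
  have hh : 0 ≤ F.h (φ j) ∧ F.h (φ j) < 1 := ⟨Int.fract_nonneg _, Int.fract_lt_one _⟩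
  have hθ := C4Data.θτ F hk
  have hbq := abs_le.1 (c4_b_abs F (φ j) k)
  have hy' := abs_le.1 hy
  have hε1 := D.hε1
  have hε := D.hε
  have hρM : 0 ≤ ρ j * M := mul_nonneg (D.hρ j hj) (by linarith [D.hM, D.h0])
  have hqq := D.hq j hj
  have hA := abs_nonneg A
  have hM := D.hM
  have hM0 := D.h0
  have hζ : |ζ| + ρ j * M + ε < F.q := by
    have : |ζ| ≤ F.q / 2 + 1 + 1 + 1 + (|A| + 4) + ε := by
      rw [abs_le]
      constructor <;> linarith [h2'.1, h2'.2, hh.1, hh.2, hθ.1, hθ.2, hbq.1, hbq.2, hy'.1, hy'.2]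
    linarith
  have hok := c4_ok (t := t) D.hdis D.hM0 D.h0 (s j) F.q_pos (by linarith : 2 * M0 < F.q)
  rw [c4_stage_apply, h1]
  apply c4_far hok (D.hψ j hj) (by linarith : M0 ≤ M) (D.hK j hj) ζ z rfl _ hζ
  by_contra hu
  push Not at hu
  obtain ⟨h3, -⟩ := c4_near hok (D.hψ j hj) (by linarith : M0 ≤ M) (by linarith : 2 * M ≤ F.q)
    (D.hK j hj) ζ z rfl hu
  push Not at hb
  have hb' : (B0 : ℝ) < |(F.b (φ j) k : ℝ)| := by exact_mod_cast hb
  have hB := D.hB0 j hj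
  have h4 : |(F.b (φ j) k : ℝ)| ≤ |ζ| + 1 + 1 + (|A| + 4) + ε := by
    have h5 := le_abs_self ζ
    have h6 := neg_abs_le ζ
    rw [abs_le]
    constructor <;> linarith [h2'.1, h2'.2, hh.1, hh.2, hθ.1, hθ.2, hy'.1, hy'.2]
  have h5 : |ζ| ≤ ρ j * M + ε := by
    set u := (F.q : ℝ) * ((K j)⁻¹ : G) (φ j + ζ / F.q)
    have h6 : |ρ j * u| ≤ ρ j * M := by
      rw [abs_mul, abs_of_nonneg (D.hρ j hj)]
      exact mul_le_mul_of_nonneg_left hu (D.hρ j hj)
    have h6' := abs_le.1 h6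
    have h3' := abs_le.1 h3
    rw [abs_le]
    constructor <;> linarith [h3'.1, h3'.2, h6'.1, h6'.2]
  linarith

lemma C4Data.lev_far (D : C4Data X ω t n m s ρ A ξ M0 M ε B0 F φ ψ K c')
    {j : ℕ} (hj : j < m) {b : ℤ} (hb : ¬ |b| ≤ B0) {y : ℝ} (hy : |y| ≤ |A| + 4) :
    lev X ω t n (ρ j) (ξ j b) (s j) y = y := by
  apply lev_of_far D.hdis
  intro hpos a ha
  have h1 := D.hM0 a ha
  have hw := D.hdis.1 a ha
  have hB := D.hB0 j hj
  push Not at hb
  have hb' : (B0 : ℝ) < |(b : ℝ)| := by exact_mod_cast hb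
  have hξ := abs_le.1 (D.hξ j b)
  have hy' := abs_le.1 hy
  have hM := D.hM
  have h2 : ρ j * (|X a| + ω a) ≤ ρ j * M :=
    mul_le_mul_of_nonneg_left (by linarith) hpos.le
  have h3 : |ρ j * X a| = ρ j * |X a| := by rw [abs_mul, abs_of_pos hpos]
  have h4 : |(b : ℝ)| ≤ |y - (ρ j * X a - ξ j b)| + ρ j * |X a| + (|A| + 4) + 2 := by
    have h5 := le_abs_self (y - (ρ j * X a - ξ j b))
    have h6 := neg_abs_le (y - (ρ j * X a - ξ j b))
    have h7 := le_abs_self (ρ j * X a)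
    have h8 := neg_abs_le (ρ j * X a)
    rw [h3] at h7 h8
    rw [abs_le]
    constructor <;> linarith [hξ.1, hξ.2, hy'.1, hy'.2]
  nlinarith

/-- The error after `n` near visits. -/
noncomputable def c4E (ε : ℝ) (n : ℕ) : ℝ := 6 * ε * (4 ^ n - 1)

lemma c4E_succ (ε : ℝ) (n : ℕ) : c4E ε (n + 1) = 4 * c4E ε n + 18 * ε := by
  unfold c4E; ring

lemma c4E_nonneg {ε : ℝ} (hε : 0 < ε) (n : ℕ) : 0 ≤ c4E ε n := by
  unfold c4E
  have : (1 : ℝ) ≤ 4 ^ n := one_le_pow₀ (by norm_num)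
  have h2 : (0 : ℝ) ≤ 4 ^ n - 1 := by linarith
  positivity

lemma c4E_le {ε : ℝ} (hε : 0 < ε) {n N : ℕ} (hn : n ≤ N) (h : 24 * ε * 4 ^ N ≤ 1) :
    c4E ε n ≤ 1 / 4 := by
  unfold c4E
  have h1 : (4 : ℝ) ^ n ≤ 4 ^ N := pow_le_pow_right₀ (by norm_num) hn
  have h2 : ε * 4 ^ n ≤ ε * 4 ^ N := mul_le_mul_of_nonneg_left h1 hε.le
  nlinarith

/-- The number of near visits before visit `i`. -/
noncomputable def c4cnt (F : Frame c) (φ : ℕ → ℝ) (m B0 i : ℕ) : ℕ :=
  ((Finset.range i).filter (fun i => |F.b (φ (i % m)) ((i / m : ℕ) : ℤ)| ≤ B0)).card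

lemma c4cnt_succ_near (F : Frame c) (φ : ℕ → ℝ) (m B0 i : ℕ)
    (h : |F.b (φ (i % m)) ((i / m : ℕ) : ℤ)| ≤ B0) :
    c4cnt F φ m B0 (i + 1) = c4cnt F φ m B0 i + 1 := by
  unfold c4cnt
  rw [Finset.range_add_one, Finset.filter_insert, if_pos h, Finset.card_insert_of_notMem]
  simp

lemma c4cnt_succ_far (F : Frame c) (φ : ℕ → ℝ) (m B0 i : ℕ)
    (h : ¬ |F.b (φ (i % m)) ((i / m : ℕ) : ℤ)| ≤ B0) :
    c4cnt F φ m B0 (i + 1) = c4cnt F φ m B0 i := by
  unfold c4cnt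
  rw [Finset.range_add_one, Finset.filter_insert, if_neg h]

lemma c4cnt_le (F : Frame c) (φ : ℕ → ℝ) {m : ℕ} (hm : 0 < m) (B0 : ℕ) {i : ℕ}
    (hi : i ≤ F.q * m) : c4cnt F φ m B0 i ≤ m * (2 * B0 + 1) := by
  refine le_trans ?_ (c4_card F φ hm B0)
  apply Finset.card_le_card
  apply Finset.filter_subset_filter
  intro x hx
  rw [Finset.mem_range] at hx ⊢
  omega

/-- One visit. -/
lemma C4Data.step (D : C4Data X ω t n m s ρ A ξ M0 M ε B0 F φ ψ K c') {k j : ℕ} (hk : k < F.q)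
    (hj : j < m) {Z Z' : ℝ} (hZ : A - 1 ≤ Z ∧ Z ≤ A + 3)
    (hZ' : Z' ≤ lev X ω t n (ρ j) (ξ j (F.b (φ j) k)) (s j) Z) {x : ℝ}
    (hx : c4base F c' k + (Z - c4E ε (c4cnt F φ m B0 (k * m + j))) / F.q ≤ x) :
    c4base F c' k + (Z' - c4E ε (c4cnt F φ m B0 (k * m + j + 1))) / F.q ≤
      stage (K j) ψ (s j) x := by
  have hq0 : (0 : ℝ) < F.q := by exact_mod_cast F.q_pos
  have hm : 0 < m := by omega
  have hi : k * m + j ≤ F.q * m := by
    have : (k + 1) * m ≤ F.q * m := Nat.mul_le_mul_right m hk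
    nlinarith
  have hmod : (k * m + j) % m = j := by
    rw [mul_comm, Nat.mul_add_mod, Nat.mod_eq_of_lt hj]
  have hdiv : (k * m + j) / m = k := by
    rw [mul_comm, Nat.mul_add_div hm, Nat.div_eq_of_lt hj, add_zero]
  set N := c4cnt F φ m B0 (k * m + j) with hN
  have hE0 := c4E_nonneg D.hε N
  have hE1 : c4E ε N ≤ 1 / 4 := c4E_le D.hε (c4cnt_le F φ hm B0 hi) D.hεN
  set y := Z - c4E ε N with hy
  have hya : |y| ≤ |A| + 4 := by
    have h1 := le_abs_self A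
    have h2 := neg_abs_le A
    rw [abs_le]
    constructor <;> linarith [hZ.1, hZ.2]
  have hmono := c4_monoG (stage (K j) ψ (s j)) hx
  refine le_trans ?_ hmono
  by_cases hb : |F.b (φ j) k| ≤ B0
  · have h1 := D.near hk hj hb hya
    refine le_trans ?_ h1
    apply add_le_add_right
    apply div_le_div_of_nonneg_right _ hq0.le
    rw [c4cnt_succ_near F φ m B0 (k * m + j) (by rw [hmod, hdiv]; exact hb), c4E_succ]
    have h2 := c4_lev_lip D.hdis D.ht (D.hs j hj) (ρ j) (ξ j (F.b (φ j) k))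
      (by linarith : y ≤ Z)
    linarith
  · rw [D.far hk hj hb hya, c4cnt_succ_far F φ m B0 (k * m + j) (by rw [hmod, hdiv]; exact hb)]
    apply add_le_add_right
    apply div_le_div_of_nonneg_right _ hq0.le
    have hZa : |Z| ≤ |A| + 4 := by
      have h1 := le_abs_self A
      have h2 := neg_abs_le A
      rw [abs_le]
      constructor <;> linarith [hZ.1, hZ.2]
    rw [D.lev_far hj hb hZa] at hZ'
    linarith

/-- The orbit stays above the low path. -/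
lemma C4Data.orbit (D : C4Data X ω t n m s ρ A ξ M0 M ε B0 F φ ψ K c') {z : ℕ → ℝ}
    (hz0 : z 0 = A) (hz : ∀ i ≤ F.q * m, A - 1 ≤ z i ∧ z i ≤ A + 3)
    (hzs : ∀ i < F.q * m, z (i + 1) ≤
      lev X ω t n (ρ (i % m)) (ξ (i % m) (F.b (φ (i % m)) ((i / m : ℕ) : ℤ))) (s (i % m)) (z i)) :
    ∀ k ≤ F.q, c4base F c' k + (z (k * m) - c4E ε (c4cnt F φ m B0 (k * m))) / F.q ≤
      ((T c' * stageProd m K ψ s) ^ k : G) (c4base F c' 0 + A / F.q) := by
  intro k
  induction k with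
  | zero =>
    intro _
    have h1 : c4cnt F φ m B0 (0 * m) = 0 := by
      unfold c4cnt; simp
    rw [h1, zero_mul, hz0]
    have h2 : c4E ε 0 = 0 := by unfold c4E; simp
    rw [h2, sub_zero, pow_zero]
    exact le_rfl
  | succ k ih =>
    intro hk
    have hk' : k < F.q := hk
    have ih' := ih hk'.le
    set x := ((T c' * stageProd m K ψ s) ^ k : G) (c4base F c' 0 + A / F.q) with hx
    have inner : ∀ j ≤ m, c4base F c' k +
        (z (k * m + j) - c4E ε (c4cnt F φ m B0 (k * m + j))) / F.q ≤ stageProd j K ψ s x := by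
      intro j
      induction j with
      | zero =>
        intro _
        rw [add_zero]
        exact ih'
      | succ j ihj =>
        intro hj
        have hj' : j < m := hj
        have hm : 0 < m := by omega
        have hi : k * m + j < F.q * m := by
          have : (k + 1) * m ≤ F.q * m := Nat.mul_le_mul_right m hk'
          nlinarith
        have hmod : (k * m + j) % m = j := by
          rw [mul_comm, Nat.mul_add_mod, Nat.mod_eq_of_lt hj']
        have hdiv : (k * m + j) / m = k := by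
          rw [mul_comm, Nat.mul_add_div hm, Nat.div_eq_of_lt hj', add_zero]
        have h1 := hzs (k * m + j) hi
        rw [hmod, hdiv] at h1
        exact D.step hk' hj' (hz _ hi.le) h1 (ihj hj'.le)
    have h1 := inner m le_rfl
    have h2 : ((T c' * stageProd m K ψ s) ^ (k + 1) : G) (c4base F c' 0 + A / F.q) =
        c' + stageProd m K ψ s x := by
      rw [pow_succ']
      rfl
    rw [h2]
    have h3 : c4base F c' (k + 1) = c' + c4base F c' k := by
      unfold c4base; push_cast; ring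
    rw [h3, show (k + 1) * m = k * m + m by ring]
    linarith

lemma C4Data.final (D : C4Data X ω t n m s ρ A ξ M0 M ε B0 F φ ψ K c') (hm : 0 < m) {Z : ℝ}
    (hZ : A + 3 / 2 ≤ Z) (hlow : LowPath F.q m
        (fun k j y => lev X ω t n (ρ j) (ξ j (F.b (φ j) k)) (s j) y) (A - 1) (A + 3) A Z) :
    (F.p : ℝ) / F.q ≤ rot (T c' * stageProd m K ψ s) := by
  have hq0 : (0 : ℝ) < F.q := by exact_mod_cast F.q_pos
  obtain ⟨z, hz0, hz1, hz2, hz3⟩ := hlow
  have h1 := D.orbit hz0 hz2 hz3 F.q le_rfl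
  rw [hz1] at h1
  have hE := c4E_le D.hε (c4cnt_le F φ hm B0 le_rfl) D.hεN
  set f := T c' * stageProd m K ψ s with hf
  have hθ := F.θ_mem.2
  unfold Frame.θ at hθ
  have hc := abs_le.1 D.hc'
  have hε1 := D.hε1
  have h2 : (c4base F c' 0 + A / F.q) + F.p ≤ (f ^ F.q : G) (c4base F c' 0 + A / F.q) := by
    refine le_trans ?_ h1
    have h3 : c4base F c' F.q = c4base F c' 0 + F.q * c' := by
      unfold c4base; push_cast; ring
    rw [h3]
    have h4 : (F.p : ℝ) ≤ F.q * c' + (5 / 4) / F.q := by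
      have h5 : (F.q : ℝ) * c - ε / F.q ≤ F.q * c' := by
        have h6 : c - ε / (F.q : ℝ) ^ 2 ≤ c' := by linarith [hc.1]
        have h7 := mul_le_mul_of_nonneg_left h6 hq0.le
        have h8 : (F.q : ℝ) * (c - ε / (F.q : ℝ) ^ 2) = F.q * c - ε / F.q := by
          field_simp
        rw [h8] at h7
        exact h7
      have h9 : (F.p : ℝ) - F.q * c ≤ 1 / F.q := by
        rw [le_div_iff₀ hq0]; linarith
      have h10 : ε / F.q ≤ (1 / 4) / F.q := div_le_div_of_nonneg_right hε1 hq0.le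
      have h11 : (1 : ℝ) / F.q + (1 / 4) / F.q = (5 / 4) / F.q := by
        rw [← add_div]; norm_num
      linarith
    have h5 : A / F.q + (5 / 4) / F.q ≤
        (Z - c4E ε (c4cnt F φ m B0 (F.q * m))) / F.q := by
      rw [← add_div]
      apply div_le_div_of_nonneg_right _ hq0.le
      linarith
    linarith
  have h3 := Pool.Agent.Helper76.Slip.int_le_rot h2
  rw [Pool.Agent.Helper76.Slip.rot_pow] at h3
  rw [div_le_iff₀ hq0]
  linarith

end

lemma c4_exists_pos (m : ℕ) (ρ : ℕ → ℝ) :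
    ∃ r : ℝ, 0 < r ∧ ∀ j < m, 0 < ρ j → r ≤ ρ j := by
  induction m with
  | zero => exact ⟨1, one_pos, fun j hj => by omega⟩
  | succ m ih =>
    obtain ⟨r, hr, h⟩ := ih
    refine ⟨if 0 < ρ m then min r (ρ m) else r, ?_, ?_⟩
    · split_ifs with h1
      · exact lt_min hr h1
      · exact hr
    · intro j hj hpos
      have h2 : (if 0 < ρ m then min r (ρ m) else r) ≤ r := by
        split_ifs
        · exact min_le_left _ _
        · exact le_rfl
      rcases Nat.lt_succ_iff_lt_or_eq.1 hj with h3 | h3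
      · exact h2.trans (h j h3 hpos)
      · subst h3
        rw [if_pos hpos]
        exact min_le_right _ _

theorem transfer (m : ℕ) (s : ℕ → ℤ) (hs : ∀ j < m, |s j| ≤ 1) (ρ : ℕ → ℝ)
    (hρ : ∀ j < m, 0 ≤ ρ j) (n : ℕ) (X ω t : ℕ → ℝ) (hdis : GatesDisjoint X ω n)
    (ht : ∀ a < n, |t a| ≤ 1) (A : ℝ) (ξ : ℕ → ℤ → ℝ) (hξ : ∀ j b, |ξ j b - b| ≤ 2) :
    ∃ M ε : ℝ, 0 < M ∧ 0 < ε ∧ ∃ Q0 B0 : ℕ, ∀ (c : ℝ) (F : Frame c) (φ : ℕ → ℝ), Q0 ≤ F.q →
      (∀ j < m, ∀ b : ℤ, |b| ≤ B0 → |(b : ℝ) - F.h (φ j) - F.θ * F.τ (φ j) b - ξ j b| ≤ ε) →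
      (∃ Z, A + 3 / 2 ≤ Z ∧ LowPath F.q m
        (fun k j y => lev X ω t n (ρ j) (ξ j (F.b (φ j) k)) (s j) y) (A - 1) (A + 3) A Z) →
      ∃ ψ : G, ∀ K : ℕ → G,
        (∀ j < m, ∀ u : ℝ, |u| ≤ M → |(F.q : ℝ) * (K j (u / F.q) - φ j) - ρ j * u| ≤ ε) →
        ∀ c' : ℝ, |c' - c| ≤ ε / (F.q : ℝ) ^ 2 →
          (F.p : ℝ) / F.q ≤ rot (T c' * stageProd m K ψ s) := by
  classical
  set M0 : ℝ := ∑ a ∈ Finset.range n, (|X a| + ω a) with hM0
  have hnn : ∀ a ∈ Finset.range n, 0 ≤ |X a| + ω a := fun a ha => by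
    have := hdis.1 a (Finset.mem_range.1 ha)
    have := abs_nonneg (X a)
    linarith
  have hM00 : 0 ≤ M0 := Finset.sum_nonneg hnn
  have hM0a : ∀ a < n, |X a| + ω a ≤ M0 := fun a ha =>
    Finset.single_le_sum (f := fun a => |X a| + ω a) hnn (Finset.mem_range.2 ha)
  set P : ℝ := ∑ j ∈ Finset.range m, ρ j with hP
  have hPnn : ∀ j ∈ Finset.range m, 0 ≤ ρ j := fun j hj => hρ j (Finset.mem_range.1 hj)
  have hPj : ∀ j < m, ρ j ≤ P := fun j hj =>
    Finset.single_le_sum (f := ρ) hPnn (Finset.mem_range.2 hj)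
  set M : ℝ := M0 + 3 with hM
  obtain ⟨r, hr, hr'⟩ := c4_exists_pos m ρ
  obtain ⟨B0, hB0⟩ := exists_nat_ge (P * M + |A| + 10)
  obtain ⟨Q0, hQ0⟩ := exists_nat_gt (2 * (P * M + |A| + M + 20))
  set N : ℕ := m * (2 * B0 + 1) with hN
  set ε : ℝ := min (min r (1 / 4)) (1 / (24 * 4 ^ N)) with hε
  have hεpos : 0 < ε := by
    rw [hε]
    apply lt_min (lt_min hr (by norm_num))
    positivity
  have hε1 : ε ≤ 1 / 4 := (min_le_left _ _).trans (min_le_right _ _)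
  have hε2 : ε ≤ r := (min_le_left _ _).trans (min_le_left _ _)
  have hε3 : 24 * ε * 4 ^ N ≤ 1 := by
    have h1 : ε ≤ 1 / (24 * 4 ^ N) := min_le_right _ _
    rw [le_div_iff₀ (by positivity)] at h1
    linarith
  refine ⟨M, ε, by linarith, hεpos, Q0, B0, ?_⟩
  intro c F φ hq hlim ⟨Z, hZ, hlow⟩
  have hq' : 2 * (P * M + |A| + M + 20) < F.q :=
    lt_of_lt_of_le hQ0 (by exact_mod_cast hq)
  have hPM : ∀ j < m, ρ j * M ≤ P * M := fun j hj =>
    mul_le_mul_of_nonneg_right (hPj j hj) (by linarith)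
  have hP0 : 0 ≤ P := Finset.sum_nonneg hPnn
  have hPM0 : 0 ≤ P * M := mul_nonneg hP0 (by linarith)
  have hA := abs_nonneg A
  obtain ⟨ψ, hψ⟩ := c4_exists_psi (t := t) hdis hM0a hM00 F.q_pos
    (by linarith : 2 * M0 < F.q)
  refine ⟨ψ, fun K hK c' hc' => ?_⟩
  rcases Nat.eq_zero_or_pos m with hm | hm
  · exfalso
    obtain ⟨z, hz0, hz1, -, -⟩ := hlow
    rw [hm, mul_zero] at hz1
    linarith
  · refine C4Data.final (X := X) (ω := ω) (t := t) (n := n) (m := m) (s := s) (ρ := ρ) (A := A)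
      (ξ := ξ) (M0 := M0) (M := M) (ε := ε) (B0 := B0) (F := F) (φ := φ) (ψ := ψ) (K := K)
      (c' := c') ?_ hm hZ hlow
    exact
      { hdis := hdis
        hM0 := hM0a
        h0 := hM00
        ht := ht
        hs := hs
        hρ := hρ
        hξ := hξ
        hM := rfl
        hε := hεpos
        hε1 := hε1
        hερ := fun j hj hpos => hε2.trans (hr' j hj hpos)
        hεN := hε3
        hB0 := fun j hj => by linarith [hPM j hj]
        hq := fun j hj => by linarith [hPM j hj]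
        hψ := fun j hj x => hψ (s j) (hs j hj) x
        hlim := hlim
        hK := hK
        hc' := hc' }

end Pool.Agent.Helper22.Slip
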