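import Pool.Agent.Helper22.Slip.C1
import Pool.Agent.Helper22.Slip.C3

/-!
# C5: designs
-/

namespace Pool.Agent.Helper22.Slip

open Pool.Agent.Helper76.Slip (G rot T)
open Filter Set

/-! ### C5: designs -/

theorem design_lowPath {c : ℝ} (F : Frame c) (φ : ℕ → ℝ) {m : ℕ} (hm : 0 < m) {s : ℕ → ℤ}
    {ρ : ℕ → ℝ} {ξ : ℕ → ℤ → ℝ} {D : DesignData} (hD : D.Ok m s ρ ξ) {pt : ℕ × ℤ → ℝ}
    (H : Climb D.V D.R D.w D.tt pt D.A D.lam D.n)
    (hq : ∀ v ∈ D.V, 2 * |v.2| < F.q)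
    (hord : ∀ v ∈ D.V, ∀ v' ∈ D.V, pt v < pt v' →
      F.k (φ v.1) v.2 < F.k (φ v'.1) v'.2) :
    ∃ Z, D.A + 3 / 2 ≤ Z ∧ LowPath F.q m
      (fun k j y => lev D.X D.ω D.t D.n (ρ j) (ξ j (F.b (φ j) k)) (s j) y)
      (D.A - 1) (D.A + 3) D.A Z := by
  have hcast : ∀ v : ℕ × ℤ, (((F.k (φ v.1) v.2).toNat : ℕ) : ℤ) = F.k (φ v.1) v.2 := fun v =>
    Int.toNat_of_nonneg (F.k_nonneg _ _)
  refine climb H (fun v => (F.k (φ v.1) v.2).toNat) (fun v => v.1) F.q m hm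
    (fun k j y => lev D.X D.ω D.t D.n (ρ j) (ξ j (F.b (φ j) k)) (s j) y) ?_ ?_ ?_ ?_ ?_ ?_
  · intro v _
    have h1 := F.k_lt (φ v.1) v.2
    have h2 := hcast v
    show (F.k (φ v.1) v.2).toNat < F.q
    omega
  · exact fun v hv => hD.sg v hv
  · intro v hv v' hv' h1 h2
    have h3 : v.1 = v'.1 := h2
    have h4 : F.k (φ v.1) v.2 = F.k (φ v'.1) v'.2 := by
      rw [← hcast v, ← hcast v']
      exact_mod_cast h1
    have h5 : v.2 = v'.2 := by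
      rw [← F.b_k (φ v.1) v.2 (hq v hv), h4, ← h3, h3, F.b_k (φ v'.1) v'.2 (hq v' hv')]
    exact Prod.ext h3 h5
  · intro k hk j hj hno y hy1 hy2
    refine hD.out j hj (F.b (φ j) k) (fun hmem => ?_) y hy1 hy2
    refine hno (j, F.b (φ j) k) hmem ⟨?_, rfl⟩
    show (F.k (φ j) (F.b (φ j) k)).toNat = k
    rw [F.k_b (φ j) k (by omega) (by exact_mod_cast hk)]
    simp
  · intro v hv y hy1 hy2
    have h1 := hD.mem v hv y hy1 hy2
    show lev D.X D.ω D.t D.n (ρ v.1) (ξ v.1 (F.b (φ v.1) ((F.k (φ v.1) v.2).toNat : ℕ))) (s v.1) y = _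
    rw [hcast v, F.b_k (φ v.1) v.2 (hq v hv)]
    exact h1
  · intro v hv v' hv' h
    have h1 := hord v hv v' hv' h
    have h2 := hcast v
    have h3 := hcast v'
    show (F.k (φ v.1) v.2).toNat < (F.k (φ v'.1) v'.2).toNat
    omega

end Pool.Agent.Helper22.Slip
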