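import Pool.Agent.Helper22.Slip.I5
import Pool.Agent.Helper22.Slip.C1

/-!
# I6: Case I
-/

namespace Pool.Agent.Helper22.Slip

open Pool.Agent.Helper76.Slip (G rot T)
open Filter Set

/-! ### I6: Case I -/

/-- Bounded sequences converge along the hyperfilter. -/
lemma I6_exists_lim (f : ℕ → ℝ) (hf : ∀ n, f n ∈ Icc (0 : ℝ) 1) :
    ∃ x ∈ Icc (0 : ℝ) 1, Tendsto f (hyperfilter ℕ) (nhds x) := by
  have h1 : ((hyperfilter ℕ).map f : Filter ℝ) ≤ 𝓟 (Icc (0 : ℝ) 1) := by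
    rw [le_principal_iff]
    exact Filter.mem_map.2 (Filter.univ_mem' hf)
  obtain ⟨x, hx, h2⟩ := isCompact_Icc.ultrafilter_le_nhds _ h1
  exact ⟨x, hx, h2⟩

/-- A limit of integers is an integer. -/
lemma I6_int_lim (f : ℕ → ℝ) (x : ℝ) (hf : ∀ n, ∃ z : ℤ, f n = z)
    (h : Tendsto f (hyperfilter ℕ) (nhds x)) : ∃ z : ℤ, x = z := by
  have h1 : IsClosed (range ((↑) : ℤ → ℝ)) := Int.isClosedEmbedding_coe_real.isClosed_range
  have h2 : x ∈ range ((↑) : ℤ → ℝ) := by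
    refine h1.mem_of_tendsto h (Eventually.of_forall fun n => ?_)
    obtain ⟨z, hz⟩ := hf n
    exact ⟨z, hz.symm⟩
  obtain ⟨z, hz⟩ := h2
  exact ⟨z, hz.symm⟩

theorem caseI (c : ℝ) (hc : Irrational c) (m : ℕ) (s : ℕ → ℤ) (hs : ∀ j < m, |s j| ≤ 1)
    (ρ φ : ℕ → ℝ) (hρ : ∀ j < m, 0 ≤ ρ j)
    (hne : ∑ j ∈ Finset.range m, (s j : ℝ) * ρ j ≠ 0)
    (Fr : ℕ → Frame c) (hq : ∀ n, n ≤ (Fr n).q) (γ : ℝ)
    (hγ : Tendsto (fun n => (Fr n).γ) (hyperfilter ℕ) (nhds γ)) (hI : Irrational γ) :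
    HasDesign c m s ρ φ := by
  have hh0 : ∀ j, ∃ x ∈ Icc (0 : ℝ) 1,
      Tendsto (fun n => (Fr n).h (φ j)) (hyperfilter ℕ) (nhds x) := fun j =>
    I6_exists_lim _ (fun n => ⟨Int.fract_nonneg _, (Int.fract_lt_one _).le⟩)
  choose h hh hhl using hh0
  obtain ⟨θ, hθ, hθl⟩ := I6_exists_lim (fun n => (Fr n).θ)
    (fun n => Ioc_subset_Icc_self (Fr n).θ_mem)
  have hτ0 : ∀ j b, ∃ x ∈ Icc (0 : ℝ) 1,
      Tendsto (fun n => (Fr n).τ (φ j) b) (hyperfilter ℕ) (nhds x) := fun j b =>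
    I6_exists_lim _ (fun n => (Fr n).τ_mem (φ j) b)
  choose τ hτ hτl using hτ0
  have hτγ : ∀ (j : ℕ) (b b' : ℤ), ∃ z : ℤ, τ j b - τ j b' - γ * (b - b') = z := by
    intro j b b'
    refine I6_int_lim (fun n => (Fr n).τ (φ j) b - (Fr n).τ (φ j) b' - (Fr n).γ * (b - b')) _
      (fun n => (Fr n).τ_sub (φ j) b b') ?_
    exact ((hτl j b).sub (hτl j b')).sub (hγ.mul_const _)
  obtain ⟨D, hD, hcl⟩ := caseI_design m s hs ρ hρ hne γ hI θ hθ h hh τ hτ hτγ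
  refine ⟨Fr, hq, fun j b => b - h j - θ * τ j b, ?_, ?_, D, hD, ?_⟩
  · intro j b
    have h1 := hh j
    have h2 := hτ j b
    have h3 : 0 ≤ θ * τ j b := mul_nonneg hθ.1 h2.1
    have h4 : θ * τ j b ≤ 1 := by
      calc θ * τ j b ≤ 1 * 1 := mul_le_mul hθ.2 h2.2 h2.1 zero_le_one
        _ = 1 := one_mul 1
    rw [abs_le]
    constructor <;> simp only <;> linarith [h1.1, h1.2]
  · intro j _ b
    exact (tendsto_const_nhds.sub (hhl j)).sub (hθl.mul (hτl j b))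
  · have h1 : ∀ᶠ n in (hyperfilter ℕ : Filter ℕ), ∀ v ∈ D.V, ∀ v' ∈ D.V,
        τ v.1 v.2 < τ v'.1 v'.2 → (Fr n).k (φ v.1) v.2 < (Fr n).k (φ v'.1) v'.2 := by
      rw [Filter.eventually_all_finset]
      intro v _
      rw [Filter.eventually_all_finset]
      intro v' _
      by_cases hlt : τ v.1 v.2 < τ v'.1 v'.2
      · have h2 := (hτl v.1 v.2).eventually_lt (hτl v'.1 v'.2) hlt
        filter_upwards [h2] with n hn _
        have hq0 : (0 : ℝ) < (Fr n).q := by exact_mod_cast (Fr n).q_pos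
        unfold Frame.τ at hn
        rw [div_lt_div_iff_of_pos_right hq0] at hn
        exact_mod_cast hn
      · exact Eventually.of_forall fun n h => absurd h hlt
    filter_upwards [h1] with n hn
    exact ⟨fun v => τ v.1 v.2, hcl, hn⟩

end Pool.Agent.Helper22.Slip
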