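import Pool.Agent.Helper22.Slip.CoreDefs

/-!
# K1: clusters
-/

namespace Pool.Agent.Helper22.Slip

open Filter Set

/-! ### K1: clusters (used in both cases) -/

lemma exists_cluster (m : ℕ) (s : ℕ → ℤ) (ρ : ℕ → ℝ) (hρ : ∀ j < m, 0 ≤ ρ j)
    (hne : ∑ j ∈ Finset.range m, (s j : ℝ) * ρ j ≠ 0) (rel : ℕ → ℕ → Prop) [DecidableRel rel]
    (hrefl : ∀ j, rel j j) (hsymm : ∀ j j', rel j j' → rel j' j)
    (htrans : ∀ j j' j'', rel j j' → rel j' j'' → rel j j'')
    (hrelρ : ∀ j j', rel j j' → ρ j = ρ j') :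
    ∃ j < m, 0 < ρ j ∧ ∑ j' ∈ (Finset.range m).filter (rel j), s j' ≠ 0 := by
  by_contra hcon
  push Not at hcon
  apply hne
  set N : ℕ → ℝ := fun j => (((Finset.range m).filter (rel j)).card : ℝ) with hN
  have hNpos : ∀ j ∈ Finset.range m, 0 < N j := by
    intro j hj
    simp only [hN]
    exact_mod_cast Finset.card_pos.mpr ⟨j, Finset.mem_filter.mpr ⟨hj, hrefl j⟩⟩
  have hNrel : ∀ j j', rel j j' → N j = N j' := by
    intro j j' h
    simp only [hN]
    congr 2
    ext x
    simp only [Finset.mem_filter]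
    constructor
    · rintro ⟨hx, hjx⟩
      exact ⟨hx, htrans _ _ _ (hsymm _ _ h) hjx⟩
    · rintro ⟨hx, hjx⟩
      exact ⟨hx, htrans _ _ _ h hjx⟩
  have h1 : ∀ j ∈ Finset.range m, (s j : ℝ) * ρ j =
      ∑ j' ∈ Finset.range m, if rel j j' then (s j : ℝ) * ρ j' / N j' else 0 := by
    intro j hj
    rw [← Finset.sum_filter]
    have : ∀ j' ∈ (Finset.range m).filter (rel j), (s j : ℝ) * ρ j' / N j' =
        (s j : ℝ) * ρ j / N j := by
      intro j' hj'
      have hr := (Finset.mem_filter.mp hj').2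
      rw [← hrelρ _ _ hr, ← hNrel _ _ hr]
    rw [Finset.sum_congr rfl this, Finset.sum_const, nsmul_eq_mul]
    have h3 := hNpos j hj
    have h4 : ((((Finset.range m).filter (rel j)).card : ℕ) : ℝ) = N j := rfl
    rw [h4]
    field_simp
  rw [Finset.sum_congr rfl h1, Finset.sum_comm]
  apply Finset.sum_eq_zero
  intro j' hj'
  have h5 : ∀ j ∈ Finset.range m, (if rel j j' then (s j : ℝ) * ρ j' / N j' else 0) =
      (ρ j' / N j') * (if rel j' j then (s j : ℝ) else 0) := by
    intro j _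
    by_cases h : rel j j'
    · rw [if_pos h, if_pos (hsymm _ _ h)]; ring
    · rw [if_neg h, if_neg (fun h' => h (hsymm _ _ h'))]; ring
  rw [Finset.sum_congr rfl h5, ← Finset.mul_sum, ← Finset.sum_filter]
  rcases (hρ j' (Finset.mem_range.mp hj')).lt_or_eq with h | h
  · have h6 := hcon j' (Finset.mem_range.mp hj') h
    have h7 : ∑ a ∈ (Finset.range m).filter (rel j'), (s a : ℝ) = 0 := by
      exact_mod_cast h6
    rw [h7, mul_zero]
  · rw [← h]; simp

end Pool.Agent.Helper22.Slip
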