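import Pool.Agent.Helper22.Slip.RDefs

/-!
# R1: the basic estimate for contacts at distance `O(η)`
-/

namespace Pool.Agent.Helper22.Slip

open Filter Set

lemma r1_coe_int (z : ℤ) : (((z : ℤ) : ℝ) : Hyperreal) = (z : Hyperreal) :=
  map_intCast Hyperreal.coeRingHom z

lemma r1_coe_nat (z : ℕ) : (((z : ℕ) : ℝ) : Hyperreal) = (z : Hyperreal) :=
  map_natCast Hyperreal.coeRingHom z

/-- A fraction `w / v` which is `O(η)` vanishes. -/
lemma r1_frac {u : ℤ} {v : ℕ} {η : Hyperreal} {t : ℕ → ℤ → Hyperreal} {τ : ℕ → ℤ → ℝ}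
    (H : RTimes u v η t τ) (w : ℤ) (C : ℝ)
    (h : |(w : Hyperreal) / (v : Hyperreal)| ≤ (C : Hyperreal) * |η|) : w = 0 := by
  have hv : (0 : ℝ) < v := by exact_mod_cast H.v_pos
  have hvH : (0 : Hyperreal) < (v : Hyperreal) := by exact_mod_cast H.v_pos
  by_contra hw
  have h1 : (1 : Hyperreal) ≤ |(w : Hyperreal)| := by
    have : (1 : ℤ) ≤ |w| := Int.one_le_abs hw
    exact_mod_cast this
  have hε : 0 < 1 / (v * (|C| + 1)) := by positivity
  have h2 := H.η_small _ hε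
  have hCH : (C : Hyperreal) ≤ ((|C| + 1 : ℝ) : Hyperreal) := by
    rw [Hyperreal.coe_le_coe]
    linarith [le_abs_self C]
  have hCpos : (0 : Hyperreal) < ((|C| + 1 : ℝ) : Hyperreal) := by
    rw [Hyperreal.coe_pos]
    positivity
  have h3 : (C : Hyperreal) * |η| < 1 / (v : Hyperreal) := by
    calc (C : Hyperreal) * |η| ≤ ((|C| + 1 : ℝ) : Hyperreal) * |η| :=
          mul_le_mul_of_nonneg_right hCH (abs_nonneg _)
      _ < ((|C| + 1 : ℝ) : Hyperreal) * ((1 / (v * (|C| + 1)) : ℝ) : Hyperreal) :=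
          mul_lt_mul_of_pos_left h2 hCpos
      _ = 1 / (v : Hyperreal) := by
          rw [← Hyperreal.coe_mul]
          have : (|C| + 1) * (1 / ((v : ℝ) * (|C| + 1))) = 1 / (v : ℝ) := by
            have : |C| + 1 ≠ 0 := by positivity
            field_simp
          rw [this, Hyperreal.coe_div, r1_coe_nat, Hyperreal.coe_one]
  have h4 : 1 / (v : Hyperreal) ≤ |(w : Hyperreal) / (v : Hyperreal)| := by
    rw [abs_div, abs_of_pos hvH]
    exact div_le_div_of_nonneg_right h1 hvH.le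
  exact absurd (h4.trans h) (not_le.2 h3)

lemma r1_single {u : ℤ} {v : ℕ} {η : Hyperreal} {t : ℕ → ℤ → Hyperreal} {τ : ℕ → ℤ → ℝ}
    (H : RTimes u v η t τ) (j j' : ℕ) :
    ∃ B : ℝ, 0 ≤ B ∧ ∀ b b' y : ℤ,
      (∃ C : ℝ, |t j' b' - t j b - y| ≤ (C : Hyperreal) * |η|) →
      |t j' b' - t j b - y - η * ((b' : Hyperreal) - b)| ≤ (B : Hyperreal) * |η| := by
  have hvH : (0 : Hyperreal) < (v : Hyperreal) := by exact_mod_cast H.v_pos
  have hgen : ∀ (b b' y : ℤ) (C : ℝ), |t j' b' - t j b - y| ≤ (C : Hyperreal) * |η| →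
      |t j' b' - t j b - y - η * ((b' : Hyperreal) - b)| ≤
        ((C + |((b' : ℤ) : ℝ) - b| : ℝ) : Hyperreal) * |η| := by
    intro b b' y C hC
    have h1 : |t j' b' - t j b - y - η * ((b' : Hyperreal) - b)| ≤
        |t j' b' - t j b - y| + |η * ((b' : Hyperreal) - b)| := abs_sub _ _
    have h2 : |η * ((b' : Hyperreal) - b)| = |(b' : Hyperreal) - b| * |η| := by
      rw [abs_mul, mul_comm]
    rw [Hyperreal.coe_add, Hyperreal.coe_abs, Hyperreal.coe_sub, r1_coe_int, r1_coe_int, add_mul,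
      ← h2]
    exact h1.trans (add_le_add_left hC _)
  by_cases hex : ∃ (b b' y : ℤ) (C : ℝ), |t j' b' - t j b - y| ≤ (C : Hyperreal) * |η|
  · obtain ⟨b0, b0', y0, C0, h0⟩ := hex
    have hE0 := hgen b0 b0' y0 C0 h0
    refine ⟨abs (C0 + abs (((b0' : ℤ) : ℝ) - b0)), abs_nonneg _, ?_⟩
    rintro b b' y ⟨C, hC⟩
    have hE := hgen b b' y C hC
    obtain ⟨z1, hz1⟩ := H.t_sub j' b' b0'
    obtain ⟨z2, hz2⟩ := H.t_sub j b b0
    have hkey : (t j' b' - t j b - y - η * ((b' : Hyperreal) - b)) -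
        (t j' b0' - t j b0 - y0 - η * ((b0' : Hyperreal) - b0)) =
        ((u * ((b' - b0') - (b - b0)) + v * (z1 - z2 - (y - y0)) : ℤ) : Hyperreal) /
          (v : Hyperreal) := by
      have h1 : t j' b' = t j' b0' + ((u : Hyperreal) / (v : Hyperreal) + η) *
          ((b' : Hyperreal) - b0') + z1 := by rw [← hz1]; ring
      have h2 : t j b = t j b0 + ((u : Hyperreal) / (v : Hyperreal) + η) *
          ((b : Hyperreal) - b0) + z2 := by rw [← hz2]; ring
      rw [h1, h2]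
      push_cast
      field_simp
      ring
    have hw := r1_frac H _ ((C + |((b' : ℤ) : ℝ) - b|) + (C0 + |((b0' : ℤ) : ℝ) - b0|)) (by
      rw [← hkey, Hyperreal.coe_add, add_mul]
      exact (abs_sub _ _).trans (add_le_add hE hE0))
    rw [hw] at hkey
    simp only [Int.cast_zero, zero_div, sub_eq_zero] at hkey
    rw [hkey]
    refine hE0.trans (mul_le_mul_of_nonneg_right ?_ (abs_nonneg _))
    rw [Hyperreal.coe_le_coe]
    exact le_abs_self _
  · refine ⟨0, le_rfl, ?_⟩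
    rintro b b' y ⟨C, hC⟩
    exact absurd ⟨b, b', y, C, hC⟩ hex

/-- If `t j' b' - t j b - y = O(η)` then the difference is `η (b' - b)` up to `B1 |η|`, with a
constant `B1` which does not depend on `b`, `b'`, `y`. -/
lemma exists_B1 {u : ℤ} {v : ℕ} {η : Hyperreal} {t : ℕ → ℤ → Hyperreal} {τ : ℕ → ℤ → ℝ}
    (H : RTimes u v η t τ) (m : ℕ) :
    ∃ B1 : ℝ, 0 ≤ B1 ∧ ∀ j < m, ∀ j' < m, ∀ b b' y : ℤ,
      (∃ C : ℝ, |t j' b' - t j b - y| ≤ (C : Hyperreal) * |η|) →
      |t j' b' - t j b - y - η * ((b' : Hyperreal) - b)| ≤ (B1 : Hyperreal) * |η| := by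
  choose B hB0 hB using fun j j' => r1_single H j j'
  refine ⟨∑ j ∈ Finset.range m, ∑ j' ∈ Finset.range m, B j j',
    Finset.sum_nonneg fun j _ => Finset.sum_nonneg fun j' _ => hB0 j j', ?_⟩
  intro j hj j' hj' b b' y hC
  refine (hB j j' b b' y hC).trans (mul_le_mul_of_nonneg_right ?_ (abs_nonneg _))
  rw [Hyperreal.coe_le_coe]
  calc B j j' ≤ ∑ j' ∈ Finset.range m, B j j' :=
        Finset.single_le_sum (fun j' _ => hB0 j j') (Finset.mem_range.2 hj')
    _ ≤ ∑ j ∈ Finset.range m, ∑ j' ∈ Finset.range m, B j j' :=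
        Finset.single_le_sum (f := fun j => ∑ j' ∈ Finset.range m, B j j')
          (fun j _ => Finset.sum_nonneg fun j' _ => hB0 j j') (Finset.mem_range.2 hj)

end Pool.Agent.Helper22.Slip
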