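import Mathlib

/-!
# R2: simultaneous recurrence
-/

namespace Pool.Agent.Helper22.Slip

lemma exists_recurrence (m : ℕ) (ν : ℕ → ℝ) (v : ℕ) (hv : 0 < v) (ε : ℝ) (hε : 0 < ε) (L : ℕ) :
    ∃ G : ℤ, (L : ℤ) ≤ G ∧ (v : ℤ) ∣ G ∧
      ∀ j < m, ∃ G' : ℤ, (v : ℤ) ∣ G' ∧ |ν j * G - G'| ≤ ε := by
  have hv' : (0 : ℝ) < v := by exact_mod_cast hv
  obtain ⟨N, hN⟩ := exists_nat_gt (v / ε)
  have hN0 : (0 : ℝ) < N := lt_of_le_of_lt (by positivity) hN
  have hN0' : 0 < N := by exact_mod_cast hN0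
  have hNε : v / (N : ℝ) ≤ ε := by
    rw [div_lt_iff₀ hε] at hN
    rw [div_le_iff₀ hN0]
    linarith
  have hfl : ∀ (j t : ℕ), ⌊(N : ℝ) * Int.fract (ν j * ((L + 1) * t : ℝ))⌋₊ < N := by
    intro j t
    rw [Nat.floor_lt (by positivity)]
    have := Int.fract_lt_one (ν j * ((L + 1) * t : ℝ))
    nlinarith
  obtain ⟨t, t', hne, heq⟩ := Finite.exists_ne_map_eq_of_infinite
    (fun t : ℕ => fun j : Fin m =>
      (⟨⌊(N : ℝ) * Int.fract (ν j * ((L + 1) * t : ℝ))⌋₊, hfl j t⟩ : Fin N))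
  wlog hlt : t < t' generalizing t t'
  · exact this t' t hne.symm heq.symm (lt_of_le_of_ne (not_lt.1 hlt) hne.symm)
  refine ⟨v * ((L + 1) * ((t' : ℤ) - t)), ?_, dvd_mul_right _ _, ?_⟩
  · have h1 : (1 : ℤ) ≤ (t' : ℤ) - t := by omega
    have h2 : (1 : ℤ) ≤ v := by exact_mod_cast hv
    have h3 : (L : ℤ) + 1 ≤ (L + 1) * ((t' : ℤ) - t) := by nlinarith
    nlinarith
  · intro j hj
    have h1 := congrFun heq ⟨j, hj⟩
    simp only [Fin.mk.injEq] at h1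
    set x := ν j * ((L + 1) * t : ℝ) with hx
    set x' := ν j * ((L + 1) * t' : ℝ) with hx'
    have f1 := Nat.floor_le (a := (N : ℝ) * Int.fract x) (by positivity)
    have f2 := Nat.lt_floor_add_one ((N : ℝ) * Int.fract x)
    have f3 := Nat.floor_le (a := (N : ℝ) * Int.fract x') (by positivity)
    have f4 := Nat.lt_floor_add_one ((N : ℝ) * Int.fract x')
    rw [h1] at f1 f2
    have h2 : |(N : ℝ) * (Int.fract x' - Int.fract x)| ≤ 1 := by
      rw [abs_le]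
      constructor <;> linarith
    refine ⟨v * (⌊x'⌋ - ⌊x⌋), dvd_mul_right _ _, ?_⟩
    have h3 : ν j * ((v * ((L + 1) * ((t' : ℤ) - t)) : ℤ) : ℝ) - ((v * (⌊x'⌋ - ⌊x⌋) : ℤ) : ℝ) =
        v * (Int.fract x' - Int.fract x) := by
      rw [Int.fract, Int.fract, hx, hx']
      push_cast
      ring
    rw [h3]
    rw [abs_mul, abs_of_pos hN0] at h2
    rw [abs_mul, abs_of_pos hv']
    calc (v : ℝ) * |Int.fract x' - Int.fract x|
        = (v / N) * (N * |Int.fract x' - Int.fract x|) := by field_simp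
      _ ≤ (v / N) * 1 := mul_le_mul_of_nonneg_left h2 (by positivity)
      _ ≤ ε := by rw [mul_one]; exact hNε

end Pool.Agent.Helper22.Slip
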