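import Mathlib

/-!
# R3: the order of the blocks
-/

namespace Pool.Agent.Helper22.Slip

/-- Pairwise non interleaving blocks are ordered by a real valued rank. -/
lemma exists_rank {ι L : Type*} [LinearOrder L] (V : Finset ι) (t : ι → L) (N : ι → ι → Prop)
    (hrefl : ∀ v ∈ V, N v v) (hsymm : ∀ v ∈ V, ∀ w ∈ V, N v w → N w v)
    (htrans : ∀ v ∈ V, ∀ w ∈ V, ∀ x ∈ V, N v w → N w x → N v x)
    (hne : ∀ v ∈ V, ∀ w ∈ V, ¬ N v w → t v ≠ t w)
    (hint : ∀ v ∈ V, ∀ w ∈ V, ∀ v' ∈ V, ∀ w' ∈ V, ¬ N v w → N v' v → N w' w → t v < t w →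
      t v' < t w') :
    ∃ pt : ι → ℝ, ∀ v ∈ V, ∀ w ∈ V, (pt v = pt w ↔ N v w) ∧
      (pt v < pt w ↔ ¬ N v w ∧ t v < t w) := by
  classical
  set B : ι → Finset ι := fun v => V.filter (fun x => ¬ N v x ∧ t x < t v) with hB
  have hmem : ∀ v x, x ∈ B v ↔ x ∈ V ∧ ¬ N v x ∧ t x < t v := by
    intro v x; simp [hB]
  have hsub : ∀ v ∈ V, ∀ w ∈ V, N v w → B v ⊆ B w := by
    intro v hv w hw h x hx
    rw [hmem] at hx ⊢
    obtain ⟨hxV, h1, h2⟩ := hx
    refine ⟨hxV, fun h3 => h1 (htrans v hv w hw x hxV h h3), ?_⟩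
    exact hint x hxV v hv x hxV w hw (fun h3 => h1 (hsymm x hxV v hv h3)) (hrefl x hxV)
      (hsymm v hv w hw h) h2
  have heq : ∀ v ∈ V, ∀ w ∈ V, N v w → (B v).card = (B w).card := by
    intro v hv w hw h
    exact le_antisymm (Finset.card_le_card (hsub v hv w hw h))
      (Finset.card_le_card (hsub w hw v hv (hsymm v hv w hw h)))
  have hlt : ∀ v ∈ V, ∀ w ∈ V, ¬ N v w → t v < t w → (B v).card < (B w).card := by
    intro v hv w hw h ht
    apply Finset.card_lt_card
    rw [Finset.ssubset_iff_of_subset]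
    · refine ⟨v, ?_, ?_⟩
      · rw [hmem]; exact ⟨hv, fun h1 => h (hsymm w hw v hv h1), ht⟩
      · rw [hmem]; exact fun h1 => h1.2.1 (hrefl v hv)
    · intro x hx
      rw [hmem] at hx ⊢
      obtain ⟨hxV, h1, h2⟩ := hx
      refine ⟨hxV, fun h3 => ?_, h2.trans ht⟩
      have := hint v hv w hw v hv x hxV h (hrefl v hv) (hsymm w hw x hxV h3) ht
      exact absurd this (not_lt.mpr h2.le)
  refine ⟨fun v => ((B v).card : ℝ), ?_⟩
  intro v hv w hw
  constructor
  · constructor
    · intro h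
      by_contra hN
      have h' : (B v).card = (B w).card := by
        have h0 : ((B v).card : ℝ) = ((B w).card : ℝ) := h
        exact_mod_cast h0
      rcases lt_trichotomy (t v) (t w) with h1 | h1 | h1
      · exact absurd h' (hlt v hv w hw hN h1).ne
      · exact hne v hv w hw hN h1
      · exact absurd h' (hlt w hw v hv (fun h2 => hN (hsymm w hw v hv h2)) h1).ne'
    · intro h
      simp only
      rw [heq v hv w hw h]
  · constructor
    · intro h
      have h' : (B v).card < (B w).card := by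
        have h0 : ((B v).card : ℝ) < ((B w).card : ℝ) := h
        exact_mod_cast h0
      have hN : ¬ N v w := fun h1 => by
        rw [heq v hv w hw h1] at h'
        exact lt_irrefl _ h'
      refine ⟨hN, ?_⟩
      rcases lt_trichotomy (t v) (t w) with h1 | h1 | h1
      · exact h1
      · exact absurd h1 (hne v hv w hw hN)
      · exact absurd h' (not_lt.mpr (hlt w hw v hv (fun h2 => hN (hsymm w hw v hv h2)) h1).le)
    · rintro ⟨hN, ht⟩
      simp only
      exact_mod_cast hlt v hv w hw hN ht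

end Pool.Agent.Helper22.Slip
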