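import Pool.Agent.Helper22.Slip.CoreDefs

/-!
# Case R: definitions
-/

namespace Pool.Agent.Helper22.Slip

open Filter Set

/-- The cluster relation of Case R. -/
def relR (ρ h : ℕ → ℝ) (η : Hyperreal) (t : ℕ → ℤ → Hyperreal) (j j' : ℕ) : Prop :=
  ρ j = ρ j' ∧ ∃ z : ℤ, (z : ℝ) = h j' - h j ∧
    ∃ (y : ℤ) (C : ℝ), |t j' z - t j 0 - y| ≤ (C : Hyperreal) * |η|

open Classical in
/-- The net sign of a cluster. -/
noncomputable def netR (m : ℕ) (s : ℕ → ℤ) (ρ h : ℕ → ℝ) (η : Hyperreal)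
    (t : ℕ → ℤ → Hyperreal) (j : ℕ) : ℤ :=
  ∑ j' ∈ (Finset.range m).filter (relR ρ h η t j), s j'

/-- The times of Case R: `t j b` is the time of the visit `(j, b)` as a hyperreal number; `τ` is
its standard part. -/
structure RTimes (u : ℤ) (v : ℕ) (η : Hyperreal) (t : ℕ → ℤ → Hyperreal) (τ : ℕ → ℤ → ℝ) :
    Prop where
  v_pos : 0 < v
  η_ne : η ≠ 0
  η_small : ∀ ε : ℝ, 0 < ε → |η| < (ε : Hyperreal)
  t_mem : ∀ j b, 0 ≤ t j b ∧ t j b < 1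
  t_sub : ∀ (j : ℕ) (b b' : ℤ), ∃ z : ℤ,
    t j b - t j b' - ((u : Hyperreal) / (v : Hyperreal) + η) * ((b : Hyperreal) - b') = z
  τ_mem : ∀ j b, τ j b ∈ Icc (0 : ℝ) 1
  t_τ : ∀ (j : ℕ) (b : ℤ) (ε : ℝ), 0 < ε → |t j b - (τ j b : Hyperreal)| < (ε : Hyperreal)

end Pool.Agent.Helper22.Slip
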