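import Pool.Agent.Helper22.Slip.K2
import Pool.Agent.Helper22.Slip.RDefs
import Pool.Agent.Helper22.Slip.R3

/-!
# R4: Case R, the verification
-/

namespace Pool.Agent.Helper22.Slip

open Filter Set

namespace R4

/-- All the data and hypotheses of the verification. -/
structure Ctx where
  m : ℕ
  s : ℕ → ℤ
  hs : ∀ j < m, |s j| ≤ 1
  ρ : ℕ → ℝ
  u : ℤ
  v : ℕ
  η : Hyperreal
  t : ℕ → ℤ → Hyperreal
  τ : ℕ → ℤ → ℝ
  H : RTimes u v η t τ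
  θ : ℝ
  hθ : θ ∈ Icc (0 : ℝ) 1
  h : ℕ → ℝ
  hh : ∀ j, h j ∈ Icc (0 : ℝ) 1
  i : ℕ
  him : i < m
  hiρ : 0 < ρ i
  hi0 : t i 0 = 0
  hiN : netR m s ρ h η t i ≠ 0
  B1 : ℝ
  C1 : ℝ
  κ5 : ℝ
  νM : ℝ
  Gmax : ℝ
  n : ℕ
  G : ℤ
  G' : ℕ → ℤ
  A : ℝ
  hA0 : 0 ≤ A
  hn : 16 ≤ n
  hB0 : 0 ≤ B1
  hB1 : ∀ j < m, ∀ j' < m, ∀ b b' y : ℤ,
      (∃ C : ℝ, |t j' b' - t j b - y| ≤ (C : Hyperreal) * |η|) →
      |t j' b' - t j b - y - η * ((b' : Hyperreal) - b)| ≤ (B1 : Hyperreal) * |η|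
  hνM : ∀ j < m, ρ j / ρ i ≤ νM
  hC1 : 2 * νM + 7 ≤ C1
  hκ5 : ∀ j < m, ∀ j' < m, ∀ z : ℤ, (z : ℝ) ≠ h j' - h j → κ5 ≤ |(z : ℝ) - (h j' - h j)|
  hκ : 4 * νM * (4 / n) < κ5 ∧ 4 * νM * (4 / n) < 1
  hEv : m * (2 * C1 + 1) * (10 * (νM * (4 / n))) ≤ 1 / 2
  hG : 0 < η * G
  hGv : (v : ℤ) ∣ G
  hG'v : ∀ j < m, 0 < ρ j → (v : ℤ) ∣ G' j
  hG1 : ∀ j < m, 0 < ρ j → |ρ j / ρ i * G - G' j| ≤ ρ j / ρ i / (5 * n)
  hG2 : ∀ j < m, 0 < ρ j → n * |ρ j / ρ i * G - G' j| ≤ 1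
  hG3 : ∀ j < m, 0 < ρ j → |(G' j : ℝ)| ≤ Gmax
  hG4 : ∀ j < m, 0 < ρ j → 10 * (B1 + C1 + 1) < |(G' j : ℝ)|
  hG5 : ∀ j < m, 0 < ρ j → 5 < ρ j / ρ i * (|(G : ℝ)| - 2)
  hA : ∀ j < m, 0 < ρ j → ∀ j' < m, 0 < ρ j' → ρ j ≠ ρ j' →
      10 * (B1 + C1 + 1) + 2 * (n + 1) * Gmax < |ρ j / ρ i - ρ j' / ρ i| * A

namespace Ctx

variable (K : Ctx)

noncomputable def ν (j : ℕ) : ℝ := K.ρ j / K.ρ K.i

noncomputable def κ : ℝ := 4 / K.n

noncomputable def sa (a : ℕ) : ℝ := K.A + 2 * a / K.n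

noncomputable def X (a : ℕ) : ℝ := ((a + 1) * K.G - K.h K.i + K.sa a) / K.ρ K.i

noncomputable def om : ℝ := K.κ / K.ρ K.i

noncomputable def ξ (j : ℕ) (b : ℤ) : ℝ := b - K.h j - K.θ * K.τ j b

/-- The visits near the relevant levels. -/
def Vis (j : ℕ) (b : ℤ) (a : ℕ) : Prop :=
  j < K.m ∧ 0 < K.ρ j ∧ a < K.n ∧ K.A - 1 - K.ρ j * K.om ≤ K.ρ j * K.X a - K.ξ j b ∧
    K.ρ j * K.X a - K.ξ j b ≤ K.A + 3 + K.ρ j * K.om

lemma n_pos : (0 : ℝ) < K.n := by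
  have := K.hn
  exact_mod_cast (by omega : 0 < K.n)

lemma n_ge : (16 : ℝ) ≤ K.n := by exact_mod_cast K.hn

lemma κ_pos : 0 < K.κ := div_pos (by norm_num) K.n_pos

lemma ν_pos {j : ℕ} (hj : 0 < K.ρ j) : 0 < K.ν j := div_pos hj K.hiρ

lemma ν_i : K.ν K.i = 1 := div_self K.hiρ.ne'

lemma one_le_νM : 1 ≤ K.νM := by
  have := K.hνM K.i K.him
  rwa [div_self K.hiρ.ne'] at this

lemma C1_ge : 9 ≤ K.C1 := by linarith [K.one_le_νM, K.hC1]

lemma mul_om (j : ℕ) : K.ρ j * K.om = K.ν j * K.κ := by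
  unfold om ν
  ring

lemma mul_X (j a : ℕ) : K.ρ j * K.X a = K.ν j * ((a + 1) * K.G - K.h K.i + K.sa a) := by
  unfold X ν
  ring

lemma νκ_lt {j : ℕ} (hj : j < K.m) : 4 * (K.ν j * K.κ) < K.κ5 ∧ 4 * (K.ν j * K.κ) < 1 := by
  have h1 : K.ν j * K.κ ≤ K.νM * K.κ := mul_le_mul_of_nonneg_right (K.hνM j hj) K.κ_pos.le
  have h2 := K.hκ
  have h3 : K.νM * K.κ = K.νM * (4 / K.n) := rfl
  constructor <;> nlinarith [h2.1, h2.2]

lemma ν_div_lt {j : ℕ} (hj : j < K.m) : K.ν j / K.n < 1 / 16 := by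
  have h1 := (K.νκ_lt hj).2
  have h2 : K.ν j * K.κ = 4 * (K.ν j / K.n) := by unfold κ; ring
  linarith

/-- The steps depend only on the density. -/
lemma G'_eq {j j' : ℕ} (hj : j < K.m) (hj' : j' < K.m) (h0 : 0 < K.ρ j)
    (he : K.ρ j = K.ρ j') : K.G' j = K.G' j' := by
  have h1 := K.hG1 j hj h0
  have h2 := K.hG1 j' hj' (he ▸ h0)
  rw [← he] at h2
  have h3 := K.ν_div_lt hj
  have h4 : K.ρ j / K.ρ K.i / (5 * K.n) = K.ν j / K.n / 5 := by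
    unfold ν
    field_simp
  rw [h4] at h1 h2
  have h5 : |(K.G' j : ℝ) - K.G' j'| < 1 := by
    have h6 : (K.G' j : ℝ) - K.G' j' = (K.ρ j / K.ρ K.i * K.G - K.G' j') -
        (K.ρ j / K.ρ K.i * K.G - K.G' j) := by ring
    rw [h6]
    refine (abs_sub _ _).trans_lt ?_
    linarith
  have h7 : |K.G' j - K.G' j'| < 1 := by exact_mod_cast h5
  have h8 := Int.abs_lt_one_iff.1 h7
  linarith

lemma G'_i : K.G' K.i = K.G := by
  have h1 := K.hG1 K.i K.him K.hiρ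
  rw [div_self K.hiρ.ne', one_mul] at h1
  have h3 := K.n_ge
  have h5 : |(K.G : ℝ) - K.G' K.i| < 1 := by
    refine h1.trans_lt ?_
    rw [div_lt_one (by positivity)]
    linarith
  have h7 : |K.G - K.G' K.i| < 1 := by exact_mod_cast h5
  have h8 := Int.abs_lt_one_iff.1 h7
  linarith

lemma G_le : |(K.G : ℝ)| ≤ K.Gmax := by
  have := K.hG3 K.i K.him K.hiρ
  rwa [K.G'_i] at this

lemma G_gt : 10 * (K.B1 + K.C1 + 1) < |(K.G : ℝ)| := by
  have := K.hG4 K.i K.him K.hiρ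
  rwa [K.G'_i] at this

lemma θτ_mem (j : ℕ) (b : ℤ) : 0 ≤ K.θ * K.τ j b ∧ K.θ * K.τ j b ≤ 1 := by
  have h1 := K.hθ
  have h2 := K.H.τ_mem j b
  exact ⟨mul_nonneg h1.1 h2.1, mul_le_one₀ h1.2 h2.1 h2.2⟩

lemma div_n {a : ℕ} (ha : a < K.n) : 0 ≤ (a : ℝ) / K.n ∧ (a : ℝ) / K.n ≤ 1 := by
  have h1 : (a : ℝ) ≤ K.n := by exact_mod_cast ha.le
  exact ⟨div_nonneg (Nat.cast_nonneg a) K.n_pos.le, (div_le_one K.n_pos).2 h1⟩

/-- The offset of a visit. -/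
lemma off {j : ℕ} {b : ℤ} {a : ℕ} (hv : K.Vis j b a) :
    |(b : ℝ) - (a + 1) * K.G' j - (K.ν j - 1) * K.A| ≤ K.C1 - 2 := by
  obtain ⟨hj, h0, ha, h1, h2⟩ := hv
  rw [K.mul_om, K.mul_X] at h1 h2
  have hw := (K.νκ_lt hj).2
  have hν := K.ν_pos h0
  have hνM : K.ν j ≤ K.νM := K.hνM j hj
  have hC := K.hC1
  have hhi := K.hh K.i
  have hhj := K.hh j
  have hθτ := K.θτ_mem j b
  have han := K.div_n ha
  have hg : |((a : ℝ) + 1) * (K.ν j * K.G - K.G' j)| ≤ 1 := by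
    rw [abs_mul, abs_of_nonneg (by positivity)]
    have h3 := K.hG2 j hj h0
    have h4 : ((a : ℝ) + 1) ≤ K.n := by exact_mod_cast ha
    exact (mul_le_mul_of_nonneg_right h4 (abs_nonneg _)).trans h3
  have hg' := abs_le.1 hg
  have e1 : K.sa a = K.A + 2 * ((a : ℝ) / K.n) := by unfold sa; ring
  unfold ξ at h1 h2
  rw [e1] at h1 h2
  have n1 : 0 ≤ K.ν j * K.h K.i := mul_nonneg hν.le hhi.1
  have n2 : K.ν j * K.h K.i ≤ K.ν j := mul_le_of_le_one_right hν.le hhi.2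
  have n3 : 0 ≤ K.ν j * ((a : ℝ) / K.n) := mul_nonneg hν.le han.1
  have n4 : K.ν j * ((a : ℝ) / K.n) ≤ K.ν j := mul_le_of_le_one_right hν.le han.2
  have hhj1 := hhj.1
  have hhj2 := hhj.2
  have e2 : K.ν j * ((↑a + 1) * ↑K.G - K.h K.i + (K.A + 2 * (↑a / ↑K.n))) -
      (↑b - K.h j - K.θ * K.τ j b) = ((a : ℝ) + 1) * (K.ν j * K.G - K.G' j)
        - K.ν j * K.h K.i + 2 * (K.ν j * (a / K.n)) + K.A + K.h j + K.θ * K.τ j b
        - ((b : ℝ) - (a + 1) * K.G' j - (K.ν j - 1) * K.A) := by ring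
  rw [e2] at h1 h2
  rw [abs_le]
  constructor <;> linarith [hg'.1, hg'.2, hθτ.1, hθτ.2]

lemma step_le {j : ℕ} (hj : j < K.m) (h0 : 0 < K.ρ j) {a : ℕ} (ha : a < K.n) :
    |((a : ℝ) + 1) * K.G' j| ≤ K.n * K.Gmax := by
  rw [abs_mul, abs_of_nonneg (by positivity)]
  have h4 : ((a : ℝ) + 1) ≤ K.n := by exact_mod_cast ha
  exact mul_le_mul h4 (K.hG3 j hj h0) (abs_nonneg _) (Nat.cast_nonneg _)

lemma far_dens {j j' : ℕ} {b b' : ℤ} {a a' : ℕ} (hv : K.Vis j b a) (hv' : K.Vis j' b' a')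
    (hne : K.ρ j ≠ K.ρ j') : 8 * K.C1 + 10 * K.B1 + 10 < |(b' : ℝ) - b| := by
  have h1 := abs_le.1 (K.off hv)
  have h2 := abs_le.1 (K.off hv')
  have h3 := abs_le.1 (K.step_le hv.1 hv.2.1 hv.2.2.1)
  have h4 := abs_le.1 (K.step_le hv'.1 hv'.2.1 hv'.2.2.1)
  have h5 := K.hA j hv.1 hv.2.1 j' hv'.1 hv'.2.1 hne
  have h6 : 0 ≤ K.Gmax := (abs_nonneg _).trans K.G_le
  rw [show |K.ρ j / K.ρ K.i - K.ρ j' / K.ρ K.i| * K.A = |(K.ν j - K.ν j') * K.A| by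
    rw [abs_mul, abs_of_nonneg K.hA0]; rfl] at h5
  have e : (K.ν j - K.ν j') * K.A = -((b' : ℝ) - b)
      + (((b' : ℝ) - (a' + 1) * K.G' j' - (K.ν j' - 1) * K.A)
        - ((b : ℝ) - (a + 1) * K.G' j - (K.ν j - 1) * K.A)
        + (((a' : ℝ) + 1) * K.G' j' - ((a : ℝ) + 1) * K.G' j)) := by ring
  rw [e] at h5
  have h7 : |-((b' : ℝ) - b) + (((b' : ℝ) - (a' + 1) * K.G' j' - (K.ν j' - 1) * K.A)
        - ((b : ℝ) - (a + 1) * K.G' j - (K.ν j - 1) * K.A)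
        + (((a' : ℝ) + 1) * K.G' j' - ((a : ℝ) + 1) * K.G' j))| ≤
      |(b' : ℝ) - b| + (2 * (K.C1 - 2) + 2 * (K.n * K.Gmax)) := by
    refine (abs_add_le _ _).trans ?_
    rw [abs_neg]
    refine add_le_add_right ?_ _
    rw [abs_le]
    constructor <;> linarith [h1.1, h1.2, h2.1, h2.2, h3.1, h3.2, h4.1, h4.2]
  nlinarith

lemma far_gate {j j' : ℕ} {b b' : ℤ} {a a' : ℕ} (hv : K.Vis j b a) (hv' : K.Vis j' b' a')
    (he : K.ρ j = K.ρ j') (hne : a ≠ a') : 8 * K.C1 + 10 * K.B1 + 10 < |(b' : ℝ) - b| := by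
  have h1 := abs_le.1 (K.off hv)
  have h2 := abs_le.1 (K.off hv')
  have h5 := K.hG4 j hv.1 hv.2.1
  have hν : K.ν j' = K.ν j := by unfold ν; rw [he]
  rw [← K.G'_eq hv.1 hv'.1 hv.2.1 he, hν] at h2
  have h3 : |(K.G' j : ℝ)| ≤ |((a' : ℝ) - a) * K.G' j| := by
    rw [abs_mul]
    refine le_mul_of_one_le_left (abs_nonneg _) ?_
    have h6 : (1 : ℤ) ≤ |(a' : ℤ) - a| := Int.one_le_abs (by omega)
    exact_mod_cast h6
  have e : ((a' : ℝ) - a) * K.G' j = ((b' : ℝ) - b)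
      + -(((b' : ℝ) - (a' + 1) * K.G' j - (K.ν j - 1) * K.A)
        - ((b : ℝ) - (a + 1) * K.G' j - (K.ν j - 1) * K.A)) := by ring
  rw [e] at h3
  have h7 : |((b' : ℝ) - b)
      + -(((b' : ℝ) - (a' + 1) * K.G' j - (K.ν j - 1) * K.A)
        - ((b : ℝ) - (a + 1) * K.G' j - (K.ν j - 1) * K.A))| ≤
      |(b' : ℝ) - b| + 2 * (K.C1 - 2) := by
    refine (abs_add_le _ _).trans ?_
    refine add_le_add_right ?_ _
    rw [abs_le]
    constructor <;> linarith [h1.1, h1.2, h2.1, h2.2]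
  linarith

lemma near {j j' : ℕ} {b b' : ℤ} {a : ℕ} (hv : K.Vis j b a) (hv' : K.Vis j' b' a)
    (he : K.ρ j = K.ρ j') : |(b' : ℝ) - b| ≤ 2 * K.C1 := by
  have h1 := abs_le.1 (K.off hv)
  have h2 := abs_le.1 (K.off hv')
  have hν : K.ν j' = K.ν j := by unfold ν; rw [he]
  rw [← K.G'_eq hv.1 hv'.1 hv.2.1 he, hν] at h2
  rw [abs_le]
  constructor <;> linarith [h1.1, h1.2, h2.1, h2.2]

/-! ### hyperreal part -/

lemma e_pos : 0 < |K.η| := abs_pos.2 K.H.η_ne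

lemma small (C : ℝ) {ε : ℝ} (hε : 0 < ε) : (C : Hyperreal) * |K.η| < (ε : Hyperreal) := by
  rcases le_or_gt C 0 with h | h
  · have h1 : (C : Hyperreal) ≤ 0 := by exact_mod_cast h
    have h2 : (0 : Hyperreal) < ε := by exact_mod_cast hε
    exact (mul_nonpos_of_nonpos_of_nonneg h1 (abs_nonneg _)).trans_lt h2
  · have h1 := K.H.η_small (ε / C) (div_pos hε h)
    have h2 : (0 : Hyperreal) < C := by exact_mod_cast h
    calc (C : Hyperreal) * |K.η| < C * ((ε / C : ℝ) : Hyperreal) :=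
          mul_lt_mul_of_pos_left h1 h2
      _ = ε := by
          rw [← Hyperreal.coe_mul, mul_div_cancel₀ _ h.ne']

lemma cint (b : ℤ) : ((b : ℝ) : Hyperreal) = (b : Hyperreal) := map_intCast Hyperreal.coeRingHom b

lemma cancel {x y : ℝ} (h : (x : Hyperreal) * |K.η| ≤ (y : Hyperreal) * |K.η|) : x ≤ y := by
  have := le_of_mul_le_mul_right h K.e_pos
  exact_mod_cast this

lemma cancel_lt {x y : ℝ} (h : (x : Hyperreal) * |K.η| < (y : Hyperreal) * |K.η|) : x < y := by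
  have := lt_of_mul_lt_mul_right h K.e_pos.le
  exact_mod_cast this

lemma scale {x y : ℝ} (h : x ≤ y) : (x : Hyperreal) * |K.η| ≤ (y : Hyperreal) * |K.η| :=
  mul_le_mul_of_nonneg_right (by exact_mod_cast h) K.e_pos.le

lemma scale_lt {x y : ℝ} (h : x < y) : (x : Hyperreal) * |K.η| < (y : Hyperreal) * |K.η| :=
  mul_lt_mul_of_pos_right (by exact_mod_cast h) K.e_pos

/-- The sign of `η`. -/
noncomputable def σ : ℝ := if 0 < K.η then 1 else -1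

lemma σ_cases : K.σ = 1 ∨ K.σ = -1 := by
  unfold σ
  split_ifs <;> simp

lemma σ_mul : (K.σ : Hyperreal) * |K.η| = K.η := by
  unfold σ
  split_ifs with h
  · rw [abs_of_pos h]; simp
  · have h1 : K.η < 0 := lt_of_le_of_ne (not_lt.1 h) K.H.η_ne
    rw [abs_of_neg h1]; simp

lemma σ_abs (x : ℝ) : |K.σ * x| = |x| := by
  rcases K.σ_cases with h | h <;> rw [h] <;> simp

lemma η_mul (b : ℤ) : K.η * (b : Hyperreal) = ((K.σ * b : ℝ) : Hyperreal) * |K.η| := by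
  nth_rewrite 1 [← K.σ_mul]
  rw [Hyperreal.coe_mul, cint]
  ring

lemma σG : 0 < K.σ * K.G := by
  have h := K.hG
  rw [K.η_mul] at h
  refine K.cancel_lt ?_
  simpa using h

lemma σG' {j : ℕ} (hj : j < K.m) (h0 : 0 < K.ρ j) : K.σ * K.G' j = |(K.G' j : ℝ)| := by
  have h1 := K.hG1 j hj h0
  have h2 := K.hG5 j hj h0
  have h3 := K.ν_div_lt hj
  have h4 : K.ρ j / K.ρ K.i / (5 * K.n) = K.ν j / K.n / 5 := by
    unfold ν
    field_simp
  rw [h4] at h1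
  have h5 : K.σ * K.G = |(K.G : ℝ)| := by
    rw [← K.σ_abs, abs_of_pos K.σG]
  have h6 : 0 < K.σ * K.G' j := by
    have h7 : K.σ * K.G' j = K.ν j * |(K.G : ℝ)| - K.σ * (K.ρ j / K.ρ K.i * K.G - K.G' j) := by
      rw [← h5]
      unfold ν
      ring
    have h8 : K.σ * (K.ρ j / K.ρ K.i * K.G - K.G' j) ≤ K.ν j / K.n / 5 := by
      refine (le_abs_self _).trans ?_
      rw [K.σ_abs]
      exact h1
    have h9 : 5 < K.ν j * (|(K.G : ℝ)| - 2) := h2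
    have h10 := K.ν_pos h0
    rw [h7]
    nlinarith
  rw [← K.σ_abs, abs_of_pos h6]

lemma contact {j j' : ℕ} (hj : j < K.m) (hj' : j' < K.m) {b b' y : ℤ} {C : ℝ}
    (hc : |K.t j' b' - K.t j b - y| ≤ (C : Hyperreal) * |K.η|) :
    |(b' : ℝ) - b| ≤ K.B1 + C ∧
      |K.t j' b' - K.t j b - y| ≤ ((|(b' : ℝ) - b| + K.B1 : ℝ) : Hyperreal) * |K.η| := by
  have h1 := K.hB1 j hj j' hj' b b' y ⟨C, hc⟩
  have h2 : |K.η * ((b' : Hyperreal) - b)| = ((|(b' : ℝ) - b| : ℝ) : Hyperreal) * |K.η| := by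
    rw [abs_mul, Hyperreal.coe_abs, Hyperreal.coe_sub, cint, cint, mul_comm]
  constructor
  · refine K.cancel ?_
    rw [← h2, Hyperreal.coe_add, add_mul]
    have h3 : K.η * ((b' : Hyperreal) - b) = (K.t j' b' - K.t j b - y) -
        (K.t j' b' - K.t j b - y - K.η * ((b' : Hyperreal) - b)) := by ring
    rw [h3]
    refine (abs_sub _ _).trans ?_
    linarith
  · have h3 : K.t j' b' - K.t j b - y = K.η * ((b' : Hyperreal) - b) +
        (K.t j' b' - K.t j b - y - K.η * ((b' : Hyperreal) - b)) := by ring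
    rw [h3]
    refine (abs_add_le _ _).trans ?_
    rw [h2, Hyperreal.coe_add, add_mul]
    linarith

lemma early {j : ℕ} (hj : j < K.m) {b y : ℤ} {C : ℝ}
    (hc : |K.t j b - y| ≤ (C : Hyperreal) * |K.η|) :
    |K.t j b - y - ((K.σ * b : ℝ) : Hyperreal) * (|K.η|)| ≤ (K.B1 : Hyperreal) * |K.η| ∧
    (K.B1 < K.σ * b → y = 0) ∧ (K.σ * b < -K.B1 → y = 1) := by
  have h0 : K.t j b - K.t K.i 0 - y = K.t j b - y := by rw [K.hi0]; ring
  have h1 := K.hB1 K.i K.him j hj 0 b y ⟨C, by rw [h0]; exact hc⟩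
  rw [h0] at h1
  have h2 : K.η * ((b : Hyperreal) - ((0 : ℤ) : Hyperreal)) =
      ((K.σ * b : ℝ) : Hyperreal) * |K.η| := by
    rw [← K.η_mul]; simp
  rw [h2] at h1
  have h3 := abs_le.1 h1
  have h4 := abs_le.1 hc
  have h5 := K.H.t_mem j b
  have h6 := K.small C one_pos
  rw [Hyperreal.coe_one] at h6
  refine ⟨h1, fun hb => ?_, fun hb => ?_⟩
  · have h7 := K.scale_lt hb
    have h8 : (y : Hyperreal) < 1 := by linarith [h3.1, h5.2]
    have h9 : (-1 : Hyperreal) < y := by linarith [h4.2, h5.1]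
    have h10 : y < 1 := by exact_mod_cast h8
    have h11 : -1 < y := by exact_mod_cast h9
    omega
  · have h7 := K.scale_lt hb
    rw [Hyperreal.coe_neg] at h7
    have h8 : (0 : Hyperreal) < y := by linarith [h3.2, h5.1]
    have h9 : (y : Hyperreal) < 2 := by linarith [h4.1, h5.2]
    have h10 : 0 < y := by exact_mod_cast h8
    have h11 : y < 2 := by exact_mod_cast h9
    omega

lemma sgn_same {j : ℕ} {b : ℤ} {a : ℕ} (hv : K.Vis j b a) (he : K.ρ j = K.ρ K.i) :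
    K.B1 + (((a : ℝ) + 1) * |(K.G : ℝ)| - K.C1 - K.B1) < K.σ * b ∧
      |K.σ * b - ((a : ℝ) + 1) * (|(K.G : ℝ)|)| ≤ K.C1 := by
  have h1 := K.off hv
  have hG : K.G' j = K.G := by rw [K.G'_eq hv.1 K.him hv.2.1 he, K.G'_i]
  have hν : K.ν j = 1 := by unfold ν; rw [he]; exact div_self K.hiρ.ne'
  rw [hG, hν] at h1
  have h5 : K.σ * K.G = |(K.G : ℝ)| := by
    rw [← K.σ_abs, abs_of_pos K.σG]
  have h6 : K.σ * b - ((a : ℝ) + 1) * |(K.G : ℝ)| =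
      K.σ * ((b : ℝ) - (a + 1) * K.G - (1 - 1) * K.A) := by
    rw [← h5]; ring
  have h7 : |K.σ * b - ((a : ℝ) + 1) * (|(K.G : ℝ)|)| ≤ K.C1 - 2 := by
    rw [h6, K.σ_abs]; exact h1
  have h8 := abs_le.1 h7
  exact ⟨by linarith [h8.1], by linarith⟩

lemma sgn_cases {j : ℕ} (hj : j < K.m) (h0 : 0 < K.ρ j) :
    (∀ b a, K.Vis j b a → K.B1 < K.σ * b) ∨ (∀ b a, K.Vis j b a → K.σ * b < -K.B1) := by
  by_cases he : K.ρ j = K.ρ K.i
  · left
    intro b a hv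
    have h1 := (K.sgn_same hv he).1
    have h2 := K.G_gt
    have h3 := K.hB0
    have h4 := K.C1_ge
    nlinarith [abs_nonneg (K.G : ℝ), Nat.cast_nonneg (α := ℝ) a]
  · have h5 := K.hA j hj h0 K.i K.him K.hiρ he
    rw [show |K.ρ j / K.ρ K.i - K.ρ K.i / K.ρ K.i| * K.A = |(K.ν j - 1) * K.A| by
      rw [abs_mul, abs_of_nonneg K.hA0, div_self K.hiρ.ne']; rfl] at h5
    have h6 : 0 ≤ K.Gmax := (abs_nonneg _).trans K.G_le
    have h7 := K.hB0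
    have h8 := K.C1_ge
    have h9 := K.n_pos
    have hng : 0 ≤ K.n * K.Gmax := mul_nonneg h9.le h6
    have key : ∀ b a, K.Vis j b a →
        |(b : ℝ) - (K.ν j - 1) * K.A| ≤ K.C1 + K.n * K.Gmax := by
      intro b a hv
      have h1 := abs_le.1 (K.off hv)
      have h3 := abs_le.1 (K.step_le hv.1 hv.2.1 hv.2.2.1)
      rw [abs_le]
      constructor <;> linarith [h1.1, h1.2, h3.1, h3.2]
    rcases lt_abs.1 h5 with h10 | h10
    · have pos : ∀ b a, K.Vis j b a → K.B1 < (b : ℝ) := by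
        intro b a hv
        have := abs_le.1 (key b a hv)
        linarith [this.1]
      rcases K.σ_cases with hσ | hσ
      · left
        intro b a hv
        rw [hσ, one_mul]
        exact pos b a hv
      · right
        intro b a hv
        rw [hσ]
        linarith [pos b a hv]
    · have neg : ∀ b a, K.Vis j b a → (b : ℝ) < -K.B1 := by
        intro b a hv
        have := abs_le.1 (key b a hv)
        linarith [this.2]
      rcases K.σ_cases with hσ | hσ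
      · right
        intro b a hv
        rw [hσ, one_mul]
        exact neg b a hv
      · left
        intro b a hv
        rw [hσ]
        linarith [neg b a hv]

lemma sgn_diff {j : ℕ} {b : ℤ} {a : ℕ} (hv : K.Vis j b a) (he : K.ρ j ≠ K.ρ K.i) :
    K.B1 + K.n * K.Gmax < |K.σ * b| := by
  have h5 := K.hA j hv.1 hv.2.1 K.i K.him K.hiρ he
  rw [show |K.ρ j / K.ρ K.i - K.ρ K.i / K.ρ K.i| * K.A = |(K.ν j - 1) * K.A| by
    rw [abs_mul, abs_of_nonneg K.hA0, div_self K.hiρ.ne']; rfl] at h5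
  have h6 : 0 ≤ K.Gmax := (abs_nonneg _).trans K.G_le
  have h7 := K.hB0
  have h8 := K.C1_ge
  have h9 := K.n_pos
  have hng : 0 ≤ K.n * K.Gmax := mul_nonneg h9.le h6
  have h1 := abs_le.1 (K.off hv)
  have h3 := abs_le.1 (K.step_le hv.1 hv.2.1 hv.2.2.1)
  have e : (K.ν j - 1) * K.A = (b : ℝ) + ((K.ν j - 1) * K.A - b) := by ring
  rw [e] at h5
  have h10 : |(b : ℝ) + ((K.ν j - 1) * K.A - b)| ≤ |(b : ℝ)| + (K.C1 + K.n * K.Gmax) := by
    refine (abs_add_le _ _).trans (add_le_add_right ?_ _)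
    rw [abs_le]
    constructor <;> linarith [h1.1, h1.2, h3.1, h3.2]
  rw [K.σ_abs]
  nlinarith

lemma t_shift (j : ℕ) {b b' : ℤ} (hd : (K.v : ℤ) ∣ b' - b) :
    ∃ y : ℤ, K.t j b' - K.t j b = ((K.σ * (b' - b) : ℝ) : Hyperreal) * |K.η| + y := by
  obtain ⟨z, hz⟩ := K.H.t_sub j b' b
  obtain ⟨k, hk⟩ := hd
  have hv : (K.v : Hyperreal) ≠ 0 := by
    have := K.H.v_pos
    exact_mod_cast this.ne'
  have hk' : (b' : Hyperreal) - b = (K.v : Hyperreal) * k := by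
    have := congrArg (fun x : ℤ => (x : Hyperreal)) hk
    push_cast at this
    exact this
  refine ⟨z + K.u * k, ?_⟩
  have h1 := K.η_mul (b' - b)
  push_cast at h1
  have h2 : ((K.σ * (b' - b) : ℝ) : Hyperreal) * |K.η| = K.η * ((b' : Hyperreal) - b) := by
    rw [h1]
    simp [cint]
  rw [h2]
  push_cast
  have h3 : (K.u : Hyperreal) * k = (K.u : Hyperreal) / K.v * ((b' : Hyperreal) - b) := by
    rw [hk']
    field_simp
  rw [h3, ← hz]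
  ring

lemma nowrap {j : ℕ} {b b' : ℤ} {a a' : ℕ} (hv : K.Vis j b a) (hv' : K.Vis j b' a')
    (hb : b' - b = ((a' : ℤ) - a) * K.G' j) :
    K.t j b' - K.t j b = ((K.σ * (b' - b) : ℝ) : Hyperreal) * |K.η| := by
  obtain ⟨y, hy⟩ := K.t_shift j (b := b) (b' := b')
    (hb ▸ (K.hG'v j hv.1 hv.2.1).mul_left _)
  set x : ℝ := K.σ * (b' - b) with hx
  have hx1 : ((-|x| : ℝ) : Hyperreal) * |K.η| ≤ (x : Hyperreal) * |K.η| :=
    K.scale (neg_abs_le x)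
  have hx2 : (x : Hyperreal) * |K.η| ≤ ((|x| : ℝ) : Hyperreal) * |K.η| := K.scale (le_abs_self x)
  rw [Hyperreal.coe_neg, neg_mul] at hx1
  have hx3 := K.small |x| one_pos
  rw [Hyperreal.coe_one] at hx3
  have h1 := K.H.t_mem j b
  have h2 := K.H.t_mem j b'
  have hy1 : (-2 : Hyperreal) < y := by linarith [h1.2, h2.1]
  have hy2 : (y : Hyperreal) < 2 := by linarith [h1.1, h2.2]
  have hy3 : -2 < y := by exact_mod_cast hy1
  have hy4 : y < 2 := by exact_mod_cast hy2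
  have hy5 : y = 0 := by
    rcases lt_trichotomy y 0 with h | h | h
    · exfalso
      have hy6 : y = -1 := by omega
      rw [hy6] at hy
      push_cast at hy
      have c1 : |K.t j b' - (0 : ℤ)| ≤ ((|x| : ℝ) : Hyperreal) * |K.η| := by
        rw [Int.cast_zero, abs_le]
        constructor <;> linarith [h1.2, h2.1]
      have c2 : |K.t j b - (1 : ℤ)| ≤ ((|x| : ℝ) : Hyperreal) * |K.η| := by
        rw [Int.cast_one, abs_le]
        constructor <;> linarith [h1.2, h2.1]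
      have e1 := K.early hv.1 c1
      have e2 := K.early hv.1 c2
      rcases K.sgn_cases hv.1 hv.2.1 with hs | hs
      · exact absurd (e2.2.1 (hs b a hv)) (by norm_num)
      · exact absurd (e1.2.2 (hs b' a' hv')) (by norm_num)
    · exact h
    · exfalso
      have hy6 : y = 1 := by omega
      rw [hy6] at hy
      push_cast at hy
      have c1 : |K.t j b - (0 : ℤ)| ≤ ((|x| : ℝ) : Hyperreal) * |K.η| := by
        rw [Int.cast_zero, abs_le]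
        constructor <;> linarith [h1.1, h2.2]
      have c2 : |K.t j b' - (1 : ℤ)| ≤ ((|x| : ℝ) : Hyperreal) * |K.η| := by
        rw [Int.cast_one, abs_le]
        constructor <;> linarith [h1.1, h2.2]
      have e1 := K.early hv.1 c1
      have e2 := K.early hv.1 c2
      rcases K.sgn_cases hv.1 hv.2.1 with hs | hs
      · exact absurd (e2.2.1 (hs b' a' hv')) (by norm_num)
      · exact absurd (e1.2.2 (hs b a hv)) (by norm_num)
  rw [hy, hy5]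
  simp

lemma τ_eq {j j' : ℕ} {b b' : ℤ} {C : ℝ}
    (hc : |K.t j' b' - K.t j b| ≤ (C : Hyperreal) * |K.η|) : K.τ j b = K.τ j' b' := by
  by_contra hne
  have hd : 0 < |K.τ j' b' - K.τ j b| := abs_pos.2 (sub_ne_zero.2 (Ne.symm hne))
  set d := |K.τ j' b' - K.τ j b| with hdd
  have h1 := abs_lt.1 (K.H.t_τ j b (d / 4) (by positivity))
  have h2 := abs_lt.1 (K.H.t_τ j' b' (d / 4) (by positivity))
  have h3 := abs_le.1 hc
  have h4 := K.small C (show 0 < d / 4 by positivity)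
  have h5 : ((|K.τ j' b' - K.τ j b| : ℝ) : Hyperreal) < ((d / 4 : ℝ) : Hyperreal) * 3 := by
    rw [Hyperreal.coe_abs, Hyperreal.coe_sub, abs_lt]
    constructor <;> linarith [h1.1, h1.2, h2.1, h2.2, h3.1, h3.2]
  have h6 : ((|K.τ j' b' - K.τ j b| : ℝ) : Hyperreal) < ((d / 4 * 3 : ℝ) : Hyperreal) := by
    rw [Hyperreal.coe_mul]
    exact h5
  have h7 := Hyperreal.coe_lt_coe.1 h6
  linarith

lemma τ_zero {j : ℕ} {b : ℤ} {C : ℝ} (hc : |K.t j b| ≤ (C : Hyperreal) * |K.η|) :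
    K.τ j b = 0 := by
  have h1 : K.τ K.i 0 = K.τ j b := K.τ_eq (by rw [K.hi0, sub_zero]; exact hc)
  rw [← h1]
  by_contra hne
  have hd : 0 < |K.τ K.i 0| := abs_pos.2 hne
  have h2 := K.H.t_τ K.i 0 _ hd
  rw [K.hi0, zero_sub, abs_neg, Hyperreal.coe_abs] at h2
  exact lt_irrefl _ h2

/-- The times of the driver. -/
lemma t_driver (a : ℕ) : K.t K.i ((a + 1) * K.G) =
    ((((a : ℝ) + 1) * |(K.G : ℝ)| : ℝ) : Hyperreal) * |K.η| := by
  obtain ⟨y, hy⟩ := K.t_shift K.i (b := 0) (b' := (a + 1) * K.G)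
    (by rw [sub_zero]; exact K.hGv.mul_left _)
  rw [K.hi0, sub_zero] at hy
  have h5 : K.σ * K.G = |(K.G : ℝ)| := by
    rw [← K.σ_abs, abs_of_pos K.σG]
  have h6 : K.σ * ((((a + 1) * K.G : ℤ) : ℝ) - ((0 : ℤ) : ℝ)) = ((a : ℝ) + 1) * |(K.G : ℝ)| := by
    rw [← h5]; push_cast; ring
  rw [h6] at hy
  have h1 := K.H.t_mem K.i ((a + 1) * K.G)
  have h2 := K.small (((a : ℝ) + 1) * |(K.G : ℝ)|) one_pos
  rw [Hyperreal.coe_one] at h2
  have h3 : (0 : Hyperreal) ≤ ((((a : ℝ) + 1) * |(K.G : ℝ)| : ℝ) : Hyperreal) * |K.η| :=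
    mul_nonneg (by exact_mod_cast (by positivity : 0 ≤ ((a : ℝ) + 1) * |(K.G : ℝ)|))
      (abs_nonneg _)
  have hy1 : (-1 : Hyperreal) < y := by linarith [h1.1]
  have hy2 : (y : Hyperreal) < 1 := by linarith [h1.2]
  have hy3 : -1 < y := by exact_mod_cast hy1
  have hy4 : y < 1 := by exact_mod_cast hy2
  have hy5 : y = 0 := by omega
  rw [hy, hy5]
  simp

lemma τ_driver (a : ℕ) : K.τ K.i ((a + 1) * K.G) = 0 := by
  refine K.τ_zero (C := ((a : ℝ) + 1) * |(K.G : ℝ)|) ?_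
  rw [K.t_driver a, abs_of_nonneg]
  exact mul_nonneg (by exact_mod_cast (by positivity : 0 ≤ ((a : ℝ) + 1) * |(K.G : ℝ)|))
      (abs_nonneg _)

lemma sa_mem {a : ℕ} (ha : a < K.n) : K.A ≤ K.sa a ∧ K.sa a ≤ K.A + 2 := by
  have e1 : K.sa a = K.A + 2 * ((a : ℝ) / K.n) := by unfold sa; ring
  have := K.div_n ha
  rw [e1]
  constructor <;> linarith [this.1, this.2]

/-- The level of a visit of the density of the driver. -/
lemma R_same {j : ℕ} (he : K.ρ j = K.ρ K.i) (b : ℤ) (a : ℕ) :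
    K.ρ j * K.X a - K.ξ j b = K.sa a + ((a + 1) * K.G - b) + (K.h j - K.h K.i) +
      K.θ * K.τ j b := by
  have hν : K.ν j = 1 := by unfold ν; rw [he]; exact div_self K.hiρ.ne'
  rw [K.mul_X, hν]
  unfold ξ
  ring

lemma X_sep {a a' : ℕ} (hne : a ≠ a') :
    (|(K.G : ℝ)| - 2 / K.n) ≤ K.ρ K.i * |K.X a - K.X a'| := by
  have h1 : K.ρ K.i * |K.X a - K.X a'| = |((a : ℝ) - a') * (K.G + 2 / K.n)| := by
    rw [← abs_of_pos K.hiρ, ← abs_mul]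
    congr 1
    have := K.hiρ.ne'
    unfold X sa
    field_simp
    ring
  rw [h1, abs_mul]
  have h2 : (1 : ℝ) ≤ |(a : ℝ) - a'| := by
    have h6 : (1 : ℤ) ≤ |(a : ℤ) - a'| := Int.one_le_abs (by omega)
    exact_mod_cast h6
  have h3 : |(K.G : ℝ)| - 2 / K.n ≤ |(K.G : ℝ) + 2 / K.n| := by
    have h4 : (0 : ℝ) < 2 / K.n := div_pos two_pos K.n_pos
    have h5 : |(K.G : ℝ)| ≤ |(K.G : ℝ) + 2 / K.n| + |(2 : ℝ) / K.n| := by
      have : (K.G : ℝ) = (K.G + 2 / K.n) - 2 / K.n := by ring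
      nth_rewrite 1 [this]
      exact abs_sub _ _
    rw [abs_of_pos h4] at h5
    linarith
  exact h3.trans (le_mul_of_one_le_left (abs_nonneg _) h2)

lemma sep {a a' : ℕ} (hne : a ≠ a') {j : ℕ} (hj : j < K.m)
    (h0 : 0 < K.ρ j) : K.ρ j * K.om + K.ρ j * K.om + 4 < K.ρ j * |K.X a - K.X a'| := by
  have h1 := K.X_sep hne
  have h2 := K.hG5 j hj h0
  have hν := K.ν_pos h0
  have h3 : K.ρ j * |K.X a - K.X a'| = K.ν j * (K.ρ K.i * |K.X a - K.X a'|) := by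
    have := K.hiρ.ne'
    unfold ν
    field_simp
  rw [h3, K.mul_om]
  have h4 := mul_le_mul_of_nonneg_left h1 hν.le
  have h5 := (K.νκ_lt hj).2
  have h6 : K.ν j * (2 / K.n) = 2 * (K.ν j / K.n) := by ring
  have h7 := K.ν_div_lt hj
  have h8 : 5 < K.ν j * (|(K.G : ℝ)| - 2) := h2
  have h9 : 2 * (K.ν j / K.n) ≤ K.ν j * 2 / 16 := by
    have := K.n_ge
    rw [← mul_div_assoc, mul_comm 2 (K.ν j)]
    exact div_le_div_of_nonneg_left (by positivity) (by norm_num) this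
  nlinarith

/-- The net sign of the cluster of the driver. -/
noncomputable def N : ℝ := netR K.m K.s K.ρ K.h K.η K.t K.i

lemma N_ne : K.N ≠ 0 := by
  have := K.hiN
  unfold N
  exact_mod_cast this

lemma abs_inv_N : |1 / K.N| ≤ 1 := by
  have h1 : (1 : ℝ) ≤ |K.N| := by
    have h2 := Int.one_le_abs K.hiN
    unfold N
    exact_mod_cast h2
  rw [abs_div, abs_one, div_le_one (by linarith)]
  exact h1

lemma ξ_near (j : ℕ) (b : ℤ) : |K.ξ j b - b| ≤ 2 := by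
  have h1 := K.hh j
  have h2 := K.θτ_mem j b
  unfold ξ
  rw [abs_le]
  constructor <;> linarith [h1.1, h1.2, h2.1, h2.2]

/-- The properties of the design. -/
structure Des (D : DesignData) (gate : ℕ × ℤ → ℕ) : Prop where
  mem : ∀ v ∈ D.V, gate v < K.n ∧ v.1 < K.m ∧ 0 < K.ρ v.1 ∧
    D.R v = K.ρ v.1 * K.X (gate v) - K.ξ v.1 v.2 ∧ D.w v = K.ρ v.1 * K.om ∧
    D.tt v = K.s v.1 * (1 / K.N) ∧ K.A - 1 - D.w v ≤ D.R v ∧ D.R v ≤ K.A + 3 + D.w v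
  inn : ∀ (j : ℕ) (b : ℤ) (a : ℕ), j < K.m → 0 < K.ρ j → a < K.n →
    K.A - 1 - K.ρ j * K.om ≤ K.ρ j * K.X a - K.ξ j b →
    K.ρ j * K.X a - K.ξ j b ≤ K.A + 3 + K.ρ j * K.om → (j, b) ∈ D.V ∧ gate (j, b) = a

/-- Same block. -/
def Nr (gate : ℕ × ℤ → ℕ) (v w : ℕ × ℤ) : Prop :=
  gate v = gate w ∧ K.ρ v.1 = K.ρ w.1 ∧
    ∃ C : ℝ, |K.t w.1 w.2 - K.t v.1 v.2| ≤ (C : Hyperreal) * |K.η|

variable {K} {D : DesignData} {gate : ℕ × ℤ → ℕ}

lemma Des.vis (hD : K.Des D gate) {v : ℕ × ℤ} (hv : v ∈ D.V) : K.Vis v.1 v.2 (gate v) := by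
  obtain ⟨h1, h2, h3, h4, h5, -, h7, h8⟩ := hD.mem v hv
  rw [h4, h5] at h7 h8
  exact ⟨h2, h3, h1, h7, h8⟩

lemma Des.far (hD : K.Des D gate) {v w : ℕ × ℤ} (hv : v ∈ D.V) (hw : w ∈ D.V)
    (hne : ¬ (gate v = gate w ∧ K.ρ v.1 = K.ρ w.1)) {C : ℝ}
    (hc : |K.t w.1 w.2 - K.t v.1 v.2| ≤ (C : Hyperreal) * |K.η|) :
    8 * K.C1 + 9 * K.B1 + 10 < C := by
  have h1 := hD.vis hv
  have h2 := hD.vis hw
  have h3 := (K.contact h1.1 h2.1 (b := v.2) (b' := w.2) (y := 0) (C := C)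
    (by rw [Int.cast_zero, sub_zero]; exact hc)).1
  have h4 : 8 * K.C1 + 10 * K.B1 + 10 < |(w.2 : ℝ) - v.2| := by
    by_cases he : K.ρ v.1 = K.ρ w.1
    · exact K.far_gate h1 h2 he fun h => hne ⟨h, he⟩
    · exact K.far_dens h1 h2 he
  linarith

lemma Des.nearT (hD : K.Des D gate) {v w : ℕ × ℤ} (hv : v ∈ D.V) (hw : w ∈ D.V)
    (h : K.Nr gate v w) :
    |K.t w.1 w.2 - K.t v.1 v.2| ≤ ((2 * K.C1 + K.B1 : ℝ) : Hyperreal) * |K.η| := by
  obtain ⟨hg, hρ, C, hc⟩ := h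
  have h1 := hD.vis hv
  have h2 := hD.vis hw
  rw [← hg] at h2
  have h3 := (K.contact h1.1 h2.1 (b := v.2) (b' := w.2) (y := 0) (C := C)
    (by rw [Int.cast_zero, sub_zero]; exact hc)).2
  rw [Int.cast_zero, sub_zero] at h3
  refine h3.trans (K.scale ?_)
  linarith [K.near h1 h2 hρ]

lemma Nr.symm' {v w : ℕ × ℤ} (h : K.Nr gate v w) : K.Nr gate w v := by
  obtain ⟨hg, hρ, C, hc⟩ := h
  exact ⟨hg.symm, hρ.symm, C, by rw [abs_sub_comm]; exact hc⟩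

lemma Nr.trans' {v w x : ℕ × ℤ} (h : K.Nr gate v w) (h' : K.Nr gate w x) : K.Nr gate v x := by
  obtain ⟨hg, hρ, C, hc⟩ := h
  obtain ⟨hg', hρ', C', hc'⟩ := h'
  refine ⟨hg.trans hg', hρ.trans hρ', C' + C, ?_⟩
  rw [Hyperreal.coe_add, add_mul]
  refine le_trans ?_ (add_le_add hc' hc)
  have e : K.t x.1 x.2 - K.t v.1 v.2 = (K.t x.1 x.2 - K.t w.1 w.2) +
      (K.t w.1 w.2 - K.t v.1 v.2) := by ring
  rw [e]
  exact abs_add_le _ _

lemma Des.rank (hD : K.Des D gate) :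
    ∃ pt : ℕ × ℤ → ℝ, ∀ v ∈ D.V, ∀ w ∈ D.V, (pt v = pt w ↔ K.Nr gate v w) ∧
      (pt v < pt w ↔ ¬ K.Nr gate v w ∧ K.t v.1 v.2 < K.t w.1 w.2) := by
  refine exists_rank D.V (fun v => K.t v.1 v.2) (K.Nr gate) ?_ ?_ ?_ ?_ ?_
  · intro v _
    exact ⟨rfl, rfl, 0, by simp⟩
  · intro v _ w _ h
    exact Nr.symm' h
  · intro v _ w _ x _ h h'
    exact Nr.trans' h h'
  · intro v hv w hw h he
    have hc : |K.t w.1 w.2 - K.t v.1 v.2| ≤ ((0 : ℝ) : Hyperreal) * |K.η| := by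
      have : K.t v.1 v.2 = K.t w.1 w.2 := he
      rw [this]; simp
    by_cases hg : gate v = gate w ∧ K.ρ v.1 = K.ρ w.1
    · exact h ⟨hg.1, hg.2, 0, hc⟩
    · have := hD.far hv hw hg hc
      linarith [K.C1_ge, K.hB0]
  · intro v hv w hw v' hv' w' hw' h h1 h2 hlt
    by_contra hcon
    have hcon' : K.t w'.1 w'.2 ≤ K.t v'.1 v'.2 := not_lt.1 hcon
    have hlt' : K.t v.1 v.2 < K.t w.1 w.2 := hlt
    have e1 := abs_le.1 (hD.nearT hv' hv h1)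
    have e2 := abs_le.1 (hD.nearT hw' hw h2)
    have hc : |K.t w.1 w.2 - K.t v.1 v.2| ≤
        ((4 * K.C1 + 2 * K.B1 : ℝ) : Hyperreal) * |K.η| := by
      have e3 : ((4 * K.C1 + 2 * K.B1 : ℝ) : Hyperreal) * |K.η| =
          ((2 * K.C1 + K.B1 : ℝ) : Hyperreal) * |K.η| +
          ((2 * K.C1 + K.B1 : ℝ) : Hyperreal) * |K.η| := by
        rw [← add_mul, ← Hyperreal.coe_add]
        congr 2
        ring
      rw [e3, abs_of_pos (by linarith)]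
      linarith [e1.1, e2.2]
    by_cases hg : gate v = gate w ∧ K.ρ v.1 = K.ρ w.1
    · exact h ⟨hg.1, hg.2, _, hc⟩
    · have := hD.far hv hw hg hc
      linarith [K.C1_ge, K.hB0]

/-- Levels within a block. -/
lemma Des.R_sub (hD : K.Des D gate) {v w : ℕ × ℤ} (hv : v ∈ D.V) (hw : w ∈ D.V)
    (h : K.Nr gate v w) :
    D.R v - D.R w = ((w.2 - v.2 : ℤ) : ℝ) - (K.h w.1 - K.h v.1) ∧ D.w v = D.w w ∧
      (D.R v = D.R w ∨ K.κ5 ≤ |D.R v - D.R w|) := by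
  obtain ⟨hg, hρ, C, hc⟩ := h
  obtain ⟨-, h2, -, h4, h5, -⟩ := hD.mem v hv
  obtain ⟨-, h2', -, h4', h5', -⟩ := hD.mem w hw
  have hτ := K.τ_eq hc
  have e : D.R v - D.R w = ((w.2 - v.2 : ℤ) : ℝ) - (K.h w.1 - K.h v.1) := by
    rw [h4, h4', hg, hρ]
    unfold ξ
    rw [hτ]
    push_cast
    ring
  refine ⟨e, by rw [h5, h5', hρ], ?_⟩
  by_cases he : ((w.2 - v.2 : ℤ) : ℝ) = K.h w.1 - K.h v.1
  · left
    rw [he, sub_self] at e
    linarith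
  · right
    rw [e]
    exact K.hκ5 v.1 h2 w.1 h2' _ he

lemma Des.w_lt (hD : K.Des D gate) {v : ℕ × ℤ} (hv : v ∈ D.V) :
    0 < D.w v ∧ 4 * D.w v < K.κ5 ∧ 4 * D.w v < 1 := by
  obtain ⟨-, h2, h3, -, h5, -⟩ := hD.mem v hv
  rw [h5, K.mul_om]
  exact ⟨mul_pos (K.ν_pos h3) K.κ_pos, K.νκ_lt h2⟩

/-- The visits of the driver. -/
lemma Des.driver (hD : K.Des D gate) {a : ℕ} (ha : a < K.n) :
    (K.i, ((a : ℤ) + 1) * K.G) ∈ D.V ∧ gate (K.i, ((a : ℤ) + 1) * K.G) = a ∧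
      D.R (K.i, ((a : ℤ) + 1) * K.G) = K.sa a := by
  have h1 : K.ρ K.i * K.X a - K.ξ K.i (((a : ℤ) + 1) * K.G) = K.sa a := by
    rw [K.R_same rfl, K.τ_driver a]
    push_cast
    ring
  have h2 := K.sa_mem ha
  have h3 : 0 < K.ρ K.i * K.om := by
    rw [K.mul_om]
    exact mul_pos (K.ν_pos K.hiρ) K.κ_pos
  have h4 := hD.inn K.i (((a : ℤ) + 1) * K.G) a K.him K.hiρ ha
    (by rw [h1]; linarith [h2.1]) (by rw [h1]; linarith [h2.2])
  refine ⟨h4.1, h4.2, ?_⟩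
  have h5 := (hD.mem _ h4.1).2.2.2.1
  rw [h4.2] at h5
  rw [h5]
  exact h1

/-- Visits of the density of the driver with a small time belong to the block of the driver. -/
lemma Des.early_same (hD : K.Des D gate) {v : ℕ × ℤ} (hv : v ∈ D.V)
    (he : K.ρ v.1 = K.ρ K.i) {C : ℝ} (hc : K.t v.1 v.2 ≤ (C : Hyperreal) * |K.η|) :
    K.Nr gate v (K.i, ((gate v : ℤ) + 1) * K.G) := by
  have hvis := hD.vis hv
  have ht := K.H.t_mem v.1 v.2
  have hd := hD.driver hvis.2.2.1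
  have hc' : |K.t v.1 v.2 - ((0 : ℤ) : Hyperreal)| ≤ (C : Hyperreal) * |K.η| := by
    rw [Int.cast_zero, sub_zero, abs_of_nonneg ht.1]
    exact hc
  have h1 := (K.early hvis.1 hc').1
  rw [Int.cast_zero, sub_zero] at h1
  have h2 := (K.sgn_same hvis he).2
  refine ⟨hd.2.1.symm, he, K.B1 + K.C1, ?_⟩
  have hX : ((K.B1 + K.C1 : ℝ) : Hyperreal) * |K.η| = (K.B1 : Hyperreal) * |K.η| +
      (K.C1 : Hyperreal) * |K.η| := by rw [Hyperreal.coe_add, add_mul]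
  rw [K.t_driver (gate v), hX]
  have h3 := abs_le.1 h1
  have h4 := abs_le.1 h2
  have h5 := K.scale (show K.σ * v.2 ≤ (((gate v : ℝ) + 1) * |(K.G : ℝ)|) + K.C1 by
    linarith [h4.2])
  have h6 := K.scale (show (((gate v : ℝ) + 1) * |(K.G : ℝ)|) - K.C1 ≤ K.σ * v.2 by
    linarith [h4.1])
  rw [Hyperreal.coe_add, add_mul] at h5
  rw [Hyperreal.coe_sub, sub_mul] at h6
  rw [abs_le]
  constructor <;> linarith [h3.1, h3.2]

/-- Visits of another density are later than the burst. -/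
lemma Des.late_diff (hD : K.Des D gate) {v : ℕ × ℤ} (hv : v ∈ D.V)
    (he : K.ρ v.1 ≠ K.ρ K.i) :
    ((K.n * |(K.G : ℝ)| : ℝ) : Hyperreal) * |K.η| < K.t v.1 v.2 := by
  by_contra hcon
  have hvis := hD.vis hv
  have ht := K.H.t_mem v.1 v.2
  have hc' : |K.t v.1 v.2 - ((0 : ℤ) : Hyperreal)| ≤
      ((K.n * |(K.G : ℝ)| : ℝ) : Hyperreal) * |K.η| := by
    rw [Int.cast_zero, sub_zero, abs_of_nonneg ht.1]
    exact not_lt.1 hcon
  have h1 := K.early hvis.1 hc'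
  have h2 := K.sgn_diff hvis he
  have h3 : ¬ (K.σ * v.2 < -K.B1) := fun h => absurd (h1.2.2 h) (by norm_num)
  have h6 : 0 ≤ K.Gmax := (abs_nonneg _).trans K.G_le
  have hng : 0 ≤ K.n * K.Gmax := mul_nonneg K.n_pos.le h6
  have h4 : K.B1 + K.n * K.Gmax < K.σ * v.2 := by
    rcases lt_abs.1 h2 with h | h
    · exact h
    · exact absurd (by linarith : K.σ * v.2 < -K.B1) h3
  have h5 := h1.1
  rw [Int.cast_zero, sub_zero] at h5
  have h7 := abs_le.1 h5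
  have h8 : K.σ * v.2 ≤ K.B1 + K.n * |(K.G : ℝ)| := by
    refine K.cancel ?_
    rw [Hyperreal.coe_add, add_mul]
    linarith [h7.1, not_lt.1 hcon]
  have h9 := mul_le_mul_of_nonneg_left K.G_le K.n_pos.le
  linarith

/-- Membership in the driver class. -/
lemma Des.class_mem (hD : K.Des D gate) {a : ℕ} (ha : a < K.n) {j : ℕ} (hj : j < K.m)
    (hr : relR K.ρ K.h K.η K.t K.i j) :
    (j, ((a : ℤ) + 1) * K.G + ⌊K.h j - K.h K.i⌋) ∈ D.V ∧
      K.Nr gate (j, ((a : ℤ) + 1) * K.G + ⌊K.h j - K.h K.i⌋) (K.i, ((a : ℤ) + 1) * K.G) ∧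
      D.R (j, ((a : ℤ) + 1) * K.G + ⌊K.h j - K.h K.i⌋) = K.sa a := by
  obtain ⟨hρ, z, hz, y, C, hc⟩ := hr
  have hfl : ⌊K.h j - K.h K.i⌋ = z := by rw [← hz, Int.floor_intCast]
  rw [hfl]
  set b : ℤ := ((a : ℤ) + 1) * K.G + z with hb
  have h0 : 0 < K.ρ j := hρ ▸ K.hiρ
  rw [K.hi0, sub_zero] at hc
  obtain ⟨y', hy'⟩ := K.t_shift j (b := z) (b' := b)
    (by rw [hb, add_sub_cancel_right]; exact K.hGv.mul_left _)
  set x : ℝ := K.σ * (b - z) with hx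
  have h5 : K.σ * K.G = |(K.G : ℝ)| := by
    rw [← K.σ_abs, abs_of_pos K.σG]
  have hx' : x = ((a : ℝ) + 1) * |(K.G : ℝ)| := by
    rw [hx, hb, ← h5]; push_cast; ring
  have hx0 : 0 ≤ x := by rw [hx']; positivity
  have hxe : 0 ≤ (x : Hyperreal) * |K.η| :=
    mul_nonneg (by exact_mod_cast hx0) (abs_nonneg _)
  have hc2 : |K.t j b - ((y + y' : ℤ) : Hyperreal)| ≤ ((C + x : ℝ) : Hyperreal) * |K.η| := by
    have e : K.t j b - ((y + y' : ℤ) : Hyperreal) = (K.t j z - y) + (x : Hyperreal) * |K.η| := by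
      push_cast
      linear_combination hy'
    rw [e, Hyperreal.coe_add, add_mul]
    refine (abs_add_le _ _).trans (add_le_add hc (le_of_eq ?_))
    exact abs_of_nonneg hxe
  have h1 := K.early hj hc2
  have hz1 : |(z : ℝ)| ≤ 1 := by
    rw [hz, abs_le]
    constructor <;> linarith [(K.hh j).1, (K.hh j).2, (K.hh K.i).1, (K.hh K.i).2]
  have hσb : K.B1 < K.σ * b := by
    have e : K.σ * b = x + K.σ * z := by rw [hx]; ring
    have h2 : -1 ≤ K.σ * z := by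
      have h3 : |K.σ * z| ≤ 1 := by rw [K.σ_abs]; exact hz1
      exact (abs_le.1 h3).1
    rw [e, hx']
    have h3 := K.G_gt
    have h4 := K.hB0
    have h6 := K.C1_ge
    nlinarith [abs_nonneg (K.G : ℝ), Nat.cast_nonneg (α := ℝ) a]
  have hy0 := h1.2.1 hσb
  rw [hy0, Int.cast_zero, sub_zero] at h1 hc2
  have hτ : K.τ j b = 0 := K.τ_zero hc2
  have hR : K.ρ j * K.X a - K.ξ j b = K.sa a := by
    rw [K.R_same hρ.symm, hτ, hb]
    push_cast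
    rw [hz]
    ring
  have h2 := K.sa_mem ha
  have h3 : 0 < K.ρ j * K.om := by
    rw [K.mul_om]
    exact mul_pos (K.ν_pos h0) K.κ_pos
  have h4 := hD.inn j b a hj h0 ha
    (by rw [hR]; linarith [h2.1]) (by rw [hR]; linarith [h2.2])
  have h6 := hD.driver ha
  refine ⟨h4.1, ⟨h4.2.trans h6.2.1.symm, hρ.symm, x + (C + x), ?_⟩, ?_⟩
  · show |K.t K.i (((a : ℤ) + 1) * K.G) - K.t j b| ≤ _
    have hX : ((x + (C + x) : ℝ) : Hyperreal) * |K.η| = (x : Hyperreal) * |K.η| +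
        ((C + x : ℝ) : Hyperreal) * |K.η| := by rw [Hyperreal.coe_add x, add_mul]
    rw [hX]
    refine (abs_sub _ _).trans (add_le_add (le_of_eq ?_) hc2)
    rw [K.t_driver a, ← hx']
    exact abs_of_nonneg hxe
  · have h5 := (hD.mem _ h4.1).2.2.2.1
    rw [h4.2] at h5
    rw [h5]
    exact hR

/-- The converse. -/
lemma Des.class_conv (hD : K.Des D gate) {a : ℕ} (ha : a < K.n) {v : ℕ × ℤ} (hv : v ∈ D.V)
    (hN : K.Nr gate v (K.i, ((a : ℤ) + 1) * K.G)) (hR : D.R v = K.sa a) :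
    v.1 < K.m ∧ relR K.ρ K.h K.η K.t K.i v.1 ∧
      v = (v.1, ((a : ℤ) + 1) * K.G + ⌊K.h v.1 - K.h K.i⌋) := by
  have hd := hD.driver ha
  have hsub := hD.R_sub hv hd.1 hN
  rw [hR, hd.2.2, sub_self] at hsub
  have hvis := hD.vis hv
  have hz : (((v.2 - ((a : ℤ) + 1) * K.G : ℤ)) : ℝ) = K.h v.1 - K.h K.i := by
    have := hsub.1
    push_cast at this ⊢
    linarith
  have hfl : ⌊K.h v.1 - K.h K.i⌋ = v.2 - ((a : ℤ) + 1) * K.G := by
    rw [← hz, Int.floor_intCast]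
  refine ⟨hvis.1, ⟨hN.2.1.symm, v.2 - ((a : ℤ) + 1) * K.G, hz, ?_⟩, ?_⟩
  · obtain ⟨y', hy'⟩ := K.t_shift v.1 (b := v.2 - ((a : ℤ) + 1) * K.G) (b' := v.2)
      (by rw [sub_sub_cancel]; exact K.hGv.mul_left _)
    obtain ⟨-, -, C, hc⟩ := hN
    have hc' : |K.t K.i (((a : ℤ) + 1) * K.G) - K.t v.1 v.2| ≤ (C : Hyperreal) * |K.η| := hc
    have h5 : K.σ * K.G = |(K.G : ℝ)| := by
      rw [← K.σ_abs, abs_of_pos K.σG]
    have hx' : K.σ * ((v.2 : ℝ) - ((v.2 - ((a : ℤ) + 1) * K.G : ℤ) : ℝ)) =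
        ((a : ℝ) + 1) * |(K.G : ℝ)| := by
      rw [← h5]; push_cast; ring
    rw [hx'] at hy'
    rw [K.t_driver a] at hc'
    refine ⟨-y', C, ?_⟩
    rw [K.hi0, sub_zero]
    have e : K.t v.1 (v.2 - ((a : ℤ) + 1) * K.G) - ((-y' : ℤ) : Hyperreal) =
        -(((((a : ℝ) + 1) * |(K.G : ℝ)| : ℝ) : Hyperreal) * |K.η| - K.t v.1 v.2) := by
      push_cast at hy' ⊢
      linear_combination -hy'
    rw [e, abs_neg]
    exact hc'
  · rw [hfl, add_sub_cancel]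

open Classical in
/-- The class sum of the driver. -/
lemma Des.class_sum (hD : K.Des D gate) {pt : ℕ × ℤ → ℝ}
    (hpt : ∀ v ∈ D.V, ∀ w ∈ D.V, (pt v = pt w ↔ K.Nr gate v w)) {a : ℕ} (ha : a < K.n) :
    ∑ v ∈ D.V.filter (fun v => pt v = pt (K.i, ((a : ℤ) + 1) * K.G) ∧ D.R v = K.A + 2 * a / K.n ∧
      D.w v = 4 / K.n), D.tt v = 1 := by
  have hd := hD.driver ha
  have hsum : ∑ j ∈ (Finset.range K.m).filter (relR K.ρ K.h K.η K.t K.i),
      ((K.s j : ℝ) * (1 / K.N)) =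
      ∑ v ∈ D.V.filter (fun v => pt v = pt (K.i, ((a : ℤ) + 1) * K.G) ∧
        D.R v = K.A + 2 * a / K.n ∧ D.w v = 4 / K.n), D.tt v := by
    refine Finset.sum_nbij (fun j => (j, ((a : ℤ) + 1) * K.G + ⌊K.h j - K.h K.i⌋)) ?_ ?_ ?_ ?_
    · intro j hj
      rw [Finset.mem_filter, Finset.mem_range] at hj
      have h1 := hD.class_mem ha hj.1 hj.2
      rw [Finset.mem_filter]
      refine ⟨h1.1, (hpt _ h1.1 _ hd.1).2 h1.2.1, h1.2.2, ?_⟩
      have h2 := (hD.mem _ h1.1).2.2.2.2.1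
      rw [h2, K.mul_om]
      have hν : K.ν j = 1 := by
        unfold ν
        rw [← hj.2.1]
        exact div_self K.hiρ.ne'
      show K.ν j * K.κ = _
      rw [hν, one_mul]
      rfl
    · intro j _ j' _ h
      exact (Prod.mk.inj h).1
    · intro v hv
      rw [Finset.mem_coe, Finset.mem_filter] at hv
      have h1 := hD.class_conv ha hv.1 ((hpt _ hv.1 _ hd.1).1 hv.2.1) hv.2.2.1
      refine ⟨v.1, ?_, h1.2.2.symm⟩
      rw [Finset.mem_coe, Finset.mem_filter, Finset.mem_range]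
      exact ⟨h1.1, h1.2.1⟩
    · intro j hj
      rw [Finset.mem_filter, Finset.mem_range] at hj
      exact ((hD.mem _ (hD.class_mem ha hj.1 hj.2).1).2.2.2.2.2.1).symm
  rw [← hsum, ← Finset.sum_mul]
  have h1 : ∑ j ∈ (Finset.range K.m).filter (relR K.ρ K.h K.η K.t K.i), (K.s j : ℝ) = K.N := by
    unfold N netR
    push_cast
    rfl
  rw [h1, mul_one_div, div_self K.N_ne]

/-- The event label. -/
noncomputable def evt (K : Ctx) (gate : ℕ × ℤ → ℕ) (v : ℕ × ℤ) : ℕ × ℤ :=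
  (v.1, v.2 - ((gate v : ℤ) + 1) * K.G' v.1 - ⌊(K.ν v.1 - 1) * K.A⌋)

/-- The set of events. -/
noncomputable def Evt (K : Ctx) : Finset (ℕ × ℤ) :=
  ((Finset.range K.m).filter fun j => 0 < K.ρ j) ×ˢ Finset.Icc (-⌊K.C1⌋) ⌊K.C1⌋

lemma Des.evt_mem (hD : K.Des D gate) {v : ℕ × ℤ} (hv : v ∈ D.V) : evt K gate v ∈ Evt K := by
  have hvis := hD.vis hv
  have h1 := abs_le.1 (K.off hvis)
  unfold evt Evt
  rw [Finset.mem_product, Finset.mem_filter, Finset.mem_range, Finset.mem_Icc]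
  refine ⟨⟨hvis.1, hvis.2.1⟩, ?_, ?_⟩
  · have h2 := Int.lt_floor_add_one ((K.ν v.1 - 1) * K.A)
    have h3 := Int.floor_le ((K.ν v.1 - 1) * K.A)
    have h4 : (-(v.2 - ((gate v : ℤ) + 1) * K.G' v.1 - ⌊(K.ν v.1 - 1) * K.A⌋) : ℤ) ≤ ⌊K.C1⌋ := by
      rw [Int.le_floor]
      push_cast
      linarith [h1.1]
    show -⌊K.C1⌋ ≤ v.2 - ((gate v : ℤ) + 1) * K.G' v.1 - ⌊(K.ν v.1 - 1) * K.A⌋
    linarith
  · have h2 := Int.lt_floor_add_one ((K.ν v.1 - 1) * K.A)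
    show v.2 - ((gate v : ℤ) + 1) * K.G' v.1 - ⌊(K.ν v.1 - 1) * K.A⌋ ≤ ⌊K.C1⌋
    rw [Int.le_floor]
    push_cast
    linarith [h1.2]

lemma Evt_sum (K : Ctx) : ∑ x ∈ Evt K, 10 * (K.ρ x.1 * K.om) ≤ 1 / 2 := by
  have h1 : ∀ x ∈ Evt K, 10 * (K.ρ x.1 * K.om) ≤ 10 * (K.νM * (4 / K.n)) := by
    intro x hx
    unfold Evt at hx
    rw [Finset.mem_product, Finset.mem_filter, Finset.mem_range] at hx
    rw [K.mul_om]
    have h2 : K.ν x.1 ≤ K.νM := K.hνM x.1 hx.1.1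
    have h3 := K.κ_pos
    have h4 : K.ν x.1 * K.κ ≤ K.νM * K.κ := mul_le_mul_of_nonneg_right h2 h3.le
    have h5 : K.νM * K.κ = K.νM * (4 / K.n) := rfl
    linarith
  refine (Finset.sum_le_card_nsmul _ _ _ h1).trans ?_
  rw [nsmul_eq_mul]
  refine le_trans ?_ K.hEv
  have h6 : 0 ≤ 10 * (K.νM * (4 / K.n)) := by
    have := K.one_le_νM
    have := K.n_pos
    positivity
  refine mul_le_mul_of_nonneg_right ?_ h6
  have hC : 0 ≤ ⌊K.C1⌋ := Int.floor_nonneg.2 (by linarith [K.C1_ge])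
  have h7 : ((Finset.Icc (-⌊K.C1⌋) ⌊K.C1⌋).card : ℝ) ≤ 2 * K.C1 + 1 := by
    rw [Int.card_Icc]
    have h8 : ((⌊K.C1⌋ + 1 - -⌊K.C1⌋).toNat : ℤ) = 2 * ⌊K.C1⌋ + 1 := by
      rw [Int.toNat_of_nonneg (by omega)]
      ring
    have h9 : (((⌊K.C1⌋ + 1 - -⌊K.C1⌋).toNat : ℕ) : ℝ) = 2 * (⌊K.C1⌋ : ℝ) + 1 := by
      exact_mod_cast h8
    rw [h9]
    linarith [Int.floor_le K.C1]
  have h10 : (((Finset.range K.m).filter fun j => 0 < K.ρ j).card : ℝ) ≤ K.m := by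
    have := Finset.card_filter_le (Finset.range K.m) fun j => 0 < K.ρ j
    rw [Finset.card_range] at this
    exact_mod_cast this
  unfold Evt
  rw [Finset.card_product, Nat.cast_mul]
  exact mul_le_mul h10 h7 (Nat.cast_nonneg _) (Nat.cast_nonneg _)

/-- The order of the visits of one event. -/
lemma Des.evt_order (hD : K.Des D gate) {v v' : ℕ × ℤ} (hv : v ∈ D.V) (hv' : v' ∈ D.V)
    (he : evt K gate v = evt K gate v') (hlt : K.t v.1 v.2 < K.t v'.1 v'.2) :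
    D.R v + 9 / 20 * D.w v ≤ D.R v' := by
  obtain ⟨j, b⟩ := v
  obtain ⟨j', b'⟩ := v'
  unfold evt at he
  have hj : j = j' := (Prod.mk.inj he).1
  subst hj
  have h1 := hD.vis hv
  have h2 := hD.vis hv'
  set a := gate (j, b) with ha
  set a' := gate (j, b') with ha'
  have hb : b' - b = ((a' : ℤ) - a) * K.G' j := by
    have h3 : b - ((a : ℤ) + 1) * K.G' j - ⌊(K.ν j - 1) * K.A⌋ =
        b' - ((a' : ℤ) + 1) * K.G' j - ⌊(K.ν j - 1) * K.A⌋ := (Prod.mk.inj he).2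
    linear_combination -h3
  have h3 := K.nowrap h1 h2 hb
  have hlt' : K.t j b < K.t j b' := hlt
  have hτ : K.τ j b = K.τ j b' := by
    refine K.τ_eq (C := |K.σ * (b' - b)|) ?_
    rw [h3, abs_mul, abs_abs, Hyperreal.coe_abs]
  have h4 : 0 < K.σ * ((b' : ℝ) - b) := by
    refine K.cancel_lt ?_
    rw [← h3, Hyperreal.coe_zero, zero_mul]
    linarith
  have hbr : (b' : ℝ) - b = ((a' : ℝ) - a) * K.G' j := by exact_mod_cast hb
  have h5 : 0 < ((a' : ℝ) - a) := by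
    have e : K.σ * ((b' : ℝ) - b) = ((a' : ℝ) - a) * |(K.G' j : ℝ)| := by
      rw [hbr, ← K.σG' h1.1 h1.2.1]; ring
    rw [e] at h4
    by_contra hcon
    have := mul_nonpos_of_nonpos_of_nonneg (not_lt.1 hcon) (abs_nonneg (K.G' j : ℝ))
    linarith
  have h6 : (1 : ℝ) ≤ (a' : ℝ) - a := by
    have h7 : (a : ℝ) < a' := by linarith
    have h8 : a < a' := by exact_mod_cast h7
    have h9 : (a : ℝ) + 1 ≤ a' := by exact_mod_cast h8
    linarith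
  have hR := (hD.mem _ hv).2.2.2.1
  have hR' := (hD.mem _ hv').2.2.2.1
  have hw := (hD.mem _ hv).2.2.2.2.1
  rw [← ha] at hR
  rw [← ha'] at hR'
  rw [hR, hR', hw]
  show K.ρ j * K.X a - K.ξ j b + 9 / 20 * (K.ρ j * K.om) ≤ K.ρ j * K.X a' - K.ξ j b'
  rw [K.mul_om, K.mul_X, K.mul_X]
  unfold ξ
  rw [hτ]
  have h7 := abs_le.1 (K.hG1 j h1.1 h1.2.1)
  have h8 : K.ρ j / K.ρ K.i / (5 * K.n) = K.ν j / K.n / 5 := by
    unfold ν
    field_simp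
  rw [h8] at h7
  have h9 : -(K.ν j / K.n / 5) ≤ K.ν j * K.G - K.G' j := h7.1
  have h10 : 0 < K.ν j / K.n := div_pos (K.ν_pos h1.2.1) K.n_pos
  have e1 : K.sa a' = K.sa a + 2 * (((a' : ℝ) - a) / K.n) := by unfold sa; ring
  have e2 : K.ν j * K.κ = 4 * (K.ν j / K.n) := by unfold κ; ring
  rw [e1, e2]
  have e3 : K.ν j * ((↑a' + 1) * ↑K.G - K.h K.i + (K.sa a + 2 * ((↑a' - ↑a) / ↑K.n))) -
      (↑b' - K.h j - K.θ * K.τ j b') -
      (K.ν j * ((↑a + 1) * ↑K.G - K.h K.i + K.sa a) - (↑b - K.h j - K.θ * K.τ j b')) =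
      ((a' : ℝ) - a) * ((K.ν j * K.G - K.G' j) + 2 * (K.ν j / K.n)) := by
    linear_combination (-1 : ℝ) * hbr
  have h11 : 9 / 5 * (K.ν j / K.n) ≤
      ((a' : ℝ) - a) * ((K.ν j * K.G - K.G' j) + 2 * (K.ν j / K.n)) := by
    have h12 : 9 / 5 * (K.ν j / K.n) ≤ (K.ν j * K.G - K.G' j) + 2 * (K.ν j / K.n) := by
      linarith
    have h13 : 0 ≤ (K.ν j * K.G - K.G' j) + 2 * (K.ν j / K.n) := by linarith
    nlinarith
  linarith

theorem Des.climb (hD : K.Des D gate) {pt : ℕ × ℤ → ℝ}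
    (hpt : ∀ v ∈ D.V, ∀ w ∈ D.V, (pt v = pt w ↔ K.Nr gate v w) ∧
      (pt v < pt w ↔ ¬ K.Nr gate v w ∧ K.t v.1 v.2 < K.t w.1 w.2)) :
    Climb D.V D.R D.w D.tt pt K.A (1 / 2) K.n := by
  have hP : ∀ a < K.n, (K.i, ((a : ℤ) + 1) * K.G) ∈ D.V := fun a ha => (hD.driver ha).1
  refine ⟨K.hn, by norm_num, le_rfl, ?_, ?_, ?_⟩
  · intro v hv
    have := hD.w_lt hv
    exact ⟨this.1, by linarith [this.2.2]⟩
  · intro v hv w hw he
    have h1 := hD.R_sub hv hw (((hpt v hv w hw).1).1 he)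
    have h2 := hD.w_lt hv
    rcases h1.2.2 with h3 | h3
    · exact Or.inl ⟨h3, h1.2.1⟩
    · right
      rw [← h1.2.1]
      linarith [h2.2.1, h2.1]
  refine ⟨fun a => pt (K.i, ((a : ℤ) + 1) * K.G), ?_, ?_, ?_, fun _ => True, ℕ × ℤ,
    inferInstance, Evt K, evt K gate, fun x => K.ρ x.1 * K.om, ?_, ?_, ?_, ?_, ?_⟩
  · intro a a' haa ha'
    have ha : a < K.n := haa.trans ha'
    refine ((hpt _ (hP a ha) _ (hP a' ha')).2).2 ⟨?_, ?_⟩
    · intro h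
      have h1 := h.1
      rw [(hD.driver ha).2.1, (hD.driver ha').2.1] at h1
      omega
    · show K.t K.i (((a : ℤ) + 1) * K.G) < K.t K.i (((a' : ℤ) + 1) * K.G)
      rw [K.t_driver a, K.t_driver a']
      refine K.scale_lt (mul_lt_mul_of_pos_right ?_ ?_)
      · have : (a : ℝ) < a' := by exact_mod_cast haa
        linarith
      · have := K.G_gt
        have := K.hB0
        have := K.C1_ge
        linarith
  · intro v hv hle
    have hn1 : K.n - 1 < K.n := by have := K.hn; omega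
    have hcast : (((K.n - 1 : ℕ) : ℝ) + 1) = K.n := by
      have : K.n - 1 + 1 = K.n := by have := K.hn; omega
      exact_mod_cast this
    have ht1 : K.t K.i ((((K.n - 1 : ℕ) : ℤ) + 1) * K.G) =
        ((K.n * |(K.G : ℝ)| : ℝ) : Hyperreal) * |K.η| := by
      rw [K.t_driver (K.n - 1), hcast]
    have hC : K.ρ v.1 = K.ρ K.i ∧ ∃ C : ℝ, K.t v.1 v.2 ≤ (C : Hyperreal) * |K.η| := by
      rcases hle.lt_or_eq with h | h
      · have h1 := (((hpt v hv _ (hP _ hn1)).2).1 h).2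
        have h2 : K.t v.1 v.2 < K.t K.i ((((K.n - 1 : ℕ) : ℤ) + 1) * K.G) := h1
        rw [ht1] at h2
        refine ⟨?_, _, h2.le⟩
        by_contra hne
        exact lt_asymm h2 (hD.late_diff hv hne)
      · have h1 := ((hpt v hv _ (hP _ hn1)).1).1 h
        obtain ⟨-, hρ, C, hc⟩ := h1
        have hc' : |K.t K.i ((((K.n - 1 : ℕ) : ℤ) + 1) * K.G) - K.t v.1 v.2| ≤
          (C : Hyperreal) * |K.η| := hc
        rw [ht1] at hc'
        refine ⟨hρ, K.n * |(K.G : ℝ)| + C, ?_⟩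
        rw [Hyperreal.coe_add, add_mul]
        linarith [(abs_le.1 hc').1]
    obtain ⟨hρ, C, hc⟩ := hC
    have hN := hD.early_same hv hρ hc
    have hg := (hD.vis hv).2.2.1
    refine ⟨gate v, hg, ((hpt v hv _ (hP _ hg)).1).2 hN, ?_⟩
    have h1 := hD.R_sub hv (hP _ hg) hN
    have hw : D.w v = 4 / K.n := by
      rw [(hD.mem v hv).2.2.2.2.1, K.mul_om]
      have hν : K.ν v.1 = 1 := by
        unfold ν
        rw [hρ]
        exact div_self K.hiρ.ne'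
      rw [hν, one_mul]
      rfl
    have hRd : D.R (K.i, ((gate v : ℤ) + 1) * K.G) = K.A + 2 * (gate v) / K.n :=
      (hD.driver hg).2.2
    rw [hRd] at h1
    rcases h1.2.2 with h3 | h3
    · exact Or.inl ⟨h3, hw⟩
    · right
      have h2 := hD.w_lt hv
      rw [← hw]
      linarith [h2.2.1, h2.1]
  · intro a ha
    convert hD.class_sum (fun v hv w hw => (hpt v hv w hw).1) ha using 2
  · intro v hv _ _
    exact Or.inr trivial
  · intro v hv _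
    exact ⟨hD.evt_mem hv, (hD.mem v hv).2.2.2.2.1⟩
  · intro v hv v' hv' _ _ he hlt
    exact hD.evt_order hv hv' he (((hpt v hv v' hv').2).1 hlt).2
  · intro x hx
    unfold Evt at hx
    rw [Finset.mem_product, Finset.mem_filter, Finset.mem_range] at hx
    show 0 ≤ K.ρ x.1 * K.om
    rw [K.mul_om]
    exact (mul_pos (K.ν_pos hx.1.2) K.κ_pos).le
  · exact Evt_sum K

theorem main (K : Ctx) : ∃ D : DesignData, D.Ok K.m K.s K.ρ K.ξ ∧
      ∃ pt : ℕ × ℤ → ℝ, Climb D.V D.R D.w D.tt pt D.A D.lam D.n ∧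
        ∀ v ∈ D.V, ∀ v' ∈ D.V, pt v < pt v' → K.t v.1 v.2 < K.t v'.1 v'.2 := by
  have hom : 0 < K.om := div_pos K.κ_pos K.hiρ
  obtain ⟨D, gate, hOk, hDn, hDA, hDl, -, -, -, hmem, hin⟩ := mkDesign K.m K.s K.hs K.ρ K.ξ
    K.ξ_near K.n K.A (1 / 2) K.X (fun _ => K.om) (fun _ => 1 / K.N) (fun _ _ => hom)
    (fun _ _ => K.abs_inv_N)
    ⟨fun _ _ => hom, fun a _ a' _ hne => by
      have h1 := K.sep hne K.him K.hiρ
      have h2 : K.ρ K.i * (K.om + K.om) < K.ρ K.i * |K.X a - K.X a'| := by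
        rw [mul_add]
        linarith
      exact lt_of_mul_lt_mul_left h2 K.hiρ.le⟩
    (fun a _ a' _ hne j hj h0 => K.sep hne hj h0)
  have hD : K.Des D gate := ⟨hmem, hin⟩
  obtain ⟨pt, hpt⟩ := hD.rank
  refine ⟨D, hOk, pt, ?_, ?_⟩
  · rw [hDn, hDA, hDl]
    exact hD.climb hpt
  · intro v hv v' hv' hlt
    exact (((hpt v hv v' hv').2).1 hlt).2

end Ctx

end R4

theorem caseR_verify (m : ℕ) (s : ℕ → ℤ) (hs : ∀ j < m, |s j| ≤ 1) (ρ : ℕ → ℝ)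
    {u : ℤ} {v : ℕ} {η : Hyperreal} {t : ℕ → ℤ → Hyperreal} {τ : ℕ → ℤ → ℝ}
    (H : RTimes u v η t τ) (θ : ℝ) (hθ : θ ∈ Icc (0 : ℝ) 1) (h : ℕ → ℝ)
    (hh : ∀ j, h j ∈ Icc (0 : ℝ) 1)
    -- the driver
    (i : ℕ) (him : i < m) (hiρ : 0 < ρ i) (hi0 : t i 0 = 0) (hiN : netR m s ρ h η t i ≠ 0)
    -- constants
    (B1 C1 κ5 νM Gmax : ℝ) (n : ℕ) (G : ℤ) (G' : ℕ → ℤ) (A : ℝ) (hA0 : 0 ≤ A) (hn : 16 ≤ n)
    (hB0 : 0 ≤ B1)
    (hB1 : ∀ j < m, ∀ j' < m, ∀ b b' y : ℤ,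
      (∃ C : ℝ, |t j' b' - t j b - y| ≤ (C : Hyperreal) * |η|) →
      |t j' b' - t j b - y - η * ((b' : Hyperreal) - b)| ≤ (B1 : Hyperreal) * |η|)
    (hνM : ∀ j < m, ρ j / ρ i ≤ νM) (hC1 : 2 * νM + 7 ≤ C1)
    (hκ5 : ∀ j < m, ∀ j' < m, ∀ z : ℤ, (z : ℝ) ≠ h j' - h j → κ5 ≤ |(z : ℝ) - (h j' - h j)|)
    (hκ : 4 * νM * (4 / n) < κ5 ∧ 4 * νM * (4 / n) < 1)
    (hEv : m * (2 * C1 + 1) * (10 * (νM * (4 / n))) ≤ 1 / 2)
    -- the step `G` of the sites and the steps `G'` of the visits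
    (hG : 0 < η * G) (hGv : (v : ℤ) ∣ G) (hG'v : ∀ j < m, 0 < ρ j → (v : ℤ) ∣ G' j)
    (hG1 : ∀ j < m, 0 < ρ j → |ρ j / ρ i * G - G' j| ≤ ρ j / ρ i / (5 * n))
    (hG2 : ∀ j < m, 0 < ρ j → n * |ρ j / ρ i * G - G' j| ≤ 1)
    (hG3 : ∀ j < m, 0 < ρ j → |(G' j : ℝ)| ≤ Gmax)
    (hG4 : ∀ j < m, 0 < ρ j → 10 * (B1 + C1 + 1) < |(G' j : ℝ)|)
    (hG5 : ∀ j < m, 0 < ρ j → 5 < ρ j / ρ i * (|(G : ℝ)| - 2))
    -- the start level
    (hA : ∀ j < m, 0 < ρ j → ∀ j' < m, 0 < ρ j' → ρ j ≠ ρ j' →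
      10 * (B1 + C1 + 1) + 2 * (n + 1) * Gmax < |ρ j / ρ i - ρ j' / ρ i| * A) :
    ∃ D : DesignData, D.Ok m s ρ (fun j b => b - h j - θ * τ j b) ∧
      ∃ pt : ℕ × ℤ → ℝ, Climb D.V D.R D.w D.tt pt D.A D.lam D.n ∧
        ∀ v ∈ D.V, ∀ v' ∈ D.V, pt v < pt v' → t v.1 v.2 < t v'.1 v'.2 :=
  (R4.Ctx.mk m s hs ρ u v η t τ H θ hθ h hh i him hiρ hi0 hiN B1 C1 κ5 νM Gmax n G G' A hA0 hn
    hB0 hB1 hνM hC1 hκ5 hκ hEv hG hGv hG'v hG1 hG2 hG3 hG4 hG5 hA).main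

end Pool.Agent.Helper22.Slip
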