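import Pool.Agent.Helper22.Slip.K3
import Pool.Agent.Helper22.Slip.R1
import Pool.Agent.Helper22.Slip.R2
import Pool.Agent.Helper22.Slip.R4

/-!
# R5: Case R, choice of the constants
-/

namespace Pool.Agent.Helper22.Slip

open Filter Set

lemma r5_exists_pos_le {α : Type*} (S : Finset α) (f : α → ℝ) (hf : ∀ x ∈ S, 0 < f x) :
    ∃ δ : ℝ, 0 < δ ∧ ∀ x ∈ S, δ ≤ f x := by
  rcases S.eq_empty_or_nonempty with h | h
  · subst h
    exact ⟨1, one_pos, fun x hx => absurd hx (Finset.notMem_empty x)⟩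
  · obtain ⟨x, hx, hmin⟩ := S.exists_min_image f h
    exact ⟨f x, hf x hx, hmin⟩

theorem caseR_design (m : ℕ) (s : ℕ → ℤ) (hs : ∀ j < m, |s j| ≤ 1) (ρ : ℕ → ℝ)
    (hρ : ∀ j < m, 0 ≤ ρ j)
    {u : ℤ} {v : ℕ} {η : Hyperreal} {t : ℕ → ℤ → Hyperreal} {τ : ℕ → ℤ → ℝ}
    (H : RTimes u v η t τ) (θ : ℝ) (hθ : θ ∈ Icc (0 : ℝ) 1) (h : ℕ → ℝ)
    (hh : ∀ j, h j ∈ Icc (0 : ℝ) 1)
    (i : ℕ) (him : i < m) (hiρ : 0 < ρ i) (hi0 : t i 0 = 0) (hiN : netR m s ρ h η t i ≠ 0) :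
    ∃ D : DesignData, D.Ok m s ρ (fun j b => b - h j - θ * τ j b) ∧
      ∃ pt : ℕ × ℤ → ℝ, Climb D.V D.R D.w D.tt pt D.A D.lam D.n ∧
        ∀ v ∈ D.V, ∀ v' ∈ D.V, pt v < pt v' → t v.1 v.2 < t v'.1 v'.2 := by
  classical
  obtain ⟨B1, hB0, hB1⟩ := exists_B1 H m
  -- the maximal density
  set νM : ℝ := ∑ j ∈ Finset.range m, ρ j / ρ i with hνMdef
  have hν0 : ∀ j ∈ Finset.range m, 0 ≤ ρ j / ρ i := fun j hj =>
    div_nonneg (hρ j (Finset.mem_range.1 hj)) hiρ.le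
  have hνM : ∀ j < m, ρ j / ρ i ≤ νM := fun j hj =>
    Finset.single_le_sum hν0 (Finset.mem_range.2 hj)
  have hνM1 : 1 ≤ νM := by
    have := hνM i him
    rwa [div_self hiρ.ne'] at this
  have hνM0 : 0 < νM := by linarith
  obtain ⟨κ5, hκ50, hκ5⟩ := exists_kappa5 m h
  -- the minimal density
  obtain ⟨δ, hδ0, hδ'⟩ := r5_exists_pos_le ((Finset.range m).filter fun j => 0 < ρ j)
    (fun j => ρ j / ρ i) (fun j hj => div_pos (Finset.mem_filter.1 hj).2 hiρ)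
  have hδ : ∀ j < m, 0 < ρ j → δ ≤ ρ j / ρ i := fun j hj hj' =>
    hδ' j (Finset.mem_filter.2 ⟨Finset.mem_range.2 hj, hj'⟩)
  -- the minimal distance of two densities
  obtain ⟨δ2, hδ20, hδ2'⟩ := r5_exists_pos_le
    ((Finset.range m ×ˢ Finset.range m).filter fun p => ρ p.1 ≠ ρ p.2)
    (fun p => |ρ p.1 / ρ i - ρ p.2 / ρ i|) (fun p hp => by
      have hne := (Finset.mem_filter.1 hp).2
      rw [abs_pos, sub_ne_zero]
      intro he
      apply hne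
      rwa [div_left_inj' hiρ.ne'] at he)
  have hδ2 : ∀ j < m, ∀ j' < m, ρ j ≠ ρ j' → δ2 ≤ |ρ j / ρ i - ρ j' / ρ i| :=
    fun j hj j' hj' hne => hδ2' (j, j') (Finset.mem_filter.2
      ⟨Finset.mk_mem_product (Finset.mem_range.2 hj) (Finset.mem_range.2 hj'), hne⟩)
  -- the constant `C1`
  set C1 : ℝ := 2 * νM + 7 with hC1
  -- the number of sites
  obtain ⟨n0, hn0⟩ := exists_nat_gt (16 * νM / κ5 + 16 * νM + 80 * (m * (2 * C1 + 1)) * νM)
  set n : ℕ := n0 + 16 with hn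
  have hn16 : 16 ≤ n := by omega
  have hnpos : (0 : ℝ) < n := by exact_mod_cast (by omega : 0 < n)
  have hnn0 : (n0 : ℝ) ≤ n := by exact_mod_cast (by omega : n0 ≤ n)
  have ht1 : 0 ≤ 16 * νM / κ5 := by positivity
  have hC1pos : 0 < C1 := by rw [hC1]; linarith
  have ht2 : 0 ≤ 80 * (m * (2 * C1 + 1)) * νM := by positivity
  have hκa : 4 * νM * (4 / n) < κ5 := by
    have h1 : 16 * νM / κ5 < n := by linarith
    rw [div_lt_iff₀ hκ50] at h1
    rw [show 4 * νM * (4 / (n : ℝ)) = 16 * νM / n by ring, div_lt_iff₀ hnpos]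
    linarith
  have hκb : 4 * νM * (4 / n) < 1 := by
    rw [show 4 * νM * (4 / (n : ℝ)) = 16 * νM / n by ring, div_lt_iff₀ hnpos]
    linarith
  have hEv : m * (2 * C1 + 1) * (10 * (νM * (4 / n))) ≤ 1 / 2 := by
    rw [show (m : ℝ) * (2 * C1 + 1) * (10 * (νM * (4 / n))) =
      (40 * (m * (2 * C1 + 1)) * νM) / n by ring, div_le_iff₀ hnpos]
    have h16 : 0 ≤ 16 * νM := by positivity
    linarith
  -- the recurrence
  set ε : ℝ := min (δ / (5 * n)) (1 / n) with hε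
  have hε0 : 0 < ε := by
    rw [hε]
    exact lt_min (by positivity) (by positivity)
  obtain ⟨L, hL⟩ := exists_nat_gt ((10 * (B1 + C1 + 1) + 1) / δ + (5 / δ + 2))
  obtain ⟨G0, hLG, hvG0, hG0⟩ := exists_recurrence m (fun j => ρ j / ρ i) v H.v_pos ε hε0 L
  choose! G0' hG0'v hG0'e using hG0
  have hLpos : (0 : ℝ) < L := lt_of_le_of_lt (by positivity) hL
  have hLG' : (L : ℝ) ≤ (G0 : ℝ) := by exact_mod_cast hLG
  have hG0pos : (0 : ℝ) < (G0 : ℝ) := by linarith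
  have hG0posZ : 0 < G0 := by exact_mod_cast hG0pos
  have hL1 : (10 * (B1 + C1 + 1) + 1) < δ * L := by
    have h1 : (10 * (B1 + C1 + 1) + 1) / δ < L := by
      have : 0 < 5 / δ + 2 := by positivity
      linarith
    rw [div_lt_iff₀ hδ0] at h1
    linarith
  have hL2 : 5 < δ * (L - 2) := by
    have h1 : 5 / δ < L - 2 := by
      have : 0 ≤ (10 * (B1 + C1 + 1) + 1) / δ := by positivity
      linarith
    rw [div_lt_iff₀ hδ0] at h1
    linarith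
  -- the sign
  obtain ⟨σ, hσ, hση⟩ : ∃ σ : ℤ, (σ = 1 ∨ σ = -1) ∧ 0 < η * ((σ * G0 : ℤ) : Hyperreal) := by
    have hG0H : (0 : Hyperreal) < ((G0 : ℤ) : Hyperreal) := by exact_mod_cast hG0posZ
    rcases lt_or_gt_of_ne H.η_ne with h1 | h1
    · refine ⟨-1, Or.inr rfl, ?_⟩
      push_cast
      rw [neg_one_mul, mul_neg, Left.neg_pos_iff]
      exact mul_neg_of_neg_of_pos h1 hG0H
    · refine ⟨1, Or.inl rfl, ?_⟩
      push_cast
      rw [one_mul]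
      exact mul_pos h1 hG0H
  have hσabs : |(σ : ℝ)| = 1 := by
    rcases hσ with rfl | rfl <;> norm_num
  set Gmax : ℝ := ∑ j ∈ Finset.range m, |(G0' j : ℝ)| with hGmax
  have hGmax0 : 0 ≤ Gmax := Finset.sum_nonneg fun j _ => abs_nonneg _
  set A : ℝ := (10 * (B1 + C1 + 1) + 2 * (n + 1) * Gmax + 1) / δ2 with hA
  have hA0 : 0 ≤ A := by rw [hA]; positivity
  have hdiff : ∀ j, |ρ j / ρ i * ((σ * G0 : ℤ) : ℝ) - ((σ * G0' j : ℤ) : ℝ)| =
      |ρ j / ρ i * (G0 : ℝ) - (G0' j : ℝ)| := by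
    intro j
    have h1 : ρ j / ρ i * ((σ * G0 : ℤ) : ℝ) - ((σ * G0' j : ℤ) : ℝ) =
        σ * (ρ j / ρ i * (G0 : ℝ) - (G0' j : ℝ)) := by
      push_cast; ring
    rw [h1, abs_mul, hσabs, one_mul]
  have hGabs : |((σ * G0 : ℤ) : ℝ)| = G0 := by
    push_cast
    rw [abs_mul, hσabs, one_mul, abs_of_pos hG0pos]
  have hG'abs : ∀ j, |((σ * G0' j : ℤ) : ℝ)| = |(G0' j : ℝ)| := by
    intro j
    push_cast
    rw [abs_mul, hσabs, one_mul]
  refine caseR_verify m s hs ρ H θ hθ h hh i him hiρ hi0 hiN B1 C1 κ5 νM Gmax n (σ * G0)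
    (fun j => σ * G0' j) A hA0 hn16 hB0 hB1 hνM hC1.ge hκ5 ⟨hκa, hκb⟩ hEv hση
    (Dvd.dvd.mul_left hvG0 σ) (fun j hj _ => Dvd.dvd.mul_left (hG0'v j hj) σ) ?_ ?_ ?_ ?_ ?_ ?_
  · intro j hj hj'
    rw [hdiff j]
    calc |ρ j / ρ i * (G0 : ℝ) - (G0' j : ℝ)| ≤ ε := hG0'e j hj
      _ ≤ δ / (5 * n) := min_le_left _ _
      _ ≤ ρ j / ρ i / (5 * n) := by
        apply div_le_div_of_nonneg_right (hδ j hj hj') (by positivity)
  · intro j hj _
    rw [hdiff j]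
    calc (n : ℝ) * |ρ j / ρ i * (G0 : ℝ) - (G0' j : ℝ)| ≤ n * (1 / n) :=
          mul_le_mul_of_nonneg_left ((hG0'e j hj).trans (min_le_right _ _)) hnpos.le
      _ = 1 := by field_simp
  · intro j hj _
    rw [hG'abs j]
    exact Finset.single_le_sum (f := fun j => |(G0' j : ℝ)|) (fun j _ => abs_nonneg _)
      (Finset.mem_range.2 hj)
  · intro j hj hj'
    rw [hG'abs j]
    have h1 := hG0'e j hj
    have h2 : ε ≤ 1 := by
      refine (min_le_right _ _).trans ?_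
      rw [div_le_one hnpos]
      exact_mod_cast (by omega : 1 ≤ n)
    have h3 : δ * L ≤ ρ j / ρ i * G0 :=
      mul_le_mul (hδ j hj hj') hLG' hLpos.le (hδ0.le.trans (hδ j hj hj'))
    have h4 := (abs_le.1 (h1.trans h2)).2
    have h5 : (G0' j : ℝ) ≤ |(G0' j : ℝ)| := le_abs_self _
    linarith
  · intro j hj hj'
    rw [hGabs]
    have h2 : 0 < (L : ℝ) - 2 := by
      by_contra hc
      have : δ * ((L : ℝ) - 2) ≤ 0 := mul_nonpos_of_nonneg_of_nonpos hδ0.le (not_lt.1 hc)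
      linarith
    calc (5 : ℝ) < δ * (L - 2) := hL2
      _ ≤ ρ j / ρ i * (G0 - 2) :=
        mul_le_mul (hδ j hj hj') (by linarith) h2.le (hδ0.le.trans (hδ j hj hj'))
  · intro j hj _ j' hj' _ hne
    have h1 := hδ2 j hj j' hj' hne
    calc 10 * (B1 + C1 + 1) + 2 * (n + 1) * Gmax < δ2 * A := by
          rw [hA, mul_div_cancel₀ _ hδ20.ne']
          linarith
      _ ≤ |ρ j / ρ i - ρ j' / ρ i| * A := mul_le_mul_of_nonneg_right h1 hA0

end Pool.Agent.Helper22.Slip
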