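import Pool.Agent.Helper22.Slip.C1
import Pool.Agent.Helper22.Slip.K1
import Pool.Agent.Helper22.Slip.R5

/-!
# R6: Case R
-/

namespace Pool.Agent.Helper22.Slip

open Pool.Agent.Helper76.Slip (G rot T)
open Filter Set

namespace R6

open Hyperreal

lemma ofSeq_sub (f g : ℕ → ℝ) : ofSeq f - ofSeq g = ofSeq (fun n => f n - g n) := rfl

lemma ofSeq_mul (f g : ℕ → ℝ) : ofSeq f * ofSeq g = ofSeq (fun n => f n * g n) := rfl

lemma coe_eq_ofSeq (r : ℝ) : (r : ℝ*) = ofSeq (fun _ => r) := rfl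

lemma ofSeq_congr {f g : ℕ → ℝ} (h : ∀ᶠ n in (hyperfilter ℕ : Filter ℕ), f n = g n) :
    ofSeq f = ofSeq g :=
  le_antisymm (ofSeq_le_ofSeq.2 (h.mono fun _ hn => hn.le))
    (ofSeq_le_ofSeq.2 (h.mono fun _ hn => hn.ge))

lemma ofSeq_eventually {f g : ℕ → ℝ} (h : ofSeq f = ofSeq g) :
    ∀ᶠ n in (hyperfilter ℕ : Filter ℕ), f n = g n := by
  have h1 := ofSeq_le_ofSeq.1 h.le
  have h2 := ofSeq_le_ofSeq.1 h.ge
  filter_upwards [h1, h2] with n a b using le_antisymm a b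

lemma coe_int (z : ℤ) : ((z : ℝ) : ℝ*) = (z : ℝ*) := map_intCast coeRingHom z

lemma coe_nat (z : ℕ) : ((z : ℝ) : ℝ*) = (z : ℝ*) := map_natCast coeRingHom z

lemma exists_lim (B : ℝ) (f : ℕ → ℝ) (hf : ∀ n, |f n| ≤ B) :
    ∃ x ∈ Icc (-B) B, Tendsto f (hyperfilter ℕ) (nhds x) := by
  have h1 : ((hyperfilter ℕ).map f : Filter ℝ) ≤ 𝓟 (Icc (-B) B) := by
    rw [le_principal_iff]
    exact Filter.mem_map.2 (Filter.univ_mem' fun n => abs_le.1 (hf n))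
  obtain ⟨x, hx, h2⟩ := isCompact_Icc.ultrafilter_le_nhds _ h1
  exact ⟨x, hx, h2⟩

/-- A bounded sequence of integers is eventually constant along the hyperfilter. -/
lemma int_const (B : ℝ) (f : ℕ → ℝ) (hf : ∀ n, |f n| ≤ B) (hz : ∀ n, ∃ z : ℤ, f n = z) :
    ∃ z : ℤ, ∀ᶠ n in (hyperfilter ℕ : Filter ℕ), f n = z := by
  obtain ⟨x, -, hx⟩ := exists_lim B f hf
  have h1 : IsClosed (range ((↑) : ℤ → ℝ)) := Int.isClosedEmbedding_coe_real.isClosed_range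
  have h2 : x ∈ range ((↑) : ℤ → ℝ) := by
    refine h1.mem_of_tendsto hx (Eventually.of_forall fun n => ?_)
    obtain ⟨z, hz⟩ := hz n
    exact ⟨z, hz.symm⟩
  obtain ⟨z, rfl⟩ := h2
  refine ⟨z, ?_⟩
  have h3 := hx.eventually (Metric.ball_mem_nhds (z : ℝ) one_pos)
  filter_upwards [h3] with n hn
  obtain ⟨w, hw⟩ := hz n
  rw [hw] at hn ⊢
  have h4 : |((w - z : ℤ) : ℝ)| < 1 := by
    push_cast
    simpa [Real.dist_eq] using hn
  have h5 : |w - z| < 1 := by exact_mod_cast h4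
  have h6 : w = z := by
    have := Int.abs_lt_one_iff.1 h5
    omega
  rw [h6]

lemma hyper_int (B : ℝ) (f : ℕ → ℝ) (hf : ∀ n, |f n| ≤ B) (hz : ∀ n, ∃ z : ℤ, f n = z) :
    ∃ z : ℤ, ofSeq f = (z : ℝ*) := by
  obtain ⟨z, h⟩ := int_const B f hf hz
  exact ⟨z, by rw [← coe_int, coe_eq_ofSeq]; exact ofSeq_congr h⟩

lemma relR_refl (ρ h : ℕ → ℝ) (η : ℝ*) (t : ℕ → ℤ → ℝ*) (j : ℕ) : relR ρ h η t j j :=
  ⟨rfl, 0, by simp, 0, 0, by simp⟩

lemma relR_symm {ρ h : ℕ → ℝ} {η Γ : ℝ*} {t : ℕ → ℤ → ℝ*}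
    (hsub : ∀ (j : ℕ) (b b' : ℤ), ∃ z : ℤ, t j b - t j b' - Γ * ((b : ℝ*) - b') = z)
    {j j' : ℕ} (hr : relR ρ h η t j j') : relR ρ h η t j' j := by
  obtain ⟨h1, z, hz, y, C, hC⟩ := hr
  obtain ⟨z1, hz1⟩ := hsub j (-z) 0
  obtain ⟨z2, hz2⟩ := hsub j' z 0
  refine ⟨h1.symm, -z, by push_cast; linarith, -y + z1 + z2, C, ?_⟩
  have h2 : t j (-z) - t j' 0 - ((-y + z1 + z2 : ℤ) : ℝ*) = -(t j' z - t j 0 - y) := by
    push_cast at hz1 hz2 ⊢
    linear_combination hz1 + hz2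
  rw [h2, abs_neg]
  exact hC

lemma relR_trans {ρ h : ℕ → ℝ} {η Γ : ℝ*} {t : ℕ → ℤ → ℝ*}
    (hsub : ∀ (j : ℕ) (b b' : ℤ), ∃ z : ℤ, t j b - t j b' - Γ * ((b : ℝ*) - b') = z)
    {j j' j'' : ℕ} (hr : relR ρ h η t j j') (hr' : relR ρ h η t j' j'') :
    relR ρ h η t j j'' := by
  obtain ⟨h1, z, hz, y, C, hC⟩ := hr
  obtain ⟨h1', z', hz', y', C', hC'⟩ := hr'
  obtain ⟨z1, hz1⟩ := hsub j'' (z + z') z'
  obtain ⟨z2, hz2⟩ := hsub j' z 0
  refine ⟨h1.trans h1', z + z', by push_cast; linarith, y + y' + z1 - z2, C + C', ?_⟩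
  have h2 : t j'' (z + z') - t j 0 - ((y + y' + z1 - z2 : ℤ) : ℝ*) =
      (t j'' z' - t j' 0 - y') + (t j' z - t j 0 - y) := by
    push_cast at hz1 hz2 ⊢
    linear_combination hz1 - hz2
  rw [h2]
  refine (abs_add_le _ _).trans ?_
  have h3 : ((C + C' : ℝ) : ℝ*) * |η| = (C' : ℝ*) * |η| + (C : ℝ*) * |η| := by
    rw [coe_add]; ring
  rw [h3]
  exact add_le_add hC' hC

lemma relR_shift {ρ h : ℕ → ℝ} {η : ℝ*} {t t' : ℕ → ℤ → ℝ*}
    (hs : ∀ (j : ℕ) (b : ℤ) (j' : ℕ) (b' : ℤ), ∃ z : ℤ,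
      (t' j' b' - t' j b) - (t j' b' - t j b) = z)
    {j j' : ℕ} (hr : relR ρ h η t j j') : relR ρ h η t' j j' := by
  obtain ⟨h1, z, hz, y, C, hC⟩ := hr
  obtain ⟨x, hx⟩ := hs j 0 j' z
  refine ⟨h1, z, hz, y + x, C, ?_⟩
  have h2 : t' j' z - t' j 0 - ((y + x : ℤ) : ℝ*) = t j' z - t j 0 - y := by
    push_cast
    linear_combination hx
  rw [h2]
  exact hC

lemma abs_ofSeq_lt {f : ℕ → ℝ} {e : ℝ}
    (h : ∀ᶠ n in (hyperfilter ℕ : Filter ℕ), |f n| < e) : |ofSeq f| < (e : ℝ*) := by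
  rw [abs_lt]
  constructor
  · rw [← coe_neg, coe_eq_ofSeq, ofSeq_lt_ofSeq]
    exact h.mono fun n hn => (abs_lt.1 hn).1
  · rw [coe_eq_ofSeq, ofSeq_lt_ofSeq]
    exact h.mono fun n hn => (abs_lt.1 hn).2

/-- The equation `g / q = u / v` in lowest terms forces `q ≤ v`. -/
lemma den_ge {c : ℝ} (F : Frame c) (γ : ℚ) (h : F.γ = (γ : ℝ)) : F.q ≤ γ.den := by
  have hq0 : (0 : ℝ) < F.q := by exact_mod_cast F.q_pos
  have hd0 : (0 : ℝ) < γ.den := by exact_mod_cast γ.den_pos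
  have h1 : (F.g : ℝ) * γ.den = γ.num * F.q := by
    unfold Frame.γ at h
    rw [Rat.cast_def] at h
    field_simp at h
    linarith
  have h2 : F.g * (γ.den : ℤ) = γ.num * (F.q : ℤ) := by exact_mod_cast h1
  obtain ⟨e, he⟩ := F.inv
  have h3 : IsCoprime (F.q : ℤ) F.g := ⟨-e, F.p, by linear_combination he⟩
  have h4 : (F.q : ℤ) ∣ F.g * (γ.den : ℤ) := ⟨γ.num, by linear_combination h2⟩
  have h5 : (F.q : ℤ) ∣ (γ.den : ℤ) := h3.dvd_of_dvd_mul_left h4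
  have h6 : F.q ∣ γ.den := by exact_mod_cast h5
  exact Nat.le_of_dvd γ.den_pos h6

lemma rtimes {c : ℝ} (Fr : ℕ → Frame c) (hq : ∀ n, n ≤ (Fr n).q) (γ : ℚ)
    (hγ : Tendsto (fun n => (Fr n).γ) (hyperfilter ℕ) (nhds (γ : ℝ))) (φ : ℕ → ℝ)
    (τ : ℕ → ℤ → ℝ) (hτ : ∀ j b, τ j b ∈ Icc (0 : ℝ) 1)
    (hτl : ∀ j b, Tendsto (fun n => (Fr n).τ (φ j) b) (hyperfilter ℕ) (nhds (τ j b))) :
    RTimes γ.num γ.den (ofSeq fun n => (Fr n).γ - γ)
      (fun j b => ofSeq fun n => (Fr n).τ (φ j) b) τ where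
  v_pos := γ.den_pos
  η_ne := by
    intro h0
    have h1 : ∀ᶠ n in (hyperfilter ℕ : Filter ℕ), (Fr n).γ - γ = 0 := by
      have : ofSeq (fun n => (Fr n).γ - γ) = ofSeq (fun _ => (0 : ℝ)) := h0
      exact ofSeq_eventually this
    have h2 : ∀ᶠ n in (hyperfilter ℕ : Filter ℕ), γ.den < n :=
      Nat.hyperfilter_le_atTop (eventually_gt_atTop γ.den)
    obtain ⟨n, hn1, hn2⟩ := (h1.and h2).exists
    have h3 := den_ge (Fr n) γ (by linarith)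
    have h4 := hq n
    omega
  η_small := by
    intro e he
    refine abs_ofSeq_lt ?_
    have h1 := hγ.eventually (Metric.ball_mem_nhds (γ : ℝ) he)
    exact h1.mono fun n hn => by simpa [Real.dist_eq] using hn
  t_mem := by
    intro j b
    constructor
    · have : (0 : ℝ*) = ofSeq (fun _ => (0 : ℝ)) := rfl
      rw [this, ofSeq_le_ofSeq]
      exact Eventually.of_forall fun n => ((Fr n).τ_mem (φ j) b).1
    · have : (1 : ℝ*) = ofSeq (fun _ => (1 : ℝ)) := rfl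
      rw [this, ofSeq_lt_ofSeq]
      refine Eventually.of_forall fun n => ?_
      have h0 : (0 : ℝ) < (Fr n).q := by exact_mod_cast (Fr n).q_pos
      have h1 : ((Fr n).k (φ j) b : ℝ) < (Fr n).q := by exact_mod_cast (Fr n).k_lt (φ j) b
      unfold Frame.τ
      rwa [div_lt_one h0]
  t_sub := by
    intro j b b'
    obtain ⟨z, hz⟩ := hyper_int (1 + 1 * |(b : ℝ) - b'|)
      (fun n => (Fr n).τ (φ j) b - (Fr n).τ (φ j) b' - (Fr n).γ * (b - b')) (by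
        intro n
        have h1 := (Fr n).τ_mem (φ j) b
        have h2 := (Fr n).τ_mem (φ j) b'
        have h3 := (Fr n).γ_mem
        refine (abs_sub _ _).trans (add_le_add ?_ ?_)
        · rw [abs_le]
          constructor <;> linarith [h1.1, h1.2, h2.1, h2.2]
        · rw [abs_mul, abs_of_nonneg h3.1]
          exact mul_le_mul_of_nonneg_right h3.2 (abs_nonneg _)) (fun n => (Fr n).τ_sub (φ j) b b')
    refine ⟨z, ?_⟩
    rw [← hz]
    have h1 : ((γ.num : ℝ*) / (γ.den : ℝ*) + ofSeq fun n => (Fr n).γ - γ) =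
        ofSeq fun n => (Fr n).γ := by
      have h2 : (γ.num : ℝ*) / (γ.den : ℝ*) = (((γ : ℝ)) : ℝ*) := by
        rw [Rat.cast_def, coe_div, coe_int, coe_nat]
      rw [h2, coe_eq_ofSeq]
      change ofSeq (fun n => (γ : ℝ) + ((Fr n).γ - γ)) = _
      congr 1
      funext n
      ring
    rw [h1, ← coe_int, ← coe_int]
    rfl
  τ_mem := hτ
  t_τ := by
    intro j b e he
    have h1 := (hτl j b).eventually (Metric.ball_mem_nhds (τ j b) he)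
    rw [coe_eq_ofSeq (τ j b), ofSeq_sub]
    refine abs_ofSeq_lt ?_
    exact h1.mono fun n hn => by simpa [Real.dist_eq] using hn

lemma lim01 (f : ℕ → ℝ) (hf : ∀ n, f n ∈ Icc (0 : ℝ) 1) :
    ∃ x ∈ Icc (0 : ℝ) 1, Tendsto f (hyperfilter ℕ) (nhds x) := by
  have h1 : ((hyperfilter ℕ).map f : Filter ℝ) ≤ 𝓟 (Icc (0 : ℝ) 1) := by
    rw [le_principal_iff]
    exact Filter.mem_map.2 (Filter.univ_mem' hf)
  obtain ⟨x, hx, h2⟩ := isCompact_Icc.ultrafilter_le_nhds _ h1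
  exact ⟨x, hx, h2⟩

/-- The time of a visit modulo one. -/
lemma τ_eq {c : ℝ} (F : Frame c) (φ : ℝ) (b : ℤ) :
    ∃ z : ℤ, F.τ φ b = ((F.g * (F.l φ + b) - F.k0 : ℤ) : ℝ) / F.q - z := by
  have hq : (F.q : ℝ) ≠ 0 := by exact_mod_cast F.q_pos.ne'
  refine ⟨(F.g * (F.l φ + b) - F.k0) / F.q, ?_⟩
  have h1 := Int.emod_add_mul_ediv (F.g * (F.l φ + b) - F.k0) F.q
  have h1' : (F.k φ b : ℝ) + F.q * (((F.g * (F.l φ + b) - F.k0) / F.q : ℤ) : ℝ) =
      ((F.g * (F.l φ + b) - F.k0 : ℤ) : ℝ) := by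
    unfold Frame.k
    exact_mod_cast h1
  unfold Frame.τ
  rw [← h1']
  field_simp
  ring

/-- Changing the start step changes all times by a common amount modulo one. -/
lemma τ_shift {c : ℝ} (F : Frame c) (k1 : ℤ) (φ φ' : ℝ) (b b' : ℤ) :
    ∃ z : ℤ, ({ F with k0 := k1 } : Frame c).τ φ' b' - ({ F with k0 := k1 } : Frame c).τ φ b -
      (F.τ φ' b' - F.τ φ b) = z := by
  obtain ⟨z1, h1⟩ := τ_eq ({ F with k0 := k1 } : Frame c) φ' b'
  obtain ⟨z2, h2⟩ := τ_eq ({ F with k0 := k1 } : Frame c) φ b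
  obtain ⟨z3, h3⟩ := τ_eq F φ' b'
  obtain ⟨z4, h4⟩ := τ_eq F φ b
  refine ⟨-z1 + z2 + z3 - z4, ?_⟩
  rw [h1, h2, h3, h4]
  have h5 : ∀ x, ({ F with k0 := k1 } : Frame c).l x = F.l x := fun x => rfl
  simp only [h5]
  push_cast
  ring

end R6

theorem caseR (c : ℝ) (hc : Irrational c) (m : ℕ) (s : ℕ → ℤ) (hs : ∀ j < m, |s j| ≤ 1)
    (ρ φ : ℕ → ℝ) (hρ : ∀ j < m, 0 ≤ ρ j)
    (hne : ∑ j ∈ Finset.range m, (s j : ℝ) * ρ j ≠ 0)
    (Fr : ℕ → Frame c) (hq : ∀ n, n ≤ (Fr n).q) (γ : ℚ)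
    (hγ : Tendsto (fun n => (Fr n).γ) (hyperfilter ℕ) (nhds (γ : ℝ))) :
    HasDesign c m s ρ φ := by
  classical
  have hh0 : ∀ j, ∃ x ∈ Icc (0 : ℝ) 1,
      Tendsto (fun n => (Fr n).h (φ j)) (hyperfilter ℕ) (nhds x) := fun j =>
    R6.lim01 _ (fun n => ⟨Int.fract_nonneg _, (Int.fract_lt_one _).le⟩)
  choose h hh hhl using hh0
  obtain ⟨θ, hθ, hθl⟩ := R6.lim01 (fun n => (Fr n).θ)
    (fun n => Ioc_subset_Icc_self (Fr n).θ_mem)
  have hτ0 : ∀ j b, ∃ x ∈ Icc (0 : ℝ) 1,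
      Tendsto (fun n => (Fr n).τ (φ j) b) (hyperfilter ℕ) (nhds x) := fun j b =>
    R6.lim01 _ (fun n => (Fr n).τ_mem (φ j) b)
  choose τ0 hτ0 hτ0l using hτ0
  have H0 := R6.rtimes Fr hq γ hγ φ τ0 hτ0 hτ0l
  set η : Hyperreal := Hyperreal.ofSeq fun n => (Fr n).γ - γ with hη
  set t0 : ℕ → ℤ → Hyperreal := fun j b => Hyperreal.ofSeq fun n => (Fr n).τ (φ j) b with ht0
  obtain ⟨i, him, hiρ, hiN0⟩ := exists_cluster m s ρ hρ hne (relR ρ h η t0)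
    (R6.relR_refl ρ h η t0) (fun j j' => R6.relR_symm H0.t_sub)
    (fun j j' j'' => R6.relR_trans H0.t_sub) (fun j j' hr => hr.1)
  -- the new frames
  set Fr' : ℕ → Frame c := fun n => { Fr n with k0 := (Fr n).g * (Fr n).l (φ i) } with hFr'
  have hτ' : ∀ j b, ∃ x ∈ Icc (0 : ℝ) 1,
      Tendsto (fun n => (Fr' n).τ (φ j) b) (hyperfilter ℕ) (nhds x) := fun j b =>
    R6.lim01 _ (fun n => (Fr' n).τ_mem (φ j) b)
  choose τ hτ hτl using hτ'
  have hq' : ∀ n, n ≤ (Fr' n).q := hq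
  have hγ' : Tendsto (fun n => (Fr' n).γ) (hyperfilter ℕ) (nhds (γ : ℝ)) := hγ
  have H : RTimes γ.num γ.den η (fun j b => Hyperreal.ofSeq fun n => (Fr' n).τ (φ j) b) τ :=
    R6.rtimes Fr' hq' γ hγ' φ τ hτ hτl
  set t : ℕ → ℤ → Hyperreal := fun j b => Hyperreal.ofSeq fun n => (Fr' n).τ (φ j) b with ht
  have hi0 : t i 0 = 0 := by
    have h1 : ∀ n, (Fr' n).τ (φ i) 0 = 0 := by
      intro n
      have h2 : (Fr' n).k (φ i) 0 = 0 := by
        have h3 : (Fr' n).k (φ i) 0 =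
            ((Fr n).g * ((Fr n).l (φ i) + 0) - (Fr n).g * (Fr n).l (φ i)) % (Fr n).q := rfl
        rw [h3]
        simp
      unfold Frame.τ
      rw [h2]
      simp
    have h2 : t i 0 = Hyperreal.ofSeq (fun _ => (0 : ℝ)) := by
      rw [ht]
      simp only [h1]
    rw [h2]
    rfl
  have hsh : ∀ (j : ℕ) (b : ℤ) (j' : ℕ) (b' : ℤ), ∃ z : ℤ,
      (t j' b' - t j b) - (t0 j' b' - t0 j b) = z := by
    intro j b j' b'
    obtain ⟨z, hz⟩ := R6.hyper_int 2 (fun n => (Fr' n).τ (φ j') b' - (Fr' n).τ (φ j) b -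
      ((Fr n).τ (φ j') b' - (Fr n).τ (φ j) b)) (by
        intro n
        have h1 := (Fr' n).τ_mem (φ j') b'
        have h2 := (Fr' n).τ_mem (φ j) b
        have h3 := (Fr n).τ_mem (φ j') b'
        have h4 := (Fr n).τ_mem (φ j) b
        rw [abs_le]
        constructor <;> linarith [h1.1, h1.2, h2.1, h2.2, h3.1, h3.2, h4.1, h4.2])
      (fun n => R6.τ_shift (Fr n) _ (φ j) (φ j') b b')
    exact ⟨z, hz⟩
  have hsh' : ∀ (j : ℕ) (b : ℤ) (j' : ℕ) (b' : ℤ), ∃ z : ℤ,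
      (t0 j' b' - t0 j b) - (t j' b' - t j b) = z := by
    intro j b j' b'
    obtain ⟨z, hz⟩ := hsh j b j' b'
    refine ⟨-z, ?_⟩
    push_cast
    linear_combination -hz
  have hiN : netR m s ρ h η t i ≠ 0 := by
    have h1 : (Finset.range m).filter (relR ρ h η t i) =
        (Finset.range m).filter (relR ρ h η t0 i) := by
      apply Finset.filter_congr
      intro j _
      exact ⟨R6.relR_shift hsh', R6.relR_shift hsh⟩
    unfold netR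
    convert hiN0 using 2
  obtain ⟨D, hD, pt, hcl, hlt⟩ := caseR_design m s hs ρ hρ H θ hθ h hh i him hiρ hi0 hiN
  refine ⟨Fr', hq', fun j b => b - h j - θ * τ j b, ?_, ?_, D, hD, ?_⟩
  · intro j b
    have h1 := hh j
    have h2 := hτ j b
    have h3 : 0 ≤ θ * τ j b := mul_nonneg hθ.1 h2.1
    have h4 : θ * τ j b ≤ 1 := by
      calc θ * τ j b ≤ 1 * 1 := mul_le_mul hθ.2 h2.2 h2.1 zero_le_one
        _ = 1 := one_mul 1
    rw [abs_le]
    constructor <;> simp only <;> linarith [h1.1, h1.2]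
  · intro j _ b
    exact (tendsto_const_nhds.sub (hhl j)).sub (hθl.mul (hτl j b))
  · have h1 : ∀ᶠ n in (hyperfilter ℕ : Filter ℕ), ∀ v ∈ D.V, ∀ v' ∈ D.V,
        pt v < pt v' → (Fr' n).k (φ v.1) v.2 < (Fr' n).k (φ v'.1) v'.2 := by
      rw [Filter.eventually_all_finset]
      intro v hv
      rw [Filter.eventually_all_finset]
      intro v' hv'
      by_cases hpt : pt v < pt v'
      · have h2 := Hyperreal.ofSeq_lt_ofSeq.1 (hlt v hv v' hv' hpt)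
        filter_upwards [h2] with n hn _
        have hq0 : (0 : ℝ) < (Fr' n).q := by exact_mod_cast (Fr' n).q_pos
        unfold Frame.τ at hn
        rw [div_lt_div_iff_of_pos_right hq0] at hn
        exact_mod_cast hn
      · exact Eventually.of_forall fun n h => absurd h hpt
    filter_upwards [h1] with n hn
    exact ⟨pt, hcl, hn⟩

end Pool.Agent.Helper22.Slip
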