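import Pool.Agent.Helper22.Slip.C4
import Pool.Agent.Helper22.Slip.C5
import Pool.Agent.Helper22.Slip.I6
import Pool.Agent.Helper22.Slip.R6

/-!
# C8: the local core
-/

namespace Pool.Agent.Helper22.Slip

open Pool.Agent.Helper76.Slip (G rot T)
open Filter Set

lemma c8_hasDesign (m : ℕ) (s : ℕ → ℤ) (hs : ∀ j < m, |s j| ≤ 1) (ρ φ : ℕ → ℝ)
    (hρ : ∀ j < m, 0 ≤ ρ j) (c : ℝ) (hc : Irrational c)
    (hne : ∑ j ∈ Finset.range m, (s j : ℝ) * ρ j ≠ 0) : HasDesign c m s ρ φ := by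
  choose Fr hFr hk0 using exists_frame c hc
  have h1 : ∃ γ ∈ Icc (0 : ℝ) 1,
      Tendsto (fun n => (Fr n).γ) (hyperfilter ℕ : Filter ℕ) (nhds γ) := by
    have h2 : (((hyperfilter ℕ).map fun n => (Fr n).γ : Ultrafilter ℝ) : Filter ℝ) ≤
        𝓟 (Icc (0 : ℝ) 1) := by
      rw [le_principal_iff, Ultrafilter.mem_coe, Ultrafilter.mem_map]
      exact Filter.univ_mem' fun n => (Fr n).γ_mem
    obtain ⟨γ, hγ, h3⟩ := isCompact_Icc.ultrafilter_le_nhds _ h2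
    exact ⟨γ, hγ, h3⟩
  obtain ⟨γ, -, hγ⟩ := h1
  by_cases hI : Irrational γ
  · exact caseI c hc m s hs ρ φ hρ hne Fr hFr γ hγ hI
  · unfold Irrational at hI
    push Not at hI
    obtain ⟨γ', rfl⟩ := hI
    exact caseR c hc m s hs ρ φ hρ hne Fr hFr γ' hγ

theorem localCore : LocalCore := by
  intro m s hs ρ φ hρ c hc hne
  have hm : 0 < m := by
    rcases Nat.eq_zero_or_pos m with rfl | h
    · simp at hne
    · exact h
  obtain ⟨Fr, hq, ξ, hξ, hlim, D, hD, hev⟩ := c8_hasDesign m s hs ρ φ hρ c hc hne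
  obtain ⟨M, ε, hM, hε, Q0, B0, htr⟩ :=
    transfer m s hs ρ hρ D.n D.X D.ω D.t hD.dis hD.t_le D.A ξ hξ
  refine ⟨M, ε, hM, hε, fun Q => ?_⟩
  have hU : (hyperfilter ℕ : Filter ℕ) ≤ atTop := by
    rw [← Nat.cofinite_eq_atTop]
    exact hyperfilter_le_cofinite
  have e1 : ∀ᶠ n in (hyperfilter ℕ : Filter ℕ), max (max Q Q0) 1 ≤ n :=
    hU (eventually_ge_atTop _)
  have e2 : ∀ᶠ n in (hyperfilter ℕ : Filter ℕ), ∀ v ∈ D.V, 2 * |v.2| < (Fr n).q := by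
    rw [Filter.eventually_all_finset]
    intro v hv
    have h3 : ∀ᶠ n in (hyperfilter ℕ : Filter ℕ), (2 * |v.2|).toNat < n :=
      hU (eventually_gt_atTop _)
    filter_upwards [h3] with n hn
    have h4 := hq n
    omega
  have e3 : ∀ᶠ n in (hyperfilter ℕ : Filter ℕ), ∀ j < m, ∀ b : ℤ, |b| ≤ B0 →
      |(b : ℝ) - (Fr n).h (φ j) - (Fr n).θ * (Fr n).τ (φ j) b - ξ j b| ≤ ε := by
    have h5 : ∀ᶠ n in (hyperfilter ℕ : Filter ℕ), ∀ j ∈ Finset.range m,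
        ∀ b ∈ Finset.Icc (-(B0 : ℤ)) B0,
        |(b : ℝ) - (Fr n).h (φ j) - (Fr n).θ * (Fr n).τ (φ j) b - ξ j b| ≤ ε := by
      rw [Filter.eventually_all_finset]
      intro j hj
      rw [Filter.eventually_all_finset]
      intro b _
      have h6 := Metric.tendsto_nhds.1 (hlim j (Finset.mem_range.1 hj) b) ε hε
      filter_upwards [h6] with n hn
      rw [Real.dist_eq] at hn
      exact hn.le
    filter_upwards [h5] with n hn j hj b hb
    refine hn j (Finset.mem_range.2 hj) b (Finset.mem_Icc.2 ?_)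
    exact abs_le.1 hb
  obtain ⟨n, h1, h2, h3, pt, h4, h5⟩ := (e1.and (e2.and (e3.and hev))).exists
  have h6 : max (max Q Q0) 1 ≤ (Fr n).q := h1.trans (hq n)
  obtain ⟨ψ, hψ⟩ := htr c (Fr n) φ ((le_max_right Q Q0).trans ((le_max_left _ _).trans h6)) h3
    (design_lowPath (Fr n) φ hm hD h4 h2 h5)
  exact ⟨(Fr n).q, (le_max_left Q Q0).trans ((le_max_left _ _).trans h6), (Fr n).q_pos,
    (Fr n).p, ψ, (Fr n).lower, hψ⟩

end Pool.Agent.Helper22.Slip
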