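import Pool.Agent.Helper22.Slip.Defs

/-!
# Core: definitions
-/

namespace Pool.Agent.Helper22.Slip

open Pool.Agent.Helper76.Slip (G rot T)
open Filter Set

/-- Disjoint gates. -/
def GatesDisjoint (X ω : ℕ → ℝ) (n : ℕ) : Prop :=
  (∀ a < n, 0 < ω a) ∧ ∀ a < n, ∀ a' < n, a ≠ a' → ω a + ω a' < |X a - X a'|

/-- The conditions on a finite set of visits used by the climbing theorem. The gates are
`s_a = A + 2 a / n` (`a < n`), the half width of the burst classes is `4 / n`. -/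
structure Climb {ι : Type*} [DecidableEq ι] (V : Finset ι) (R w t pt : ι → ℝ) (A lam : ℝ)
    (n : ℕ) : Prop where
  hn : 16 ≤ n
  lam_pos : 0 < lam
  lam_le : lam ≤ 1 / 2
  hw : ∀ v ∈ V, 0 < w v ∧ w v ≤ 1 / 4
  /-- classes visited at the same time are equal or disjoint -/
  hd : ∀ v ∈ V, ∀ v' ∈ V, pt v = pt v' → (R v = R v' ∧ w v = w v') ∨ w v + w v' < |R v - R v'|
  /-- the burst and the late part -/
  hg : ∃ P : ℕ → ℝ, (∀ a a', a < a' → a' < n → P a < P a') ∧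
    (∀ v ∈ V, pt v ≤ P (n - 1) → ∃ a < n, pt v = P a ∧
      ((R v = A + 2 * a / n ∧ w v = 4 / n) ∨ w v + 4 / n < |R v - (A + 2 * a / n)|)) ∧
    (∀ a < n, ∑ v ∈ V.filter (fun v => pt v = P a ∧ R v = A + 2 * a / n ∧ w v = 4 / n),
      t v = 1) ∧
    ∃ (acc : ι → Prop) (κ : Type) (_ : DecidableEq κ) (Ev : Finset κ) (ev : ι → κ) (wE : κ → ℝ),
      (∀ v ∈ V, P (n - 1) < pt v →
        ∑ v' ∈ V.filter (fun v' => pt v' = pt v ∧ R v' = R v ∧ w v' = w v), t v' < 0 →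
        (∀ z, A + 2 - lam ≤ z → z ≤ A + 2 → w v < |R v - z|) ∨ acc v) ∧
      (∀ v ∈ V, acc v → ev v ∈ Ev ∧ w v = wE (ev v)) ∧
      (∀ v ∈ V, ∀ v' ∈ V, acc v → acc v' → ev v = ev v' → pt v < pt v' →
        R v + 9 / 20 * w v ≤ R v') ∧
      (∀ x ∈ Ev, 0 ≤ wE x) ∧ ∑ x ∈ Ev, 10 * wE x ≤ lam

/-- A design: gates together with a finite set of visits `(j, b)`. -/
structure DesignData where
  n : ℕ
  A : ℝ
  lam : ℝ
  X : ℕ → ℝ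
  ω : ℕ → ℝ
  t : ℕ → ℝ
  V : Finset (ℕ × ℤ)
  R : ℕ × ℤ → ℝ
  w : ℕ × ℤ → ℝ
  tt : ℕ × ℤ → ℝ

/-- The order independent conditions on a design. -/
structure DesignData.Ok (D : DesignData) (m : ℕ) (s : ℕ → ℤ) (ρ : ℕ → ℝ) (ξ : ℕ → ℤ → ℝ) :
    Prop where
  dis : GatesDisjoint D.X D.ω D.n
  t_le : ∀ a < D.n, |D.t a| ≤ 1
  sg : ∀ v ∈ D.V, v.1 < m
  /-- the visits outside `V` do nothing on the relevant levels -/
  out : ∀ j < m, ∀ b : ℤ, (j, b) ∉ D.V → ∀ y, D.A - 1 ≤ y → y ≤ D.A + 3 →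
    lev D.X D.ω D.t D.n (ρ j) (ξ j b) (s j) y = y
  /-- the visits in `V` act as bumps -/
  mem : ∀ v ∈ D.V, ∀ y, D.A - 1 ≤ y → y ≤ D.A + 3 →
    lev D.X D.ω D.t D.n (ρ v.1) (ξ v.1 v.2) (s v.1) y = bump (D.R v) (D.w v) (D.tt v) y

/-- What the two cases have to provide. -/
def HasDesign (c : ℝ) (m : ℕ) (s : ℕ → ℤ) (ρ φ : ℕ → ℝ) : Prop :=
  ∃ Fr : ℕ → Frame c, (∀ n, n ≤ (Fr n).q) ∧ ∃ ξ : ℕ → ℤ → ℝ, (∀ j b, |ξ j b - b| ≤ 2) ∧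
    (∀ j < m, ∀ b : ℤ, Tendsto (fun n => (b : ℝ) - (Fr n).h (φ j) - (Fr n).θ * (Fr n).τ (φ j) b)
      (hyperfilter ℕ) (nhds (ξ j b))) ∧
    ∃ D : DesignData, D.Ok m s ρ ξ ∧ ∀ᶠ n in (hyperfilter ℕ : Filter ℕ), ∃ pt : ℕ × ℤ → ℝ,
      Climb D.V D.R D.w D.tt pt D.A D.lam D.n ∧
      ∀ v ∈ D.V, ∀ v' ∈ D.V, pt v < pt v' →
        (Fr n).k (φ v.1) v.2 < (Fr n).k (φ v'.1) v'.2

end Pool.Agent.Helper22.Slip
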