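import Pool.Agent.Helper76.SlipFinal

/-!
# The weak slippery conjecture, irrational value: shared definitions
-/

namespace Pool.Agent.Helper22.Slip

open Pool.Agent.Helper76.Slip (G rot T)

/-! ### Stages -/

/-- One stage: `K ψ ^ s K⁻¹`. -/
noncomputable def stage (K ψ : G) (s : ℤ) : G := K * ψ ^ s * K⁻¹

/-- The ordered product of the stages `0, …, m - 1` (stage `0` is applied first). -/
noncomputable def stageProd : ℕ → (ℕ → G) → G → (ℕ → ℤ) → G
  | 0, _, _, _ => 1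
  | m + 1, K, ψ, s => stage (K m) ψ (s m) * stageProd m K ψ s

/-- The statement of the local core. -/
def LocalCore : Prop :=
  ∀ (m : ℕ) (s : ℕ → ℤ), (∀ j < m, |s j| ≤ 1) → ∀ ρ φ : ℕ → ℝ, (∀ j < m, 0 ≤ ρ j) →
    ∀ c : ℝ, Irrational c → ∑ j ∈ Finset.range m, (s j : ℝ) * ρ j ≠ 0 →
    ∃ M ε : ℝ, 0 < M ∧ 0 < ε ∧ ∀ Q : ℕ, ∃ q : ℕ, Q ≤ q ∧ 0 < q ∧
      ∃ (p : ℤ) (ψ : G), (q : ℝ) * c < p ∧
      ∀ K : ℕ → G,
        (∀ j < m, ∀ u : ℝ, |u| ≤ M → |(q : ℝ) * (K j (u / q) - φ j) - ρ j * u| ≤ ε) →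
        ∀ c' : ℝ, |c' - c| ≤ ε / (q : ℝ) ^ 2 →
          (p : ℝ) / q ≤ rot (T c' * stageProd m K ψ s)

/-! ### The flow bump -/

/-- The coordinate `x / (1 - |x|)` on `(-1, 1)`. -/
noncomputable def cF (x : ℝ) : ℝ := x / (1 - |x|)

/-- The inverse coordinate `x / (1 + |x|)`. -/
noncomputable def cI (x : ℝ) : ℝ := x / (1 + |x|)

/-- The flow on `[-1, 1]`, extended by the identity. -/
noncomputable def flow (t x : ℝ) : ℝ := if |x| < 1 then cI (cF x + t) else x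

/-- The flow bump with centre `R` and half width `w`. -/
noncomputable def bump (R w t y : ℝ) : ℝ := R + w * flow t ((y - R) / w)

/-- The composition of the gates `a < n` with exponents `s * t a`. -/
noncomputable def gmap (X ω t : ℕ → ℝ) (s : ℝ) : ℕ → ℝ → ℝ
  | 0, u => u
  | n + 1, u => bump (X n) (ω n) (s * t n) (gmap X ω t s n u)

/-- The action of a visit with density `ρ`, intercept `ξ` and sign `s` on the level `y`. -/
noncomputable def lev (X ω t : ℕ → ℝ) (n : ℕ) (ρ ξ s y : ℝ) : ℝ :=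
  if 0 < ρ then ρ * gmap X ω t s n ((ξ + y) / ρ) - ξ else y

/-! ### Low paths -/

/-- A low path: visit `i` is stage `i % m` of step `i / m`. -/
def LowPath (q m : ℕ) (e : ℕ → ℕ → ℝ → ℝ) (lo hi A Z : ℝ) : Prop :=
  ∃ z : ℕ → ℝ, z 0 = A ∧ z (q * m) = Z ∧ (∀ i ≤ q * m, lo ≤ z i ∧ z i ≤ hi) ∧
    ∀ i < q * m, z (i + 1) ≤ e (i / m) (i % m) (z i)

/-! ### Frames: the finite approximation -/

/-- An approximant `p / q` of `c` from above, with the inverse `g` of `p` modulo `q` and the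
start step `k0`. -/
structure Frame (c : ℝ) where
  q : ℕ
  p : ℤ
  g : ℤ
  k0 : ℤ
  q_pos : 0 < q
  inv : (q : ℤ) ∣ g * p - 1
  g_nonneg : 0 ≤ g
  g_lt : g < q
  lower : (q : ℝ) * c < p
  upper : (q : ℝ) * (p - q * c) ≤ 1

namespace Frame

variable {c : ℝ} (F : Frame c)

/-- `θ = q (p - q c)`. -/
noncomputable def θ : ℝ := (F.q : ℝ) * (F.p - F.q * c)

/-- `γ = g / q`. -/
noncomputable def γ : ℝ := (F.g : ℝ) / F.q

/-- `l = ⌊q φ⌋`. -/
noncomputable def l (φ : ℝ) : ℤ := ⌊(F.q : ℝ) * φ⌋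

/-- `h = fract (q φ)`. -/
noncomputable def h (φ : ℝ) : ℝ := Int.fract ((F.q : ℝ) * φ)

/-- The step at which a stage with phase `φ` is visited with index `b`. -/
noncomputable def k (φ : ℝ) (b : ℤ) : ℤ := (F.g * (F.l φ + b) - F.k0) % F.q

/-- The normalised time of a visit. -/
noncomputable def τ (φ : ℝ) (b : ℤ) : ℝ := (F.k φ b : ℝ) / F.q

/-- The index of the visit at step `k` of a stage with phase `φ`: the representative in
`[-q/2, q/2)` of `(k0 + k) p - l` modulo `q`. -/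
noncomputable def b (φ : ℝ) (k : ℤ) : ℤ :=
  ((F.k0 + k) * F.p - F.l φ + F.q / 2) % F.q - F.q / 2

end Frame

end Pool.Agent.Helper22.Slip
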