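import Pool.Agent.Helper22.Slip.S6
import Pool.Agent.Helper22.Slip.C8

/-!
# The weak slippery conjecture
-/

namespace Pool.Agent.Helper22.Slip

open Pool.Agent.Helper76.Slip

/-- If `R(w, r-, s-)` is irrational, then it is `h_a(w) r + h_b(w) s`; no slipperiness is needed. -/
theorem irrational_value (l : List Bool) (r s : ℝ) (hc : Irrational (Rminus (word l) r s)) :
    (l.count true : ℝ) * r + (l.count false : ℝ) * s = Rminus (word l) r s :=
  soft localCore l r s hc

/-- The weak slippery conjecture. -/
theorem weak_slippery (l : List Bool) (r s : ℝ) (hs : Slippery (word l) r s) :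
    (l.count true : ℝ) * r + (l.count false : ℝ) * s = Rminus (word l) r s := by
  by_cases hc : Irrational (Rminus (word l) r s)
  · exact irrational_value l r s hc
  · unfold Irrational at hc
    push Not at hc
    obtain ⟨c, hc⟩ := hc
    exact main l r s hs c hc

end Pool.Agent.Helper22.Slip
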