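import Pool.Agent.Helper22.Slip.CoreDefs

/-!
# I1: sites
-/

namespace Pool.Agent.Helper22.Slip

open Filter Set

/-! ### I1: sites -/

/-- For irrational `γ`, large `b` bring `x + γ b` just above an integer. -/
private lemma i1_rot (γ : ℝ) (hγ : Irrational γ) (x : ℝ) (B : ℤ) (ε : ℝ) (hε : 0 < ε) :
    ∃ b N : ℤ, B < b ∧ 0 < x + γ * b - N ∧ x + γ * b - N < ε := by
  obtain ⟨n, hn⟩ := exists_nat_one_div_lt hε
  obtain ⟨j, k, hk0, -, hjk⟩ := Real.exists_int_int_abs_mul_sub_le γ (Nat.succ_pos n)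
  have hne : (k : ℝ) * γ - j ≠ 0 := by
    intro h
    apply hγ
    refine ⟨(j : ℚ) / k, ?_⟩
    have hk : (k : ℝ) ≠ 0 := by exact_mod_cast hk0.ne'
    push_cast
    rw [div_eq_iff hk]
    linarith
  have hlt : |(k : ℝ) * γ - j| < ε := by
    refine hjk.trans_lt (lt_of_le_of_lt ?_ hn)
    apply one_div_le_one_div_of_le (by positivity)
    push_cast
    linarith
  have key : ∀ m : ℕ, ∀ z : ℤ, x + γ * ((B + 1 + m * k : ℤ) : ℝ) - ((z + m * j : ℤ) : ℝ) =
      (x + γ * (B + 1) - z) + m * ((k : ℝ) * γ - j) := by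
    intro m z
    push_cast
    ring
  have hbig : ∀ m : ℕ, B < B + 1 + m * k := by
    intro m
    have : 0 ≤ (m : ℤ) * k := mul_nonneg (Int.natCast_nonneg m) hk0.le
    omega
  rcases lt_or_gt_of_ne hne with hneg | hpos
  · -- decreasing steps
    set δ := -((k : ℝ) * γ - j) with hδ
    have hδ0 : 0 < δ := by rw [hδ]; linarith
    have hδε : δ < ε := by rw [abs_of_neg hneg] at hlt; exact hlt
    set y := x + γ * (B + 1) - ((⌊x + γ * (B + 1)⌋ - 1 : ℤ) : ℝ) with hy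
    have hy1 : 1 ≤ y := by
      rw [hy]
      push_cast
      have := Int.floor_le (x + γ * (B + 1))
      linarith
    have hc : 0 < ⌈y / δ⌉₊ := Nat.ceil_pos.2 (div_pos (by linarith) hδ0)
    obtain ⟨m, hm⟩ : ∃ m, ⌈y / δ⌉₊ = m + 1 := ⟨⌈y / δ⌉₊ - 1, by omega⟩
    have h1 : (m : ℝ) < y / δ := Nat.lt_ceil.1 (by omega)
    have h2 : y / δ ≤ (m : ℝ) + 1 := by
      have := Nat.le_ceil (y / δ)
      rw [hm] at this
      exact_mod_cast this
    rw [lt_div_iff₀ hδ0] at h1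
    rw [div_le_iff₀ hδ0] at h2
    refine ⟨B + 1 + m * k, (⌊x + γ * (B + 1)⌋ - 1) + m * j, hbig m, ?_, ?_⟩
    · rw [key, ← hy]
      have : (m : ℝ) * ((k : ℝ) * γ - j) = -(m * δ) := by rw [hδ]; ring
      linarith
    · rw [key, ← hy]
      have : (m : ℝ) * ((k : ℝ) * γ - j) = -(m * δ) := by rw [hδ]; ring
      linarith
  · set δ := (k : ℝ) * γ - j with hδ
    have hδε : δ < ε := by rw [abs_of_pos hpos] at hlt; exact hlt
    set y := x + γ * (B + 1) - ((⌊x + γ * (B + 1)⌋ + 1 : ℤ) : ℝ) with hy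
    have hy1 : y < 0 := by
      rw [hy]
      push_cast
      have := Int.lt_floor_add_one (x + γ * (B + 1))
      linarith
    have h0 : 0 ≤ -y / δ := div_nonneg (by linarith) hpos.le
    have h1 := Nat.floor_le h0
    have h2 := Nat.lt_floor_add_one (-y / δ)
    rw [le_div_iff₀ hpos] at h1
    rw [div_lt_iff₀ hpos] at h2
    refine ⟨B + 1 + ((⌊-y / δ⌋₊ + 1 : ℕ) : ℤ) * k,
      (⌊x + γ * (B + 1)⌋ + 1) + ((⌊-y / δ⌋₊ + 1 : ℕ) : ℤ) * j, hbig _, ?_, ?_⟩
    · rw [key, ← hy]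
      push_cast
      linarith
    · rw [key, ← hy]
      push_cast
      linarith

private lemma i1_int_small {z : ℤ} (h1 : -1 < (z : ℝ)) (h2 : (z : ℝ) < 1) : z = 0 := by
  have h3 : -1 < z := by exact_mod_cast h1
  have h4 : z < 1 := by exact_mod_cast h2
  omega

private lemma i1_site (γ : ℝ) (hγ : Irrational γ) (τ : ℤ → ℝ) (hτ : ∀ b, τ b ∈ Icc (0 : ℝ) 1)
    (hτγ : ∀ b b', ∃ z : ℤ, τ b - τ b' - γ * (b - b') = z) (B : ℤ) (ε : ℝ) (hε : 0 < ε) :
    ∃ b : ℤ, B < b ∧ 0 < τ b ∧ τ b < ε := by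
  obtain ⟨b, N, hb, h1, h2⟩ := i1_rot γ hγ (τ 0) B (min ε 1) (lt_min hε one_pos)
  obtain ⟨z, hz⟩ := hτγ b 0
  have h3 := hτ b
  have h4 : z + N = 0 := by
    apply i1_int_small
    · push_cast at hz ⊢
      have := h2.trans_le (min_le_right _ _)
      linarith [h3.1]
    · push_cast at hz ⊢
      linarith [h3.2]
  have h5 : (z : ℝ) + N = 0 := by exact_mod_cast h4
  have h6 : τ b = τ 0 + γ * b - N := by
    push_cast at hz
    linarith
  refine ⟨b, hb, ?_, ?_⟩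
  · rw [h6]; exact h1
  · rw [h6]; exact h2.trans_le (min_le_left _ _)

private lemma i1_uniq (γ : ℝ) (hγ : Irrational γ) {a b : ℤ} {z : ℤ} (h : γ * (a - b) = z) :
    a = b := by
  by_contra hne
  apply hγ
  refine ⟨(z : ℚ) / (a - b : ℤ), ?_⟩
  have h1 : ((a : ℝ) - b) ≠ 0 := by
    rw [sub_ne_zero]
    exact_mod_cast hne
  push_cast
  rw [div_eq_iff h1, h]

/-- The ultrafilter of early sites of the driver `i`, with the limits of the contact times and
of the residues. -/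
theorem exists_siteFilter (ρ : ℕ → ℝ) (γ : ℝ) (hγ : Irrational γ) (τ : ℕ → ℤ → ℝ)
    (hτ : ∀ j b, τ j b ∈ Icc (0 : ℝ) 1)
    (hτγ : ∀ j b b', ∃ z : ℤ, τ j b - τ j b' - γ * (b - b') = z) (i : ℕ) :
    ∃ (W : Ultrafilter ℤ) (T : ℕ → ℤ → ℝ) (β : ℕ → ℝ),
      (∀ B : ℤ, ∀ᶠ b : ℤ in (W : Filter ℤ), B < b) ∧
      (∀ ε > 0, ∀ᶠ b : ℤ in (W : Filter ℤ), 0 < τ i b ∧ τ i b < ε) ∧
      (∀ j k, Tendsto (fun b : ℤ => τ j (⌊ρ j / ρ i * b⌋ + k)) W (nhds (T j k))) ∧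
      (∀ j, Tendsto (fun b : ℤ => Int.fract (ρ j / ρ i * b)) W (nhds (β j))) ∧
      (∀ j, β j ∈ Icc (0 : ℝ) 1) ∧ (∀ j k, T j k ∈ Icc (0 : ℝ) 1) ∧
      (∀ j k k', ∃ z : ℤ, T j k - T j k' - γ * (k - k') = z) ∧
      (∀ j, 0 < ρ i → ρ j = ρ i → β j = 0 ∧ ∀ k, T j k < 1 ∧
        ∀ᶠ b : ℤ in (W : Filter ℤ), τ j (b + k) = τ i b + T j k) ∧
      -- no accidental coincidences
      (∀ j, 0 < ρ i → 0 < ρ j → ∀ (k : ℤ) (x : ℝ), ∀ᶠ b : ℤ in (W : Filter ℤ),
        ∀ z : ℤ, τ j (⌊ρ j / ρ i * b⌋ + k) - x ≠ z) ∧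
      (∀ j j', 0 < ρ i → 0 < ρ j → 0 < ρ j' → ρ j ≠ ρ j' → ∀ k k' : ℤ, ∀ᶠ b : ℤ in (W : Filter ℤ),
        τ j (⌊ρ j / ρ i * b⌋ + k) ≠ τ j' (⌊ρ j' / ρ i * b⌋ + k')) := by
  -- the filter
  have hne : NeBot ((atTop : Filter ℤ) ⊓ comap (τ i) (nhdsWithin 0 (Ioi 0))) := by
    have h1 := (atTop_basis (α := ℤ)).inf_basis_neBot_iff ((nhdsGT_basis (0 : ℝ)).comap (τ i))
    rw [h1]
    intro B _ ε hε
    obtain ⟨b, hb, h2, h3⟩ := i1_site γ hγ (τ i) (hτ i) (hτγ i) B ε hε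
    exact ⟨b, hb.le, h2, h3⟩
  set L := (atTop : Filter ℤ) ⊓ comap (τ i) (nhdsWithin 0 (Ioi 0)) with hL
  set W : Ultrafilter ℤ := Ultrafilter.of L with hW
  have hWL : (W : Filter ℤ) ≤ L := Ultrafilter.of_le L
  have hWtop : (W : Filter ℤ) ≤ atTop := hWL.trans inf_le_left
  have hWτ : Tendsto (τ i) W (nhdsWithin 0 (Ioi 0)) :=
    tendsto_iff_comap.2 (hWL.trans inf_le_right)
  have hWτ0 : Tendsto (τ i) W (nhds 0) := hWτ.mono_right nhdsWithin_le_nhds
  have h2 : ∀ ε > 0, ∀ᶠ b : ℤ in (W : Filter ℤ), 0 < τ i b ∧ τ i b < ε := by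
    intro ε hε
    exact hWτ (Ioo_mem_nhdsGT hε)
  have hWid : Tendsto (fun b : ℤ => (b : ℝ)) W atTop :=
    tendsto_intCast_atTop_atTop.mono_left hWtop
  -- limits
  have hTex : ∀ j k, ∃ x ∈ Icc (0 : ℝ) 1,
      Tendsto (fun b : ℤ => τ j (⌊ρ j / ρ i * b⌋ + k)) W (nhds x) := by
    intro j k
    have h := isCompact_Icc.ultrafilter_le_nhds
      (W.map fun b : ℤ => τ j (⌊ρ j / ρ i * b⌋ + k)) (s := Icc (0 : ℝ) 1) (by
        rw [le_principal_iff, Ultrafilter.coe_map]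
        exact Filter.mem_map.2 (univ_mem' fun b => hτ _ _))
    exact h
  have hβex : ∀ j, ∃ x ∈ Icc (0 : ℝ) 1,
      Tendsto (fun b : ℤ => Int.fract (ρ j / ρ i * b)) W (nhds x) := by
    intro j
    have h := isCompact_Icc.ultrafilter_le_nhds
      (W.map fun b : ℤ => Int.fract (ρ j / ρ i * b)) (s := Icc (0 : ℝ) 1) (by
        rw [le_principal_iff, Ultrafilter.coe_map]
        exact Filter.mem_map.2 (univ_mem' fun b => ⟨Int.fract_nonneg _, (Int.fract_lt_one _).le⟩))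
    exact h
  choose T hT01 hT using hTex
  choose β hβ01 hβ using hβex
  refine ⟨W, T, β, ?_, h2, hT, hβ, hβ01, hT01, ?_, ?_, ?_, ?_⟩
  · intro B
    exact hWtop (Ioi_mem_atTop B)
  · -- (6)
    intro j k k'
    have h3 : Tendsto (fun b : ℤ => τ j (⌊ρ j / ρ i * b⌋ + k) - τ j (⌊ρ j / ρ i * b⌋ + k')
        - γ * (k - k')) W (nhds (T j k - T j k' - γ * (k - k'))) :=
      ((hT j k).sub (hT j k')).sub tendsto_const_nhds
    have h4 : T j k - T j k' - γ * (k - k') ∈ range (fun z : ℤ => (z : ℝ)) := by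
      refine Int.isClosedEmbedding_coe_real.isClosed_range.mem_of_tendsto h3
        (Eventually.of_forall fun b => ?_)
      obtain ⟨z, hz⟩ := hτγ j (⌊ρ j / ρ i * b⌋ + k) (⌊ρ j / ρ i * b⌋ + k')
      refine ⟨z, ?_⟩
      show (z : ℝ) = _
      rw [← hz]
      push_cast
      ring
    obtain ⟨z, hz⟩ := h4
    exact ⟨z, hz.symm⟩
  · -- (7)
    intro j hi hji
    have hone : ρ j / ρ i = 1 := by rw [hji, div_self hi.ne']
    have hfl : ∀ b : ℤ, ⌊ρ j / ρ i * b⌋ = b := by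
      intro b
      rw [hone, one_mul, Int.floor_intCast]
    refine ⟨?_, fun k => ?_⟩
    · refine tendsto_nhds_unique (hβ j) ?_
      have h3 : (fun b : ℤ => Int.fract (ρ j / ρ i * b)) = fun _ => (0 : ℝ) := by
        funext b
        rw [hone, one_mul, Int.fract_intCast]
      rw [h3]
      exact tendsto_const_nhds
    · set d := Int.fract (τ j k - τ i 0) with hd
      have hd0 : 0 ≤ d := Int.fract_nonneg _
      have hd1 : d < 1 := Int.fract_lt_one _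
      have h3 : ∀ᶠ b : ℤ in (W : Filter ℤ), τ j (b + k) = τ i b + d := by
        filter_upwards [h2 (1 - d) (by linarith)] with b hb
        obtain ⟨z1, hz1⟩ := hτγ j (b + k) k
        obtain ⟨z2, hz2⟩ := hτγ i b 0
        have h4 : τ j (b + k) - τ i b - d = ((z1 - z2 + ⌊τ j k - τ i 0⌋ : ℤ) : ℝ) := by
          have h5 := Int.floor_add_fract (τ j k - τ i 0)
          rw [← hd] at h5
          push_cast at hz1 hz2 ⊢
          linarith
        have h5 := hτ j (b + k)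
        have h6 : z1 - z2 + ⌊τ j k - τ i 0⌋ = 0 := by
          apply i1_int_small
          · rw [← h4]; linarith [h5.1, hb.2]
          · rw [← h4]; linarith [h5.2, hb.1]
        rw [h6] at h4
        push_cast at h4
        linarith
      have h4 : T j k = d := by
        refine tendsto_nhds_unique (hT j k) ?_
        have h5 : Tendsto (fun b : ℤ => τ i b + d) W (nhds (0 + d)) :=
          hWτ0.add tendsto_const_nhds
        rw [zero_add] at h5
        refine h5.congr' ?_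
        filter_upwards [h3] with b hb
        rw [hfl, hb]
      rw [h4]
      exact ⟨hd1, h3⟩
  · -- (8)
    intro j hi hj k x
    have hν : 0 < ρ j / ρ i := div_pos hj hi
    have hlim : Tendsto (fun b : ℤ => ⌊ρ j / ρ i * b⌋ + k) W atTop := by
      refine tendsto_atTop_add_const_right _ _ ?_
      exact tendsto_floor_atTop.comp (hWid.const_mul_atTop hν)
    by_cases hex : ∃ (B : ℤ) (z : ℤ), τ j B - x = z
    · obtain ⟨B, z, hz⟩ := hex
      filter_upwards [hlim.eventually_gt_atTop B] with b hb z' hz'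
      obtain ⟨z3, hz3⟩ := hτγ j (⌊ρ j / ρ i * b⌋ + k) B
      have h3 : γ * (((⌊ρ j / ρ i * b⌋ + k : ℤ) : ℝ) - B) = ((z' - z - z3 : ℤ) : ℝ) := by
        push_cast at hz3 ⊢
        linarith
      have h4 := i1_uniq γ hγ h3
      omega
    · push Not at hex
      exact Eventually.of_forall fun b z => hex _ z
  · -- (9)
    intro j j' hi hj hj' hne' k k'
    have hdiff : ρ j / ρ i - ρ j' / ρ i ≠ 0 := by
      rw [← sub_div]
      exact div_ne_zero (sub_ne_zero.2 hne') hi.ne'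
    have habs : Tendsto (fun b : ℤ => |(ρ j / ρ i - ρ j' / ρ i) * (b : ℝ)|) W atTop := by
      have h3 : (fun b : ℤ => |(ρ j / ρ i - ρ j' / ρ i) * (b : ℝ)|) =
          fun b : ℤ => |ρ j / ρ i - ρ j' / ρ i| * |(b : ℝ)| := by
        funext b; rw [abs_mul]
      rw [h3]
      exact (tendsto_abs_atTop_atTop.comp hWid).const_mul_atTop (abs_pos.2 hdiff)
    by_cases hex : ∃ D z : ℤ, τ j' 0 - τ j 0 - γ * D = z
    · obtain ⟨D, z, hz⟩ := hex
      filter_upwards [habs.eventually_gt_atTop (|(D : ℝ)| + |(k : ℝ)| + |(k' : ℝ)| + 2)] with b hb heq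
      obtain ⟨z1, hz1⟩ := hτγ j (⌊ρ j / ρ i * b⌋ + k) 0
      obtain ⟨z2, hz2⟩ := hτγ j' (⌊ρ j' / ρ i * b⌋ + k') 0
      have h3 : γ * (((⌊ρ j / ρ i * b⌋ + k - (⌊ρ j' / ρ i * b⌋ + k') : ℤ) : ℝ) - D)
          = ((z + z2 - z1 : ℤ) : ℝ) := by
        push_cast at hz1 hz2 hz ⊢
        linarith
      have h4 := i1_uniq γ hγ h3
      have h5 : (⌊ρ j / ρ i * b⌋ : ℝ) + k - (⌊ρ j' / ρ i * b⌋ + k') = D := by exact_mod_cast h4
      have h6 := Int.floor_le (ρ j / ρ i * b)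
      have h7 := Int.lt_floor_add_one (ρ j / ρ i * b)
      have h8 := Int.floor_le (ρ j' / ρ i * b)
      have h9 := Int.lt_floor_add_one (ρ j' / ρ i * b)
      have h10 := le_abs_self (D : ℝ)
      have h11 := neg_abs_le (D : ℝ)
      have h12 := le_abs_self (k : ℝ)
      have h13 := neg_abs_le (k : ℝ)
      have h14 := le_abs_self (k' : ℝ)
      have h15 := neg_abs_le (k' : ℝ)
      have h16 : |(ρ j / ρ i - ρ j' / ρ i) * (b : ℝ)| ≤ |(D : ℝ)| + |(k : ℝ)| + |(k' : ℝ)| + 2 := by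
        rw [sub_mul, abs_le]
        constructor <;> linarith
      exact absurd hb (not_lt.2 h16)
    · push Not at hex
      refine Eventually.of_forall fun b heq => ?_
      obtain ⟨z1, hz1⟩ := hτγ j (⌊ρ j / ρ i * b⌋ + k) 0
      obtain ⟨z2, hz2⟩ := hτγ j' (⌊ρ j' / ρ i * b⌋ + k') 0
      apply hex (⌊ρ j / ρ i * b⌋ + k - (⌊ρ j' / ρ i * b⌋ + k')) (z1 - z2)
      push_cast at hz1 hz2 ⊢
      linarith

end Pool.Agent.Helper22.Slip
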