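import Pool.Agent.Helper22.Slip.CoreDefs

/-!
# I2: the start level
-/

namespace Pool.Agent.Helper22.Slip

open Filter Set

/-! ### I2: the start level -/

private lemma i2_min {ι : Type*} (S : Finset ι) (g : ι → ℝ) (hg : ∀ p ∈ S, 0 < g p) :
    ∃ κ > 0, κ ≤ 1 ∧ ∀ p ∈ S, κ ≤ g p := by
  classical
  rcases S.eq_empty_or_nonempty with h | h
  · exact ⟨1, one_pos, le_rfl, by simp [h]⟩
  · obtain ⟨p, hp, hmin⟩ := S.exists_min_image g h
    exact ⟨min 1 (g p), lt_min one_pos (hg p hp), min_le_left _ _,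
      fun x hx => (min_le_right _ _).trans (hmin x hx)⟩

lemma choose_A (I I' : Finset ℕ) (ν ν' : ℕ → ℝ) (C C' : ℕ → ℤ → ℝ)
    (hν : ∀ j ∈ I, 0 < ν j ∧ ν j < 1) (hν' : ∀ j ∈ I', 1 < ν' j) (B : ℝ)
    (hC : ∀ j ∈ I, ∀ k, |C j k + k| ≤ B) (hC' : ∀ j ∈ I', ∀ k, |C' j k + k| ≤ B) (A0 : ℝ) :
    ∃ A, A0 < A ∧ ∃ κ > 0, ∀ x, A ≤ x → x ≤ A + 2 →
      (∀ j ∈ I, ∀ k : ℤ, κ ≤ |ν j * x + C j k - (A + 2)|) ∨
      (∀ j ∈ I', ∀ k : ℤ, κ ≤ |ν' j * x + C' j k - (A + 2)|) := by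
  classical
  -- the bad levels
  let g : (ℕ × ℤ) × (ℕ × ℤ) → ℝ := fun p =>
    (ν' p.2.1 * C p.1.1 p.1.2 - ν p.1.1 * C' p.2.1 p.2.2) / (ν' p.2.1 - ν p.1.1) - 2
  obtain ⟨A, hA, hA0⟩ := ((countable_range g).dense_compl ℝ).exists_gt A0
  refine ⟨A, hA0, ?_⟩
  -- the range of the indices
  have hL : ∃ L : ℕ, (∀ j ∈ I, ∀ k : ℤ, ∀ x, A ≤ x → x ≤ A + 2 →
      |ν j * x + C j k - (A + 2)| < 1 → |k| ≤ L) ∧ (∀ j ∈ I', ∀ k : ℤ, ∀ x, A ≤ x → x ≤ A + 2 →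
      |ν' j * x + C' j k - (A + 2)| < 1 → |k| ≤ L) := by
    obtain ⟨L, hL⟩ := exists_nat_ge ((1 + ∑ j ∈ I', |ν' j|) * (|A| + 2) + |A| + 2 + B + 1)
    have hsum : 0 ≤ ∑ j ∈ I', |ν' j| := Finset.sum_nonneg fun _ _ => abs_nonneg _
    have hgen : ∀ (a c x : ℝ) (k : ℤ), 0 ≤ a → a ≤ 1 + ∑ j ∈ I', |ν' j| → |c + k| ≤ B →
        A ≤ x → x ≤ A + 2 → |a * x + c - (A + 2)| < 1 → |k| ≤ (L : ℤ) := by
      intro a c x k ha0 ha hc hx1 hx2 h
      have hx : |x| ≤ |A| + 2 := by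
        rw [abs_le]
        constructor
        · have := neg_abs_le A
          linarith
        · have := le_abs_self A
          linarith
      have h1 : |a * x| ≤ (1 + ∑ j ∈ I', |ν' j|) * (|A| + 2) := by
        rw [abs_mul, abs_of_nonneg ha0]
        gcongr
      have h2 : (k : ℝ) = (c + k) - (a * x + c - (A + 2)) + a * x - (A + 2) := by ring
      have h3 : |(k : ℝ)| ≤ L := by
        refine le_trans ?_ hL
        have hA2 := neg_abs_le A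
        have hA1 := le_abs_self A
        have h1' := abs_le.1 h1
        have hc' := abs_le.1 hc
        have h' := abs_lt.1 h
        rw [abs_le]
        constructor <;> linarith [h1'.1, h1'.2, hc'.1, hc'.2, h'.1, h'.2]
      exact_mod_cast h3
    refine ⟨L, fun j hj k x hx1 hx2 h => ?_, fun j hj k x hx1 hx2 h => ?_⟩
    · exact hgen _ _ x k (hν j hj).1.le (by linarith [(hν j hj).2]) (hC j hj k) hx1 hx2 h
    · have h1 : |ν' j| ≤ ∑ j ∈ I', |ν' j| :=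
        Finset.single_le_sum (f := fun j => |ν' j|) (fun _ _ => abs_nonneg _) hj
      have h2 := le_abs_self (ν' j)
      exact hgen _ _ x k (by linarith [hν' j hj]) (by linarith) (hC' j hj k) hx1 hx2 h
  obtain ⟨L, hL1, hL2⟩ := hL
  -- the elimination constant
  let E : (ℕ × ℤ) × (ℕ × ℤ) → ℝ := fun p =>
    |ν' p.2.1 * (C p.1.1 p.1.2 - (A + 2)) - ν p.1.1 * (C' p.2.1 p.2.2 - (A + 2))|
      / (ν' p.2.1 + ν p.1.1)
  let S : Finset ((ℕ × ℤ) × (ℕ × ℤ)) :=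
    (I ×ˢ Finset.Icc (-(L : ℤ)) L) ×ˢ (I' ×ˢ Finset.Icc (-(L : ℤ)) L)
  obtain ⟨κ, hκ, hκ1, hκS⟩ := i2_min S E (by
    rintro ⟨⟨j, k⟩, ⟨j', k'⟩⟩ hp
    simp only [S, Finset.mem_product] at hp
    have hj := hν j hp.1.1
    have hj' := hν' j' hp.2.1
    simp only [E]
    refine div_pos (abs_pos.2 fun h0 => ?_) (by linarith)
    apply hA
    refine ⟨((j, k), (j', k')), ?_⟩
    simp only [g]
    have hne : ν' j' - ν j ≠ 0 := by
      have : 0 < ν' j' - ν j := by linarith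
      exact this.ne'
    rw [sub_eq_iff_eq_add, div_eq_iff hne]
    linarith)
  refine ⟨κ, hκ, fun x hx1 hx2 => ?_⟩
  by_contra hcon
  push Not at hcon
  obtain ⟨⟨j, hj, k, h1⟩, ⟨j', hj', k', h2⟩⟩ := hcon
  have hk := hL1 j hj k x hx1 hx2 (h1.trans_le hκ1)
  have hk' := hL2 j' hj' k' x hx1 hx2 (h2.trans_le hκ1)
  have hmem : ((j, k), (j', k')) ∈ S := by
    simp only [S, Finset.mem_product, Finset.mem_Icc]
    exact ⟨⟨hj, abs_le.1 hk⟩, ⟨hj', abs_le.1 hk'⟩⟩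
  have h3 := hκS _ hmem
  simp only [E] at h3
  have hp := (hν j hj).1
  have hp' := hν' j' hj'
  rw [le_div_iff₀ (by linarith)] at h3
  have h4 : ν' j' * (C j k - (A + 2)) - ν j * (C' j' k' - (A + 2)) =
      ν' j' * (ν j * x + C j k - (A + 2)) - ν j * (ν' j' * x + C' j' k' - (A + 2)) := by ring
  rw [h4] at h3
  have h5 := abs_sub (ν' j' * (ν j * x + C j k - (A + 2)))
    (ν j * (ν' j' * x + C' j' k' - (A + 2)))
  rw [abs_mul, abs_mul, abs_of_pos hp, abs_of_pos (show 0 < ν' j' by linarith)] at h5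
  have h6 : ν' j' * |ν j * x + C j k - (A + 2)| < ν' j' * κ := by
    apply mul_lt_mul_of_pos_left h1
    linarith
  have h7 : ν j * |ν' j' * x + C' j' k' - (A + 2)| < ν j * κ :=
    mul_lt_mul_of_pos_left h2 hp
  linarith

end Pool.Agent.Helper22.Slip
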