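import Pool.Agent.Helper22.Slip.CoreDefs

/-!
# I3: choosing the sites
-/

namespace Pool.Agent.Helper22.Slip

open Filter Set

/-! ### I3: choosing the sites one after the other -/

lemma choose_sites (n : ℕ) (W : ℕ → Ultrafilter ℤ) (Q : ℕ → ℤ → Prop)
    (P : ℕ → ℕ → ℤ → ℤ → Prop) (hQ : ∀ a < n, ∀ᶠ b in (W a : Filter ℤ), Q a b)
    (hP : ∀ a a', a < a' → a' < n → ∀ b', Q a' b' → ∀ᶠ b in (W a : Filter ℤ), P a a' b b') :
    ∃ b : ℕ → ℤ, (∀ a < n, Q a (b a)) ∧ ∀ a a', a < a' → a' < n → P a a' (b a) (b a') := by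
  have key : ∀ k ≤ n, ∃ b : ℕ → ℤ, (∀ a < n, n - k ≤ a → Q a (b a)) ∧
      ∀ a a', n - k ≤ a → a < a' → a' < n → P a a' (b a) (b a') := by
    intro k
    induction k with
    | zero =>
      intro _
      exact ⟨fun _ => 0, fun a ha h => by omega, fun a a' h1 h2 h3 => by omega⟩
    | succ k ih =>
      intro hk
      obtain ⟨b, hb1, hb2⟩ := ih (by omega)
      set a0 := n - (k + 1) with ha0
      have hev : ∀ᶠ x in (W a0 : Filter ℤ), Q a0 x ∧ ∀ a' ∈ Finset.Ioo a0 n, P a0 a' x (b a') := by
        apply (hQ a0 (by omega)).and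
        rw [Filter.eventually_all_finset]
        intro a' ha'
        rw [Finset.mem_Ioo] at ha'
        exact hP a0 a' ha'.1 ha'.2 (b a') (hb1 a' ha'.2 (by omega))
      obtain ⟨x, hx1, hx2⟩ := hev.exists
      refine ⟨Function.update b a0 x, ?_, ?_⟩
      · intro a ha hle
        by_cases h : a = a0
        · subst h; simpa using hx1
        · rw [Function.update_of_ne h]
          exact hb1 a ha (by omega)
      · intro a a' hle hlt hn
        have hne : a' ≠ a0 := by omega
        rw [Function.update_of_ne hne]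
        by_cases h : a = a0
        · rw [h, Function.update_self]
          exact hx2 a' (Finset.mem_Ioo.mpr ⟨by omega, hn⟩)
        · rw [Function.update_of_ne h]
          exact hb2 a a' (by omega) hlt hn
  obtain ⟨b, h1, h2⟩ := key n le_rfl
  exact ⟨b, fun a ha => h1 a ha (by omega), fun a a' h3 h4 => h2 a a' (by omega) h3 h4⟩

end Pool.Agent.Helper22.Slip
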