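import Pool.Agent.Helper22.Slip.K2

/-!
# I4: verification
-/

namespace Pool.Agent.Helper22.Slip

open Filter Set

/-! ### I4: the verification -/

/-- The cluster relation of Case I. -/
def relI (ρ h : ℕ → ℝ) (τ : ℕ → ℤ → ℝ) (j j' : ℕ) : Prop :=
  ρ j = ρ j' ∧ ∃ z : ℤ, (z : ℝ) = h j' - h j ∧ ∃ z' : ℤ, τ j' z - τ j 0 = z'

open Classical in
/-- The net sign of a cluster. -/
noncomputable def netI (m : ℕ) (s : ℕ → ℤ) (ρ h : ℕ → ℝ) (τ : ℕ → ℤ → ℝ) (j : ℕ) : ℤ :=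
  ∑ j' ∈ (Finset.range m).filter (relI ρ h τ j), s j'

theorem caseI_verify (m : ℕ) (s : ℕ → ℤ) (hs : ∀ j < m, |s j| ≤ 1) (ρ : ℕ → ℝ)
    (γ : ℝ) (hγ : Irrational γ) (θ : ℝ) (hθ : θ ∈ Icc (0 : ℝ) 1) (h : ℕ → ℝ)
    (hh : ∀ j, h j ∈ Icc (0 : ℝ) 1) (τ : ℕ → ℤ → ℝ) (hτ : ∀ j b, τ j b ∈ Icc (0 : ℝ) 1)
    (hτγ : ∀ j b b', ∃ z : ℤ, τ j b - τ j b' - γ * (b - b') = z)
    -- constants
    (n : ℕ) (hn : 16 ≤ n) (A lam κ3 κ5 ε0 : ℝ) (N0 : ℕ)
    (hlam : 0 < lam) (hlam2 : lam ≤ 1 / 2) (hlam3 : lam ≤ κ3 / 4) (hε0 : 0 < ε0)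
    (hκ5 : ∀ j < m, ∀ j' < m, ∀ z : ℤ, (z : ℝ) ≠ h j' - h j → κ5 ≤ |(z : ℝ) - (h j' - h j)|)
    -- drivers and sites
    (i : ℕ → ℕ) (b : ℕ → ℤ) (T : ℕ → ℕ → ℤ → ℝ) (β : ℕ → ℕ → ℝ)
    (him : ∀ a < n, i a < m) (hiρ : ∀ a < n, 0 < ρ (i a))
    (hiN : ∀ a < n, netI m s ρ h τ (i a) ≠ 0)
    (hκ : ∀ a < n, ∀ j < m, 0 < ρ j → 4 * (ρ j / ρ (i a)) * (4 / n) < κ3 ∧
      4 * (ρ j / ρ (i a)) * (4 / n) < κ5 ∧ 4 * (ρ j / ρ (i a)) * (4 / n) < 1)
    -- number of events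
    (I : Finset ℕ) (hI : ∀ a < n, i a ∈ I)
    (hEv : (I.card * m * (2 * N0 + 1) : ℝ) * (10 * (4 / n)) ≤ lam)
    -- large indices never matter
    (hN0 : ∀ a < n, ∀ j < m, 0 < ρ j → ∀ k : ℤ, (N0 : ℤ) < |k| →
      ∀ x ∈ Icc (0 : ℝ) 1, ∀ x' ∈ Icc (0 : ℝ) 1, ∀ x'' ∈ Icc (0 : ℝ) 1,
      5 + |A| < |ρ j / ρ (i a) * (A + 2 * a / n - h (i a) - θ * x) + x' - k + h j + θ * x''|)
    -- T is bounded away from 0, or vanishes and then only equal densities matter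
    (hT0 : ∀ a < n, ∀ j < m, 0 < ρ j → ∀ k : ℤ, |k| ≤ N0 → T (i a) j k ≠ 0 →
      ε0 ≤ T (i a) j k)
    (hTA : ∀ a < n, ∀ j < m, 0 < ρ j → ρ j ≠ ρ (i a) → ∀ k : ℤ, |k| ≤ N0 → T (i a) j k = 0 →
      ∀ y, A - 2 ≤ y → y ≤ A + 4 → κ3 <
        |ρ j / ρ (i a) * (A + 2 * a / n - h (i a)) + β (i a) j - k + h j + θ * T (i a) j k - y|)
    -- the driver is not blocked
    (hblock : ∀ a < n, ∀ j < m, 0 < ρ j → ρ j ≠ ρ (i a) → netI m s ρ h τ j ≠ 0 →
      ∀ k : ℤ, |k| ≤ N0 → T (i a) j k ≠ 0 → κ3 ≤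
        |ρ j / ρ (i a) * (A + 2 * a / n - h (i a)) + β (i a) j - k + h j + θ * T (i a) j k
          - (A + 2)|)
    -- site conditions
    (hq1 : ∀ a < n, 0 < τ (i a) (b a) ∧ τ (i a) (b a) < ε0 / 4)
    (hq2 : ∀ a < n, ∀ j < m, 0 < ρ j → ∀ k : ℤ, |k| ≤ N0 →
      0 < τ j (⌊ρ j / ρ (i a) * b a⌋ + k) ∧ τ j (⌊ρ j / ρ (i a) * b a⌋ + k) < 1 ∧
      |τ j (⌊ρ j / ρ (i a) * b a⌋ + k) - T (i a) j k| < ε0 / 4)
    (hq3 : ∀ a < n, ∀ j < m, 0 < ρ j → ∀ k : ℤ, |k| ≤ N0 →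
      |(ρ j / ρ (i a) * (A + 2 * a / n - h (i a) - θ * τ (i a) (b a))
          + Int.fract (ρ j / ρ (i a) * b a) - k + h j + θ * τ j (⌊ρ j / ρ (i a) * b a⌋ + k))
        - (ρ j / ρ (i a) * (A + 2 * a / n - h (i a)) + β (i a) j - k + h j + θ * T (i a) j k)|
        < κ3 / 4)
    (hq4 : ∀ a < n, ∀ j < m, ρ j = ρ (i a) → ∀ k : ℤ, |k| ≤ N0 →
      τ j (b a + k) = τ (i a) (b a) + T (i a) j k)
    (hq5 : ∀ a < n, ∀ j < m, ∀ j' < m, 0 < ρ j → 0 < ρ j' → ρ j ≠ ρ j' →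
      ∀ k k' : ℤ, |k| ≤ N0 → |k'| ≤ N0 →
      τ j (⌊ρ j / ρ (i a) * b a⌋ + k) ≠ τ j' (⌊ρ j' / ρ (i a) * b a⌋ + k'))
    (hp1 : ∀ a a', a < a' → a' < n → τ (i a) (b a) < τ (i a') (b a'))
    (hp2 : ∀ a a', a < a' → a' < n → ∀ j < m, ∀ j' < m, 0 < ρ j → 0 < ρ j' →
      ∀ k k' : ℤ, |k| ≤ N0 → |k'| ≤ N0 →
      τ j (⌊ρ j / ρ (i a) * b a⌋ + k) ≠ τ j' (⌊ρ j' / ρ (i a') * b a'⌋ + k'))
    (hp3 : ∀ a a', a < a' → a' < n → ∀ j < m, 0 < ρ j →
      5 < ρ j * |(b a - h (i a) - θ * τ (i a) (b a) + (A + 2 * a / n)) / ρ (i a)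
        - (b a' - h (i a') - θ * τ (i a') (b a') + (A + 2 * a' / n)) / ρ (i a')|) :
    ∃ D : DesignData, D.Ok m s ρ (fun j b => b - h j - θ * τ j b) ∧
      Climb D.V D.R D.w D.tt (fun v => τ v.1 v.2) D.A D.lam D.n := by
  classical
  have hnN : (16 : ℝ) ≤ n := by exact_mod_cast hn
  have hn0 : (0 : ℝ) < n := by linarith
  have h4n : (0 : ℝ) < 4 / n := by positivity
  have hκ3 : 0 < κ3 := by linarith
  -- the gates
  obtain ⟨X, hX⟩ : ∃ X : ℕ → ℝ, ∀ a, X a =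
      (b a - h (i a) - θ * τ (i a) (b a) + (A + 2 * a / n)) / ρ (i a) := ⟨_, fun _ => rfl⟩
  obtain ⟨ω, hω⟩ : ∃ ω : ℕ → ℝ, ∀ a, ω a = (4 / n) / ρ (i a) := ⟨_, fun _ => rfl⟩
  obtain ⟨t, ht⟩ : ∃ t : ℕ → ℝ, ∀ a, t a = 1 / (netI m s ρ h τ (i a) : ℝ) := ⟨_, fun _ => rfl⟩
  have hρω : ∀ (j a : ℕ), ρ j * ω a = ρ j / ρ (i a) * (4 / n) := by
    intro j a; rw [hω]; ring
  have hsep : ∀ a < n, ∀ a' < n, a ≠ a' → ∀ j < m, 0 < ρ j →
      ρ j * ω a + ρ j * ω a' + 4 < ρ j * |X a - X a'| := by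
    intro a ha a' ha' hne j hj hρj
    have e1 := (hκ a ha j hj hρj).2.2
    have e2 := (hκ a' ha' j hj hρj).2.2
    rw [hρω, hρω]
    rcases lt_or_gt_of_ne hne with hlt | hlt
    · have := hp3 a a' hlt ha' j hj hρj
      rw [← hX, ← hX] at this
      linarith
    · have := hp3 a' a hlt ha j hj hρj
      rw [← hX, ← hX, abs_sub_comm] at this
      linarith
  have hωpos : ∀ a < n, 0 < ω a := by
    intro a ha; rw [hω]; exact div_pos h4n (hiρ a ha)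
  have hdis : GatesDisjoint X ω n := by
    refine ⟨hωpos, ?_⟩
    intro a ha a' ha' hne
    have h1 := hsep a ha a' ha' hne (i a) (him a ha) (hiρ a ha)
    have h2 := hiρ a ha
    have h3 : ρ (i a) * (ω a + ω a') < ρ (i a) * |X a - X a'| := by linarith
    exact lt_of_mul_lt_mul_left h3 h2.le
  have htle : ∀ a < n, |t a| ≤ 1 := by
    intro a ha
    rw [ht, abs_div, abs_one]
    have h1 : (1 : ℤ) ≤ |netI m s ρ h τ (i a)| := Int.one_le_abs (hiN a ha)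
    have h2 : (1 : ℝ) ≤ |(netI m s ρ h τ (i a) : ℝ)| := by exact_mod_cast h1
    exact (div_le_one (by linarith)).2 h2
  have hξ : ∀ (j : ℕ) (b : ℤ), |((b : ℝ) - h j - θ * τ j b) - b| ≤ 2 := by
    intro j b
    have h1 := hh j
    have h2 := hτ j b
    have h3 : 0 ≤ θ * τ j b := mul_nonneg hθ.1 h2.1
    have h4 : θ * τ j b ≤ 1 := mul_le_one₀ hθ.2 h2.1 h2.2
    rw [abs_le]
    constructor <;> linarith [h1.1, h1.2]
  obtain ⟨D, gate, hOk, hDn, hDA, hDlam, hDX, hDω, hDt, hV, hV'⟩ :=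
    mkDesign m s hs ρ (fun j b => (b : ℝ) - h j - θ * τ j b) hξ n A lam X ω t hωpos htle hdis hsep
  refine ⟨D, hOk, ?_⟩
  rw [hDA, hDlam, hDn]
  -- basic facts on a visit
  obtain ⟨kk, hkk⟩ : ∃ kk : ℕ × ℤ → ℤ, ∀ v, kk v =
      v.2 - ⌊ρ v.1 / ρ (i (gate v)) * b (gate v)⌋ := ⟨_, fun _ => rfl⟩
  have hkk' : ∀ v, ⌊ρ v.1 / ρ (i (gate v)) * b (gate v)⌋ + kk v = v.2 := by
    intro v; rw [hkk]; ring
  have hgn : ∀ v ∈ D.V, gate v < n := fun v hv => (hV v hv).1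
  have hjm : ∀ v ∈ D.V, v.1 < m := fun v hv => (hV v hv).2.1
  have hρv : ∀ v ∈ D.V, 0 < ρ v.1 := fun v hv => (hV v hv).2.2.1
  have hRv : ∀ v ∈ D.V, D.R v = ρ v.1 / ρ (i (gate v)) *
      (A + 2 * (gate v) / n - h (i (gate v)) - θ * τ (i (gate v)) (b (gate v)))
      + Int.fract (ρ v.1 / ρ (i (gate v)) * b (gate v)) - kk v + h v.1 + θ * τ v.1 v.2 := by
    intro v hv
    have h1 := (hV v hv).2.2.2.1
    rw [h1, hX, hkk, Int.fract]
    have h2 := hiρ _ (hgn v hv)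
    push_cast
    ring
  have hRv2 : ∀ v ∈ D.V, D.R v = ρ v.1 * X (gate v) - (v.2 - h v.1 - θ * τ v.1 v.2) :=
    fun v hv => (hV v hv).2.2.2.1
  have hwv : ∀ v ∈ D.V, D.w v = ρ v.1 / ρ (i (gate v)) * (4 / n) := by
    intro v hv
    rw [(hV v hv).2.2.2.2.1, hρω]
  have hwpos : ∀ v ∈ D.V, 0 < D.w v := by
    intro v hv
    rw [hwv v hv]
    exact mul_pos (div_pos (hρv v hv) (hiρ _ (hgn v hv))) h4n
  have hw4 : ∀ v ∈ D.V, 4 * D.w v < κ3 ∧ 4 * D.w v < κ5 ∧ 4 * D.w v < 1 := by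
    intro v hv
    have := hκ _ (hgn v hv) v.1 (hjm v hv) (hρv v hv)
    rw [hwv v hv]
    refine ⟨?_, ?_, ?_⟩
    · linarith [this.1]
    · linarith [this.2.1]
    · linarith [this.2.2]
  have htt : ∀ v ∈ D.V, D.tt v = s v.1 * t (gate v) := fun v hv => (hV v hv).2.2.2.2.2.1
  have hlo : ∀ v ∈ D.V, A - 1 - D.w v ≤ D.R v := fun v hv => (hV v hv).2.2.2.2.2.2.1
  have hhi : ∀ v ∈ D.V, D.R v ≤ A + 3 + D.w v := fun v hv => (hV v hv).2.2.2.2.2.2.2
  have hkN : ∀ v ∈ D.V, |kk v| ≤ (N0 : ℤ) := by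
    intro v hv
    by_contra hc
    have hc' : (N0 : ℤ) < |kk v| := not_le.1 hc
    have h1 := hN0 _ (hgn v hv) v.1 (hjm v hv) (hρv v hv) (kk v) hc'
      (τ (i (gate v)) (b (gate v))) (hτ _ _)
      (Int.fract (ρ v.1 / ρ (i (gate v)) * b (gate v)))
      ⟨Int.fract_nonneg _, (Int.fract_lt_one _).le⟩
      (τ v.1 v.2) (hτ _ _)
    rw [← hRv v hv] at h1
    have h2 := hlo v hv
    have h3 := hhi v hv
    have h4 := (hw4 v hv).2.2
    have h5 : |D.R v| ≤ |A| + 4 := by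
      rw [abs_le]
      constructor
      · linarith [neg_abs_le A]
      · linarith [le_abs_self A]
    linarith
  -- equal times: equal gates and densities
  have hgate : ∀ v ∈ D.V, ∀ v' ∈ D.V, τ v.1 v.2 = τ v'.1 v'.2 → gate v = gate v' := by
    intro v hv v' hv' he
    by_contra hne
    rcases lt_or_gt_of_ne hne with hlt | hlt
    · have := hp2 (gate v) (gate v') hlt (hgn v' hv') v.1 (hjm v hv) v'.1 (hjm v' hv')
        (hρv v hv) (hρv v' hv') (kk v) (kk v') (hkN v hv) (hkN v' hv')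
      rw [hkk', hkk'] at this
      exact this he
    · have := hp2 (gate v') (gate v) hlt (hgn v hv) v'.1 (hjm v' hv') v.1 (hjm v hv)
        (hρv v' hv') (hρv v hv) (kk v') (kk v) (hkN v' hv') (hkN v hv)
      rw [hkk', hkk'] at this
      exact this he.symm
  have hdens : ∀ v ∈ D.V, ∀ v' ∈ D.V, τ v.1 v.2 = τ v'.1 v'.2 → ρ v.1 = ρ v'.1 := by
    intro v hv v' hv' he
    by_contra hne
    have hg := hgate v hv v' hv' he
    have := hq5 (gate v) (hgn v hv) v.1 (hjm v hv) v'.1 (hjm v' hv')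
        (hρv v hv) (hρv v' hv') hne (kk v) (kk v') (hkN v hv) (hkN v' hv')
    rw [hkk' v, hg, hkk' v'] at this
    exact this he
  have hweq : ∀ v ∈ D.V, ∀ v' ∈ D.V, τ v.1 v.2 = τ v'.1 v'.2 → D.w v = D.w v' := by
    intro v hv v' hv' he
    rw [hwv v hv, hwv v' hv', hgate v hv v' hv' he, hdens v hv v' hv' he]
  have hRdiff : ∀ v ∈ D.V, ∀ v' ∈ D.V, τ v.1 v.2 = τ v'.1 v'.2 →
      D.R v' - D.R v = -(((v'.2 - v.2 : ℤ) : ℝ) - (h v'.1 - h v.1)) := by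
    intro v hv v' hv' he
    rw [hRv2 v hv, hRv2 v' hv', hgate v hv v' hv' he, hdens v hv v' hv' he, he]
    push_cast
    ring
  have hd : ∀ v ∈ D.V, ∀ v' ∈ D.V, τ v.1 v.2 = τ v'.1 v'.2 →
      (D.R v = D.R v' ∧ D.w v = D.w v') ∨ D.w v + D.w v' < |D.R v - D.R v'| := by
    intro v hv v' hv' he
    have h1 := hweq v hv v' hv' he
    have h2 := hRdiff v hv v' hv' he
    by_cases hz : ((v'.2 - v.2 : ℤ) : ℝ) = h v'.1 - h v.1
    · left
      refine ⟨?_, h1⟩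
      rw [hz] at h2
      linarith
    · right
      have h3 := hκ5 v.1 (hjm v hv) v'.1 (hjm v' hv') (v'.2 - v.2) hz
      have h4 := (hw4 v hv).2.1
      have h5 := hwpos v hv
      rw [abs_sub_comm, h2, abs_neg]
      linarith
  -- the sum of a class
  have hclass : ∀ v ∈ D.V, ∑ v' ∈ D.V.filter (fun v' => τ v'.1 v'.2 = τ v.1 v.2 ∧
      D.R v' = D.R v ∧ D.w v' = D.w v), D.tt v' = (netI m s ρ h τ v.1 : ℝ) * t (gate v) := by
    intro v hv
    unfold netI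
    push_cast
    rw [Finset.sum_mul]
    refine Finset.sum_nbij' (fun v' => v'.1) (fun j' => (j', v.2 + ⌊h j' - h v.1⌋)) ?_ ?_ ?_ ?_ ?_
    · intro v' hv'
      rw [Finset.mem_filter] at hv'
      obtain ⟨hv'V, he, hR, -⟩ := hv'
      have h2 := hRdiff v hv v' hv'V he.symm
      have hz : ((v'.2 - v.2 : ℤ) : ℝ) = h v'.1 - h v.1 := by rw [hR] at h2; linarith
      rw [Finset.mem_filter, Finset.mem_range]
      refine ⟨hjm v' hv'V, (hdens v' hv'V v hv he).symm, v'.2 - v.2, hz, ?_⟩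
      obtain ⟨z1, hz1⟩ := hτγ v'.1 v'.2 (v'.2 - v.2)
      obtain ⟨z2, hz2⟩ := hτγ v.1 v.2 0
      refine ⟨z2 - z1, ?_⟩
      push_cast at hz1 hz2 ⊢
      rw [← hz1, ← hz2, he]
      ring
    · intro j' hj'
      rw [Finset.mem_filter, Finset.mem_range] at hj'
      obtain ⟨hj'm, hρe, z, hz, z', hz'⟩ := hj'
      have hfl : ⌊h j' - h v.1⌋ = z := by rw [← hz, Int.floor_intCast]
      show (j', v.2 + ⌊h j' - h v.1⌋) ∈ _
      rw [hfl]
      obtain ⟨z1, hz1⟩ := hτγ j' (v.2 + z) z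
      obtain ⟨z2, hz2⟩ := hτγ v.1 v.2 0
      have hτv := hq2 _ (hgn v hv) v.1 (hjm v hv) (hρv v hv) (kk v) (hkN v hv)
      rw [hkk' v] at hτv
      have hτj := hτ j' (v.2 + z)
      have he : τ j' (v.2 + z) = τ v.1 v.2 := by
        have h1 : τ j' (v.2 + z) - τ v.1 v.2 = ((z1 + z' - z2 : ℤ) : ℝ) := by
          push_cast at hz1 hz2 ⊢
          linarith
        have h2 : ((z1 + z' - z2 : ℤ) : ℝ) < 1 := by rw [← h1]; linarith [hτj.2, hτv.1]
        have h3 : (-1 : ℝ) < ((z1 + z' - z2 : ℤ) : ℝ) := by rw [← h1]; linarith [hτj.1, hτv.2.1]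
        have h4 : z1 + z' - z2 < 1 := by exact_mod_cast h2
        have h5 : -1 < z1 + z' - z2 := by exact_mod_cast h3
        have h6 : z1 + z' - z2 = 0 := by omega
        rw [h6] at h1
        push_cast at h1
        linarith
      have hRe : ρ j' * X (gate v) - (((v.2 + z : ℤ) : ℝ) - h j' - θ * τ j' (v.2 + z)) = D.R v := by
        rw [hRv2 v hv, ← hρe, he]
        push_cast
        rw [hz]
        ring
      have hwe : ρ j' * ω (gate v) = D.w v := by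
        rw [hwv v hv, hρω, hρe]
      have hmem := hV' j' (v.2 + z) (gate v) hj'm (hρe ▸ hρv v hv) (hgn v hv)
        (by rw [hRe, hwe]; exact hlo v hv) (by rw [hRe, hwe]; exact hhi v hv)
      rw [Finset.mem_filter]
      refine ⟨hmem.1, he, ?_, ?_⟩
      · rw [hRv2 _ hmem.1, hmem.2]
        exact hRe
      · rw [hwv _ hmem.1, hmem.2, ← hwe, hρω]
    · intro v' hv'
      rw [Finset.mem_filter] at hv'
      obtain ⟨hv'V, he, hR, -⟩ := hv'
      have h2 := hRdiff v hv v' hv'V he.symm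
      have hz : ((v'.2 - v.2 : ℤ) : ℝ) = h v'.1 - h v.1 := by rw [hR] at h2; linarith
      show (v'.1, v.2 + ⌊h v'.1 - h v.1⌋) = v'
      rw [← hz, Int.floor_intCast]
      ext
      · rfl
      · simp
    · intro j' _
      rfl
    · intro v' hv'
      rw [Finset.mem_filter] at hv'
      obtain ⟨hv'V, he, -, -⟩ := hv'
      rw [htt v' hv'V, hgate v' hv'V v hv he]
  -- T vanishes only for equal densities
  have hTρ : ∀ v ∈ D.V, T (i (gate v)) v.1 (kk v) = 0 → ρ v.1 = ρ (i (gate v)) := by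
    intro v hv hT
    by_contra hne
    have h1 := hTA _ (hgn v hv) v.1 (hjm v hv) (hρv v hv) hne (kk v) (hkN v hv) hT (D.R v)
      (by linarith [hlo v hv, (hw4 v hv).2.2, hwpos v hv])
      (by linarith [hhi v hv, (hw4 v hv).2.2])
    have h2 := hq3 _ (hgn v hv) v.1 (hjm v hv) (hρv v hv) (kk v) (hkN v hv)
    rw [hkk' v, ← hRv v hv, abs_sub_comm] at h2
    linarith
  -- equal densities
  have hfl : ∀ v ∈ D.V, ρ v.1 = ρ (i (gate v)) → b (gate v) + kk v = v.2 := by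
    intro v hv he
    have h1 := hkk' v
    rw [he, div_self (hiρ _ (hgn v hv)).ne', one_mul, Int.floor_intCast] at h1
    exact h1
  have hτT : ∀ v ∈ D.V, ρ v.1 = ρ (i (gate v)) →
      τ v.1 v.2 = τ (i (gate v)) (b (gate v)) + T (i (gate v)) v.1 (kk v) := by
    intro v hv he
    rw [← hfl v hv he]
    exact hq4 _ (hgn v hv) v.1 (hjm v hv) he (kk v) (hkN v hv)
  have hRT : ∀ v ∈ D.V, ρ v.1 = ρ (i (gate v)) →
      D.R v = A + 2 * (gate v) / n - (kk v - (h v.1 - h (i (gate v))))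
        + θ * T (i (gate v)) v.1 (kk v) := by
    intro v hv he
    rw [hRv v hv, hτT v hv he, he, div_self (hiρ _ (hgn v hv)).ne', one_mul, one_mul,
      Int.fract_intCast]
    ring
  have hwT : ∀ v ∈ D.V, ρ v.1 = ρ (i (gate v)) → D.w v = 4 / n := by
    intro v hv he
    rw [hwv v hv, he, div_self (hiρ _ (hgn v hv)).ne', one_mul]
  have hn1 : n - 1 < n := by omega
  refine ⟨hn, hlam, hlam2, ?_, hd, ?_⟩
  · intro v hv
    exact ⟨hwpos v hv, by linarith [(hw4 v hv).2.2]⟩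
  refine ⟨fun a => τ (i a) (b a), hp1, ?_, ?_, fun v => v ∈ D.V ∧ ρ v.1 = ρ (i (gate v)),
    ℕ × ℕ × ℤ, inferInstance, I ×ˢ (Finset.range m ×ˢ Finset.Icc (-(N0 : ℤ)) N0),
    fun v => (i (gate v), v.1, kk v), fun _ => 4 / n, ?_, ?_, ?_, ?_, ?_⟩
  · -- the early part
    intro v hv hle
    have hle' : τ v.1 v.2 < ε0 / 4 := lt_of_le_of_lt hle (hq1 _ hn1).2
    have hT : T (i (gate v)) v.1 (kk v) = 0 := by
      by_contra hne
      have h1 := hT0 _ (hgn v hv) v.1 (hjm v hv) (hρv v hv) (kk v) (hkN v hv) hne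
      have h2 := (hq2 _ (hgn v hv) v.1 (hjm v hv) (hρv v hv) (kk v) (hkN v hv)).2.2
      rw [hkk' v] at h2
      have h3 := (abs_lt.1 h2).1
      linarith
    have hρe := hTρ v hv hT
    refine ⟨gate v, hgn v hv, ?_, ?_⟩
    · show τ v.1 v.2 = _
      rw [hτT v hv hρe, hT, add_zero]
    · have hR := hRT v hv hρe
      have hw := hwT v hv hρe
      rw [hT, mul_zero, add_zero] at hR
      by_cases hz : ((kk v : ℤ) : ℝ) = h v.1 - h (i (gate v))
      · left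
        refine ⟨?_, hw⟩
        rw [hR, hz]
        ring
      · right
        have h3 := hκ5 (i (gate v)) (him _ (hgn v hv)) v.1 (hjm v hv) (kk v) hz
        have h4 := (hw4 v hv).2.1
        rw [hw] at h4 ⊢
        have h5 : D.R v - (A + 2 * (gate v) / n) = -(kk v - (h v.1 - h (i (gate v)))) := by
          rw [hR]; ring
        rw [h5, abs_neg]
        linarith
  · -- the sum at the gate
    intro a ha
    have hρa := hiρ a ha
    have h1 : ρ (i a) * X a - (((b a : ℤ) : ℝ) - h (i a) - θ * τ (i a) (b a)) = A + 2 * a / n := by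
      rw [hX, mul_div_cancel₀ _ hρa.ne']
      ring
    have h2 : ρ (i a) * ω a = 4 / n := by
      rw [hρω, div_self hρa.ne', one_mul]
    have h3 : (0 : ℝ) ≤ 2 * a / n := by positivity
    have h4 : (2 : ℝ) * a / n ≤ 2 := by
      rw [div_le_iff₀ hn0]
      have : (a : ℝ) ≤ n := by exact_mod_cast ha.le
      linarith
    have hmem := hV' (i a) (b a) a (him a ha) hρa ha
      (by rw [h1, h2]; linarith) (by rw [h1, h2]; linarith)
    have hRa : D.R (i a, b a) = A + 2 * a / n := by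
      rw [hRv2 _ hmem.1, hmem.2]; exact h1
    have hwa : D.w (i a, b a) = 4 / n := by
      rw [hwv _ hmem.1, hmem.2, div_self hρa.ne', one_mul]
    have h5 := hclass _ hmem.1
    rw [hRa, hwa, hmem.2, ht] at h5
    have h6 : (netI m s ρ h τ (i a) : ℝ) ≠ 0 := by exact_mod_cast hiN a ha
    rw [mul_one_div, div_self h6] at h5
    exact h5
  · -- the late part: classes with a negative sum
    intro v hv _ hneg
    have h1 := hclass v hv
    have hN : netI m s ρ h τ v.1 ≠ 0 := by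
      intro h0
      rw [h0] at h1
      push_cast at h1
      rw [zero_mul] at h1
      exact absurd h1 (ne_of_lt hneg)
    by_cases hρe : ρ v.1 = ρ (i (gate v))
    · right
      exact ⟨hv, hρe⟩
    · left
      intro z hz1 hz2
      have hT : T (i (gate v)) v.1 (kk v) ≠ 0 := fun h0 => hρe (hTρ v hv h0)
      have h2 := hblock _ (hgn v hv) v.1 (hjm v hv) (hρv v hv) hρe hN (kk v) (hkN v hv) hT
      have h3 := hq3 _ (hgn v hv) v.1 (hjm v hv) (hρv v hv) (kk v) (hkN v hv)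
      rw [hkk' v, ← hRv v hv] at h3
      have h4 := (hw4 v hv).1
      rcases le_abs.1 h2 with h5 | h5
      · refine lt_of_lt_of_le ?_ (le_abs_self _)
        linarith [(abs_lt.1 h3).1, (abs_lt.1 h3).2]
      · refine lt_of_lt_of_le ?_ (neg_le_abs _)
        linarith [(abs_lt.1 h3).1, (abs_lt.1 h3).2]
  · -- the labels
    intro v hv hacc
    refine ⟨?_, hwT v hv hacc.2⟩
    rw [Finset.mem_product, Finset.mem_product, Finset.mem_range, Finset.mem_Icc]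
    exact ⟨hI _ (hgn v hv), hjm v hv, (abs_le.1 (hkN v hv)).1, (abs_le.1 (hkN v hv)).2⟩
  · -- the levels increase along a label
    intro v hv v' hv' hacc hacc' hev hlt
    simp only [Prod.mk.injEq] at hev
    obtain ⟨he1, he2, he3⟩ := hev
    have hτ1 := hτT v hv hacc.2
    have hτ2 := hτT v' hv' hacc'.2
    have hR1 := hRT v hv hacc.2
    have hR2 := hRT v' hv' hacc'.2
    have hlt' : τ v.1 v.2 < τ v'.1 v'.2 := hlt
    rw [hτ1, hτ2, ← he1, ← he2, ← he3] at hlt'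
    rw [← he1, ← he2, ← he3] at hR2
    have hP : τ (i (gate v)) (b (gate v)) < τ (i (gate v')) (b (gate v')) := by
      rw [← he1]; linarith
    have hgg : gate v < gate v' := by
      by_contra hc
      rcases eq_or_lt_of_le (not_lt.1 hc) with he | hl
      · rw [he] at hP; exact lt_irrefl _ hP
      · exact lt_asymm hP (hp1 _ _ hl (hgn v hv))
    have h1 : (gate v : ℝ) + 1 ≤ gate v' := by exact_mod_cast hgg
    have h2 : 2 * (gate v : ℝ) / n + 2 / n ≤ 2 * (gate v') / n := by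
      rw [← add_div]
      apply div_le_div_of_nonneg_right _ hn0.le
      linarith
    rw [hR1, hR2, hwT v hv hacc.2]
    have h3 : (9 / 20 : ℝ) * (4 / n) ≤ 2 / n := by
      have : (9 / 20 : ℝ) * (4 / n) = (9 / 5) / n := by ring
      rw [this]
      apply div_le_div_of_nonneg_right _ hn0.le
      norm_num
    linarith
  · intro _ _
    exact h4n.le
  · rw [Finset.sum_const, Finset.card_product, Finset.card_product, Finset.card_range,
      Int.card_Icc]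
    have h1 : ((N0 : ℤ) + 1 - -(N0 : ℤ)).toNat = 2 * N0 + 1 := by omega
    rw [h1, nsmul_eq_mul]
    push_cast
    have h2 : (I.card * (m * (2 * N0 + 1)) : ℝ) * (10 * (4 / n)) =
        (I.card * m * (2 * N0 + 1) : ℝ) * (10 * (4 / n)) := by ring
    rw [h2]
    exact hEv

end Pool.Agent.Helper22.Slip
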