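import Pool.Agent.Helper22.Slip.I1
import Pool.Agent.Helper22.Slip.I3

/-!
# I5b: Case I, choice of the sites
-/

namespace Pool.Agent.Helper22.Slip

open Filter Set

/-- The data of a site filter of the driver `i`. -/
structure SiteFilter (ρ : ℕ → ℝ) (γ : ℝ) (τ : ℕ → ℤ → ℝ) (i : ℕ) (W : Ultrafilter ℤ)
    (T : ℕ → ℤ → ℝ) (β : ℕ → ℝ) : Prop where
  top : ∀ B : ℤ, ∀ᶠ b : ℤ in (W : Filter ℤ), B < b
  small : ∀ ε > 0, ∀ᶠ b : ℤ in (W : Filter ℤ), 0 < τ i b ∧ τ i b < ε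
  T_lim : ∀ j k, Tendsto (fun b : ℤ => τ j (⌊ρ j / ρ i * b⌋ + k)) W (nhds (T j k))
  β_lim : ∀ j, Tendsto (fun b : ℤ => Int.fract (ρ j / ρ i * b)) W (nhds (β j))
  β_mem : ∀ j, β j ∈ Icc (0 : ℝ) 1
  T_mem : ∀ j k, T j k ∈ Icc (0 : ℝ) 1
  T_sub : ∀ j k k', ∃ z : ℤ, T j k - T j k' - γ * (k - k') = z
  eq : ∀ j, 0 < ρ i → ρ j = ρ i → β j = 0 ∧ ∀ k, T j k < 1 ∧
    ∀ᶠ b : ℤ in (W : Filter ℤ), τ j (b + k) = τ i b + T j k
  noint : ∀ j, 0 < ρ i → 0 < ρ j → ∀ (k : ℤ) (x : ℝ), ∀ᶠ b : ℤ in (W : Filter ℤ),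
    ∀ z : ℤ, τ j (⌊ρ j / ρ i * b⌋ + k) - x ≠ z
  ne : ∀ j j', 0 < ρ i → 0 < ρ j → 0 < ρ j' → ρ j ≠ ρ j' → ∀ k k' : ℤ,
    ∀ᶠ b : ℤ in (W : Filter ℤ),
      τ j (⌊ρ j / ρ i * b⌋ + k) ≠ τ j' (⌊ρ j' / ρ i * b⌋ + k')

lemma exists_siteFilters (ρ : ℕ → ℝ) (γ : ℝ) (hγ : Irrational γ) (τ : ℕ → ℤ → ℝ)
    (hτ : ∀ j b, τ j b ∈ Icc (0 : ℝ) 1)
    (hτγ : ∀ j b b', ∃ z : ℤ, τ j b - τ j b' - γ * (b - b') = z) :
    ∃ (W : ℕ → Ultrafilter ℤ) (T : ℕ → ℕ → ℤ → ℝ) (β : ℕ → ℕ → ℝ),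
      ∀ i, SiteFilter ρ γ τ i (W i) (T i) (β i) := by
  choose W T β h using fun i => exists_siteFilter ρ γ hγ τ hτ hτγ i
  refine ⟨W, T, β, fun i => ?_⟩
  obtain ⟨h1, h2, h3, h4, h5, h6, h7, h8, h9, h10⟩ := h i
  exact ⟨h1, h2, h3, h4, h5, h6, h7, h8, h9, h10⟩

lemma i5b_all_abs_le (N0 : ℕ) (W : Ultrafilter ℤ) (P : ℤ → ℤ → Prop)
    (h : ∀ k, ∀ᶠ b in (W : Filter ℤ), P k b) :
    ∀ᶠ b in (W : Filter ℤ), ∀ k : ℤ, |k| ≤ N0 → P k b := by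
  have h1 : ∀ᶠ b in (W : Filter ℤ), ∀ k ∈ Finset.Icc (-(N0 : ℤ)) N0, P k b := by
    rw [Filter.eventually_all_finset]
    exact fun k _ => h k
  filter_upwards [h1] with b hb k hk
  exact hb k (Finset.mem_Icc.2 (abs_le.1 hk))

lemma i5b_all_lt (m : ℕ) (W : Ultrafilter ℤ) (P : ℕ → ℤ → Prop)
    (h : ∀ j < m, ∀ᶠ b in (W : Filter ℤ), P j b) :
    ∀ᶠ b in (W : Filter ℤ), ∀ j < m, P j b := by
  have h1 : ∀ᶠ b in (W : Filter ℤ), ∀ j ∈ Finset.range m, P j b := by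
    rw [Filter.eventually_all_finset]
    exact fun j hj => h j (Finset.mem_range.1 hj)
  filter_upwards [h1] with b hb j hj
  exact hb j (Finset.mem_range.2 hj)

/-- The choice of the sites: the drivers `i a` and the constants are given. -/
theorem exists_sites (m : ℕ) (ρ : ℕ → ℝ) (γ : ℝ) (θ : ℝ) (hθ : θ ∈ Icc (0 : ℝ) 1) (h : ℕ → ℝ)
    (hh : ∀ j, h j ∈ Icc (0 : ℝ) 1) (τ : ℕ → ℤ → ℝ) (hτ : ∀ j b, τ j b ∈ Icc (0 : ℝ) 1)
    (n : ℕ) (A κ3 ε0 : ℝ) (N0 : ℕ) (hκ3 : 0 < κ3) (hε0 : 0 < ε0)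
    (i : ℕ → ℕ) (hiρ : ∀ a < n, 0 < ρ (i a))
    (W : ℕ → Ultrafilter ℤ) (T : ℕ → ℕ → ℤ → ℝ) (β : ℕ → ℕ → ℝ)
    (hW : ∀ a < n, SiteFilter ρ γ τ (i a) (W (i a)) (T (i a)) (β (i a))) :
    ∃ b : ℕ → ℤ,
      (∀ a < n, 0 < τ (i a) (b a) ∧ τ (i a) (b a) < ε0 / 4) ∧
      (∀ a < n, ∀ j < m, 0 < ρ j → ∀ k : ℤ, |k| ≤ N0 →
        0 < τ j (⌊ρ j / ρ (i a) * b a⌋ + k) ∧ τ j (⌊ρ j / ρ (i a) * b a⌋ + k) < 1 ∧
        |τ j (⌊ρ j / ρ (i a) * b a⌋ + k) - T (i a) j k| < ε0 / 4) ∧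
      (∀ a < n, ∀ j < m, 0 < ρ j → ∀ k : ℤ, |k| ≤ N0 →
        |(ρ j / ρ (i a) * (A + 2 * a / n - h (i a) - θ * τ (i a) (b a))
            + Int.fract (ρ j / ρ (i a) * b a) - k + h j
            + θ * τ j (⌊ρ j / ρ (i a) * b a⌋ + k))
          - (ρ j / ρ (i a) * (A + 2 * a / n - h (i a)) + β (i a) j - k + h j
            + θ * T (i a) j k)| < κ3 / 4) ∧
      (∀ a < n, ∀ j < m, ρ j = ρ (i a) → ∀ k : ℤ, |k| ≤ N0 →
        τ j (b a + k) = τ (i a) (b a) + T (i a) j k) ∧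
      (∀ a < n, ∀ j < m, ∀ j' < m, 0 < ρ j → 0 < ρ j' → ρ j ≠ ρ j' →
        ∀ k k' : ℤ, |k| ≤ N0 → |k'| ≤ N0 →
        τ j (⌊ρ j / ρ (i a) * b a⌋ + k) ≠ τ j' (⌊ρ j' / ρ (i a) * b a⌋ + k')) ∧
      (∀ a a', a < a' → a' < n → τ (i a) (b a) < τ (i a') (b a')) ∧
      (∀ a a', a < a' → a' < n → ∀ j < m, ∀ j' < m, 0 < ρ j → 0 < ρ j' →
        ∀ k k' : ℤ, |k| ≤ N0 → |k'| ≤ N0 →
        τ j (⌊ρ j / ρ (i a) * b a⌋ + k) ≠ τ j' (⌊ρ j' / ρ (i a') * b a'⌋ + k')) ∧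
      (∀ a a', a < a' → a' < n → ∀ j < m, 0 < ρ j →
        5 < ρ j * |(b a - h (i a) - θ * τ (i a) (b a) + (A + 2 * a / n)) / ρ (i a)
          - (b a' - h (i a') - θ * τ (i a') (b a') + (A + 2 * a' / n)) / ρ (i a')|) := by
  -- the conditions on one site
  have hQ : ∀ a < n, ∀ᶠ b : ℤ in (W (i a) : Filter ℤ),
      (0 < τ (i a) b ∧ τ (i a) b < ε0 / 4) ∧
      (∀ j < m, 0 < ρ j → ∀ k : ℤ, |k| ≤ N0 →
        0 < τ j (⌊ρ j / ρ (i a) * b⌋ + k) ∧ τ j (⌊ρ j / ρ (i a) * b⌋ + k) < 1 ∧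
        |τ j (⌊ρ j / ρ (i a) * b⌋ + k) - T (i a) j k| < ε0 / 4) ∧
      (∀ j < m, 0 < ρ j → ∀ k : ℤ, |k| ≤ N0 →
        |(ρ j / ρ (i a) * (A + 2 * a / n - h (i a) - θ * τ (i a) b)
            + Int.fract (ρ j / ρ (i a) * b) - k + h j
            + θ * τ j (⌊ρ j / ρ (i a) * b⌋ + k))
          - (ρ j / ρ (i a) * (A + 2 * a / n - h (i a)) + β (i a) j - k + h j
            + θ * T (i a) j k)| < κ3 / 4) ∧
      (∀ j < m, ρ j = ρ (i a) → ∀ k : ℤ, |k| ≤ N0 →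
        τ j (b + k) = τ (i a) b + T (i a) j k) ∧
      (∀ j < m, ∀ j' < m, 0 < ρ j → 0 < ρ j' → ρ j ≠ ρ j' →
        ∀ k k' : ℤ, |k| ≤ N0 → |k'| ≤ N0 →
        τ j (⌊ρ j / ρ (i a) * b⌋ + k) ≠ τ j' (⌊ρ j' / ρ (i a) * b⌋ + k')) := by
    intro a ha
    have hi := hiρ a ha
    have H := hW a ha
    have hsm : Tendsto (fun b : ℤ => τ (i a) b) (W (i a)) (nhds 0) := by
      rw [Metric.tendsto_nhds]
      intro ε hε
      filter_upwards [H.small ε hε] with b hb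
      rw [Real.dist_eq, sub_zero, abs_of_pos hb.1]
      exact hb.2
    refine (H.small _ (by positivity)).and (Filter.Eventually.and ?_ (Filter.Eventually.and ?_
      (Filter.Eventually.and ?_ ?_)))
    · -- hq2
      refine i5b_all_lt m _ _ fun j _ => ?_
      by_cases hj : 0 < ρ j
      swap
      · exact Filter.Eventually.of_forall fun b h => absurd h hj
      have h1 : ∀ᶠ b : ℤ in (W (i a) : Filter ℤ), ∀ k : ℤ, |k| ≤ N0 →
          0 < τ j (⌊ρ j / ρ (i a) * b⌋ + k) ∧ τ j (⌊ρ j / ρ (i a) * b⌋ + k) < 1 ∧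
          |τ j (⌊ρ j / ρ (i a) * b⌋ + k) - T (i a) j k| < ε0 / 4 := by
        refine i5b_all_abs_le N0 _ _ fun k => ?_
        have h2 := (Metric.tendsto_nhds.1 (H.T_lim j k)) (ε0 / 4) (by positivity)
        filter_upwards [h2, H.noint j hi hj k 0] with b hb hb'
        have h3 := hτ j (⌊ρ j / ρ (i a) * b⌋ + k)
        have h4 := hb' 0
        have h5 := hb' 1
        rw [sub_zero] at h4 h5
        push_cast at h4 h5
        exact ⟨lt_of_le_of_ne h3.1 (Ne.symm h4), lt_of_le_of_ne h3.2 h5, hb⟩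
      filter_upwards [h1] with b hb _
      exact hb
    · -- hq3
      refine i5b_all_lt m _ _ fun j _ => ?_
      have h1 : ∀ᶠ b : ℤ in (W (i a) : Filter ℤ), ∀ k : ℤ, |k| ≤ N0 →
          |(ρ j / ρ (i a) * (A + 2 * a / n - h (i a) - θ * τ (i a) b)
            + Int.fract (ρ j / ρ (i a) * b) - k + h j
            + θ * τ j (⌊ρ j / ρ (i a) * b⌋ + k))
          - (ρ j / ρ (i a) * (A + 2 * a / n - h (i a)) + β (i a) j - k + h j
            + θ * T (i a) j k)| < κ3 / 4 := by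
        refine i5b_all_abs_le N0 _ _ fun k => ?_
        have h2 : Tendsto (fun b : ℤ =>
            (ρ j / ρ (i a) * (A + 2 * a / n - h (i a) - θ * τ (i a) b)
            + Int.fract (ρ j / ρ (i a) * b) - k + h j
            + θ * τ j (⌊ρ j / ρ (i a) * b⌋ + k))) (W (i a))
            (nhds (ρ j / ρ (i a) * (A + 2 * a / n - h (i a) - θ * 0)
            + β (i a) j - k + h j + θ * T (i a) j k)) :=
          ((((tendsto_const_nhds.sub (hsm.const_mul θ)).const_mul _).add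
            (H.β_lim j)).sub_const _ |>.add_const _).add ((H.T_lim j k).const_mul θ)
        have h3 := (Metric.tendsto_nhds.1 h2) (κ3 / 4) (by positivity)
        filter_upwards [h3] with b hb
        rw [Real.dist_eq] at hb
        rw [mul_zero, sub_zero] at hb
        exact hb
      filter_upwards [h1] with b hb _
      exact hb
    · -- hq4
      refine i5b_all_lt m _ _ fun j _ => ?_
      by_cases hj : ρ j = ρ (i a)
      swap
      · exact Filter.Eventually.of_forall fun b h => absurd h hj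
      have h1 : ∀ᶠ b : ℤ in (W (i a) : Filter ℤ), ∀ k : ℤ, |k| ≤ N0 →
          τ j (b + k) = τ (i a) b + T (i a) j k := by
        refine i5b_all_abs_le N0 _ _ fun k => ?_
        exact ((H.eq j hi hj).2 k).2
      filter_upwards [h1] with b hb _
      exact hb
    · -- hq5
      refine i5b_all_lt m _ _ fun j _ => ?_
      refine i5b_all_lt m _ (fun j' b => 0 < ρ j → 0 < ρ j' → ρ j ≠ ρ j' →
        ∀ k k' : ℤ, |k| ≤ N0 → |k'| ≤ N0 →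
        τ j (⌊ρ j / ρ (i a) * b⌋ + k) ≠ τ j' (⌊ρ j' / ρ (i a) * b⌋ + k')) fun j' _ => ?_
      by_cases hjj : 0 < ρ j ∧ 0 < ρ j' ∧ ρ j ≠ ρ j'
      swap
      · exact Filter.Eventually.of_forall fun b h1 h2 h3 => absurd ⟨h1, h2, h3⟩ hjj
      have h1 : ∀ᶠ b : ℤ in (W (i a) : Filter ℤ), ∀ k : ℤ, |k| ≤ N0 → ∀ k' : ℤ, |k'| ≤ N0 →
          τ j (⌊ρ j / ρ (i a) * b⌋ + k) ≠ τ j' (⌊ρ j' / ρ (i a) * b⌋ + k') := by
        refine i5b_all_abs_le N0 _ _ fun k => ?_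
        refine i5b_all_abs_le N0 _ _ fun k' => ?_
        exact H.ne j j' hi hjj.1 hjj.2.1 hjj.2.2 k k'
      filter_upwards [h1] with b hb _ _ _ k k' hk hk'
      exact hb k hk k' hk'
  -- the conditions on two sites
  have hP : ∀ a a', a < a' → a' < n → ∀ b' : ℤ, (0 < τ (i a') b') →
      ∀ᶠ b : ℤ in (W (i a) : Filter ℤ),
        τ (i a) b < τ (i a') b' ∧
        (∀ j < m, ∀ j' < m, 0 < ρ j → 0 < ρ j' → ∀ k k' : ℤ, |k| ≤ N0 → |k'| ≤ N0 →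
          τ j (⌊ρ j / ρ (i a) * b⌋ + k) ≠ τ j' (⌊ρ j' / ρ (i a') * b'⌋ + k')) ∧
        (∀ j < m, 0 < ρ j →
          5 < ρ j * |(b - h (i a) - θ * τ (i a) b + (A + 2 * a / n)) / ρ (i a)
            - (b' - h (i a') - θ * τ (i a') b' + (A + 2 * a' / n)) / ρ (i a')|) := by
    intro a a' haa' ha' b' hb'
    have ha : a < n := by omega
    have hi := hiρ a ha
    have H := hW a ha
    refine Filter.Eventually.and ?_ (Filter.Eventually.and ?_ ?_)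
    · filter_upwards [H.small _ hb'] with b hb
      exact hb.2
    · refine i5b_all_lt m _ _ fun j _ => ?_
      refine i5b_all_lt m _ (fun j' b => 0 < ρ j → 0 < ρ j' →
        ∀ k k' : ℤ, |k| ≤ N0 → |k'| ≤ N0 →
        τ j (⌊ρ j / ρ (i a) * b⌋ + k) ≠ τ j' (⌊ρ j' / ρ (i a') * b'⌋ + k')) fun j' _ => ?_
      by_cases hj : 0 < ρ j
      swap
      · exact Filter.Eventually.of_forall fun b h => absurd h hj
      have h1 : ∀ᶠ b : ℤ in (W (i a) : Filter ℤ), ∀ k : ℤ, |k| ≤ N0 → ∀ k' : ℤ, |k'| ≤ N0 →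
          τ j (⌊ρ j / ρ (i a) * b⌋ + k) ≠ τ j' (⌊ρ j' / ρ (i a') * b'⌋ + k') := by
        refine i5b_all_abs_le N0 _ _ fun k => ?_
        refine i5b_all_abs_le N0 _ _ fun k' => ?_
        filter_upwards [H.noint j hi hj k (τ j' (⌊ρ j' / ρ (i a') * b'⌋ + k'))] with b hb heq
        exact hb 0 (by rw [heq]; simp)
      filter_upwards [h1] with b hb _ _ k k' hk hk'
      exact hb k hk k' hk'
    · refine i5b_all_lt m _ _ fun j _ => ?_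
      by_cases hj : 0 < ρ j
      swap
      · exact Filter.Eventually.of_forall fun b h => absurd h hj
      set X' := (b' - h (i a') - θ * τ (i a') b' + (A + 2 * a' / n)) / ρ (i a') with hX'
      obtain ⟨B, hB⟩ := exists_int_gt (ρ (i a) * (5 / ρ j + |X'|) + 2 + |A|)
      filter_upwards [H.top B] with b hb _
      have hbR : (B : ℝ) < b := by exact_mod_cast hb
      have e1 := (hh (i a)).2
      have e2 : θ * τ (i a) b ≤ 1 := by
        have := hτ (i a) b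
        exact mul_le_one₀ hθ.2 this.1 this.2
      have e3 : (0 : ℝ) ≤ 2 * a / n := by positivity
      have e4 := neg_abs_le A
      have e5 : ρ (i a) * (5 / ρ j + |X'|) < b - h (i a) - θ * τ (i a) b + (A + 2 * a / n) := by
        linarith
      have e6 : 5 / ρ j + |X'| < (b - h (i a) - θ * τ (i a) b + (A + 2 * a / n)) / ρ (i a) := by
        rw [lt_div_iff₀ hi]
        linarith
      have e7 : 5 / ρ j < |(b - h (i a) - θ * τ (i a) b + (A + 2 * a / n)) / ρ (i a) - X'| := by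
        have := le_abs_self ((b - h (i a) - θ * τ (i a) b + (A + 2 * a / n)) / ρ (i a) - X')
        have := le_abs_self X'
        linarith
      rw [div_lt_iff₀ hj] at e7
      linarith
  obtain ⟨b, hb1, hb2⟩ := choose_sites n (fun a => W (i a)) _
    (fun a a' b b' => τ (i a) b < τ (i a') b' ∧
        (∀ j < m, ∀ j' < m, 0 < ρ j → 0 < ρ j' → ∀ k k' : ℤ, |k| ≤ N0 → |k'| ≤ N0 →
          τ j (⌊ρ j / ρ (i a) * b⌋ + k) ≠ τ j' (⌊ρ j' / ρ (i a') * b'⌋ + k')) ∧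
        (∀ j < m, 0 < ρ j →
          5 < ρ j * |(b - h (i a) - θ * τ (i a) b + (A + 2 * a / n)) / ρ (i a)
            - (b' - h (i a') - θ * τ (i a') b' + (A + 2 * a' / n)) / ρ (i a')|))
    hQ (fun a a' h1 h2 b' hb' => hP a a' h1 h2 b' hb'.1.1)
  refine ⟨b, fun a ha => (hb1 a ha).1, fun a ha => (hb1 a ha).2.1, fun a ha => (hb1 a ha).2.2.1,
    fun a ha => (hb1 a ha).2.2.2.1, fun a ha => (hb1 a ha).2.2.2.2,
    fun a a' h1 h2 => (hb2 a a' h1 h2).1, fun a a' h1 h2 => (hb2 a a' h1 h2).2.1,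
    fun a a' h1 h2 => (hb2 a a' h1 h2).2.2⟩

end Pool.Agent.Helper22.Slip
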