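import Mathlib

/-!
# K3: the gap between the offsets and the integers
-/

namespace Pool.Agent.Helper22.Slip

private lemma k3_gap (x : ℝ) : ∃ κ : ℝ, 0 < κ ∧ ∀ z : ℤ, (z : ℝ) ≠ x → κ ≤ |(z : ℝ) - x| := by
  by_cases h : Int.fract x = 0
  · refine ⟨1, one_pos, fun z hz => ?_⟩
    have hx : x = ⌊x⌋ := by
      have := Int.floor_add_fract x
      rw [h, add_zero] at this
      exact this.symm
    have hne : z - ⌊x⌋ ≠ 0 := by
      intro h0
      apply hz
      rw [hx]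
      exact_mod_cast (by omega : z = ⌊x⌋)
    have h1 : (1 : ℤ) ≤ |z - ⌊x⌋| := Int.one_le_abs hne
    rw [hx]
    exact_mod_cast h1
  · have h0 : 0 < Int.fract x := lt_of_le_of_ne (Int.fract_nonneg x) (Ne.symm h)
    have h1 : 0 < 1 - Int.fract x := by linarith [Int.fract_lt_one x]
    refine ⟨min (Int.fract x) (1 - Int.fract x), lt_min h0 h1, fun z _ => ?_⟩
    have hx := Int.floor_add_fract x
    rcases le_or_gt z ⌊x⌋ with hz | hz
    · have h2 : (z : ℝ) ≤ ⌊x⌋ := by exact_mod_cast hz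
      rw [abs_sub_comm]
      refine (min_le_left _ _).trans (le_trans ?_ (le_abs_self _))
      linarith
    · have h2 : (⌊x⌋ : ℝ) + 1 ≤ z := by exact_mod_cast hz
      refine (min_le_right _ _).trans (le_trans ?_ (le_abs_self _))
      linarith

lemma exists_kappa5 (m : ℕ) (h : ℕ → ℝ) :
    ∃ κ5 : ℝ, 0 < κ5 ∧ ∀ j < m, ∀ j' < m, ∀ z : ℤ, (z : ℝ) ≠ h j' - h j →
      κ5 ≤ |(z : ℝ) - (h j' - h j)| := by
  choose K hK0 hK using fun p : ℕ × ℕ => k3_gap (h p.2 - h p.1)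
  have hS : 0 ≤ ∑ p ∈ Finset.range m ×ˢ Finset.range m, (K p)⁻¹ :=
    Finset.sum_nonneg fun p _ => (inv_pos.2 (hK0 p)).le
  refine ⟨(1 + ∑ p ∈ Finset.range m ×ˢ Finset.range m, (K p)⁻¹)⁻¹, by positivity, ?_⟩
  intro j hj j' hj' z hz
  refine le_trans ?_ (hK (j, j') z hz)
  have h1 : (K (j, j'))⁻¹ ≤ ∑ p ∈ Finset.range m ×ˢ Finset.range m, (K p)⁻¹ :=
    Finset.single_le_sum (f := fun p => (K p)⁻¹) (fun p _ => (inv_pos.2 (hK0 p)).le)
      (Finset.mk_mem_product (Finset.mem_range.2 hj) (Finset.mem_range.2 hj'))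
  rw [inv_le_comm₀ (by positivity) (hK0 _)]
  linarith

end Pool.Agent.Helper22.Slip
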