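import Pool.Agent.Helper22.Slip.K1
import Pool.Agent.Helper22.Slip.K3
import Pool.Agent.Helper22.Slip.I1
import Pool.Agent.Helper22.Slip.I2
import Pool.Agent.Helper22.Slip.I3
import Pool.Agent.Helper22.Slip.I4
import Pool.Agent.Helper22.Slip.I5b

/-!
# I5: Case I, choice of the constants and of the sites
-/

namespace Pool.Agent.Helper22.Slip

open Filter Set

lemma i5_exists_pos_le {α : Type*} (S : Finset α) (f : α → ℝ) (hf : ∀ x ∈ S, 0 < f x) :
    ∃ δ : ℝ, 0 < δ ∧ ∀ x ∈ S, δ ≤ f x := by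
  rcases S.eq_empty_or_nonempty with h | h
  · subst h
    exact ⟨1, one_pos, fun x hx => absurd hx (Finset.notMem_empty x)⟩
  · obtain ⟨x, hx, hmin⟩ := S.exists_min_image f h
    exact ⟨f x, hf x hx, hmin⟩

lemma i5_relI_refl (ρ h : ℕ → ℝ) (τ : ℕ → ℤ → ℝ) (j : ℕ) : relI ρ h τ j j :=
  ⟨rfl, 0, by simp, 0, by simp⟩

lemma i5_relI_symm (ρ h : ℕ → ℝ) (γ : ℝ) (τ : ℕ → ℤ → ℝ)
    (hτγ : ∀ (j : ℕ) (b b' : ℤ), ∃ z : ℤ, τ j b - τ j b' - γ * (b - b') = z) (j j' : ℕ)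
    (H : relI ρ h τ j j') : relI ρ h τ j' j := by
  obtain ⟨h1, z, h2, y, h3⟩ := H
  obtain ⟨z1, hz1⟩ := hτγ j (-z) 0
  obtain ⟨z2, hz2⟩ := hτγ j' z 0
  refine ⟨h1.symm, -z, ?_, -y + z1 + z2, ?_⟩
  · push_cast
    linarith
  · push_cast at hz1 hz2 ⊢
    linarith

lemma i5_relI_trans (ρ h : ℕ → ℝ) (γ : ℝ) (τ : ℕ → ℤ → ℝ)
    (hτγ : ∀ (j : ℕ) (b b' : ℤ), ∃ z : ℤ, τ j b - τ j b' - γ * (b - b') = z) (j j' j'' : ℕ)
    (H : relI ρ h τ j j') (H' : relI ρ h τ j' j'') : relI ρ h τ j j'' := by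
  obtain ⟨h1, z1, h2, y1, h3⟩ := H
  obtain ⟨h1', z2, h2', y2, h3'⟩ := H'
  obtain ⟨w1, hw1⟩ := hτγ j'' (z1 + z2) z2
  obtain ⟨w2, hw2⟩ := hτγ j' z1 0
  refine ⟨h1.trans h1', z1 + z2, ?_, y1 - w2 + y2 + w1, ?_⟩
  · push_cast
    linarith
  · push_cast at hw1 hw2 ⊢
    linarith

/-- Only one index has contact time `0`. -/
lemma i5_zero (γ : ℝ) (hγ : Irrational γ) (T : ℤ → ℝ)
    (hT : ∀ k k' : ℤ, ∃ z : ℤ, T k - T k' - γ * (k - k') = z) :
    ∃ K : ℝ, 0 ≤ K ∧ ∀ k : ℤ, T k = 0 → |(k : ℝ)| ≤ K := by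
  by_cases hex : ∃ k0 : ℤ, T k0 = 0
  · obtain ⟨k0, hk0⟩ := hex
    refine ⟨|(k0 : ℝ)|, abs_nonneg _, ?_⟩
    intro k hk
    obtain ⟨z, hz⟩ := hT k k0
    by_cases hkk : k = k0
    · rw [hkk]
    · exfalso
      apply hγ
      have h1 : ((k : ℝ) - k0) ≠ 0 := by
        rw [sub_ne_zero]
        exact_mod_cast hkk
      refine ⟨(-z : ℚ) / ((k : ℚ) - k0), ?_⟩
      push_cast
      rw [div_eq_iff h1]
      rw [hk, hk0] at hz
      linarith
  · refine ⟨0, le_rfl, fun k hk => absurd ⟨k, hk⟩ hex⟩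

/-- Case I, purely at the level of the limit data. -/
theorem caseI_design (m : ℕ) (s : ℕ → ℤ) (hs : ∀ j < m, |s j| ≤ 1) (ρ : ℕ → ℝ)
    (hρ : ∀ j < m, 0 ≤ ρ j) (hne : ∑ j ∈ Finset.range m, (s j : ℝ) * ρ j ≠ 0)
    (γ : ℝ) (hγ : Irrational γ) (θ : ℝ) (hθ : θ ∈ Icc (0 : ℝ) 1) (h : ℕ → ℝ)
    (hh : ∀ j, h j ∈ Icc (0 : ℝ) 1) (τ : ℕ → ℤ → ℝ) (hτ : ∀ j b, τ j b ∈ Icc (0 : ℝ) 1)
    (hτγ : ∀ j b b', ∃ z : ℤ, τ j b - τ j b' - γ * (b - b') = z) :
    ∃ D : DesignData, D.Ok m s ρ (fun j b => b - h j - θ * τ j b) ∧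
      Climb D.V D.R D.w D.tt (fun v => τ v.1 v.2) D.A D.lam D.n := by
  classical
  -- the clusters with non-zero net sign
  obtain ⟨j0, hj0m, hj0ρ, hj0N⟩ := exists_cluster m s ρ hρ hne (relI ρ h τ) (i5_relI_refl ρ h τ)
    (i5_relI_symm ρ h γ τ hτγ) (i5_relI_trans ρ h γ τ hτγ) (fun j j' H => H.1)
  set J : Finset ℕ := (Finset.range m).filter fun j => 0 < ρ j ∧ netI m s ρ h τ j ≠ 0 with hJ
  have hJne : J.Nonempty := by
    refine ⟨j0, ?_⟩
    rw [hJ, Finset.mem_filter, Finset.mem_range]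
    refine ⟨hj0m, hj0ρ, ?_⟩
    unfold netI
    convert hj0N
  have hJmem : ∀ j, j ∈ J ↔ j < m ∧ 0 < ρ j ∧ netI m s ρ h τ j ≠ 0 := by
    intro j
    rw [hJ, Finset.mem_filter, Finset.mem_range]
  obtain ⟨imax, himaxJ, himax⟩ := J.exists_max_image ρ hJne
  obtain ⟨imin, himinJ, himin⟩ := J.exists_min_image ρ hJne
  obtain ⟨hmaxm, hmaxρ, hmaxN⟩ := (hJmem imax).1 himaxJ
  obtain ⟨hminm, hminρ, hminN⟩ := (hJmem imin).1 himinJ
  -- the site filters
  obtain ⟨W, T, β, HW⟩ := exists_siteFilters ρ γ hγ τ hτ hτγ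
  have hW5 : ∀ i j, β i j ∈ Icc (0 : ℝ) 1 := fun i => (HW i).β_mem
  have hW6 : ∀ i j k, T i j k ∈ Icc (0 : ℝ) 1 := fun i => (HW i).T_mem
  obtain ⟨κ5, hκ50, hκ5⟩ := exists_kappa5 m h
  choose K hK0 hK using fun i j => i5_zero γ hγ (T i j) (fun k k' => (HW i).T_sub j k k')
  -- the maximal density
  set νM : ℝ := ∑ j ∈ Finset.range m, ρ j / ρ imax + ∑ j ∈ Finset.range m, ρ j / ρ imin
    with hνMdef
  have hsum1 : ∀ j ∈ Finset.range m, 0 ≤ ρ j / ρ imax := fun j hj =>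
    div_nonneg (hρ j (Finset.mem_range.1 hj)) hmaxρ.le
  have hsum2 : ∀ j ∈ Finset.range m, 0 ≤ ρ j / ρ imin := fun j hj =>
    div_nonneg (hρ j (Finset.mem_range.1 hj)) hminρ.le
  have hνM : ∀ i, (i = imax ∨ i = imin) → ∀ j < m, ρ j / ρ i ≤ νM := by
    intro i hi j hj
    have h1 := Finset.single_le_sum hsum1 (Finset.mem_range.2 hj)
    have h2 := Finset.single_le_sum hsum2 (Finset.mem_range.2 hj)
    have h3 := Finset.sum_nonneg hsum1
    have h4 := Finset.sum_nonneg hsum2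
    rcases hi with rfl | rfl
    · linarith
    · linarith
  have hνM1 : 1 ≤ νM := by
    have := hνM imax (Or.inl rfl) imax hmaxm
    rwa [div_self hmaxρ.ne'] at this
  -- the start level
  set f : ℕ → ℕ → ℝ := fun i j => (2 * (ρ j / ρ i) + 7 + K i j) / |ρ j / ρ i - 1| with hf
  set A0 : ℝ := ∑ j ∈ Finset.range m, |f imax j| + ∑ j ∈ Finset.range m, |f imin j| with hA0
  have hfA0 : ∀ i, (i = imax ∨ i = imin) → ∀ j < m, f i j ≤ A0 := by
    intro i hi j hj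
    have h1 := Finset.single_le_sum (f := fun j => |f imax j|) (fun j _ => abs_nonneg _)
      (Finset.mem_range.2 hj)
    have h2 := Finset.single_le_sum (f := fun j => |f imin j|) (fun j _ => abs_nonneg _)
      (Finset.mem_range.2 hj)
    have h3 : 0 ≤ ∑ j ∈ Finset.range m, |f imax j| := Finset.sum_nonneg fun j _ => abs_nonneg _
    have h4 : 0 ≤ ∑ j ∈ Finset.range m, |f imin j| := Finset.sum_nonneg fun j _ => abs_nonneg _
    rcases hi with rfl | rfl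
    · have := le_abs_self (f i j)
      linarith
    · have := le_abs_self (f i j)
      linarith
  set C : ℕ → ℕ → ℤ → ℝ := fun i j k => -(ρ j / ρ i) * h i + β i j - k + h j + θ * T i j k
    with hC
  have hCle : ∀ i, (i = imax ∨ i = imin) → ∀ j < m, ∀ k : ℤ, |C i j k + k| ≤ νM + 3 := by
    intro i hi j hj k
    have h1 := hνM i hi j hj
    have hρi : 0 < ρ i := by rcases hi with rfl | rfl <;> assumption
    have h0 : 0 ≤ ρ j / ρ i := div_nonneg (hρ j hj) hρi.le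
    have h2 := hh i
    have h3 := hh j
    have h4 := hW5 i j
    have h5 := hW6 i j k
    have h6 : 0 ≤ θ * T i j k := mul_nonneg hθ.1 h5.1
    have h7 : θ * T i j k ≤ 1 := by
      have := mul_le_mul hθ.2 h5.2 h5.1 zero_le_one
      linarith
    have h8 : 0 ≤ ρ j / ρ i * h i := mul_nonneg h0 h2.1
    have h9 : ρ j / ρ i * h i ≤ νM := by
      have := mul_le_mul h1 h2.2 h2.1 (by linarith)
      linarith
    have h10 := h3.1
    have h11 := h3.2
    have h12 := h4.1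
    have h13 := h4.2
    rw [abs_le]
    simp only [hC]
    constructor <;> nlinarith
  obtain ⟨A, hA0A, κ, hκ0, hdisj⟩ := choose_A (J.filter fun j => ρ j < ρ imax)
    (J.filter fun j => ρ imin < ρ j) (fun j => ρ j / ρ imax) (fun j => ρ j / ρ imin)
    (C imax) (C imin)
    (by
      intro j hj
      obtain ⟨h1, h2⟩ := Finset.mem_filter.1 hj
      obtain ⟨h3, h4, h5⟩ := (hJmem j).1 h1
      exact ⟨div_pos h4 hmaxρ, by rwa [div_lt_one hmaxρ]⟩)
    (by
      intro j hj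
      obtain ⟨h1, h2⟩ := Finset.mem_filter.1 hj
      show 1 < ρ j / ρ imin
      rwa [one_lt_div hminρ])
    (νM + 3)
    (by
      intro j hj k
      obtain ⟨h1, h2⟩ := Finset.mem_filter.1 hj
      exact hCle imax (Or.inl rfl) j ((hJmem j).1 h1).1 k)
    (by
      intro j hj k
      obtain ⟨h1, h2⟩ := Finset.mem_filter.1 hj
      exact hCle imin (Or.inr rfl) j ((hJmem j).1 h1).1 k)
    A0
  set κ3 : ℝ := min κ 1 with hκ3
  have hκ30 : 0 < κ3 := lt_min hκ0 one_pos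
  set lam : ℝ := min (1 / 2) (κ3 / 4) with hlam
  have hlam0 : 0 < lam := lt_min (by norm_num) (by linarith)
  -- large indices
  obtain ⟨N0, hN0⟩ := exists_nat_gt (νM * (|A| + 4) + 8 + |A|)
  -- the constant `ε0`
  obtain ⟨ε0, hε00, hε0'⟩ := i5_exists_pos_le
    (((({imax, imin} : Finset ℕ) ×ˢ Finset.range m) ×ˢ Finset.Icc (-(N0 : ℤ)) N0).filter
      fun p => T p.1.1 p.1.2 p.2 ≠ 0) (fun p => T p.1.1 p.1.2 p.2) (by
        intro p hp
        have h1 := (Finset.mem_filter.1 hp).2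
        exact lt_of_le_of_ne (hW6 p.1.1 p.1.2 p.2).1 (Ne.symm h1))
  have hε0 : ∀ i, (i = imax ∨ i = imin) → ∀ j < m, ∀ k : ℤ, |k| ≤ N0 → T i j k ≠ 0 →
      ε0 ≤ T i j k := by
    intro i hi j hj k hk hT
    refine hε0' ((i, j), k) (Finset.mem_filter.2 ⟨?_, hT⟩)
    rw [Finset.mem_product, Finset.mem_product]
    refine ⟨⟨?_, Finset.mem_range.2 hj⟩, ?_⟩
    · simp only [Finset.mem_insert, Finset.mem_singleton]
      exact hi
    · rw [Finset.mem_Icc]
      exact abs_le.1 hk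
  -- the number of sites
  set I : Finset ℕ := {imax, imin} with hI
  obtain ⟨n0, hn0⟩ := exists_nat_gt (16 * νM / κ3 + 16 * νM / κ5 + 16 * νM +
    40 * (I.card * m * (2 * N0 + 1)) / lam)
  set n : ℕ := n0 + 16 with hn
  have hn16 : 16 ≤ n := by omega
  have hnpos : (0 : ℝ) < n := by exact_mod_cast (by omega : 0 < n)
  have hnn0 : (n0 : ℝ) ≤ n := by exact_mod_cast (by omega : n0 ≤ n)
  have hp1 : 0 ≤ 16 * νM / κ3 := by positivity
  have hp2 : 0 ≤ 16 * νM / κ5 := by positivity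
  have hp3 : 0 ≤ 16 * νM := by positivity
  have hp4 : 0 ≤ 40 * (I.card * m * (2 * N0 + 1) : ℝ) / lam := by positivity
  have hna : 4 * νM * (4 / n) < κ3 := by
    have h1 : 16 * νM / κ3 < n := by linarith
    rw [div_lt_iff₀ hκ30] at h1
    rw [show 4 * νM * (4 / (n : ℝ)) = 16 * νM / n by ring, div_lt_iff₀ hnpos]
    linarith
  have hnb : 4 * νM * (4 / n) < κ5 := by
    have h1 : 16 * νM / κ5 < n := by linarith
    rw [div_lt_iff₀ hκ50] at h1
    rw [show 4 * νM * (4 / (n : ℝ)) = 16 * νM / n by ring, div_lt_iff₀ hnpos]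
    linarith
  have hnc : 4 * νM * (4 / n) < 1 := by
    rw [show 4 * νM * (4 / (n : ℝ)) = 16 * νM / n by ring, div_lt_iff₀ hnpos]
    linarith
  have hEv : (I.card * m * (2 * N0 + 1) : ℝ) * (10 * (4 / n)) ≤ lam := by
    have h1 : 40 * (I.card * m * (2 * N0 + 1) : ℝ) / lam < n := by linarith
    rw [div_lt_iff₀ hlam0] at h1
    rw [show (I.card * m * (2 * N0 + 1) : ℝ) * (10 * (4 / n)) =
      40 * (I.card * m * (2 * N0 + 1)) / n by ring, div_le_iff₀ hnpos]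
    linarith
  -- the drivers
  have hsa : ∀ a < n, 0 ≤ 2 * (a : ℝ) / n ∧ 2 * (a : ℝ) / n ≤ 2 := by
    intro a ha
    constructor
    · positivity
    · rw [div_le_iff₀ hnpos]
      have : (a : ℝ) ≤ n := by exact_mod_cast ha.le
      linarith
  set i : ℕ → ℕ := fun a => if (∀ j ∈ J.filter fun j => ρ j < ρ imax, ∀ k : ℤ,
    κ ≤ |ρ j / ρ imax * (A + 2 * a / n) + C imax j k - (A + 2)|) then imax else imin with hi
  have hicases : ∀ a, i a = imax ∨ i a = imin := by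
    intro a
    simp only [hi]
    split_ifs
    · exact Or.inl rfl
    · exact Or.inr rfl
  have hiJ : ∀ a, i a ∈ J := by
    intro a
    rcases hicases a with h1 | h1 <;> rw [h1] <;> assumption
  have hiρ : ∀ a, 0 < ρ (i a) := fun a => ((hJmem _).1 (hiJ a)).2.1
  have him : ∀ a, i a < m := fun a => ((hJmem _).1 (hiJ a)).1
  have hiN : ∀ a, netI m s ρ h τ (i a) ≠ 0 := fun a => ((hJmem _).1 (hiJ a)).2.2
  have hblock : ∀ a < n, ∀ j ∈ J, ρ j ≠ ρ (i a) → ∀ k : ℤ,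
      κ ≤ |ρ j / ρ (i a) * (A + 2 * a / n) + C (i a) j k - (A + 2)| := by
    intro a ha j hj hne k
    have hx := hdisj (A + 2 * a / n) (by linarith [(hsa a ha).1]) (by linarith [(hsa a ha).2])
    by_cases hc : ∀ j ∈ J.filter fun j => ρ j < ρ imax, ∀ k : ℤ,
        κ ≤ |ρ j / ρ imax * (A + 2 * a / n) + C imax j k - (A + 2)|
    · have hia : i a = imax := by simp only [hi]; rw [if_pos hc]
      rw [hia] at hne ⊢
      exact hc j (Finset.mem_filter.2 ⟨hj, lt_of_le_of_ne (himax j hj) hne⟩) k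
    · have hia : i a = imin := by simp only [hi]; rw [if_neg hc]
      rw [hia] at hne ⊢
      rcases hx with hx | hx
      · exact absurd hx hc
      · exact hx j (Finset.mem_filter.2 ⟨hj, lt_of_le_of_ne (himin j hj) (Ne.symm hne)⟩) k
  have hexp : ∀ (i j a : ℕ) (k : ℤ), ρ j / ρ i * (A + 2 * a / n - h i) + β i j - k + h j +
      θ * T i j k = ρ j / ρ i * (A + 2 * a / n) + C i j k := by
    intro i j a k
    simp only [hC]
    ring
  -- the sites
  obtain ⟨b, hq1, hq2, hq3, hq4, hq5, hs1, hs2, hs3⟩ := exists_sites m ρ γ θ hθ h hh τ hτ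
    n A κ3 ε0 N0 hκ30 hε00 i (fun a _ => hiρ a) W T β (fun a _ => HW (i a))
  refine caseI_verify m s hs ρ γ hγ θ hθ h hh τ hτ hτγ n hn16 A lam κ3 κ5 ε0 N0 hlam0
    (min_le_left _ _) (min_le_right _ _) hε00 hκ5 i b T β (fun a _ => him a) (fun a _ => hiρ a)
    (fun a _ => hiN a) ?_ I ?_ hEv ?_ ?_ ?_ ?_ hq1 hq2 hq3 hq4 hq5 hs1 hs2 hs3
  · -- hκ
    intro a _ j hj _
    have h1 := hνM (i a) (hicases a) j hj
    have h2 : (0 : ℝ) ≤ 4 / n := by positivity
    have h3 : 4 * (ρ j / ρ (i a)) * (4 / n) ≤ 4 * νM * (4 / n) := by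
      apply mul_le_mul_of_nonneg_right _ h2
      linarith
    exact ⟨h3.trans_lt hna, h3.trans_lt hnb, h3.trans_lt hnc⟩
  · -- hI
    intro a _
    rw [hI]
    simp only [Finset.mem_insert, Finset.mem_singleton]
    exact hicases a
  · -- hN0
    intro a ha j hj hρj k hk x hx x' hx' x'' hx''
    have hν := hνM (i a) (hicases a) j hj
    have hν0 : 0 ≤ ρ j / ρ (i a) := div_nonneg hρj.le (hiρ a).le
    obtain ⟨ha1, ha2⟩ := hsa a ha
    have hia := hh (i a)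
    have hhj := hh j
    have hθx : 0 ≤ θ * x ∧ θ * x ≤ 1 := ⟨mul_nonneg hθ.1 hx.1, by
      have := mul_le_mul hθ.2 hx.2 hx.1 zero_le_one
      linarith⟩
    have hθx'' : 0 ≤ θ * x'' ∧ θ * x'' ≤ 1 := ⟨mul_nonneg hθ.1 hx''.1, by
      have := mul_le_mul hθ.2 hx''.2 hx''.1 zero_le_one
      linarith⟩
    have h1 : |A + 2 * a / n - h (i a) - θ * x| ≤ |A| + 4 := by
      have h2 := neg_abs_le A
      have h3 := le_abs_self A
      rw [abs_le]
      constructor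
      · linarith [hia.2, hθx.2]
      · linarith [hia.1, hθx.1]
    have h2 : |ρ j / ρ (i a) * (A + 2 * a / n - h (i a) - θ * x)| ≤ νM * (|A| + 4) := by
      rw [abs_mul, abs_of_nonneg hν0]
      exact mul_le_mul hν h1 (abs_nonneg _) (by linarith)
    have h3 := abs_le.1 h2
    have h4 : (N0 : ℝ) < |(k : ℝ)| := by
      have : ((N0 : ℤ) : ℝ) < ((|k| : ℤ) : ℝ) := by exact_mod_cast hk
      rw [Int.cast_abs] at this
      exact_mod_cast this
    rcases le_abs.1 (le_refl |(k : ℝ)|) with h5 | h5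
    · rw [lt_abs]
      right
      linarith [h3.1, h3.2, hx'.1, hx'.2, hhj.1, hhj.2, hθx''.1, hθx''.2]
    · rw [lt_abs]
      left
      linarith [h3.1, h3.2, hx'.1, hx'.2, hhj.1, hhj.2, hθx''.1, hθx''.2]
  · -- hT0
    intro a _ j hj _ k hk hT
    exact hε0 (i a) (hicases a) j hj k hk hT
  · -- hTA
    intro a ha j hj hρj hne' k hk hT y hy1 hy2
    have hν := hνM (i a) (hicases a) j hj
    have hν0 : 0 ≤ ρ j / ρ (i a) := div_nonneg hρj.le (hiρ a).le
    obtain ⟨ha1, ha2⟩ := hsa a ha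
    have hia := hh (i a)
    have hhj := hh j
    have hβ := hW5 (i a) j
    have hKk := abs_le.1 (hK (i a) j k hT)
    have hne1 : ρ j / ρ (i a) - 1 ≠ 0 := by
      rw [sub_ne_zero]
      intro h1
      rw [div_eq_one_iff_eq (hiρ a).ne'] at h1
      exact hne' h1
    have habs : 0 < |ρ j / ρ (i a) - 1| := abs_pos.2 hne1
    have h1 : 2 * (ρ j / ρ (i a)) + 7 + K (i a) j < |(ρ j / ρ (i a) - 1) * A| := by
      have h2 : f (i a) j < A := (hfA0 (i a) (hicases a) j hj).trans_lt hA0A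
      simp only [hf] at h2
      rw [div_lt_iff₀ habs] at h2
      rw [abs_mul]
      have h3 : A * |ρ j / ρ (i a) - 1| ≤ |ρ j / ρ (i a) - 1| * |A| := by
        rw [mul_comm]
        exact mul_le_mul_of_nonneg_left (le_abs_self A) (abs_nonneg _)
      linarith
    set E : ℝ := ρ j / ρ (i a) * (2 * a / n - h (i a)) + β (i a) j - k + h j - (y - A) with hE
    have h2 : ρ j / ρ (i a) * (A + 2 * a / n - h (i a)) + β (i a) j - k + h j +
        θ * T (i a) j k - y = (ρ j / ρ (i a) - 1) * A + E := by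
      rw [hT, hE]; ring
    have h3 : ρ j / ρ (i a) * (2 * a / n - h (i a)) ≤ ρ j / ρ (i a) * 2 :=
      mul_le_mul_of_nonneg_left (by linarith [hia.1]) hν0
    have h4 : ρ j / ρ (i a) * (-1) ≤ ρ j / ρ (i a) * (2 * a / n - h (i a)) :=
      mul_le_mul_of_nonneg_left (by linarith [hia.2]) hν0
    have h5 : |E| ≤ 2 * (ρ j / ρ (i a)) + 6 + K (i a) j := by
      rw [abs_le, hE]
      constructor
      · linarith [hβ.1, hhj.1, hKk.2]
      · linarith [hβ.2, hhj.2, hKk.1]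
    rw [h2]
    have h6 : |(ρ j / ρ (i a) - 1) * A| ≤ |(ρ j / ρ (i a) - 1) * A + E| + |E| := by
      have := abs_sub ((ρ j / ρ (i a) - 1) * A + E) E
      rwa [add_sub_cancel_right] at this
    have h7 : κ3 ≤ 1 := min_le_right _ _
    linarith
  · -- hblock
    intro a ha j hj hρj hne' hN k _ _
    rw [hexp]
    exact (min_le_left _ _).trans (hblock a ha j ((hJmem j).2 ⟨hj, hρj, hN⟩) hne' k)

end Pool.Agent.Helper22.Slip
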