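import Pool.Agent.Helper22.Slip.C2

/-!
# K2: designs from gates
-/

namespace Pool.Agent.Helper22.Slip

open Filter Set

/-! ### K2: the design built from gates (used in both cases) -/

/-- Gates far apart give a design: every visit sees at most one gate. -/
theorem mkDesign (m : ℕ) (s : ℕ → ℤ) (hs : ∀ j < m, |s j| ≤ 1) (ρ : ℕ → ℝ)
    (ξ : ℕ → ℤ → ℝ) (hξ : ∀ j b, |ξ j b - b| ≤ 2)
    (n : ℕ) (A lam : ℝ) (X ω t : ℕ → ℝ) (hω : ∀ a < n, 0 < ω a) (ht : ∀ a < n, |t a| ≤ 1)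
    (hdis : GatesDisjoint X ω n)
    (hsep : ∀ a < n, ∀ a' < n, a ≠ a' → ∀ j < m, 0 < ρ j →
      ρ j * ω a + ρ j * ω a' + 4 < ρ j * |X a - X a'|) :
    ∃ (D : DesignData) (gate : ℕ × ℤ → ℕ), D.Ok m s ρ ξ ∧ D.n = n ∧ D.A = A ∧ D.lam = lam ∧
      D.X = X ∧ D.ω = ω ∧ D.t = t ∧
      (∀ v ∈ D.V, gate v < n ∧ v.1 < m ∧ 0 < ρ v.1 ∧ D.R v = ρ v.1 * X (gate v) - ξ v.1 v.2 ∧
        D.w v = ρ v.1 * ω (gate v) ∧ D.tt v = s v.1 * t (gate v) ∧
        A - 1 - D.w v ≤ D.R v ∧ D.R v ≤ A + 3 + D.w v) ∧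
      (∀ (j : ℕ) (b : ℤ) (a : ℕ), j < m → 0 < ρ j → a < n →
        A - 1 - ρ j * ω a ≤ ρ j * X a - ξ j b → ρ j * X a - ξ j b ≤ A + 3 + ρ j * ω a →
        (j, b) ∈ D.V ∧ gate (j, b) = a) := by
  classical
  -- the gate `a` is seen by the visit `(j, b)`
  set P : ℕ → ℤ → ℕ → Prop := fun j b a =>
    a < n ∧ A - 1 - ρ j * ω a ≤ ρ j * X a - ξ j b ∧ ρ j * X a - ξ j b ≤ A + 3 + ρ j * ω a with hP
  -- uniqueness
  have huniq : ∀ j < m, 0 < ρ j → ∀ b a a', P j b a → P j b a' → a = a' := by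
    intro j hj hρ b a a' h1 h2
    by_contra hne
    have h3 := hsep a h1.1 a' h2.1 hne j hj hρ
    rw [← abs_of_pos hρ, ← abs_mul, abs_of_pos hρ] at h3
    have h4 : |ρ j * (X a - X a')| ≤ ρ j * ω a + ρ j * ω a' + 4 := by
      rw [abs_le]
      constructor
      · linarith [h1.2.1, h2.2.2]
      · linarith [h1.2.2, h2.2.1]
    linarith
  -- a bound for the indices
  obtain ⟨N, hN⟩ : ∃ N : ℕ, ∀ j < m, ∀ (b : ℤ) (a : ℕ), P j b a → |b| ≤ (N : ℤ) := by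
    obtain ⟨N, hN⟩ := exists_nat_gt
      ((∑ p ∈ Finset.range m ×ˢ Finset.range n, (|ρ p.1 * X p.2| + |ρ p.1 * ω p.2|)) + |A| + 5)
    refine ⟨N, fun j hj b a h => ?_⟩
    have h1 : |ρ j * X a| + |ρ j * ω a| ≤
        ∑ p ∈ Finset.range m ×ˢ Finset.range n, (|ρ p.1 * X p.2| + |ρ p.1 * ω p.2|) :=
      Finset.single_le_sum (f := fun p : ℕ × ℕ => |ρ p.1 * X p.2| + |ρ p.1 * ω p.2|)
        (fun p _ => by positivity)
        (Finset.mk_mem_product (Finset.mem_range.2 hj) (Finset.mem_range.2 h.1))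
    have h2 := abs_le.1 (hξ j b)
    have h3 := neg_abs_le (ρ j * X a)
    have h4 := le_abs_self (ρ j * X a)
    have h5 := le_abs_self (ρ j * ω a)
    have h6 := neg_abs_le A
    have h7 := le_abs_self A
    have h8 : |(b : ℝ)| ≤ N := by
      rw [abs_le]
      constructor
      · linarith [h.2.2]
      · linarith [h.2.1]
    exact_mod_cast h8
  set gate : ℕ × ℤ → ℕ := fun v => if h : ∃ a, P v.1 v.2 a then h.choose else 0 with hgate
  have hgP : ∀ v : ℕ × ℤ, (∃ a, P v.1 v.2 a) → P v.1 v.2 (gate v) := by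
    intro v h
    simp only [hgate, h, dif_pos]
    exact h.choose_spec
  set V : Finset (ℕ × ℤ) := (Finset.range m ×ˢ Finset.Icc (-(N : ℤ)) N).filter
    (fun v => 0 < ρ v.1 ∧ ∃ a, P v.1 v.2 a) with hV
  have hmemV : ∀ (j : ℕ) (b : ℤ), (j, b) ∈ V ↔ j < m ∧ 0 < ρ j ∧ ∃ a, P j b a := by
    intro j b
    rw [hV, Finset.mem_filter, Finset.mem_product, Finset.mem_range, Finset.mem_Icc]
    constructor
    · rintro ⟨⟨h1, _⟩, h2, h3⟩
      exact ⟨h1, h2, h3⟩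
    · rintro ⟨h1, h2, a, h3⟩
      have h4 := abs_le.1 (hN j h1 b a h3)
      exact ⟨⟨h1, h4⟩, h2, a, h3⟩
  refine ⟨{ n := n, A := A, lam := lam, X := X, ω := ω, t := t, V := V,
            R := fun v => ρ v.1 * X (gate v) - ξ v.1 v.2,
            w := fun v => ρ v.1 * ω (gate v),
            tt := fun v => s v.1 * t (gate v) }, gate, ?_, rfl, rfl, rfl, rfl, rfl, rfl, ?_, ?_⟩
  · refine ⟨hdis, ht, ?_, ?_, ?_⟩
    · intro v hv
      exact ((hmemV v.1 v.2).1 hv).1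
    · intro j hj b hnot y hy1 hy2
      refine lev_of_far hdis (ρ j) (ξ j b) (s j) y fun hρ a ha => ?_
      have h1 : ¬ P j b a := fun h => hnot ((hmemV j b).2 ⟨hj, hρ, a, h⟩)
      simp only [hP, not_and_or, not_le] at h1
      have hy1' : A - 1 ≤ y := hy1
      have hy2' : y ≤ A + 3 := hy2
      rcases h1 with h1 | h1 | h1
      · exact absurd ha h1
      · exact le_trans (by linarith) (le_abs_self _)
      · rw [abs_sub_comm]
        exact le_trans (by linarith) (le_abs_self _)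
    · intro v hv y hy1 hy2
      obtain ⟨hvm, hρ, hex⟩ := (hmemV v.1 v.2).1 hv
      have hg := hgP v hex
      have hy1' : A - 1 ≤ y := hy1
      have hy2' : y ≤ A + 3 := hy2
      refine lev_of_mem hdis hρ (ξ v.1 v.2) (s v.1) y hg.1 fun a' ha' hne => ?_
      have h3 := hsep (gate v) hg.1 a' ha' (Ne.symm hne) v.1 hvm hρ
      rw [← abs_of_pos hρ, ← abs_mul, abs_of_pos hρ] at h3
      have h4 : |ρ v.1 * X (gate v) - ξ v.1 v.2 - y| ≤ ρ v.1 * ω (gate v) + 4 := by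
        rw [abs_le]
        have hw : 0 < ρ v.1 * ω (gate v) := mul_pos hρ (hω _ hg.1)
        constructor
        · linarith [hg.2.1]
        · linarith [hg.2.2]
      have h5 : |ρ v.1 * (X (gate v) - X a')| ≤
          |ρ v.1 * X (gate v) - ξ v.1 v.2 - y| + |y - (ρ v.1 * X a' - ξ v.1 v.2)| := by
        have := abs_add_le (ρ v.1 * X (gate v) - ξ v.1 v.2 - y) (y - (ρ v.1 * X a' - ξ v.1 v.2))
        rw [show ρ v.1 * X (gate v) - ξ v.1 v.2 - y + (y - (ρ v.1 * X a' - ξ v.1 v.2)) =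
          ρ v.1 * (X (gate v) - X a') by ring] at this
        exact this
      linarith
  · intro v hv
    obtain ⟨hvm, hρ, hex⟩ := (hmemV v.1 v.2).1 hv
    have hg := hgP v hex
    exact ⟨hg.1, hvm, hρ, rfl, rfl, rfl, hg.2.1, hg.2.2⟩
  · intro j b a hj hρ ha h1 h2
    have hPa : P j b a := ⟨ha, h1, h2⟩
    exact ⟨(hmemV j b).2 ⟨hj, hρ, a, hPa⟩, huniq j hj hρ b _ a (hgP (j, b) ⟨a, hPa⟩) hPa⟩

end Pool.Agent.Helper22.Slip
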