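import Pool.Agent.Helper22.Slip.SoftDefs

/-!
# S1: phase functions
-/

namespace Pool.Agent.Helper22.Slip

open Pool.Agent.Helper76.Slip Filter CircleDeg1Lift

lemma abs_sub_rot_le (f : G) (x : ℝ) : |f x - x - rot f| ≤ 1 := by
  have h1 := map_lt_add_translationNumber_add_one (f : CircleDeg1Lift) x
  have h2 := map_lt_add_translationNumber_add_one ((f⁻¹ : G) : CircleDeg1Lift) (f x)
  rw [units_inv_apply_apply, translationNumber_units_inv] at h2
  unfold rot
  rw [abs_le]
  constructor <;> linarith

lemma exists_avg {ι : Type*} (I : Finset ι) (hI : I.Nonempty) (f : ι → G) :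
    ∃ g : G, ∀ x, g x = (∑ i ∈ I, f i x) / I.card := by
  have hc : (0 : ℝ) < I.card := by exact_mod_cast hI.card_pos
  let g : CircleDeg1Lift :=
    { toFun := fun x => (∑ i ∈ I, f i x) / I.card
      monotone' := fun x y h => by
        show (∑ i ∈ I, f i x) / (I.card : ℝ) ≤ (∑ i ∈ I, f i y) / I.card
        gcongr
      map_add_one' := fun x => by
        show (∑ i ∈ I, f i (x + 1)) / (I.card : ℝ) = (∑ i ∈ I, f i x) / I.card + 1
        have : ∀ i, f i (x + 1) = f i x + 1 := fun i => (f i : CircleDeg1Lift).map_add_one x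
        simp_rw [this]
        rw [Finset.sum_add_distrib, Finset.sum_const, nsmul_eq_mul, mul_one, add_div,
          div_self hc.ne'] }
  have hg : ∀ x, g x = (∑ i ∈ I, f i x) / I.card := fun x => rfl
  have hmono : StrictMono g := by
    intro x y h
    rw [hg, hg]
    refine div_lt_div_of_pos_right ?_ hc
    exact Finset.sum_lt_sum_of_nonempty hI fun i _ =>
      ((f i : CircleDeg1Lift).strictMono_iff_injective.2 (toOrderIso (f i)).injective) h
  have hcont : Continuous g := by
    show Continuous fun x => (∑ i ∈ I, f i x) / (I.card : ℝ)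
    exact (continuous_finsetSum I fun i _ => G_continuous (f i)).div_const _
  obtain ⟨u, hu⟩ := isUnit_iff_bijective.2
    ⟨hmono.injective, (CircleDeg1Lift.continuous_iff_surjective g).1 hcont⟩
  exact ⟨u, fun x => by rw [hu]; exact hg x⟩

lemma exists_phase (W : G) (m : ℕ) (hm : 0 < m) :
    ∃ h : G, (∀ x, |h x - x| ≤ 1) ∧ ∀ x, |h (W x) - h x - rot W| ≤ 1 / m := by
  have hmr : (0 : ℝ) < m := by exact_mod_cast hm
  obtain ⟨h, hh⟩ := exists_avg (Finset.range m) (Finset.nonempty_range_iff.2 hm.ne')
    (fun j => T (-(j * rot W)) * W ^ j)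
  have hT : ∀ (j : ℕ) (x : ℝ), (T (-(j * rot W)) * W ^ j : G) x =
      (W ^ j : G) x - j * rot W := by
    intro j x
    show -(j * rot W) + (W ^ j : G) x = _
    ring
  simp_rw [hT, Finset.card_range] at hh
  have hb : ∀ (j : ℕ) (x : ℝ), |(W ^ j : G) x - x - j * rot W| ≤ 1 := by
    intro j x
    have := abs_sub_rot_le (W ^ j) x
    rwa [rot_pow] at this
  refine ⟨h, fun x => ?_, fun x => ?_⟩
  · have h1 : h x - x = (∑ j ∈ Finset.range m, ((W ^ j : G) x - x - j * rot W)) / m := by
      rw [hh]
      have : ∑ j ∈ Finset.range m, ((W ^ j : G) x - x - j * rot W) =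
          ∑ j ∈ Finset.range m, ((W ^ j : G) x - j * rot W) - m * x := by
        have e : (m : ℝ) * x = ∑ _j ∈ Finset.range m, x := by simp
        rw [e, ← Finset.sum_sub_distrib]
        exact Finset.sum_congr rfl fun j _ => by ring
      rw [this, sub_div, mul_div_cancel_left₀ _ hmr.ne']
    rw [h1, abs_div, abs_of_pos hmr, div_le_one hmr]
    calc |∑ j ∈ Finset.range m, ((W ^ j : G) x - x - j * rot W)|
        ≤ ∑ j ∈ Finset.range m, |(W ^ j : G) x - x - j * rot W| := Finset.abs_sum_le_sum_abs _ _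
      _ ≤ ∑ j ∈ Finset.range m, (1 : ℝ) := Finset.sum_le_sum fun j _ => hb j x
      _ = m := by simp
  · have h1 : h (W x) - h x - rot W = ((W ^ m : G) x - x - m * rot W) / m := by
      rw [hh, hh]
      have e1 : ∀ j : ℕ, (W ^ j : G) (W x) = (W ^ (j + 1) : G) x := fun j => by
        rw [pow_succ]; rfl
      simp_rw [e1]
      have e2 : ∑ j ∈ Finset.range m, ((W ^ (j + 1) : G) x - j * rot W) -
          ∑ j ∈ Finset.range m, ((W ^ j : G) x - j * rot W) = (W ^ m : G) x - x := by
        rw [← Finset.sum_sub_distrib]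
        have e3 : ∀ j ∈ Finset.range m, ((W ^ (j + 1) : G) x - j * rot W) -
            ((W ^ j : G) x - j * rot W) = (W ^ (j + 1) : G) x - (W ^ j : G) x :=
          fun j _ => by ring
        rw [Finset.sum_congr rfl e3, Finset.sum_range_sub (fun j => (W ^ j : G) x)]
        rfl
      rw [← sub_div, e2]
      field_simp
    rw [h1, abs_div, abs_of_pos hmr]
    exact div_le_div_of_nonneg_right (hb m x) hmr.le

end Pool.Agent.Helper22.Slip
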