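import Pool.Agent.Helper22.Slip.SoftDefs

/-!
# S2: the key inequality
-/

namespace Pool.Agent.Helper22.Slip

open Pool.Agent.Helper76.Slip Filter CircleDeg1Lift

private lemma s2_int (k : G) (t : ℝ) : ∫ z in (0:ℝ)..1, (k (T t z) - k z) = t := by
  have hk : Continuous (fun x => k x) := G_continuous k
  set g : ℝ → ℝ := fun x => k x - x with hgdef
  have hgc : Continuous g := hk.sub continuous_id
  have hg : Function.Periodic g 1 := fun x => by
    simp only [hgdef]
    rw [CircleDeg1Lift.map_add_one]
    ring
  have h1 : ∀ z : ℝ, k (T t z) - k z = (g (t + z) - g z) + t := by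
    intro z
    have : T t z = t + z := translate_apply t z
    rw [this]
    simp only [hgdef]
    ring
  simp only [h1]
  have h2 : ∫ z in (0:ℝ)..1, g (t + z) = ∫ z in (0:ℝ)..1, g z := by
    rw [intervalIntegral.integral_comp_add_left (fun x => g x) t]
    have := hg.intervalIntegral_add_eq t 0
    simpa using this
  have hc1 : Continuous fun z => g (t + z) := hgc.comp (continuous_const.add continuous_id)
  rw [intervalIntegral.integral_add, intervalIntegral.integral_sub, h2]
  · simp
  · exact hc1.intervalIntegrable _ _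
  · exact hgc.intervalIntegrable _ _
  · exact (hc1.sub hgc).intervalIntegrable _ _
  · exact continuous_const.intervalIntegrable _ _

/-- The part of the phase sum carried by the letter `b`. -/
private noncomputable def s2S (l : List Bool) (f : Bool → G) (h0 : G) (b : Bool) (x : ℝ) : ℝ :=
  ∑ i ∈ Finset.range l.length,
    if ltrOf l i = b then ph l f h0 i x - ph l f h0 (i + 1) x else 0

private lemma s2_ph_succ (l : List Bool) (f : Bool → G) (h0 : G) (i : ℕ) :
    ph l f h0 i = ph l f h0 (i + 1) * f (ltrOf l i) := by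
  unfold ph
  rw [show Yu (ltrOf l) f (i + 1) = f (ltrOf l i) * Yu (ltrOf l) f i from rfl]
  group

private lemma s2_S_add (l : List Bool) (f : Bool → G) (h0 : G) (x : ℝ) :
    s2S l f h0 true x + s2S l f h0 false x = h0 x - h0 ((pr f l)⁻¹ x) := by
  unfold s2S
  rw [← Finset.sum_add_distrib]
  have h1 : ∀ i ∈ Finset.range l.length,
      ((if ltrOf l i = true then ph l f h0 i x - ph l f h0 (i + 1) x else 0) +
        if ltrOf l i = false then ph l f h0 i x - ph l f h0 (i + 1) x else 0) =
      ph l f h0 i x - ph l f h0 (i + 1) x := by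
    intro i _
    cases ltrOf l i <;> simp
  rw [Finset.sum_congr rfl h1, Finset.sum_range_sub' (fun i => ph l f h0 i x)]
  have h2 : ph l f h0 0 = h0 := by
    unfold ph
    rw [show Yu (ltrOf l) f 0 = 1 from rfl]
    simp
  have h3 : ph l f h0 l.length = h0 * (pr f l)⁻¹ := by
    unfold ph
    rw [Yu_length]
  rw [h2, h3]
  rfl

private lemma s2_cont (l : List Bool) (f : Bool → G) (h0 : G) (b : Bool) :
    Continuous (s2S l f h0 b) := by
  unfold s2S
  refine continuous_finsetSum _ fun i _ => ?_
  by_cases h : ltrOf l i = b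
  · simp only [h, if_true]
    exact (G_continuous _).sub (G_continuous _)
  · simp only [h, if_false]
    exact continuous_const

private lemma s2_integral (l : List Bool) (f : Bool → G) (h0 : G) (b : Bool) (t : ℝ) (α : G)
    (hα : f b = α⁻¹ * T t * α) :
    ∫ z in (0:ℝ)..1, s2S l f h0 b (α⁻¹ z) = l.count b * t := by
  have h1 : ∀ z : ℝ, s2S l f h0 b (α⁻¹ z) = ∑ i ∈ Finset.range l.length,
      if ltrOf l i = b then (ph l f h0 (i + 1) * α⁻¹) (T t z) - (ph l f h0 (i + 1) * α⁻¹) z
        else 0 := by
    intro z
    unfold s2S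
    refine Finset.sum_congr rfl fun i _ => ?_
    by_cases h : ltrOf l i = b
    · simp only [h, if_true]
      have h2 : ph l f h0 i (α⁻¹ z) = (ph l f h0 (i + 1) * α⁻¹) (T t z) := by
        have h3 : (ph l f h0 i * α⁻¹) z = (ph l f h0 (i + 1) * α⁻¹ * T t) z := by
          rw [s2_ph_succ l f h0 i, h, hα]
          congr 2
          group
        exact h3
      rw [h2]
      rfl
    · simp [h]
  simp only [h1]
  rw [intervalIntegral.integral_finsetSum]
  · have h2 : ∀ i ∈ Finset.range l.length, (∫ z in (0:ℝ)..1,
        if ltrOf l i = b then (ph l f h0 (i + 1) * α⁻¹) (T t z) - (ph l f h0 (i + 1) * α⁻¹) z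
          else 0) = (fun c => if c = b then t else 0) (ltrOf l i) := by
      intro i _
      by_cases h : ltrOf l i = b
      · simp only [h, if_true]
        exact s2_int _ t
      · simp [h]
    rw [Finset.sum_congr rfl h2, sum_ltrOf (fun c => if c = b then t else 0) l, sum_map]
    cases b <;> simp
  · intro i _
    by_cases h : ltrOf l i = b
    · simp only [h, if_true]
      have hc : Continuous fun z => (ph l f h0 (i + 1) * α⁻¹ : G) (T t z) :=
        (G_continuous _).comp (G_continuous _)
      exact (hc.sub (G_continuous _)).intervalIntegrable _ _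
    · simp only [h, if_false]
      exact continuous_const.intervalIntegrable _ _

theorem key (l : List Bool) (f : Bool → G) (r s : ℝ)
    (hf : ∀ b, IsConj (f b) (T (base r s b))) (h0 : G) (τ δ ω : ℝ)
    (hτ : ∀ x, |h0 (pr f l x) - h0 x - τ| ≤ δ)
    (hω : ∀ x y, Sfun l f h0 x - Sfun l f h0 y ≤ ω) :
    τ ≤ l.count true * r + l.count false * s + ω + δ := by
  have hS : Sfun l f h0 = s2S l f h0 false := rfl
  have hconj : ∀ b, ∃ α : G, f b = α⁻¹ * T (base r s b) * α := by
    intro b
    obtain ⟨c, hc⟩ := hf b
    refine ⟨c, ?_⟩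
    have h1 : (c : G) * f b = T (base r s b) * c := hc
    rw [mul_assoc, ← h1]
    group
  obtain ⟨α, hα⟩ := hconj true
  obtain ⟨β, hβ⟩ := hconj false
  have ha := s2_integral l f h0 true _ α hα
  have hb := s2_integral l f h0 false _ β hβ
  rw [base_true] at ha
  rw [base_false] at hb
  have hca : Continuous fun z => s2S l f h0 true (α⁻¹ z) :=
    (s2_cont l f h0 true).comp (G_continuous _)
  have hcb : Continuous fun z => s2S l f h0 false (β⁻¹ z) :=
    (s2_cont l f h0 false).comp (G_continuous _)
  have hcc : Continuous fun z => s2S l f h0 false (α⁻¹ z) :=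
    (s2_cont l f h0 false).comp (G_continuous _)
  have hpt : ∀ z : ℝ, τ - δ ≤ s2S l f h0 true (α⁻¹ z) + s2S l f h0 false (β⁻¹ z) + ω := by
    intro z
    have h1 := s2_S_add l f h0 (α⁻¹ z)
    have h2 := hτ ((pr f l)⁻¹ (α⁻¹ z))
    have h3 : pr f l ((pr f l)⁻¹ (α⁻¹ z)) = α⁻¹ z := by
      have : (pr f l * (pr f l)⁻¹ : G) (α⁻¹ z) = α⁻¹ z := by
        rw [mul_inv_cancel]
        rfl
      exact this
    rw [h3] at h2
    have h4 := hω (α⁻¹ z) (β⁻¹ z)
    rw [hS] at h4
    have h5 := (abs_le.1 h2).1
    linarith
  have hint : ∫ z in (0:ℝ)..1, (τ - δ) ≤ ∫ z in (0:ℝ)..1,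
      (s2S l f h0 true (α⁻¹ z) + s2S l f h0 false (β⁻¹ z) + ω) := by
    refine intervalIntegral.integral_mono_on zero_le_one ?_ ?_ fun z _ => hpt z
    · exact continuous_const.intervalIntegrable _ _
    · exact ((hca.add hcb).add continuous_const).intervalIntegrable _ _
  rw [intervalIntegral.integral_add, intervalIntegral.integral_add, ha, hb] at hint
  · simp at hint
    linarith
  · exact hca.intervalIntegrable _ _
  · exact hcb.intervalIntegrable _ _
  · exact (hca.add hcb).intervalIntegrable _ _
  · exact continuous_const.intervalIntegrable _ _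

end Pool.Agent.Helper22.Slip
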