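import Pool.Agent.Helper22.Slip.SoftDefs

/-!
# S3: the engine
-/

namespace Pool.Agent.Helper22.Slip

open Pool.Agent.Helper76.Slip Filter CircleDeg1Lift

private lemma S3_stageProd (l : List Bool) (f : Bool → G) (h0 X ψ : G) (i : ℕ) :
    stageProd (2 * i) (stK fun i => ph l f h0 i * X⁻¹) ψ (stS l) =
      h0 * (Yu (ltrOf l) f i)⁻¹ * Yu (ltrOf l) (modAct f X ψ) i * h0⁻¹ := by
  induction i with
  | zero => simp [stageProd, Yu]
  | succ i ih =>
    have e1 : 2 * (i + 1) = 2 * i + 1 + 1 := by ring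
    have e2 : (2 * i + 1 + 1) / 2 = i + 1 := by omega
    have e3 : (2 * i + 1) / 2 = i := by omega
    have e4 : 2 * i / 2 = i := by omega
    have e5 : (2 * i + 1) % 2 ≠ 0 := by omega
    have e6 : 2 * i % 2 = 0 := by omega
    rw [e1, stageProd, stageProd, ih]
    simp only [stK, stS, stage, ph, e2, e3, e4, if_neg e5, if_pos e6]
    by_cases h : ltrOf l i = true
    · simp only [if_pos h, Yu]
      simp only [h, modAct, if_true]
      group
    · have h' : ltrOf l i = false := by simpa using h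
      simp only [if_neg h, Yu]
      simp only [h', modAct]
      rw [if_neg (by decide)]
      group

theorem engine (l : List Bool) (f : Bool → G) (h0 X ψ : G) (τ δ : ℝ)
    (hτ : ∀ x, |h0 (pr f l x) - h0 x - τ| ≤ δ) :
    rot (T (τ - δ) * stageProd (2 * l.length) (stK fun i => ph l f h0 i * X⁻¹) ψ (stS l)) ≤
      rot (pr (modAct f X ψ) l) := by
  have h1 := S3_stageProd l f h0 X ψ l.length
  rw [Yu_length, Yu_length] at h1
  rw [h1]
  have h2 : rot (pr (modAct f X ψ) l) = rot (h0 * pr (modAct f X ψ) l * h0⁻¹) :=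
    (translationNumber_conj_eq h0 (pr (modAct f X ψ) l : G)).symm
  rw [h2]
  apply translationNumber_mono
  intro x
  set W := pr f l with hW
  set W' := pr (modAct f X ψ) l with hW'
  show (T (τ - δ) : G) (h0 ((W⁻¹ : G) (W' ((h0⁻¹ : G) x)))) ≤ h0 (W' ((h0⁻¹ : G) x))
  set y := W' ((h0⁻¹ : G) x) with hy
  have h3 := abs_le.1 (hτ ((W⁻¹ : G) y))
  rw [units_apply_inv_apply] at h3
  show (τ - δ) + h0 ((W⁻¹ : G) y) ≤ h0 y
  linarith [h3.1]

lemma modAct_conj (f : Bool → G) (X ψ : G) (b : Bool) : IsConj (modAct f X ψ b) (f b) := by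
  cases b with
  | true => rw [modAct, if_pos rfl]
  | false =>
    rw [modAct, if_neg (by decide)]
    refine IsConj.symm (isConj_iff.2 ⟨X⁻¹ * ψ⁻¹ * X, ?_⟩)
    group

end Pool.Agent.Helper22.Slip
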