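import Pool.Agent.Helper22.Slip.SoftDefs

/-!
# S4: ultralimits
-/

namespace Pool.Agent.Helper22.Slip

open Pool.Agent.Helper76.Slip Filter CircleDeg1Lift

lemma ultralimit (K : ℕ → G) (C Λ : ℝ) (hC : ∀ n x, |K n x - x| ≤ C)
    (hΛ : ∀ n x y, x ≤ y → K n y - K n x ≤ Λ * (y - x)) :
    ∃ H : ℝ → ℝ, Monotone H ∧ (∀ x, H (x + 1) = H x + 1) ∧
      (∀ x y, x ≤ y → H y - H x ≤ Λ * (y - x)) ∧
      ∀ δ > 0, ∀ᶠ n in (hyperfilter ℕ : Filter ℕ), ∀ x, |K n x - H x| ≤ δ := by
  have h0 : ∀ x : ℝ, ∃ y : ℝ, Tendsto (fun n => K n x) (hyperfilter ℕ) (nhds y) := by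
    intro x
    have h1 : ((hyperfilter ℕ).map (fun n => K n x) : Filter ℝ) ≤
        𝓟 (Set.Icc (x - C) (x + C)) := by
      rw [le_principal_iff]
      refine Filter.mem_map.2 (Filter.univ_mem' fun n => ?_)
      have := abs_le.1 (hC n x)
      exact ⟨by linarith, by linarith⟩
    obtain ⟨y, -, h2⟩ := isCompact_Icc.ultrafilter_le_nhds _ h1
    exact ⟨y, h2⟩
  choose H hH using h0
  have hmK : ∀ n, Monotone (K n : ℝ → ℝ) := fun n => (K n : CircleDeg1Lift).monotone
  have hmono : Monotone H := fun x y hxy =>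
    le_of_tendsto_of_tendsto' (hH x) (hH y) (fun n => hmK n hxy)
  have hadd : ∀ x, H (x + 1) = H x + 1 := by
    intro x
    refine tendsto_nhds_unique (hH (x + 1)) ?_
    have h1 : (fun n => K n (x + 1)) = fun n => K n x + 1 := by
      funext n
      exact (K n : CircleDeg1Lift).map_add_one x
    rw [h1]
    exact (hH x).add_const 1
  have hlip : ∀ x y, x ≤ y → H y - H x ≤ Λ * (y - x) := fun x y hxy =>
    le_of_tendsto' ((hH y).sub (hH x)) (fun n => hΛ n x y hxy)
  refine ⟨H, hmono, hadd, hlip, ?_⟩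
  intro δ hδ
  obtain ⟨m, hm⟩ := exists_nat_gt (2 * |Λ| / δ)
  have hm0 : (0 : ℝ) < m := lt_of_le_of_lt (by positivity) hm
  have hmΛ : Λ * (1 / m) ≤ δ / 2 := by
    rw [div_lt_iff₀ hδ] at hm
    have h1 := le_abs_self Λ
    rw [mul_one_div, div_le_iff₀ hm0]
    nlinarith
  have h1 : ∀ᶠ n in (hyperfilter ℕ : Filter ℕ), ∀ k ∈ Finset.range (m + 1),
      |K n ((k : ℝ) / m) - H ((k : ℝ) / m)| ≤ δ / 2 := by
    rw [Filter.eventually_all_finset]
    intro k _
    have h2 := (hH ((k : ℝ) / m)).eventually (Metric.closedBall_mem_nhds _ (half_pos hδ))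
    exact h2.mono fun n hn => by simpa [Real.dist_eq] using hn
  filter_upwards [h1] with n hn x
  -- reduce to the unit interval
  have hKf : K n x = K n (Int.fract x) + ⌊x⌋ := by
    have h3 := (K n : CircleDeg1Lift).map_add_int (Int.fract x) ⌊x⌋
    rwa [Int.fract_add_floor] at h3
  have hHf : H x = H (Int.fract x) + ⌊x⌋ := by
    have h4 : ∀ y : ℝ, ∀ z : ℤ, H (y + z) = H y + z := by
      intro y z
      refine tendsto_nhds_unique (hH (y + z)) ?_
      have h1 : (fun n => K n (y + z)) = fun n => K n y + z := by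
        funext n
        exact (K n : CircleDeg1Lift).map_add_int y z
      rw [h1]
      exact (hH y).add_const _
    have h3 := h4 (Int.fract x) ⌊x⌋
    rwa [Int.fract_add_floor] at h3
  rw [hKf, hHf, add_sub_add_right_eq_sub]
  set y := Int.fract x with hy
  have hy0 : 0 ≤ y := Int.fract_nonneg x
  have hy1 : y < 1 := Int.fract_lt_one x
  set k := ⌊y * m⌋₊ with hk
  have hk1 : (k : ℝ) ≤ y * m := Nat.floor_le (by positivity)
  have hk2 : y * m < k + 1 := Nat.lt_floor_add_one _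
  have hkm : k < m := by
    have : (k : ℝ) < m := lt_of_le_of_lt hk1 (by nlinarith)
    exact_mod_cast this
  have ha : (k : ℝ) / m ≤ y := by rw [div_le_iff₀ hm0]; exact hk1
  have hb : y ≤ ((k + 1 : ℕ) : ℝ) / m := by
    rw [le_div_iff₀ hm0]; push_cast; exact hk2.le
  have hA := abs_le.1 (hn k (Finset.mem_range.2 (by omega)))
  have hB := abs_le.1 (hn (k + 1) (Finset.mem_range.2 (by omega)))
  have hstep : H (((k + 1 : ℕ) : ℝ) / m) - H ((k : ℝ) / m) ≤ δ / 2 := by
    refine (hlip _ _ (ha.trans hb)).trans ?_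
    have : ((k + 1 : ℕ) : ℝ) / m - (k : ℝ) / m = 1 / m := by
      push_cast
      field_simp
      ring
    rw [this]
    exact hmΛ
  have e1 := hmK n ha
  have e2 := hmK n hb
  have e3 := hmono ha
  have e4 := hmono hb
  rw [abs_le]
  constructor <;> linarith [hA.1, hA.2, hB.1, hB.2]

end Pool.Agent.Helper22.Slip
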