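import Mathlib

/-!
# S5: a point of differentiability
-/

namespace Pool.Agent.Helper22.Slip

open MeasureTheory

lemma exists_deriv (m : ℕ) (H : ℕ → ℝ → ℝ) (Λ : ℝ) (hmono : ∀ j < m, Monotone (H j))
    (hlip : ∀ j < m, ∀ x y, x ≤ y → H j y - H j x ≤ Λ * (y - x)) (s : ℕ → ℤ)
    (hne : ∃ x y, ∑ j ∈ Finset.range m, (s j : ℝ) * H j x ≠
      ∑ j ∈ Finset.range m, (s j : ℝ) * H j y) :
    ∃ (x0 : ℝ) (ρ : ℕ → ℝ), (∀ j < m, HasDerivAt (H j) (ρ j) x0) ∧ (∀ j < m, 0 ≤ ρ j) ∧
      ∑ j ∈ Finset.range m, (s j : ℝ) * ρ j ≠ 0 := by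
  by_contra hcon
  push Not at hcon
  obtain ⟨x, y, hxy⟩ := hne
  apply hxy
  -- all `H j` are differentiable almost everywhere
  have hae : ∀ᵐ z : ℝ, ∀ j ∈ Finset.range m, DifferentiableAt ℝ (H j) z := by
    rw [Filter.eventually_all_finset]
    intro j hj
    exact (hmono j (Finset.mem_range.1 hj)).ae_differentiableAt
  have hd : ∀ᵐ z : ℝ, HasDerivAt (fun t => ∑ j ∈ Finset.range m, (s j : ℝ) * H j t) 0 z := by
    filter_upwards [hae] with z hz
    have h1 : ∀ j < m, HasDerivAt (H j) (deriv (H j) z) z := fun j hj =>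
      (hz j (Finset.mem_range.2 hj)).hasDerivAt
    have h2 : ∀ j < m, 0 ≤ deriv (H j) z := fun j hj => (hmono j hj).deriv_nonneg
    have h3 := hcon z (fun j => deriv (H j) z) h1 h2
    rw [← h3]
    refine HasDerivAt.fun_sum fun j hj => ?_
    exact (h1 j (Finset.mem_range.1 hj)).const_mul _
  have hl : ∀ j < m, LipschitzWith (Real.toNNReal Λ) (H j) := by
    intro j hj
    apply LipschitzWith.of_le_add_mul
    intro a b
    rcases le_total a b with hab | hab
    · have := hmono j hj hab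
      have h0 : 0 ≤ (Real.toNNReal Λ : ℝ) * dist a b := by positivity
      linarith
    · have h1 := hlip j hj b a hab
      have h2 : Λ * (a - b) ≤ (Real.toNNReal Λ : ℝ) * dist a b := by
        rw [Real.dist_eq, abs_of_nonneg (by linarith : 0 ≤ a - b)]
        exact mul_le_mul_of_nonneg_right (Real.le_coe_toNNReal Λ) (by linarith)
      linarith
  have hL : LipschitzWith (Real.toNNReal (∑ j ∈ Finset.range m, |(s j : ℝ)| * (Real.toNNReal Λ)))
      (fun t => ∑ j ∈ Finset.range m, (s j : ℝ) * H j t) := by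
    apply LipschitzWith.of_dist_le_mul
    intro a b
    have h0 : 0 ≤ ∑ j ∈ Finset.range m, |(s j : ℝ)| * ((Real.toNNReal Λ : NNReal) : ℝ) :=
      Finset.sum_nonneg fun j _ => by positivity
    rw [Real.coe_toNNReal _ h0, Real.dist_eq, ← Finset.sum_sub_distrib, Finset.sum_mul]
    refine (Finset.abs_sum_le_sum_abs _ _).trans (Finset.sum_le_sum fun j hj => ?_)
    rw [← mul_sub, abs_mul, mul_assoc]
    refine mul_le_mul_of_nonneg_left ?_ (abs_nonneg _)
    have := (hl j (Finset.mem_range.1 hj)).dist_le_mul a b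
    rwa [Real.dist_eq] at this
  obtain ⟨C, hC⟩ := (hL.lipschitzOnWith (s := Set.uIcc x y)).absolutelyContinuousOnInterval
    |>.const_of_ae_hasDerivAt_zero (hd.mono fun z hz _ => hz)
  rw [hC x Set.left_mem_uIcc, hC y Set.right_mem_uIcc]

end Pool.Agent.Helper22.Slip
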