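import Pool.Agent.Helper22.Slip.S1
import Pool.Agent.Helper22.Slip.S2
import Pool.Agent.Helper22.Slip.S3
import Pool.Agent.Helper22.Slip.S4
import Pool.Agent.Helper22.Slip.S5

/-!
# S6: assembly of the soft part
-/

namespace Pool.Agent.Helper22.Slip

open Pool.Agent.Helper76.Slip Filter CircleDeg1Lift

private lemma s6_inv_apply (Y : G) (x : ℝ) : Y (Y⁻¹ x) = x := by
  have : (Y * Y⁻¹ : G) x = x := by
    rw [mul_inv_cancel]
    rfl
  exact this

private lemma s6_inv_bound (Y : G) (C : ℝ) (h : ∀ x, |Y x - x| ≤ C) (x : ℝ) :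
    |Y⁻¹ x - x| ≤ C := by
  have h1 := h (Y⁻¹ x)
  rw [s6_inv_apply, abs_sub_comm] at h1
  exact h1

private lemma s6_Yu (ltr : ℕ → Bool) (f : Bool → G) (rr : Bool → ℝ)
    (hf : ∀ b, IsConj (f b) (T (rr b))) (j : ℕ) (t : ℝ) :
    |Yu ltr f j t - t| ≤ ∑ i ∈ Finset.range j, (|rr (ltr i)| + 1) := by
  induction j with
  | zero => simp [Yu]
  | succ j ih =>
    have h1 := abs_sub_le (f (ltr j)) (Yu ltr f j t)
    rw [rot_of_isConj (hf (ltr j))] at h1
    have h2 : Yu ltr f (j + 1) t = f (ltr j) (Yu ltr f j t) := rfl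
    rw [h2, Finset.sum_range_succ]
    have h3 := abs_add_le (f (ltr j) (Yu ltr f j t) - Yu ltr f j t) (Yu ltr f j t - t)
    have h4 : f (ltr j) (Yu ltr f j t) - Yu ltr f j t
      + (Yu ltr f j t - t) = f (ltr j) (Yu ltr f j t) - t := by ring
    rw [h4] at h3
    linarith

/-- The uniform displacement bound. -/
private noncomputable def s6C (l : List Bool) (r s : ℝ) : ℝ :=
  ∑ i ∈ Finset.range l.length, (|base r s (ltrOf l i)| + 1)

private lemma s6_ph (l : List Bool) (f : Bool → G) (r s : ℝ)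
    (hf : ∀ b, IsConj (f b) (T (base r s b))) (h0 : G) (hh : ∀ x, |h0 x - x| ≤ 1)
    (i : ℕ) (hi : i ≤ l.length) (x : ℝ) : |ph l f h0 i x - x| ≤ 1 + s6C l r s := by
  have h1 : ∀ t, |Yu (ltrOf l) f i t - t| ≤ s6C l r s := by
    intro t
    refine (s6_Yu (ltrOf l) f (base r s) hf i t).trans ?_
    unfold s6C
    refine Finset.sum_le_sum_of_subset_of_nonneg (Finset.range_mono hi) fun j _ _ => ?_
    positivity
  have h2 := s6_inv_bound _ _ h1 x
  have h3 := hh ((Yu (ltrOf l) f i)⁻¹ x)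
  have h4 : ph l f h0 i x = h0 ((Yu (ltrOf l) f i)⁻¹ x) := rfl
  rw [h4]
  have h5 := abs_add_le (h0 ((Yu (ltrOf l) f i)⁻¹ x) - (Yu (ltrOf l) f i)⁻¹ x)
    ((Yu (ltrOf l) f i)⁻¹ x - x)
  rw [sub_add_sub_cancel] at h5
  linarith

private lemma s6_mono (k : G) {x y : ℝ} (h : x ≤ y) : k x ≤ k y := (k : CircleDeg1Lift).monotone h

private lemma s6_coord (l : List Bool) (f : Bool → G) (r s : ℝ)
    (hf : ∀ b, IsConj (f b) (T (base r s b))) (h0 : G) (hh : ∀ x, |h0 x - x| ≤ 1) :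
    ∃ X : G, (∀ i ≤ l.length, ∀ x, |(ph l f h0 i * X⁻¹ : G) x - x| ≤ 2 * (1 + s6C l r s)) ∧
      ∀ i ≤ l.length, ∀ x y : ℝ, x ≤ y →
        (ph l f h0 i * X⁻¹ : G) y - (ph l f h0 i * X⁻¹ : G) x ≤ (l.length + 1 : ℝ) * (y - x) := by
  obtain ⟨X, hX⟩ := exists_avg (Finset.range (l.length + 1)) ⟨0, by simp⟩ (fun i => ph l f h0 i)
  have hpos : (0 : ℝ) < (l.length + 1 : ℝ) := by positivity
  have hX' : ∀ x, (l.length + 1 : ℝ) * X x = ∑ i ∈ Finset.range (l.length + 1), ph l f h0 i x := by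
    intro x
    rw [hX x, Finset.card_range]
    push_cast
    field_simp
  refine ⟨X, ?_, ?_⟩
  · have hXb : ∀ x, |X x - x| ≤ 1 + s6C l r s := by
      intro x
      have h1 : (l.length + 1 : ℝ) * (X x - x) =
          ∑ i ∈ Finset.range (l.length + 1), (ph l f h0 i x - x) := by
        rw [mul_sub, hX', Finset.sum_sub_distrib]
        simp
      have h2 : |(l.length + 1 : ℝ) * (X x - x)| ≤ (l.length + 1 : ℝ) * (1 + s6C l r s) := by
        rw [h1]
        refine (Finset.abs_sum_le_sum_abs _ _).trans ?_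
        have h3 : ∑ i ∈ Finset.range (l.length + 1), |ph l f h0 i x - x| ≤
            ∑ _i ∈ Finset.range (l.length + 1), (1 + s6C l r s) := by
          refine Finset.sum_le_sum fun i hi => ?_
          exact s6_ph l f r s hf h0 hh i (by simpa [Nat.lt_succ_iff] using hi) x
        refine h3.trans ?_
        rw [Finset.sum_const, Finset.card_range, nsmul_eq_mul]
        push_cast
        exact le_rfl
      rw [abs_mul, abs_of_pos hpos] at h2
      exact le_of_mul_le_mul_left h2 hpos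
    intro i hi x
    have h1 := s6_ph l f r s hf h0 hh i hi (X⁻¹ x)
    have h2 := s6_inv_bound X _ hXb x
    have h3 : (ph l f h0 i * X⁻¹ : G) x = ph l f h0 i (X⁻¹ x) := rfl
    rw [h3]
    have h5 := abs_add_le (ph l f h0 i (X⁻¹ x) - X⁻¹ x) (X⁻¹ x - x)
    rw [sub_add_sub_cancel] at h5
    linarith
  · intro i hi x y hxy
    have h1 : ∀ z, (ph l f h0 i * X⁻¹ : G) z = ph l f h0 i (X⁻¹ z) := fun z => rfl
    rw [h1, h1]
    have h2 : X⁻¹ x ≤ X⁻¹ y := s6_mono _ hxy
    have h3 : (l.length + 1 : ℝ) * (y - x) = ∑ j ∈ Finset.range (l.length + 1),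
        (ph l f h0 j (X⁻¹ y) - ph l f h0 j (X⁻¹ x)) := by
      rw [Finset.sum_sub_distrib, ← hX', ← hX', s6_inv_apply, s6_inv_apply]
      ring
    rw [h3]
    refine Finset.single_le_sum (f := fun j => ph l f h0 j (X⁻¹ y) - ph l f h0 j (X⁻¹ x))
      (fun j _ => ?_) (by simpa [Nat.lt_succ_iff] using hi)
    exact sub_nonneg.2 (s6_mono _ h2)

private lemma s6_pairs (g : ℕ → ℝ) (n : ℕ) :
    ∑ j ∈ Finset.range (2 * n), g j = ∑ i ∈ Finset.range n, (g (2 * i) + g (2 * i + 1)) := by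
  induction n with
  | zero => simp
  | succ n ih =>
    rw [Finset.sum_range_succ, ← ih, show 2 * (n + 1) = 2 * n + 1 + 1 by ring,
      Finset.sum_range_succ, Finset.sum_range_succ]
    ring

private lemma s6_S (l : List Bool) (K : ℕ → ℝ → ℝ) (x : ℝ) :
    ∑ j ∈ Finset.range (2 * l.length), (stS l j : ℝ) * K ((j + 1) / 2) x =
      ∑ i ∈ Finset.range l.length, if ltrOf l i = false then K i x - K (i + 1) x else 0 := by
  rw [s6_pairs]
  refine Finset.sum_congr rfl fun i _ => ?_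
  have h1 : (2 * i + 1) / 2 = i := by omega
  have h2 : (2 * i + 1 + 1) / 2 = i + 1 := by omega
  have h3 : 2 * i / 2 = i := by omega
  have h4 : 2 * i % 2 = 0 := by omega
  have h5 : (2 * i + 1) % 2 = 1 := by omega
  rw [h1, h2]
  unfold stS
  rw [h1, h3, h4, h5]
  cases ltrOf l i
  · simp
    ring
  · simp

private lemma s6_stS (l : List Bool) (j : ℕ) : |stS l j| ≤ 1 := by
  unfold stS
  split_ifs <;> simp

private lemma s6_stage (K ψ t : G) (s : ℤ) : stage (K * t) ψ s = stage K (t * ψ * t⁻¹) s := by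
  unfold stage
  rw [conj_zpow]
  group

private lemma s6_stageProd (m : ℕ) (K : ℕ → G) (ψ t : G) (s : ℕ → ℤ) :
    stageProd m (fun j => K j * t) ψ s = stageProd m K (t * ψ * t⁻¹) s := by
  induction m with
  | zero => rfl
  | succ m ih =>
    simp only [stageProd]
    rw [ih, s6_stage]

private lemma s6_le (l : List Bool) (r s : ℝ) (f : Bool → G)
    (hf : ∀ b, IsConj (f b) (T (base r s b))) : rot (pr f l) ≤ Rminus (word l) r s := by
  apply le_csSup (bdd_Rminus l _ _)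
  refine ⟨FreeGroup.lift f, ?_, ?_, ?_⟩
  · have : FreeGroup.lift f a = f true := by simp [a]
    rw [this]
    exact hf true
  · have : FreeGroup.lift f b = f false := by simp [b]
    rw [this]
    exact hf false
  · have h : (fun c => (FreeGroup.lift f) (FreeGroup.of c)) = f := by
      funext c
      simp
    rw [map_word, h]

private lemma s6_near (l : List Bool) (r s : ℝ) (ε : ℝ) (hε : 0 < ε) :
    ∃ f : Bool → G, (∀ b, IsConj (f b) (T (base r s b))) ∧
      Rminus (word l) r s - ε < rot (pr f l) := by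
  have hne : {x | ∃ ρ : F →* G, IsConj (ρ a) (T r) ∧ IsConj (ρ b) (T s) ∧
      x = rot (ρ (word l))}.Nonempty := ⟨_, trans r s, trans_a r s, trans_b r s, rfl⟩
  have h1 : Rminus (word l) r s - ε < Rminus (word l) r s := by linarith
  obtain ⟨x, ⟨ρ, ha, hb, hx⟩, hlt⟩ := exists_lt_of_lt_csSup hne h1
  refine ⟨fun c => ρ (FreeGroup.of c), ?_, ?_⟩
  · intro c
    cases c
    · exact hb
    · exact ha
  · rw [← map_word, ← hx]
    exact hlt

private lemma s6_package (l : List Bool) (r s : ℝ) (n : ℕ) :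
    ∃ (f : Bool → G) (h0 X : G), (∀ b, IsConj (f b) (T (base r s b))) ∧
      Rminus (word l) r s - 1 / (n + 1 : ℝ) < rot (pr f l) ∧
      (∀ x, |h0 (pr f l x) - h0 x - rot (pr f l)| ≤ 1 / (n + 1 : ℝ)) ∧
      (∀ i ≤ l.length, ∀ x, |(ph l f h0 i * X⁻¹ : G) x - x| ≤ 2 * (1 + s6C l r s)) ∧
      ∀ i ≤ l.length, ∀ x y : ℝ, x ≤ y →
        (ph l f h0 i * X⁻¹ : G) y - (ph l f h0 i * X⁻¹ : G) x ≤ (l.length + 1 : ℝ) * (y - x) := by
  obtain ⟨f, hf, h1⟩ := s6_near l r s (1 / (n + 1 : ℝ)) (by positivity)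
  obtain ⟨h0, h2, h3⟩ := exists_phase (pr f l) (n + 1) (Nat.succ_pos n)
  obtain ⟨X, h4, h5⟩ := s6_coord l f r s hf h0 h2
  refine ⟨f, h0, X, hf, h1, ?_, h4, h5⟩
  simpa using h3

private lemma s6_deriv {H : ℝ → ℝ} {ρ x0 : ℝ} (h : HasDerivAt H ρ x0) {M ε : ℝ} (hM : 0 < M)
    (hε : 0 < ε) : ∃ Q : ℕ, ∀ q : ℕ, Q ≤ q → 0 < q → ∀ u : ℝ, |u| ≤ M →
      |(q : ℝ) * (H (x0 + u / q) - H x0) - ρ * u| ≤ ε := by
  have h1 := h.isLittleO
  have h2 := h1.def (c := ε / M) (by positivity)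
  obtain ⟨δ, hδ, h3⟩ := Metric.eventually_nhds_iff.1 h2
  obtain ⟨Q, hQ⟩ := exists_nat_gt (M / δ)
  refine ⟨Q, fun q hq hq0 u hu => ?_⟩
  have hq0' : (0 : ℝ) < q := by exact_mod_cast hq0
  have h4 : M / δ < q := lt_of_lt_of_le hQ (by exact_mod_cast hq)
  have h5 : |u / q| < δ := by
    rw [abs_div, abs_of_pos hq0', div_lt_iff₀ hq0']
    rw [div_lt_iff₀ hδ] at h4
    linarith
  have h6 := h3 (y := x0 + u / q) (by rw [Real.dist_eq]; simpa using h5)
  simp only [add_sub_cancel_left, smul_eq_mul, Real.norm_eq_abs] at h6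
  have h7 : (q : ℝ) * (H (x0 + u / q) - H x0) - ρ * u =
      q * (H (x0 + u / q) - H x0 - u / q * ρ) := by
    field_simp
  rw [h7, abs_mul, abs_of_pos hq0']
  calc (q : ℝ) * |H (x0 + u / q) - H x0 - u / q * ρ| ≤ q * (ε / M * |u / q|) := by
        gcongr
    _ = ε / M * |u| := by
        rw [abs_div, abs_of_pos hq0']
        field_simp
    _ ≤ ε / M * M := by gcongr
    _ = ε := by field_simp

theorem soft (hLC : LocalCore) (l : List Bool) (r s : ℝ)
    (hc : Irrational (Rminus (word l) r s)) :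
    (l.count true : ℝ) * r + (l.count false : ℝ) * s = Rminus (word l) r s := by
  refine le_antisymm (lin_le l r s) ?_
  set c := Rminus (word l) r s with hcdef
  set N := l.length with hN
  choose f h0 X hf hlow hph hbd hlip using s6_package l r s
  have hup : ∀ n, rot (pr (f n) l) ≤ c := fun n => s6_le l r s (f n) (hf n)
  -- ultralimits
  have hH : ∀ i, ∃ H : ℝ → ℝ, i ≤ N → (Monotone H ∧ (∀ x, H (x + 1) = H x + 1) ∧
      (∀ x y, x ≤ y → H y - H x ≤ (N + 1 : ℝ) * (y - x)) ∧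
      ∀ δ > 0, ∀ᶠ n in (hyperfilter ℕ : Filter ℕ), ∀ x,
        |(ph l (f n) (h0 n) i * (X n)⁻¹ : G) x - H x| ≤ δ) := by
    intro i
    by_cases hi : i ≤ N
    · obtain ⟨H, hH⟩ := ultralimit (fun n => ph l (f n) (h0 n) i * (X n)⁻¹)
        (2 * (1 + s6C l r s)) (N + 1) (fun n x => hbd n i hi x)
        (fun n x y hxy => hlip n i hi x y hxy)
      exact ⟨H, fun _ => hH⟩
    · exact ⟨fun x => x, fun h => absurd h hi⟩
  choose H hH using hH
  have hidx : ∀ j, j < 2 * N → (j + 1) / 2 ≤ N := fun j hj => by omega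
  by_cases hconst : ∃ x y, ∑ j ∈ Finset.range (2 * N), (stS l j : ℝ) * H ((j + 1) / 2) x ≠
      ∑ j ∈ Finset.range (2 * N), (stS l j : ℝ) * H ((j + 1) / 2) y
  · -- the core
    exfalso
    obtain ⟨x0, ρ, hρ, hρ0, hsum⟩ := exists_deriv (2 * N) (fun j => H ((j + 1) / 2)) (N + 1)
      (fun j hj => (hH _ (hidx j hj)).1) (fun j hj => (hH _ (hidx j hj)).2.2.1) (stS l) hconst
    obtain ⟨M, ε, hM, hε, hcore⟩ := hLC (2 * N) (stS l) (fun j _ => s6_stS l j) ρ
      (fun j => H ((j + 1) / 2) x0) hρ0 c hc hsum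
    have hQ : ∃ Q : ℕ, ∀ j < 2 * N, ∀ q : ℕ, Q ≤ q → 0 < q → ∀ u : ℝ, |u| ≤ M →
        |(q : ℝ) * (H ((j + 1) / 2) (x0 + u / q) - H ((j + 1) / 2) x0) - ρ j * u| ≤ ε / 2 := by
      have h1 : ∀ j, ∃ Q : ℕ, j < 2 * N → ∀ q : ℕ, Q ≤ q → 0 < q → ∀ u : ℝ, |u| ≤ M →
        |(q : ℝ) * (H ((j + 1) / 2) (x0 + u / q) - H ((j + 1) / 2) x0) - ρ j * u| ≤ ε / 2 := by
        intro j
        by_cases hj : j < 2 * N
        · obtain ⟨Q, hQ⟩ := s6_deriv (hρ j hj) hM (half_pos hε)
          exact ⟨Q, fun _ => hQ⟩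
        · exact ⟨0, fun h => absurd h hj⟩
      choose Q hQ using h1
      refine ⟨(Finset.range (2 * N)).sup Q, fun j hj q hq => hQ j hj q (le_trans ?_ hq)⟩
      exact Finset.le_sup (f := Q) (Finset.mem_range.2 hj)
    obtain ⟨Q, hQ⟩ := hQ
    obtain ⟨q, hqQ, hq0, p, ψ, hpq, hmain⟩ := hcore Q
    have hq0' : (0 : ℝ) < q := by exact_mod_cast hq0
    have hev1 : ∀ᶠ n in (hyperfilter ℕ : Filter ℕ), ∀ i ∈ Finset.range (N + 1), ∀ x,
        |(ph l (f n) (h0 n) i * (X n)⁻¹ : G) x - H i x| ≤ ε / (2 * q) := by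
      rw [Filter.eventually_all_finset]
      intro i hi
      exact (hH i (Nat.lt_succ_iff.1 (Finset.mem_range.1 hi))).2.2.2 _ (by positivity)
    have hev2 : ∀ᶠ n : ℕ in (hyperfilter ℕ : Filter ℕ), 2 / (n + 1 : ℝ) ≤ ε / (q : ℝ) ^ 2 := by
      have h1 : Tendsto (fun n : ℕ => 2 / (n + 1 : ℝ)) atTop (nhds 0) := by
        have := tendsto_one_div_add_atTop_nhds_zero_nat (𝕜 := ℝ)
        have h2 := this.const_mul 2
        simpa [div_eq_mul_inv] using h2
      have h3 : ∀ᶠ n : ℕ in atTop, 2 / (n + 1 : ℝ) < ε / (q : ℝ) ^ 2 :=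
        h1.eventually_lt_const (by positivity)
      rw [← Nat.cofinite_eq_atTop] at h3
      exact (h3.filter_mono (hyperfilter_le_cofinite)).mono fun n hn => hn.le
    obtain ⟨n, hn1, hn2⟩ := (hev1.and hev2).exists
    set K : ℕ → G := stK fun i => ph l (f n) (h0 n) i * (X n)⁻¹ with hK
    have hfin := hmain (fun j => K j * T x0) ?_ (rot (pr (f n) l) - 1 / (n + 1 : ℝ)) ?_
    · rw [s6_stageProd] at hfin
      have heng := engine l (f n) (h0 n) (X n) (T x0 * ψ * (T x0)⁻¹) _ _ (hph n)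
      have hle : rot (pr (modAct (f n) (X n) (T x0 * ψ * (T x0)⁻¹)) l) ≤ c := by
        refine s6_le l r s _ fun b => ?_
        exact (modAct_conj (f n) (X n) _ b).trans (hf n b)
      have h1 : (p : ℝ) / q ≤ c := hfin.trans (heng.trans hle)
      rw [div_le_iff₀ hq0'] at h1
      linarith
    · intro j hj u hu
      have h1 := hQ j hj q hqQ hq0 u hu
      have h2 := hn1 ((j + 1) / 2) (Finset.mem_range.2 (Nat.lt_succ_of_le (hidx j hj)))
        (x0 + u / q)
      have h3 : (K j * T x0 : G) (u / q) =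
          (ph l (f n) (h0 n) ((j + 1) / 2) * (X n)⁻¹ : G) (x0 + u / q) := by
        have h4 : T x0 (u / q) = x0 + u / q := translate_apply x0 (u / q)
        have h5 : (K j * T x0 : G) (u / q) = K j (T x0 (u / q)) := rfl
        rw [h5, h4]
        rfl
      rw [h3]
      set y := (ph l (f n) (h0 n) ((j + 1) / 2) * (X n)⁻¹ : G) (x0 + u / q)
      have h4 : (q : ℝ) * (y - H ((j + 1) / 2) x0) - ρ j * u =
        ((q : ℝ) * (H ((j + 1) / 2) (x0 + u / q) - H ((j + 1) / 2) x0) - ρ j * u) +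
          q * (y - H ((j + 1) / 2) (x0 + u / q)) := by ring
      rw [h4]
      refine (abs_add_le _ _).trans ?_
      rw [abs_mul, abs_of_pos hq0']
      have h5 : (q : ℝ) * |y - H ((j + 1) / 2) (x0 + u / q)| ≤ q * (ε / (2 * q)) := by
        gcongr
      have h6 : (q : ℝ) * (ε / (2 * q)) = ε / 2 := by field_simp
      linarith
    · have h1 := hlow n
      have h2 := hup n
      have h3 : (0 : ℝ) < 1 / (n + 1 : ℝ) := by positivity
      have h4 : 2 / (n + 1 : ℝ) = 1 / (n + 1 : ℝ) + 1 / (n + 1 : ℝ) := by ring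
      rw [abs_le]
      constructor <;> linarith
  · -- constant phase sum
    push Not at hconst
    refine le_of_forall_pos_le_add fun η hη => ?_
    have hev1 : ∀ᶠ n in (hyperfilter ℕ : Filter ℕ), ∀ i ∈ Finset.range (N + 1), ∀ x,
        |(ph l (f n) (h0 n) i * (X n)⁻¹ : G) x - H i x| ≤ η / (2 * (4 * N + 1)) := by
      rw [Filter.eventually_all_finset]
      intro i hi
      exact (hH i (Nat.lt_succ_iff.1 (Finset.mem_range.1 hi))).2.2.2 _ (by positivity)
    have hev2 : ∀ᶠ n : ℕ in (hyperfilter ℕ : Filter ℕ), 2 / (n + 1 : ℝ) ≤ η / 2 := by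
      have h1 : Tendsto (fun n : ℕ => 2 / (n + 1 : ℝ)) atTop (nhds 0) := by
        have := tendsto_one_div_add_atTop_nhds_zero_nat (𝕜 := ℝ)
        have h2 := this.const_mul 2
        simpa [div_eq_mul_inv] using h2
      have h3 : ∀ᶠ n : ℕ in atTop, 2 / (n + 1 : ℝ) < η / 2 :=
        h1.eventually_lt_const (by positivity)
      rw [← Nat.cofinite_eq_atTop] at h3
      exact (h3.filter_mono (hyperfilter_le_cofinite)).mono fun n hn => hn.le
    obtain ⟨n, hn1, hn2⟩ := (hev1.and hev2).exists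
    set κ : ℝ := η / (2 * (4 * N + 1)) with hκ
    have hκ0 : 0 ≤ κ := by positivity
    have hSd : ∀ x, |Sfun l (f n) (h0 n) ((X n)⁻¹ x) -
        ∑ j ∈ Finset.range (2 * N), (stS l j : ℝ) * H ((j + 1) / 2) x| ≤ 2 * N * κ := by
      intro x
      have h1 : Sfun l (f n) (h0 n) ((X n)⁻¹ x) = ∑ j ∈ Finset.range (2 * N),
          (stS l j : ℝ) * (ph l (f n) (h0 n) ((j + 1) / 2) * (X n)⁻¹ : G) x := by
        rw [s6_S l (fun i x => (ph l (f n) (h0 n) i * (X n)⁻¹ : G) x) x]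
        rfl
      rw [h1, ← Finset.sum_sub_distrib]
      refine (Finset.abs_sum_le_sum_abs _ _).trans ?_
      have h2 : ∑ j ∈ Finset.range (2 * N), |(stS l j : ℝ) *
          (ph l (f n) (h0 n) ((j + 1) / 2) * (X n)⁻¹ : G) x -
            (stS l j : ℝ) * H ((j + 1) / 2) x| ≤ ∑ _j ∈ Finset.range (2 * N), κ := by
        refine Finset.sum_le_sum fun j hj => ?_
        rw [← mul_sub, abs_mul]
        have h3 : |(stS l j : ℝ)| ≤ 1 := by
          have := s6_stS l j
          exact_mod_cast this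
        have h4 := hn1 ((j + 1) / 2)
          (Finset.mem_range.2 (Nat.lt_succ_of_le (hidx j (Finset.mem_range.1 hj)))) x
        calc |(stS l j : ℝ)| * _ ≤ 1 * κ := by gcongr
          _ = κ := one_mul _
      refine h2.trans ?_
      simp
    have hω : ∀ x y, Sfun l (f n) (h0 n) x - Sfun l (f n) (h0 n) y ≤ 4 * N * κ := by
      intro x y
      have hx : (X n)⁻¹ ((X n) x) = x := by
        have := s6_inv_apply (X n)⁻¹ x
        rwa [inv_inv] at this
      have hy : (X n)⁻¹ ((X n) y) = y := by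
        have := s6_inv_apply (X n)⁻¹ y
        rwa [inv_inv] at this
      have h1 := hSd (X n x)
      have h2 := hSd (X n y)
      rw [hx] at h1
      rw [hy, hconst (X n y) (X n x)] at h2
      have h3 := (abs_le.1 h1).2
      have h4 := (abs_le.1 h2).1
      linarith
    have hkey := key l (f n) r s (hf n) (h0 n) _ _ _ (hph n) hω
    have h1 := hlow n
    have h2 : 4 * N * κ ≤ η / 2 := by
      rw [hκ]
      rw [mul_div_assoc', div_le_div_iff₀ (by positivity) (by positivity)]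
      nlinarith [hη]
    have h4 : 2 / (n + 1 : ℝ) = 1 / (n + 1 : ℝ) + 1 / (n + 1 : ℝ) := by ring
    linarith

end Pool.Agent.Helper22.Slip
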