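import Pool.Agent.Helper22.Slip.Defs

/-!
# Soft part: definitions
-/

namespace Pool.Agent.Helper22.Slip

open Pool.Agent.Helper76.Slip Filter CircleDeg1Lift

/-- The phase function before letter `i`. -/
noncomputable def ph (l : List Bool) (f : Bool → G) (h0 : G) (i : ℕ) : G :=
  h0 * (Yu (ltrOf l) f i)⁻¹

/-- The signed sum of the phases. -/
noncomputable def Sfun (l : List Bool) (f : Bool → G) (h0 : G) (x : ℝ) : ℝ :=
  ∑ i ∈ Finset.range l.length,
    if ltrOf l i = false then ph l f h0 i x - ph l f h0 (i + 1) x else 0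

/-- The modified action. -/
noncomputable def modAct (f : Bool → G) (X ψ : G) (b : Bool) : G :=
  if b = true then f true else (X⁻¹ * ψ⁻¹ * X) * f false * (X⁻¹ * ψ * X)

/-- The stage maps of a word: stages `2 i` and `2 i + 1` belong to letter `i`. -/
noncomputable def stK (K : ℕ → G) (j : ℕ) : G := K ((j + 1) / 2)

/-- The stage signs of a word. -/
def stS (l : List Bool) (j : ℕ) : ℤ :=
  if ltrOf l (j / 2) = true then 0 else if j % 2 = 0 then 1 else -1

end Pool.Agent.Helper22.Slip
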